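import Pool.Agent.Lib.MP_19d64f_an.Defs

/-!
# Basic facts on `P`, `P1`, `om`, and the phase representation (A1)
-/

set_option autoImplicit false

namespace Pool.Agent.Lib.MP_19d64f_an

open Finset MeasureTheory

theorem norm_lower {a : ℕ → ℝ} {n : ℕ} {ε : ℝ} (h : Flat a n ε) (t : ℝ) :
    (1 - ε) * Real.sqrt ((n : ℝ) + 1) ≤ ‖P a n t‖ := by
  have := abs_le.1 (h t)
  nlinarith [this.1, this.2]

theorem norm_upper {a : ℕ → ℝ} {n : ℕ} {ε : ℝ} (h : Flat a n ε) (t : ℝ) :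
    ‖P a n t‖ ≤ (1 + ε) * Real.sqrt ((n : ℝ) + 1) := by
  have := abs_le.1 (h t)
  nlinarith [this.1, this.2]

theorem P_ne {a : ℕ → ℝ} {n : ℕ} {ε : ℝ} (h : Flat a n ε) (hε : ε < 1) (t : ℝ) :
    P a n t ≠ 0 := by
  intro h0
  have h1 := norm_lower h t
  rw [h0, norm_zero] at h1
  have h2 : 0 < Real.sqrt ((n : ℝ) + 1) := Real.sqrt_pos.2 (by positivity)
  nlinarith

theorem A1_hasDerivAt_exp (k : ℕ) (t : ℝ) :
    HasDerivAt (fun t : ℝ => Complex.exp ((k : ℂ) * (t : ℂ) * Complex.I))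
      (Complex.I * (k : ℂ) * Complex.exp ((k : ℂ) * (t : ℂ) * Complex.I)) t := by
  have h1 : HasDerivAt (fun t : ℝ => (k : ℂ) * (t : ℂ) * Complex.I) ((k : ℂ) * Complex.I) t := by
    have h2 : HasDerivAt (fun t : ℝ => (t : ℂ)) 1 t := Complex.ofRealCLM.hasDerivAt
    have h3 := (h2.const_mul (k : ℂ)).mul_const Complex.I
    simpa using h3
  have h4 := h1.cexp
  refine h4.congr_deriv ?_
  ring

theorem hasDerivAt_P (a : ℕ → ℝ) (n : ℕ) (t : ℝ) :
    HasDerivAt (P a n) (Complex.I * P1 a n t) t := by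
  have h : HasDerivAt (fun t : ℝ => ∑ k ∈ range (n + 1),
      (a k : ℂ) * Complex.exp ((k : ℂ) * (t : ℂ) * Complex.I))
      (∑ k ∈ range (n + 1), (a k : ℂ) * (Complex.I * (k : ℂ) *
        Complex.exp ((k : ℂ) * (t : ℂ) * Complex.I))) t := by
    refine HasDerivAt.fun_sum fun k _ => ?_
    exact (A1_hasDerivAt_exp k t).const_mul _
  have e : (∑ k ∈ range (n + 1), (a k : ℂ) * (Complex.I * (k : ℂ) *
        Complex.exp ((k : ℂ) * (t : ℂ) * Complex.I))) = Complex.I * P1 a n t := by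
    rw [P1, Finset.mul_sum]
    refine Finset.sum_congr rfl fun k _ => ?_
    ring
  rw [← e]
  exact h

theorem A1_contDiff_exp (k : ℕ) :
    ContDiff ℝ 2 (fun t : ℝ => Complex.exp ((k : ℂ) * (t : ℂ) * Complex.I)) := by
  refine ContDiff.cexp ?_
  exact (contDiff_const.mul Complex.ofRealCLM.contDiff).mul contDiff_const

theorem contDiff_P (a : ℕ → ℝ) (n : ℕ) : ContDiff ℝ 2 (P a n) := by
  unfold P
  exact ContDiff.sum fun k _ => contDiff_const.mul (A1_contDiff_exp k)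

theorem contDiff_P1 (a : ℕ → ℝ) (n : ℕ) : ContDiff ℝ 2 (P1 a n) := by
  unfold P1
  exact ContDiff.sum fun k _ => contDiff_const.mul (A1_contDiff_exp k)

theorem A1_exp_per (k : ℕ) (t : ℝ) :
    Complex.exp ((k : ℂ) * ((t + 2 * Real.pi : ℝ) : ℂ) * Complex.I) =
      Complex.exp ((k : ℂ) * (t : ℂ) * Complex.I) := by
  have e : (k : ℂ) * ((t + 2 * Real.pi : ℝ) : ℂ) * Complex.I =
      (k : ℂ) * (t : ℂ) * Complex.I + (k : ℤ) * (2 * (Real.pi : ℂ) * Complex.I) := by
    push_cast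
    ring
  rw [e, Complex.exp_add, Complex.exp_int_mul_two_pi_mul_I, mul_one]

theorem P_per (a : ℕ → ℝ) (n : ℕ) : Function.Periodic (P a n) (2 * Real.pi) := by
  intro t
  unfold P
  refine Finset.sum_congr rfl fun k _ => ?_
  rw [A1_exp_per]

theorem P1_per (a : ℕ → ℝ) (n : ℕ) : Function.Periodic (P1 a n) (2 * Real.pi) := by
  intro t
  unfold P1
  refine Finset.sum_congr rfl fun k _ => ?_
  rw [A1_exp_per]

theorem om_per (a : ℕ → ℝ) (n : ℕ) : Function.Periodic (om a n) (2 * Real.pi) := by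
  intro t
  simp only [om]
  rw [P_per a n t, P1_per a n t]

theorem contDiff_u {a : ℕ → ℝ} {n : ℕ} (h : ∀ t, P a n t ≠ 0) :
    ContDiff ℝ 1 (fun t => P1 a n t / P a n t) := by
  have h1 : ContDiff ℝ 1 (P1 a n) := (contDiff_P1 a n).of_le (by norm_num)
  have h2 : ContDiff ℝ 1 (P a n) := (contDiff_P a n).of_le (by norm_num)
  simp only [div_eq_mul_inv]
  exact h1.mul (h2.inv h)

theorem contDiff_om {a : ℕ → ℝ} {n : ℕ} (h : ∀ t, P a n t ≠ 0) : ContDiff ℝ 1 (om a n) :=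
  Complex.reCLM.contDiff.comp (contDiff_u h)

theorem contDiff_im {a : ℕ → ℝ} {n : ℕ} (h : ∀ t, P a n t ≠ 0) :
    ContDiff ℝ 1 (fun t => (P1 a n t / P a n t).im) :=
  Complex.imCLM.contDiff.comp (contDiff_u h)

/-- PROOF. `B t = ∫ s in 0..t, om a n s`, `A t = - ∫ s in 0..t, (P1/P).im`.
`g t = P t * exp(-i B t) * exp(- A t)` has derivative `0`:
`P' = i P1 = i (P1 / P) P = (i om - im) P`. So `P t = P 0 * exp (A t) * exp (i B t)`, and
`‖P t‖ = ‖P 0‖ * exp (A t)`. -/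
theorem phase {a : ℕ → ℝ} {n : ℕ} (h : ∀ t, P a n t ≠ 0) :
    ∃ B : ℝ → ℝ, (∀ t, HasDerivAt B (om a n t) t) ∧ ∀ s t : ℝ,
      P a n s * (starRingEnd ℂ) (P a n t) =
        ((‖P a n s‖ * ‖P a n t‖ : ℝ) : ℂ) * Complex.exp (((B s - B t : ℝ) : ℂ) * Complex.I) := by
  set v : ℝ → ℝ := fun t => (P1 a n t / P a n t).im with hv
  have hom : Continuous (om a n) := (contDiff_om h).continuous
  have hvc : Continuous v := (contDiff_im h).continuous
  set B : ℝ → ℝ := fun t => ∫ s in (0 : ℝ)..t, om a n s with hB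
  set A : ℝ → ℝ := fun t => ∫ s in (0 : ℝ)..t, -v s with hA
  have hBd : ∀ t, HasDerivAt B (om a n t) t := fun t =>
    intervalIntegral.integral_hasDerivAt_right (hom.intervalIntegrable _ _)
      (hom.stronglyMeasurableAtFilter _ _) hom.continuousAt
  have hAd : ∀ t, HasDerivAt A (-v t) t := fun t =>
    intervalIntegral.integral_hasDerivAt_right (hvc.neg.intervalIntegrable _ _)
      (hvc.neg.stronglyMeasurableAtFilter _ _) hvc.neg.continuousAt
  set E : ℝ → ℂ := fun t => Complex.exp (((-A t : ℝ) : ℂ) + ((-B t : ℝ) : ℂ) * Complex.I) with hE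
  have hEd : ∀ t, HasDerivAt E (E t * (((v t : ℝ) : ℂ) - ((om a n t : ℝ) : ℂ) * Complex.I)) t := by
    intro t
    have h1 : HasDerivAt (fun t => (((-A t : ℝ) : ℂ) + ((-B t : ℝ) : ℂ) * Complex.I))
        (((-(-v t) : ℝ) : ℂ) + ((-(om a n t) : ℝ) : ℂ) * Complex.I) t :=
      ((hAd t).neg.ofReal_comp).add (((hBd t).neg.ofReal_comp).mul_const _)
    refine h1.cexp.congr_deriv ?_
    simp only [hE]
    push_cast
    ring
  have hg : ∀ t, HasDerivAt (fun t => P a n t * E t) 0 t := by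
    intro t
    refine ((hasDerivAt_P a n t).mul (hEd t)).congr_deriv ?_
    have h2 : P1 a n t = P a n t * (((om a n t : ℝ) : ℂ) + ((v t : ℝ) : ℂ) * Complex.I) := by
      have h3 : (((om a n t : ℝ) : ℂ) + ((v t : ℝ) : ℂ) * Complex.I) = P1 a n t / P a n t := by
        simp only [om, hv]
        exact Complex.re_add_im _
      rw [h3]
      field_simp [h t]
    rw [h2]
    have h4 : Complex.I * (P a n t * (((om a n t : ℝ) : ℂ) + ((v t : ℝ) : ℂ) * Complex.I)) * E t +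
        P a n t * (E t * (((v t : ℝ) : ℂ) - ((om a n t : ℝ) : ℂ) * Complex.I)) =
        P a n t * E t * ((v t : ℝ) : ℂ) * (Complex.I * Complex.I + 1) := by ring
    rw [h4, Complex.I_mul_I]
    ring
  have hconst : ∀ t, P a n t * E t = P a n 0 * E 0 := fun t =>
    is_const_of_deriv_eq_zero (fun t => (hg t).differentiableAt) (fun t => (hg t).deriv) t 0
  have hE0 : E 0 = 1 := by simp [hE, hA, hB]
  have hP : ∀ t, P a n t = P a n 0 * (((Real.exp (A t) : ℝ) : ℂ) *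
      Complex.exp (((B t : ℝ) : ℂ) * Complex.I)) := by
    intro t
    have h1 := hconst t
    rw [hE0, mul_one] at h1
    rw [← h1, mul_assoc]
    have h2 : E t * (((Real.exp (A t) : ℝ) : ℂ) * Complex.exp (((B t : ℝ) : ℂ) * Complex.I)) = 1 := by
      simp only [hE]
      rw [Complex.ofReal_exp, ← Complex.exp_add, ← Complex.exp_add]
      have : (((-A t : ℝ) : ℂ) + ((-B t : ℝ) : ℂ) * Complex.I) +
          (((A t : ℝ) : ℂ) + ((B t : ℝ) : ℂ) * Complex.I) = 0 := by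
        push_cast
        ring
      rw [this, Complex.exp_zero]
    rw [h2, mul_one]
  have hn : ∀ t, ‖P a n t‖ = ‖P a n 0‖ * Real.exp (A t) := by
    intro t
    rw [hP t, norm_mul, norm_mul, Complex.norm_exp_ofReal_mul_I, mul_one, Complex.norm_real,
      Real.norm_of_nonneg (Real.exp_pos _).le]
  refine ⟨B, hBd, fun s t => ?_⟩
  rw [hn s, hn t, hP s, hP t]
  simp only [map_mul, Complex.conj_ofReal]
  have h5 : (starRingEnd ℂ) (Complex.exp (((B t : ℝ) : ℂ) * Complex.I)) =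
      Complex.exp (-(((B t : ℝ) : ℂ) * Complex.I)) := by
    rw [← Complex.exp_conj]
    simp
  rw [h5]
  have h6 : Complex.exp (((B s - B t : ℝ) : ℂ) * Complex.I) =
      Complex.exp (((B s : ℝ) : ℂ) * Complex.I) * Complex.exp (-(((B t : ℝ) : ℂ) * Complex.I)) := by
    rw [← Complex.exp_add]
    congr 1
    push_cast
    ring
  rw [h6]
  have h7 : P a n 0 * (starRingEnd ℂ) (P a n 0) = ((‖P a n 0‖ : ℝ) : ℂ) ^ 2 := by
    rw [Complex.mul_conj, Complex.normSq_eq_norm_sq]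
    push_cast
    ring
  push_cast
  linear_combination (Complex.exp (A s : ℂ) * Complex.exp (A t : ℂ) *
    Complex.exp (((B s : ℝ) : ℂ) * Complex.I) * Complex.exp (-(((B t : ℝ) : ℂ) * Complex.I))) * h7

end Pool.Agent.Lib.MP_19d64f_an
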