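import Pool.Agent.Lib.MP_19d64f_an.Defs

/-!
# Drift of a primitive (A2)
-/

set_option autoImplicit false

namespace Pool.Agent.Lib.MP_19d64f_an

open Finset MeasureTheory

private theorem A2_swap {F : ℝ → ℝ → ℝ} (hF : Continuous (Function.uncurry F)) (a b c d : ℝ) :
    ∫ x in a..b, ∫ y in c..d, F x y = ∫ y in c..d, ∫ x in a..b, F x y := by
  apply MeasureTheory.intervalIntegral_intervalIntegral_swap
  have h1 : IntegrableOn (Function.uncurry F) (Set.uIcc a b ×ˢ Set.uIcc c d) :=
    hF.continuousOn.integrableOn_compact (isCompact_uIcc.prod isCompact_uIcc)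
  exact h1.mono_set (Set.prod_mono Set.uIoc_subset_uIcc Set.uIoc_subset_uIcc)

private theorem A2_periodic {f : ℝ → ℝ} (hper : Function.Periodic f (2 * Real.pi)) (c : ℝ) :
    ∫ t in (0 : ℝ)..(2 * Real.pi), f (t + c) = ∫ t in (0 : ℝ)..(2 * Real.pi), f t := by
  rw [intervalIntegral.integral_comp_add_right (fun x => f x) c, zero_add,
    add_comm (2 * Real.pi) c]
  have h := hper.intervalIntegral_add_eq c 0
  rw [zero_add] at h
  exact h

private theorem A2_abs (f : ℝ → ℝ) :
    |∫ y in (0 : ℝ)..1, f y| ≤ ∫ y in (0 : ℝ)..1, |f y| :=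
  intervalIntegral.abs_integral_le_integral_abs zero_le_one

/-- PROOF. `|g (t + s) - g t| ≤ ∫ x in t..t+s, |deriv g x|`
(`intervalIntegral.integral_eq_sub_of_hasDerivAt`, `intervalIntegral.norm_integral_le_..`; for
`s < 0` with the integral from `t+s` to `t`). So it is enough to swap the two integrals:
`∫ t in 0..2π, ∫ x in 0..s, |deriv g (t + x)| = ∫ x in 0..s, ∫ t in 0..2π, |deriv g (t + x)|`
and the inner integral is `∫ t in 0..2π, |deriv g t|` by periodicity
(`deriv g` is periodic, `Function.Periodic.intervalIntegral_add_eq`). -/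
theorem shift_var {g : ℝ → ℝ} (hg : ContDiff ℝ 1 g) (hper : Function.Periodic g (2 * Real.pi))
    (s : ℝ) :
    ∫ t in (0 : ℝ)..(2 * Real.pi), |g (t + s) - g t| ≤
      |s| * ∫ t in (0 : ℝ)..(2 * Real.pi), |deriv g t| := by
  have hpi : (0 : ℝ) ≤ 2 * Real.pi := by positivity
  have hdc : Continuous (deriv g) := hg.continuous_deriv le_rfl
  have hgc : Continuous g := hg.continuous
  have hdg : ∀ t, HasDerivAt g (deriv g t) t := fun t =>
    (hg.differentiable one_ne_zero t).hasDerivAt
  have hdper : Function.Periodic (deriv g) (2 * Real.pi) := by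
    intro x
    have h1 : deriv (fun y => g (y + 2 * Real.pi)) x = deriv g (x + 2 * Real.pi) :=
      deriv_comp_add_const g (2 * Real.pi) x
    have h2 : (fun y => g (y + 2 * Real.pi)) = g := funext hper
    rw [h2] at h1
    exact h1.symm
  have hpt : ∀ t, |g (t + s) - g t| ≤ |s| * ∫ y in (0 : ℝ)..1, |deriv g (t + s * y)| := by
    intro t
    have h1 : ∫ y in (0 : ℝ)..1, s * deriv g (t + s * y) = g (t + s * 1) - g (t + s * 0) := by
      apply intervalIntegral.integral_eq_sub_of_hasDerivAt (f := fun y : ℝ => g (t + s * y))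
      · intro y _
        have h2 : HasDerivAt (fun y : ℝ => t + s * y) s y := by
          have h3 := ((hasDerivAt_id y).const_mul s).const_add t
          simpa using h3
        have h4 := (hdg (t + s * y)).comp y h2
        rw [mul_comm] at h4
        exact h4
      · apply Continuous.intervalIntegrable
        fun_prop
    rw [mul_one, mul_zero, add_zero, intervalIntegral.integral_const_mul] at h1
    rw [← h1, abs_mul]
    exact mul_le_mul_of_nonneg_left (A2_abs _) (abs_nonneg _)
  have hFc : Continuous (Function.uncurry fun t y : ℝ => |deriv g (t + s * y)|) := by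
    have h5 : Continuous fun p : ℝ × ℝ => |deriv g (p.1 + s * p.2)| := by fun_prop
    exact h5
  have hint : Continuous fun t : ℝ => ∫ y in (0 : ℝ)..1, |deriv g (t + s * y)| :=
    intervalIntegral.continuous_parametric_intervalIntegral_of_continuous' hFc 0 1
  calc ∫ t in (0 : ℝ)..(2 * Real.pi), |g (t + s) - g t|
      ≤ ∫ t in (0 : ℝ)..(2 * Real.pi), |s| * ∫ y in (0 : ℝ)..1, |deriv g (t + s * y)| := by
        apply intervalIntegral.integral_mono_on hpi
        · apply Continuous.intervalIntegrable
          fun_prop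
        · apply Continuous.intervalIntegrable
          exact continuous_const.mul hint
        · intro t _
          exact hpt t
    _ = |s| * ∫ y in (0 : ℝ)..1, ∫ t in (0 : ℝ)..(2 * Real.pi), |deriv g (t + s * y)| := by
        rw [intervalIntegral.integral_const_mul, A2_swap hFc]
    _ = |s| * ∫ y in (0 : ℝ)..1, ∫ t in (0 : ℝ)..(2 * Real.pi), |deriv g t| := by
        have h6 : ∀ y : ℝ, ∫ t in (0 : ℝ)..(2 * Real.pi), |deriv g (t + s * y)| =
            ∫ t in (0 : ℝ)..(2 * Real.pi), |deriv g t| := by
          intro y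
          have h7 : Function.Periodic (fun t => |deriv g t|) (2 * Real.pi) := by
            intro x
            simp only
            rw [hdper x]
          exact A2_periodic h7 (s * y)
        simp only [h6]
    _ = |s| * ∫ t in (0 : ℝ)..(2 * Real.pi), |deriv g t| := by
        rw [intervalIntegral.integral_const, sub_zero, one_smul]

/-- PROOF. For `σ ≥ 0`: `B (t+σ) - B t - σ g t = ∫ s in 0..σ, (g (t+s) - g t)`; take absolute
values, integrate over `t`, swap, use `shift_var`: `≤ ∫ s in 0..σ, s * TV = σ^2/2 TV`
(we only ask for `σ^2`). For `σ < 0` the same with `∫ s in σ..0`. -/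
theorem drift {g B : ℝ → ℝ} (hg : ContDiff ℝ 1 g) (hper : Function.Periodic g (2 * Real.pi))
    (hB : ∀ t, HasDerivAt B (g t) t) (σ : ℝ) :
    ∫ t in (0 : ℝ)..(2 * Real.pi), |B (t + σ) - B t - σ * g t| ≤
      σ ^ 2 * ∫ t in (0 : ℝ)..(2 * Real.pi), |deriv g t| := by
  have hpi : (0 : ℝ) ≤ 2 * Real.pi := by positivity
  have hgc : Continuous g := hg.continuous
  have hBc : Continuous B := continuous_iff_continuousAt.mpr fun t => (hB t).continuousAt
  have hV : 0 ≤ ∫ t in (0 : ℝ)..(2 * Real.pi), |deriv g t| :=
    intervalIntegral.integral_nonneg hpi fun t _ => abs_nonneg _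
  have hpt : ∀ t, |B (t + σ) - B t - σ * g t| ≤
      |σ| * ∫ y in (0 : ℝ)..1, |g (t + σ * y) - g t| := by
    intro t
    have h1 : ∫ y in (0 : ℝ)..1, σ * (g (t + σ * y) - g t) =
        (B (t + σ * 1) - σ * 1 * g t) - (B (t + σ * 0) - σ * 0 * g t) := by
      apply intervalIntegral.integral_eq_sub_of_hasDerivAt (f := fun y : ℝ =>
        B (t + σ * y) - σ * y * g t)
      · intro y _
        have h2 : HasDerivAt (fun y : ℝ => t + σ * y) σ y := by
          have h3 := ((hasDerivAt_id y).const_mul σ).const_add t
          simpa using h3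
        have h4 := (hB (t + σ * y)).comp y h2
        have h5 : HasDerivAt (fun y : ℝ => σ * y * g t) (σ * g t) y := by
          have h6 := ((hasDerivAt_id y).const_mul σ).mul_const (g t)
          simpa using h6
        have h7 := h4.sub h5
        have h8 : g (t + σ * y) * σ - σ * g t = σ * (g (t + σ * y) - g t) := by ring
        rw [h8] at h7
        exact h7
      · apply Continuous.intervalIntegrable
        fun_prop
    have h9 : (B (t + σ * 1) - σ * 1 * g t) - (B (t + σ * 0) - σ * 0 * g t) =
        B (t + σ) - B t - σ * g t := by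
      rw [mul_one, mul_zero, add_zero]
      ring
    rw [h9, intervalIntegral.integral_const_mul] at h1
    rw [← h1, abs_mul]
    exact mul_le_mul_of_nonneg_left (A2_abs _) (abs_nonneg _)
  have hFc : Continuous (Function.uncurry fun t y : ℝ => |g (t + σ * y) - g t|) := by
    have h5 : Continuous fun p : ℝ × ℝ => |g (p.1 + σ * p.2) - g p.1| := by fun_prop
    exact h5
  have hFc' : Continuous (Function.uncurry fun y t : ℝ => |g (t + σ * y) - g t|) := by
    have h5 : Continuous fun p : ℝ × ℝ => |g (p.2 + σ * p.1) - g p.2| := by fun_prop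
    exact h5
  have hint : Continuous fun t : ℝ => ∫ y in (0 : ℝ)..1, |g (t + σ * y) - g t| :=
    intervalIntegral.continuous_parametric_intervalIntegral_of_continuous' hFc 0 1
  have hint' : Continuous fun y : ℝ => ∫ t in (0 : ℝ)..(2 * Real.pi), |g (t + σ * y) - g t| :=
    intervalIntegral.continuous_parametric_intervalIntegral_of_continuous' hFc' 0 (2 * Real.pi)
  calc ∫ t in (0 : ℝ)..(2 * Real.pi), |B (t + σ) - B t - σ * g t|
      ≤ ∫ t in (0 : ℝ)..(2 * Real.pi), |σ| * ∫ y in (0 : ℝ)..1, |g (t + σ * y) - g t| := by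
        apply intervalIntegral.integral_mono_on hpi
        · apply Continuous.intervalIntegrable
          fun_prop
        · apply Continuous.intervalIntegrable
          exact continuous_const.mul hint
        · intro t _
          exact hpt t
    _ = |σ| * ∫ y in (0 : ℝ)..1, ∫ t in (0 : ℝ)..(2 * Real.pi), |g (t + σ * y) - g t| := by
        rw [intervalIntegral.integral_const_mul, A2_swap hFc]
    _ ≤ |σ| * ∫ _y in (0 : ℝ)..1, |σ| * ∫ t in (0 : ℝ)..(2 * Real.pi), |deriv g t| := by
        apply mul_le_mul_of_nonneg_left _ (abs_nonneg σ)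
        apply intervalIntegral.integral_mono_on zero_le_one
        · exact hint'.intervalIntegrable _ _
        · exact continuous_const.intervalIntegrable _ _
        · intro y hy
          have h10 := shift_var hg hper (σ * y)
          refine h10.trans ?_
          apply mul_le_mul_of_nonneg_right _ hV
          rw [abs_mul, abs_of_nonneg hy.1]
          exact mul_le_of_le_one_right (abs_nonneg σ) hy.2
    _ = σ ^ 2 * ∫ t in (0 : ℝ)..(2 * Real.pi), |deriv g t| := by
        rw [intervalIntegral.integral_const, sub_zero, one_smul, ← mul_assoc, ← sq_abs σ, sq]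

end Pool.Agent.Lib.MP_19d64f_an
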