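import Pool.Agent.Lib.MP_19d64f_an.A1
import Pool.Agent.Lib.MP_19d64f_an.A2

/-!
# Polynomials close to `√(n+1) e^{iϕ}` (A3)

`Apx a n ϕ g ε`: the normalised autocorrelation function `P(t + σ) conj P(t) / (n + 1)` is close in
mean to the one of `e^{iϕ}`; `g = ϕ'`.
-/

set_option autoImplicit false

namespace Pool.Agent.Lib.MP_19d64f_an

open Finset MeasureTheory

/-- `g = ϕ'` is `C^1`, `2π`-periodic, and `P(t + σ) conj P(t) / (n + 1)` is `3ε`-close in mean to
`e^{i(ϕ(t + σ) - ϕ(t))}` for every `σ`. -/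
structure Apx (a : ℕ → ℝ) (n : ℕ) (ϕ g : ℝ → ℝ) (ε : ℝ) : Prop where
  hg : ContDiff ℝ 1 g
  per : Function.Periodic g (2 * Real.pi)
  der : ∀ t, HasDerivAt ϕ (g t) t
  near : ∀ σ : ℝ, ∫ t in (0 : ℝ)..(2 * Real.pi),
      ‖P a n (t + σ) * (starRingEnd ℂ) (P a n t) / ((n : ℂ) + 1) -
        Complex.exp (((ϕ (t + σ) - ϕ t : ℝ) : ℂ) * Complex.I)‖ ≤ 6 * Real.pi * ε

/-- The total variation of `g` over one period. -/
noncomputable def VV (g : ℝ → ℝ) : ℝ := ∫ t in (0 : ℝ)..(2 * Real.pi), |deriv g t|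

theorem VV_nonneg (g : ℝ → ℝ) : 0 ≤ VV g :=
  intervalIntegral.integral_nonneg (by positivity) fun t _ => abs_nonneg _

theorem norm_exp_sub_le (x y : ℝ) :
    ‖Complex.exp ((x : ℂ) * Complex.I) - Complex.exp ((y : ℂ) * Complex.I)‖ ≤ |x - y| := by
  have e : Complex.exp ((x : ℂ) * Complex.I) - Complex.exp ((y : ℂ) * Complex.I) =
      Complex.exp ((y : ℂ) * Complex.I) * (Complex.exp (Complex.I * ((x - y : ℝ) : ℂ)) - 1) := by
    rw [mul_sub, mul_one, ← Complex.exp_add]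
    congr 2
    push_cast
    ring
  rw [e, norm_mul, Complex.norm_exp_ofReal_mul_I, one_mul]
  exact Real.norm_exp_I_mul_ofReal_sub_one_le

theorem Apx.cont {a : ℕ → ℝ} {n : ℕ} {ϕ g : ℝ → ℝ} {ε : ℝ} (h : Apx a n ϕ g ε) :
    Continuous ϕ := continuous_iff_continuousAt.2 fun t => (h.der t).continuousAt

theorem trans {a : ℕ → ℝ} {n : ℕ} {ϕ g : ℝ → ℝ} {ε : ℝ} (h : Apx a n ϕ g ε) (σ : ℝ) :
    ∫ t in (0 : ℝ)..(2 * Real.pi),
      ‖P a n (t + σ) * (starRingEnd ℂ) (P a n t) / ((n : ℂ) + 1) -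
        Complex.exp (((σ * g t : ℝ) : ℂ) * Complex.I)‖ ≤
      6 * Real.pi * ε + σ ^ 2 * VV g := by
  have hcB : Continuous ϕ := h.cont
  have hcP : Continuous (P a n) := (contDiff_P a n).continuous
  have hco : Continuous g := h.hg.continuous
  have h1 : ∫ t in (0 : ℝ)..(2 * Real.pi),
      ‖P a n (t + σ) * (starRingEnd ℂ) (P a n t) / ((n : ℂ) + 1) -
        Complex.exp (((σ * g t : ℝ) : ℂ) * Complex.I)‖ ≤
      ∫ t in (0 : ℝ)..(2 * Real.pi),
      (‖P a n (t + σ) * (starRingEnd ℂ) (P a n t) / ((n : ℂ) + 1) -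
        Complex.exp (((ϕ (t + σ) - ϕ t : ℝ) : ℂ) * Complex.I)‖ +
        |ϕ (t + σ) - ϕ t - σ * g t|) := by
    refine intervalIntegral.integral_mono_on (by positivity) ?_ ?_ fun t _ => ?_
    · refine Continuous.intervalIntegrable ?_ _ _
      fun_prop
    · refine Continuous.intervalIntegrable ?_ _ _
      fun_prop
    · have e2 : P a n (t + σ) * (starRingEnd ℂ) (P a n t) / ((n : ℂ) + 1) -
          Complex.exp (((σ * g t : ℝ) : ℂ) * Complex.I) =
          (P a n (t + σ) * (starRingEnd ℂ) (P a n t) / ((n : ℂ) + 1) -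
          Complex.exp (((ϕ (t + σ) - ϕ t : ℝ) : ℂ) * Complex.I)) +
          (Complex.exp (((ϕ (t + σ) - ϕ t : ℝ) : ℂ) * Complex.I) -
            Complex.exp (((σ * g t : ℝ) : ℂ) * Complex.I)) := by ring
      rw [e2]
      exact (norm_add_le _ _).trans (add_le_add le_rfl (norm_exp_sub_le _ _))
  refine h1.trans ?_
  rw [intervalIntegral.integral_add (by
    refine Continuous.intervalIntegrable ?_ _ _
    fun_prop) (by
    refine Continuous.intervalIntegrable ?_ _ _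
    fun_prop)]
  have h2 := drift h.hg h.per h.der σ
  have h3 := h.near σ
  unfold VV
  linarith

end Pool.Agent.Lib.MP_19d64f_an
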