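import Pool.Agent.Lib.MP_19d64f_an.Defs

/-!
# Correlations as integrals (F1)
-/

set_option autoImplicit false

namespace Pool.Agent.Lib.MP_19d64f_an

open Finset MeasureTheory

/-- PROOF. `integral_exp_mul_complex` or split in `m = 0` and `m ≠ 0` (the primitive
`exp (m t I) / (m I)` has the same value at `0` and `2π`: `Complex.exp_int_mul_two_pi_mul_I`). -/
theorem int_exp (m : ℤ) :
    ∫ t in (0 : ℝ)..(2 * Real.pi), Complex.exp ((m : ℂ) * (t : ℂ) * Complex.I) =
      if m = 0 then 2 * (Real.pi : ℂ) else 0 := by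
  split_ifs with hm
  · subst hm
    simp
  · have hc : (m : ℂ) * Complex.I ≠ 0 := mul_ne_zero (by exact_mod_cast hm) Complex.I_ne_zero
    have h1 : ∀ t : ℝ, Complex.exp ((m : ℂ) * (t : ℂ) * Complex.I) =
        Complex.exp (((m : ℂ) * Complex.I) * (t : ℂ)) := by
      intro t
      congr 1
      ring
    simp_rw [h1]
    rw [integral_exp_mul_complex hc]
    have h2 : (m : ℂ) * Complex.I * ((2 * Real.pi : ℝ) : ℂ) =
        (m : ℂ) * (2 * (Real.pi : ℂ) * Complex.I) := by
      push_cast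
      ring
    rw [h2, Complex.exp_int_mul_two_pi_mul_I]
    simp

/-- PROOF. Expand both sums: `P (t + σ) = ∑ a_k e^{ikσ} e^{ikt}`,
`conj (P t) = ∑ a_l e^{-ilt}`, so the integrand is
`∑_k ∑_l a_k a_l e^{ikσ} e^{i(k - l + j)t}`; integrate term by term with `int_exp`: only
`l = k + j ≤ n` stays. -/
theorem corr (a : ℕ → ℝ) (n j : ℕ) (hj : j ≤ n) (σ : ℝ) :
    ∫ t in (0 : ℝ)..(2 * Real.pi),
      P a n (t + σ) * (starRingEnd ℂ) (P a n t) * Complex.exp ((j : ℂ) * (t : ℂ) * Complex.I) =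
      2 * (Real.pi : ℂ) * ∑ k ∈ range (n + 1 - j),
        (a k : ℂ) * (a (k + j) : ℂ) * Complex.exp ((k : ℂ) * (σ : ℂ) * Complex.I) := by
  have h1 : ∀ t : ℝ, P a n (t + σ) * (starRingEnd ℂ) (P a n t) *
      Complex.exp ((j : ℂ) * (t : ℂ) * Complex.I) =
      ∑ k ∈ range (n + 1), ∑ l ∈ range (n + 1),
        ((a k : ℂ) * (a l : ℂ) * Complex.exp ((k : ℂ) * (σ : ℂ) * Complex.I)) *
          Complex.exp ((((k : ℤ) - (l : ℤ) + (j : ℤ) : ℤ) : ℂ) * (t : ℂ) * Complex.I) := by
    intro t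
    unfold P
    rw [map_sum, Finset.sum_mul_sum, Finset.sum_mul]
    refine sum_congr rfl fun k _ => ?_
    rw [Finset.sum_mul]
    refine sum_congr rfl fun l _ => ?_
    have h2 : (starRingEnd ℂ) ((l : ℂ) * (t : ℂ) * Complex.I) =
        -((l : ℂ) * (t : ℂ) * Complex.I) := by
      rw [map_mul, map_mul, Complex.conj_ofReal, Complex.conj_I, Complex.conj_natCast]
      ring
    rw [map_mul, Complex.conj_ofReal, ← Complex.exp_conj, h2]
    have h3 : Complex.exp ((k : ℂ) * ((t + σ : ℝ) : ℂ) * Complex.I) *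
        Complex.exp (-((l : ℂ) * (t : ℂ) * Complex.I)) *
        Complex.exp ((j : ℂ) * (t : ℂ) * Complex.I) =
        Complex.exp ((k : ℂ) * (σ : ℂ) * Complex.I) *
          Complex.exp ((((k : ℤ) - (l : ℤ) + (j : ℤ) : ℤ) : ℂ) * (t : ℂ) * Complex.I) := by
      rw [← Complex.exp_add, ← Complex.exp_add, ← Complex.exp_add]
      congr 1
      push_cast
      ring
    linear_combination ((a k : ℂ) * (a l : ℂ)) * h3
  simp_rw [h1]
  have hint : ∀ (m : ℤ) (c : ℂ), IntervalIntegrable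
      (fun t : ℝ => c * Complex.exp ((m : ℂ) * (t : ℂ) * Complex.I)) volume 0 (2 * Real.pi) := by
    intro m c
    refine Continuous.intervalIntegrable ?_ _ _
    fun_prop
  rw [intervalIntegral.integral_finsetSum]
  swap
  · intro k _
    refine Continuous.intervalIntegrable ?_ _ _
    fun_prop
  have h4 : ∀ k ∈ range (n + 1), ∫ t in (0 : ℝ)..(2 * Real.pi), ∑ l ∈ range (n + 1),
        ((a k : ℂ) * (a l : ℂ) * Complex.exp ((k : ℂ) * (σ : ℂ) * Complex.I)) *
          Complex.exp ((((k : ℤ) - (l : ℤ) + (j : ℤ) : ℤ) : ℂ) * (t : ℂ) * Complex.I) =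
      if k + j ∈ range (n + 1) then 2 * (Real.pi : ℂ) *
        ((a k : ℂ) * (a (k + j) : ℂ) * Complex.exp ((k : ℂ) * (σ : ℂ) * Complex.I)) else 0 := by
    intro k _
    rw [intervalIntegral.integral_finsetSum fun l _ => hint _ _]
    have h5 : ∀ l ∈ range (n + 1), ∫ t in (0 : ℝ)..(2 * Real.pi),
        ((a k : ℂ) * (a l : ℂ) * Complex.exp ((k : ℂ) * (σ : ℂ) * Complex.I)) *
          Complex.exp ((((k : ℤ) - (l : ℤ) + (j : ℤ) : ℤ) : ℂ) * (t : ℂ) * Complex.I) =
        if k + j = l then 2 * (Real.pi : ℂ) *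
          ((a k : ℂ) * (a l : ℂ) * Complex.exp ((k : ℂ) * (σ : ℂ) * Complex.I)) else 0 := by
      intro l _
      rw [intervalIntegral.integral_const_mul, int_exp]
      by_cases h : k + j = l
      · rw [if_pos h, if_pos (by lia)]
        ring
      · rw [if_neg h, if_neg (by lia), mul_zero]
    rw [sum_congr rfl h5, Finset.sum_ite_eq]
  rw [sum_congr rfl h4, ← Finset.sum_filter, Finset.mul_sum]
  refine sum_congr ?_ fun _ _ => rfl
  ext k
  rw [mem_filter, mem_range, mem_range, mem_range]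
  lia

end Pool.Agent.Lib.MP_19d64f_an
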