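import Pool.Agent.Lib.MP_19d64f_an.A3
import Pool.Agent.Lib.MP_19d64f_an.F1

/-!
# Two sources of `Apx` (A5)
-/

set_option autoImplicit false

namespace Pool.Agent.Lib.MP_19d64f_an

open Finset MeasureTheory

theorem int_sq {a : ℕ → ℝ} {n : ℕ} (ha : Lit a) :
    ∫ t in (0 : ℝ)..(2 * Real.pi), ‖P a n t‖ ^ 2 = 2 * Real.pi * ((n : ℝ) + 1) := by
  have h1 := corr a n 0 (Nat.zero_le n) 0
  have h2 : ∀ t : ℝ, P a n (t + 0) * (starRingEnd ℂ) (P a n t) *
      Complex.exp (((0 : ℕ) : ℂ) * (t : ℂ) * Complex.I) = ((‖P a n t‖ ^ 2 : ℝ) : ℂ) := by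
    intro t
    rw [add_zero, Complex.mul_conj, Complex.normSq_eq_norm_sq]
    simp
  simp_rw [h2] at h1
  rw [intervalIntegral.integral_ofReal] at h1
  have h3 : ∀ k, (a k : ℂ) * (a (k + 0) : ℂ) *
      Complex.exp ((k : ℂ) * ((0 : ℝ) : ℂ) * Complex.I) = 1 := by
    intro k
    have : a k * a k = 1 := by rcases ha k with h | h <;> rw [h] <;> norm_num
    have h4 : (a k : ℂ) * (a k : ℂ) = 1 := by exact_mod_cast this
    simp [h4]
  simp_rw [h3] at h1
  simp only [Finset.sum_const, Finset.card_range, Nat.sub_zero, nsmul_eq_mul, mul_one] at h1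
  have h4 : (2 * (Real.pi : ℂ) * ((n + 1 : ℕ) : ℂ)) = ((2 * Real.pi * ((n : ℝ) + 1) : ℝ) : ℂ) := by
    push_cast
    ring
  rw [h4] at h1
  exact_mod_cast h1

theorem apx_of_L2 {a : ℕ → ℝ} {n : ℕ} {ϕ : ℝ → ℝ} {ε : ℝ} (ha : Lit a) (hε : 0 < ε)
    (hϕ : ContDiff ℝ 2 ϕ) (k : ℤ) (hper : ∀ t, ϕ (t + 2 * Real.pi) = ϕ t + 2 * Real.pi * k)
    (hcl : ∫ t in (0 : ℝ)..(2 * Real.pi),
      ‖P a n t / ((Real.sqrt ((n : ℝ) + 1) : ℝ) : ℂ) -
        Complex.exp ((ϕ t : ℂ) * Complex.I)‖ ^ 2 ≤ 2 * Real.pi * ε ^ 2) :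
    Apx a n ϕ (deriv ϕ) ε := by
  have hN : (0 : ℝ) < (n : ℝ) + 1 := by positivity
  set s : ℝ := Real.sqrt ((n : ℝ) + 1) with hs
  have hs0 : 0 < s := Real.sqrt_pos.2 hN
  have hss : s * s = (n : ℝ) + 1 := Real.mul_self_sqrt hN.le
  have hsC : (s : ℂ) ≠ 0 := by exact_mod_cast hs0.ne'
  have hssC : (s : ℂ) * (s : ℂ) = (n : ℂ) + 1 := by exact_mod_cast hss
  have hcϕ : Continuous ϕ := hϕ.continuous
  have hcP : Continuous (P a n) := (contDiff_P a n).continuous
  have hdiff : Differentiable ℝ ϕ := hϕ.differentiable (by norm_num)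
  refine ⟨?_, ?_, fun t => (hdiff t).hasDerivAt, fun σ => ?_⟩
  · exact ((contDiff_succ_iff_deriv (n := 1)).1 hϕ).2.2
  · intro t
    have h1 : ϕ = fun t => ϕ (t + 2 * Real.pi) - 2 * Real.pi * k := by
      funext t
      rw [hper]
      ring
    have h2 : deriv ϕ t = deriv (fun t => ϕ (t + 2 * Real.pi) - 2 * Real.pi * k) t := by
      rw [← h1]
    rw [h2, deriv_sub_const, deriv_comp_add_const]
  · set D : ℝ → ℂ := fun t => P a n t / (s : ℂ) - Complex.exp ((ϕ t : ℂ) * Complex.I) with hD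
    have hDc : Continuous D := by
      rw [hD]
      fun_prop
    have hDper : Function.Periodic (fun t => ‖D t‖ ^ 2) (2 * Real.pi) := by
      intro t
      have h1 : D (t + 2 * Real.pi) = D t := by
        simp only [hD]
        rw [P_per a n t, hper]
        have h2 : ((ϕ t + 2 * Real.pi * k : ℝ) : ℂ) * Complex.I =
            (ϕ t : ℂ) * Complex.I + k * (2 * (Real.pi : ℂ) * Complex.I) := by
          push_cast
          ring
        rw [h2, Complex.exp_add, Complex.exp_int_mul_two_pi_mul_I, mul_one]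
      simp only [h1]
    have hpt : ∀ t, ‖P a n (t + σ) * (starRingEnd ℂ) (P a n t) / ((n : ℂ) + 1) -
        Complex.exp (((ϕ (t + σ) - ϕ t : ℝ) : ℂ) * Complex.I)‖ ≤
        1 / (2 * ε) * ‖D (t + σ)‖ ^ 2 + ε / (2 * ((n : ℝ) + 1)) * ‖P a n t‖ ^ 2 +
          1 / (2 * ε) * ‖D t‖ ^ 2 + ε / 2 := by
      intro t
      have e1 : P a n (t + σ) * (starRingEnd ℂ) (P a n t) / ((n : ℂ) + 1) -
        Complex.exp (((ϕ (t + σ) - ϕ t : ℝ) : ℂ) * Complex.I) =
          D (t + σ) * (starRingEnd ℂ) (P a n t / (s : ℂ)) +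
          Complex.exp ((ϕ (t + σ) : ℂ) * Complex.I) * (starRingEnd ℂ) (D t) := by
        simp only [hD, map_sub, map_div₀, Complex.conj_ofReal]
        have h2 : (starRingEnd ℂ) (Complex.exp ((ϕ t : ℂ) * Complex.I)) =
            Complex.exp (-((ϕ t : ℂ) * Complex.I)) := by
          rw [← Complex.exp_conj]
          simp
        have h3 : Complex.exp (((ϕ (t + σ) - ϕ t : ℝ) : ℂ) * Complex.I) =
            Complex.exp ((ϕ (t + σ) : ℂ) * Complex.I) *
              Complex.exp (-((ϕ t : ℂ) * Complex.I)) := by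
          rw [← Complex.exp_add]
          congr 1
          push_cast
          ring
        rw [h2, h3, ← hssC]
        field_simp
        ring
      rw [e1]
      refine (norm_add_le _ _).trans ?_
      rw [norm_mul, norm_mul, Complex.norm_exp_ofReal_mul_I, one_mul, RCLike.norm_conj,
        RCLike.norm_conj, norm_div, Complex.norm_real, Real.norm_of_nonneg hs0.le]
      have am : ∀ x y : ℝ, x * y ≤ 1 / (2 * ε) * x ^ 2 + ε / 2 * y ^ 2 := by
        intro x y
        have h4 : 0 ≤ 1 / (2 * ε) * (x - ε * y) ^ 2 := by positivity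
        have h5 : 1 / (2 * ε) * (x - ε * y) ^ 2 =
            1 / (2 * ε) * x ^ 2 + ε / 2 * y ^ 2 - x * y := by
          field_simp
          ring
        linarith
      have h6 := am ‖D (t + σ)‖ (‖P a n t‖ / s)
      have h7 := am ‖D t‖ 1
      have h8 : ε / 2 * (‖P a n t‖ / s) ^ 2 = ε / (2 * ((n : ℝ) + 1)) * ‖P a n t‖ ^ 2 := by
        rw [div_pow, sq s, hss]
        field_simp
      rw [h8] at h6
      linarith
    have hint1 : Continuous (fun t => 1 / (2 * ε) * ‖D (t + σ)‖ ^ 2) := by fun_prop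
    have hint2 : Continuous (fun t => ε / (2 * ((n : ℝ) + 1)) * ‖P a n t‖ ^ 2) := by fun_prop
    have hint3 : Continuous (fun t => 1 / (2 * ε) * ‖D t‖ ^ 2) := by fun_prop
    have hI : ∫ t in (0 : ℝ)..(2 * Real.pi),
        ‖P a n (t + σ) * (starRingEnd ℂ) (P a n t) / ((n : ℂ) + 1) -
        Complex.exp (((ϕ (t + σ) - ϕ t : ℝ) : ℂ) * Complex.I)‖ ≤
        ∫ t in (0 : ℝ)..(2 * Real.pi), (1 / (2 * ε) * ‖D (t + σ)‖ ^ 2 +
          ε / (2 * ((n : ℝ) + 1)) * ‖P a n t‖ ^ 2 + 1 / (2 * ε) * ‖D t‖ ^ 2 + ε / 2) := by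
      refine intervalIntegral.integral_mono_on (by positivity) ?_ ?_ fun t _ => hpt t
      · refine Continuous.intervalIntegrable ?_ _ _
        fun_prop
      · exact (((hint1.add hint2).add hint3).add continuous_const).intervalIntegrable _ _
    refine hI.trans ?_
    have i12 : IntervalIntegrable (fun t => 1 / (2 * ε) * ‖D (t + σ)‖ ^ 2 +
        ε / (2 * ((n : ℝ) + 1)) * ‖P a n t‖ ^ 2) volume 0 (2 * Real.pi) :=
      (hint1.add hint2).intervalIntegrable _ _
    have i123 : IntervalIntegrable (fun t => 1 / (2 * ε) * ‖D (t + σ)‖ ^ 2 +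
        ε / (2 * ((n : ℝ) + 1)) * ‖P a n t‖ ^ 2 + 1 / (2 * ε) * ‖D t‖ ^ 2) volume 0
          (2 * Real.pi) :=
      ((hint1.add hint2).add hint3).intervalIntegrable _ _
    rw [intervalIntegral.integral_add i123 (by simp), intervalIntegral.integral_add i12
      (hint3.intervalIntegrable _ _), intervalIntegral.integral_add
      (hint1.intervalIntegrable _ _) (hint2.intervalIntegrable _ _),
      intervalIntegral.integral_const_mul, intervalIntegral.integral_const_mul,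
      intervalIntegral.integral_const_mul, int_sq ha, intervalIntegral.integral_const, smul_eq_mul]
    have hsh : ∫ t in (0 : ℝ)..(2 * Real.pi), ‖D (t + σ)‖ ^ 2 =
        ∫ t in (0 : ℝ)..(2 * Real.pi), ‖D t‖ ^ 2 := by
      rw [intervalIntegral.integral_comp_add_right (fun t => ‖D t‖ ^ 2) σ]
      have h9 := hDper.intervalIntegral_add_eq σ 0
      rw [zero_add] at h9 ⊢
      rw [← h9]
      congr 1
      ring
    rw [hsh]
    have h10 : 1 / (2 * ε) * (∫ t in (0 : ℝ)..(2 * Real.pi), ‖D t‖ ^ 2) ≤ Real.pi * ε := by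
      have h11 : 1 / (2 * ε) * (∫ t in (0 : ℝ)..(2 * Real.pi), ‖D t‖ ^ 2) ≤
          1 / (2 * ε) * (2 * Real.pi * ε ^ 2) := mul_le_mul_of_nonneg_left hcl (by positivity)
      refine h11.trans (le_of_eq ?_)
      field_simp
    have h12 : ε / (2 * ((n : ℝ) + 1)) * (2 * Real.pi * ((n : ℝ) + 1)) = Real.pi * ε := by
      field_simp
    rw [h12]
    have h13 : (2 * Real.pi - 0) * (ε / 2) = Real.pi * ε := by ring
    rw [h13]
    have : 0 < Real.pi * ε := by positivity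
    linarith

theorem apx_of_flat {a : ℕ → ℝ} {n : ℕ} {ε : ℝ} (h : Flat a n ε) (hε0 : 0 ≤ ε)
    (hε : ε ≤ 1 / 2) : ∃ ϕ : ℝ → ℝ, Apx a n ϕ (om a n) ε := by
  have hne : ∀ t, P a n t ≠ 0 := P_ne h (by linarith)
  obtain ⟨B, hBd, hB⟩ := phase hne
  have hcB : Continuous B := continuous_iff_continuousAt.2 fun t => (hBd t).continuousAt
  have hcP : Continuous (P a n) := (contDiff_P a n).continuous
  refine ⟨B, contDiff_om hne, om_per a n, hBd, fun σ => ?_⟩
  have hN : (0 : ℝ) < (n : ℝ) + 1 := by positivity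
  have hpt : ∀ t, ‖P a n (t + σ) * (starRingEnd ℂ) (P a n t) / ((n : ℂ) + 1) -
      Complex.exp (((B (t + σ) - B t : ℝ) : ℂ) * Complex.I)‖ ≤ 3 * ε := by
    intro t
    set ρ : ℝ := ‖P a n (t + σ)‖ * ‖P a n t‖ / ((n : ℝ) + 1) with hρ
    have e1 : P a n (t + σ) * (starRingEnd ℂ) (P a n t) / ((n : ℂ) + 1) =
        (ρ : ℂ) * Complex.exp (((B (t + σ) - B t : ℝ) : ℂ) * Complex.I) := by
      rw [hB, hρ]
      push_cast
      ring
    have hs : Real.sqrt ((n : ℝ) + 1) * Real.sqrt ((n : ℝ) + 1) = (n : ℝ) + 1 :=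
      Real.mul_self_sqrt hN.le
    have hs0 : 0 < Real.sqrt ((n : ℝ) + 1) := Real.sqrt_pos.2 hN
    have l1 := norm_lower h (t + σ)
    have l2 := norm_lower h t
    have u1 := norm_upper h (t + σ)
    have u2 := norm_upper h t
    have hε1 : 0 ≤ 1 - ε := by linarith
    have hlow : (1 - ε) ^ 2 ≤ ρ := by
      rw [hρ, le_div_iff₀ hN, ← hs]
      calc (1 - ε) ^ 2 * (Real.sqrt ((n : ℝ) + 1) * Real.sqrt ((n : ℝ) + 1))
          = ((1 - ε) * Real.sqrt ((n : ℝ) + 1)) * ((1 - ε) * Real.sqrt ((n : ℝ) + 1)) := by ring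
        _ ≤ _ := mul_le_mul l1 l2 (by positivity) (norm_nonneg _)
    have hup : ρ ≤ (1 + ε) ^ 2 := by
      rw [hρ, div_le_iff₀ hN, ← hs]
      calc ‖P a n (t + σ)‖ * ‖P a n t‖
          ≤ ((1 + ε) * Real.sqrt ((n : ℝ) + 1)) * ((1 + ε) * Real.sqrt ((n : ℝ) + 1)) :=
            mul_le_mul u1 u2 (norm_nonneg _) (by positivity)
        _ = _ := by ring
    have hρ1 : |ρ - 1| ≤ 3 * ε := by
      rw [abs_le]
      constructor <;> nlinarith
    rw [e1]
    have e2 : (ρ : ℂ) * Complex.exp (((B (t + σ) - B t : ℝ) : ℂ) * Complex.I) -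
        Complex.exp (((B (t + σ) - B t : ℝ) : ℂ) * Complex.I) =
        ((ρ - 1 : ℝ) : ℂ) * Complex.exp (((B (t + σ) - B t : ℝ) : ℂ) * Complex.I) := by
      push_cast
      ring
    rw [e2, norm_mul, Complex.norm_exp_ofReal_mul_I, mul_one, Complex.norm_real]
    exact hρ1
  have h1 : ∫ t in (0 : ℝ)..(2 * Real.pi),
      ‖P a n (t + σ) * (starRingEnd ℂ) (P a n t) / ((n : ℂ) + 1) -
        Complex.exp (((B (t + σ) - B t : ℝ) : ℂ) * Complex.I)‖ ≤
      ∫ _t in (0 : ℝ)..(2 * Real.pi), 3 * ε := by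
    refine intervalIntegral.integral_mono_on (by positivity) ?_ (by simp) fun t _ => hpt t
    refine Continuous.intervalIntegrable ?_ _ _
    fun_prop
  refine h1.trans (le_of_eq ?_)
  rw [intervalIntegral.integral_const, smul_eq_mul]
  ring

end Pool.Agent.Lib.MP_19d64f_an
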