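import Pool.Agent.Lib.MP_19d64f_an.Defs

/-!
# The triangle inequality for sequences of signs (C2)
-/

set_option autoImplicit false

namespace Pool.Agent.Lib.MP_19d64f_an

open Finset MeasureTheory

/-- The weighted correlation with lag `j`. -/
noncomputable def T (a v : ℕ → ℝ) (n j : ℕ) : ℝ :=
  (1 / ((n : ℝ) + 1)) * ∑ k ∈ range (n + 1 - j), v k * (a k * a (k + j))

private theorem C2_sq {a : ℕ → ℝ} (ha : Lit a) (k : ℕ) : a k * a k = 1 := by
  rcases ha k with h | h <;> rw [h] <;> norm_num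

private theorem C2_d0 {a : ℕ → ℝ} (ha : Lit a) (k l : ℕ) : 0 ≤ 1 - a k * a l := by
  rcases ha k with h | h <;> rcases ha l with h' | h' <;> rw [h, h'] <;> norm_num

private theorem C2_d2 {a : ℕ → ℝ} (ha : Lit a) (k l : ℕ) : 1 - a k * a l ≤ 2 := by
  rcases ha k with h | h <;> rcases ha l with h' | h' <;> rw [h, h'] <;> norm_num

private theorem C2_tri {a : ℕ → ℝ} (ha : Lit a) (k l p : ℕ) :
    1 - a k * a p ≤ (1 - a k * a l) + (1 - a l * a p) := by
  rcases ha k with h | h <;> rcases ha l with h' | h' <;> rcases ha p with h'' | h'' <;>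
    rw [h, h', h''] <;> norm_num

/-- `(n+1)(T 0 - T j) = ∑_{k ≤ n-j} v_k (1 - a_k a_{k+j}) + ∑_{n-j<k≤n} v_k`. -/
private theorem C2_split {a : ℕ → ℝ} (v : ℕ → ℝ) (ha : Lit a) {n j : ℕ} :
    ((n : ℝ) + 1) * (T a v n 0 - T a v n j) =
      ∑ k ∈ range (n + 1 - j), v k * (1 - a k * a (k + j)) +
        ∑ k ∈ Ico (n + 1 - j) (n + 1), v k := by
  have hn : (n : ℝ) + 1 ≠ 0 := by positivity
  have h0 : ((n : ℝ) + 1) * T a v n 0 = ∑ k ∈ range (n + 1), v k := by
    unfold T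
    rw [← mul_assoc, mul_one_div_cancel hn, one_mul]
    simp only [Nat.sub_zero, Nat.add_zero]
    refine sum_congr rfl fun k _ => ?_
    rw [C2_sq ha, mul_one]
  have h1 : ((n : ℝ) + 1) * T a v n j = ∑ k ∈ range (n + 1 - j), v k * (a k * a (k + j)) := by
    unfold T
    rw [← mul_assoc, mul_one_div_cancel hn, one_mul]
  have h2 : ∑ k ∈ range (n + 1), v k =
      ∑ k ∈ range (n + 1 - j), v k + ∑ k ∈ Ico (n + 1 - j) (n + 1), v k := by
    rw [Finset.sum_range_add_sum_Ico _ (Nat.sub_le _ _)]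
  rw [mul_sub, h0, h1, h2]
  have h3 : ∑ k ∈ range (n + 1 - j), v k * (1 - a k * a (k + j)) =
      ∑ k ∈ range (n + 1 - j), v k - ∑ k ∈ range (n + 1 - j), v k * (a k * a (k + j)) := by
    rw [← sum_sub_distrib]
    refine sum_congr rfl fun k _ => ?_
    ring
  rw [h3]
  ring

/-- PROOF. For signs `1 - x z ≤ (1 - x y) + (1 - y z)`. So for `k ≤ n - 2m`:
`v_k (1 - a_k a_{k+2m}) ≤ v_k (1 - a_k a_{k+m}) + v_k (1 - a_{k+m} a_{k+2m})`. Sum over
`k ≤ n - 2m`. `(n+1)(T 0 - T (2m)) = ∑_{k ≤ n-2m} v_k (1 - a_k a_{k+2m}) + ∑_{k > n-2m} v_k`, the last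
sum is at most `2m`. `∑_{k ≤ n-2m} v_k (1 - a_k a_{k+m}) ≤ (n+1)(T 0 - T m)`.
`∑_{k ≤ n-2m} v_k (1 - a_{k+m} a_{k+2m}) ≤ ∑_{k' = m}^{n-m} (v_{k'} + L)(1 - a_{k'} a_{k'+m})
≤ (n+1)(T 0 - T m) + 2 L (n+1)`. -/
theorem tri {a v : ℕ → ℝ} (ha : Lit a) {n m : ℕ} (hm : 2 * m ≤ n) {L : ℝ}
    (hv0 : ∀ k, 0 ≤ v k) (hv1 : ∀ k, v k ≤ 1) (hL : ∀ k, |v (k + m) - v k| ≤ L) :
    T a v n 0 - T a v n (2 * m) ≤
      2 * (T a v n 0 - T a v n m) + 2 * m / ((n : ℝ) + 1) + 2 * L := by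
  have hn : (0 : ℝ) < (n : ℝ) + 1 := by positivity
  have hL0 : 0 ≤ L := le_trans (abs_nonneg _) (hL 0)
  have e1 := C2_split v ha (n := n) (j := 2 * m)
  have e2 := C2_split v ha (n := n) (j := m)
  -- the tail of the first identity
  have t1 : ∑ k ∈ Ico (n + 1 - 2 * m) (n + 1), v k ≤ 2 * (m : ℝ) := by
    calc ∑ k ∈ Ico (n + 1 - 2 * m) (n + 1), v k
        ≤ ∑ k ∈ Ico (n + 1 - 2 * m) (n + 1), (1 : ℝ) := sum_le_sum fun k _ => hv1 k
      _ = 2 * (m : ℝ) := by
          rw [sum_const, Nat.card_Ico, nsmul_eq_mul, mul_one]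
          have : n + 1 - (n + 1 - 2 * m) = 2 * m := by omega
          rw [this]
          push_cast
          ring
  have t2 : 0 ≤ ∑ k ∈ Ico (n + 1 - m) (n + 1), v k := sum_nonneg fun k _ => hv0 k
  -- the two parts
  have p1 : ∑ k ∈ range (n + 1 - 2 * m), v k * (1 - a k * a (k + m)) ≤
      ∑ k ∈ range (n + 1 - m), v k * (1 - a k * a (k + m)) := by
    refine sum_le_sum_of_subset_of_nonneg ?_ fun k _ _ => mul_nonneg (hv0 k) (C2_d0 ha _ _)
    intro k hk
    rw [mem_range] at hk ⊢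
    omega
  have p2 : ∑ k ∈ range (n + 1 - 2 * m), v k * (1 - a (k + m) * a (k + 2 * m)) ≤
      ∑ k ∈ range (n + 1 - m), v k * (1 - a k * a (k + m)) + 2 * L * ((n : ℝ) + 1) := by
    have q1 : ∀ k ∈ range (n + 1 - 2 * m), v k * (1 - a (k + m) * a (k + 2 * m)) ≤
        v (k + m) * (1 - a (k + m) * a (k + m + m)) + 2 * L := by
      intro k _
      have hk : k + 2 * m = k + m + m := by omega
      rw [hk]
      have d0 := C2_d0 ha (k + m) (k + m + m)
      have d2 := C2_d2 ha (k + m) (k + m + m)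
      have hv : v k ≤ v (k + m) + L := by
        have := (abs_le.mp (hL k)).1
        linarith
      calc v k * (1 - a (k + m) * a (k + m + m))
          ≤ (v (k + m) + L) * (1 - a (k + m) * a (k + m + m)) :=
            mul_le_mul_of_nonneg_right hv d0
        _ = v (k + m) * (1 - a (k + m) * a (k + m + m)) +
            L * (1 - a (k + m) * a (k + m + m)) := by ring
        _ ≤ v (k + m) * (1 - a (k + m) * a (k + m + m)) + L * 2 := by
            have := mul_le_mul_of_nonneg_left d2 hL0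
            linarith
        _ = v (k + m) * (1 - a (k + m) * a (k + m + m)) + 2 * L := by ring
    have q2 : ∑ k ∈ range (n + 1 - 2 * m), v (k + m) * (1 - a (k + m) * a (k + m + m)) ≤
        ∑ k ∈ range (n + 1 - m), v k * (1 - a k * a (k + m)) := by
      have : ∑ k ∈ range (n + 1 - 2 * m), v (k + m) * (1 - a (k + m) * a (k + m + m)) =
          ∑ k ∈ Ico m (n + 1 - m), v k * (1 - a k * a (k + m)) := by
        rw [Finset.sum_Ico_eq_sum_range]
        have hh : n + 1 - m - m = n + 1 - 2 * m := by omega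
        rw [hh]
        refine sum_congr rfl fun k _ => ?_
        rw [Nat.add_comm m k]
      rw [this]
      refine sum_le_sum_of_subset_of_nonneg ?_ fun k _ _ => mul_nonneg (hv0 k) (C2_d0 ha _ _)
      intro k hk
      rw [mem_Ico] at hk
      rw [mem_range]
      exact hk.2
    have q3 : ((n + 1 - 2 * m : ℕ) : ℝ) ≤ (n : ℝ) + 1 := by
      have : n + 1 - 2 * m ≤ n + 1 := Nat.sub_le _ _
      exact_mod_cast this
    calc ∑ k ∈ range (n + 1 - 2 * m), v k * (1 - a (k + m) * a (k + 2 * m))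
        ≤ ∑ k ∈ range (n + 1 - 2 * m),
            (v (k + m) * (1 - a (k + m) * a (k + m + m)) + 2 * L) := sum_le_sum q1
      _ = ∑ k ∈ range (n + 1 - 2 * m), v (k + m) * (1 - a (k + m) * a (k + m + m)) +
            ((n + 1 - 2 * m : ℕ) : ℝ) * (2 * L) := by
          rw [sum_add_distrib, sum_const, card_range, nsmul_eq_mul]
      _ ≤ ∑ k ∈ range (n + 1 - m), v k * (1 - a k * a (k + m)) +
            ((n : ℝ) + 1) * (2 * L) := by
          have := mul_le_mul_of_nonneg_right q3 (by positivity : (0 : ℝ) ≤ 2 * L)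
          linarith
      _ = _ := by ring
  have p3 : ∑ k ∈ range (n + 1 - 2 * m), v k * (1 - a k * a (k + 2 * m)) ≤
      ∑ k ∈ range (n + 1 - 2 * m), v k * (1 - a k * a (k + m)) +
        ∑ k ∈ range (n + 1 - 2 * m), v k * (1 - a (k + m) * a (k + 2 * m)) := by
    rw [← sum_add_distrib]
    refine sum_le_sum fun k _ => ?_
    rw [← mul_add]
    exact mul_le_mul_of_nonneg_left (C2_tri ha _ _ _) (hv0 k)
  have key : ((n : ℝ) + 1) * (T a v n 0 - T a v n (2 * m)) ≤
      ((n : ℝ) + 1) * (2 * (T a v n 0 - T a v n m) + 2 * m / ((n : ℝ) + 1) + 2 * L) := by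
    have r : ((n : ℝ) + 1) * (2 * (T a v n 0 - T a v n m) + 2 * m / ((n : ℝ) + 1) + 2 * L) =
        2 * (((n : ℝ) + 1) * (T a v n 0 - T a v n m)) + 2 * m + 2 * L * ((n : ℝ) + 1) := by
      field_simp
    rw [r, e1, e2]
    linarith
  exact le_of_mul_le_mul_left key hn

end Pool.Agent.Lib.MP_19d64f_an
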