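import Pool.Agent.Lib.MP_19d64f_an.W1

/-!
# The Fejér weight, II (W2)
-/

set_option autoImplicit false

namespace Pool.Agent.Lib.MP_19d64f_an

open Finset MeasureTheory

private theorem W2_unit (α : ℝ) : ‖Complex.exp ((α : ℂ) * Complex.I)‖ = 1 :=
  Complex.norm_exp_ofReal_mul_I α

private theorem W2_exp (α β : ℝ) :
    ‖Complex.exp ((α : ℂ) * Complex.I) - Complex.exp ((β : ℂ) * Complex.I)‖ ≤ |α - β| := by
  have h1 : Complex.exp ((α : ℂ) * Complex.I) - Complex.exp ((β : ℂ) * Complex.I) =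
      Complex.exp ((β : ℂ) * Complex.I) * (Complex.exp (Complex.I * ((α - β : ℝ) : ℂ)) - 1) := by
    rw [mul_sub, mul_one, ← Complex.exp_add]
    congr 2
    push_cast
    ring
  rw [h1, norm_mul, W2_unit, one_mul]
  exact Real.norm_exp_I_mul_ofReal_sub_one_le

/-- the geometric sum -/
private noncomputable def W2_u (R : ℕ) (x : ℝ) : ℂ :=
  ∑ l ∈ range R, Complex.exp (((l * x : ℝ) : ℂ) * Complex.I)

private theorem W2_w (R : ℕ) (κ y : ℝ) : w R κ y = (1 / (R : ℝ) * ‖W2_u R (y - κ)‖) ^ 2 := by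
  unfold w W2_u
  rw [norm_mul, norm_div, norm_one, Complex.norm_natCast]
  congr 3
  refine Finset.sum_congr rfl fun l _ => ?_
  congr 2
  push_cast
  ring

private theorem W2_norm_u (R : ℕ) (x : ℝ) : ‖W2_u R x‖ ≤ R := by
  unfold W2_u
  refine (norm_sum_le _ _).trans ?_
  rw [Finset.sum_congr rfl fun l _ => W2_unit _]
  simp

private theorem W2_sum_id (R : ℕ) : ∑ l ∈ range R, (l : ℝ) ≤ (R : ℝ) ^ 2 / 2 := by
  induction R with
  | zero => simp
  | succ R ih =>
    rw [Finset.sum_range_succ]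
    push_cast
    nlinarith [Nat.cast_nonneg (α := ℝ) R]

private theorem W2_diff (R : ℕ) (x x' : ℝ) :
    ‖W2_u R x - W2_u R x'‖ ≤ (R : ℝ) ^ 2 / 2 * |x - x'| := by
  unfold W2_u
  rw [← Finset.sum_sub_distrib]
  refine (norm_sum_le _ _).trans ?_
  have h1 : ∀ l ∈ range R, ‖Complex.exp (((l * x : ℝ) : ℂ) * Complex.I) -
      Complex.exp (((l * x' : ℝ) : ℂ) * Complex.I)‖ ≤ (l : ℝ) * |x - x'| := by
    intro l _
    refine (W2_exp _ _).trans (le_of_eq ?_)
    rw [← mul_sub, abs_mul, Nat.abs_cast]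
  refine (Finset.sum_le_sum h1).trans ?_
  rw [← Finset.sum_mul]
  exact mul_le_mul_of_nonneg_right (W2_sum_id R) (abs_nonneg _)

/-- PROOF. Put `u y = (1/R) ∑ exp (l (y - κ) I)`. `‖u‖ ≤ 1` and
`‖u y - u y'‖ ≤ (1/R) ∑ l |y - y'| ≤ (R/2) |y - y'|` (use `‖exp (iα) - exp (iβ)‖ ≤ |α - β|`),
`|‖u‖^2 - ‖u'‖^2| ≤ (‖u‖ + ‖u'‖) ‖u - u'‖ ≤ 2 (R/2) |y - y'|`. -/
theorem w_lip (R : ℕ) (κ y y' : ℝ) : |w R κ y - w R κ y'| ≤ R * |y - y'| := by
  rcases Nat.eq_zero_or_pos R with h0 | h0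
  · subst h0
    rw [W2_w, W2_w]
    simp
  have hR : (0 : ℝ) < (R : ℝ) := by exact_mod_cast h0
  rw [W2_w, W2_w]
  set a := 1 / (R : ℝ) * ‖W2_u R (y - κ)‖ with ha
  set b := 1 / (R : ℝ) * ‖W2_u R (y' - κ)‖ with hb
  have ha0 : 0 ≤ a := by positivity
  have hb0 : 0 ≤ b := by positivity
  have ha1 : a ≤ 1 := by
    rw [ha, one_div, inv_mul_le_iff₀ hR, mul_one]
    exact W2_norm_u R _
  have hb1 : b ≤ 1 := by
    rw [hb, one_div, inv_mul_le_iff₀ hR, mul_one]
    exact W2_norm_u R _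
  have hab : |a - b| ≤ R / 2 * |y - y'| := by
    have h1 : a - b = 1 / (R : ℝ) * (‖W2_u R (y - κ)‖ - ‖W2_u R (y' - κ)‖) := by
      rw [ha, hb]
      ring
    rw [h1, abs_mul, abs_of_pos (by positivity : (0 : ℝ) < 1 / (R : ℝ)), one_div,
      inv_mul_le_iff₀ hR]
    have h2 := (abs_norm_sub_norm_le _ _).trans (W2_diff R (y - κ) (y' - κ))
    have h3 : y - κ - (y' - κ) = y - y' := by ring
    rw [h3] at h2
    refine h2.trans (le_of_eq ?_)
    ring
  have h1 : a ^ 2 - b ^ 2 = (a - b) * (a + b) := by ring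
  rw [h1, abs_mul, abs_of_nonneg (by linarith : 0 ≤ a + b)]
  have h2 : |a - b| * (a + b) ≤ |a - b| * 2 :=
    mul_le_mul_of_nonneg_left (by linarith) (abs_nonneg _)
  linarith

/-- PROOF. Let `x = y - κ`. Geometric sum: `(e^{ix} - 1) ∑ = e^{iRx} - 1`, so
`‖∑‖ ≤ 2 / ‖e^{ix} - 1‖ = 1 / |sin (x/2)|`. Choose the integer `l` with `|x - 2πl| ≤ π`
(`round (x / (2π))`); `|sin (x/2)| = |sin ((x - 2πl)/2)| ≥ |x - 2πl| / π ≥ η / π`
(`Real.mul_abs_le_abs_sin`). Hence `w ≤ (1/R^2) (π/η)^2`. -/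
theorem w_far {R : ℕ} (hR : 0 < R) {κ y η : ℝ} (hη : 0 < η)
    (h : ∀ l : ℤ, η ≤ |y - κ - 2 * Real.pi * l|) :
    w R κ y ≤ Real.pi ^ 2 / ((R : ℝ) ^ 2 * η ^ 2) := by
  have hR' : (0 : ℝ) < (R : ℝ) := by exact_mod_cast hR
  have hπ := Real.pi_pos
  rw [W2_w]
  set x := y - κ with hx
  -- the lower bound for the sine
  have hsin : η / Real.pi ≤ |Real.sin (x / 2)| := by
    set l : ℤ := round (x / (2 * Real.pi)) with hl
    set r := x - 2 * Real.pi * l with hr
    have h1 : |x / (2 * Real.pi) - l| ≤ 1 / 2 := abs_sub_round _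
    have h2 : r = 2 * Real.pi * (x / (2 * Real.pi) - l) := by
      rw [hr]
      field_simp
    have h3 : |r| ≤ Real.pi := by
      rw [h2, abs_mul, abs_of_pos (by positivity : (0 : ℝ) < 2 * Real.pi)]
      nlinarith
    have h4 : |Real.sin (x / 2)| = |Real.sin (r / 2)| := by
      have h5 : x / 2 = r / 2 + (l : ℝ) * Real.pi := by
        rw [hr]
        ring
      rw [h5, Real.sin_add_int_mul_pi, abs_mul, abs_zpow, abs_neg, abs_one, one_zpow, one_mul]
    have h5 : |r / 2| ≤ Real.pi / 2 := by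
      rw [abs_div, abs_of_pos (by norm_num : (0 : ℝ) < 2)]
      linarith
    have h6 := Real.mul_abs_le_abs_sin h5
    rw [h4]
    refine le_trans ?_ h6
    rw [abs_div, abs_of_pos (by norm_num : (0 : ℝ) < 2)]
    have h7 : η ≤ |r| := h l
    have h8 : 2 / Real.pi * (|r| / 2) = |r| / Real.pi := by
      field_simp
    rw [h8]
    exact div_le_div_of_nonneg_right h7 hπ.le
  -- the geometric sum
  have hgeo : ‖W2_u R x‖ * |Real.sin (x / 2)| ≤ 1 := by
    have h1 : W2_u R x = ∑ l ∈ range R, Complex.exp (Complex.I * (x : ℂ)) ^ l := by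
      unfold W2_u
      refine Finset.sum_congr rfl fun l _ => ?_
      rw [← Complex.exp_nat_mul]
      congr 1
      push_cast
      ring
    have h2 := geom_sum_mul (Complex.exp (Complex.I * (x : ℂ))) R
    rw [← h1] at h2
    have h3 : ‖W2_u R x‖ * ‖Complex.exp (Complex.I * (x : ℂ)) - 1‖ ≤ 2 := by
      rw [← norm_mul, h2]
      refine (norm_sub_le _ _).trans ?_
      rw [norm_pow, Complex.norm_exp_I_mul_ofReal, one_pow, norm_one]
      norm_num
    rw [Complex.norm_exp_I_mul_ofReal_sub_one, Real.norm_eq_abs, abs_mul,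
      abs_of_pos (by norm_num : (0 : ℝ) < 2)] at h3
    nlinarith
  have hu : ‖W2_u R x‖ ≤ Real.pi / η := by
    rw [le_div_iff₀ hη]
    have h1 : ‖W2_u R x‖ * (η / Real.pi) ≤ 1 :=
      (mul_le_mul_of_nonneg_left hsin (norm_nonneg _)).trans hgeo
    have h2 : ‖W2_u R x‖ * (η / Real.pi) = ‖W2_u R x‖ * η / Real.pi := by ring
    rw [h2, div_le_one hπ] at h1
    exact h1
  have h1 : 1 / (R : ℝ) * ‖W2_u R x‖ ≤ 1 / (R : ℝ) * (Real.pi / η) :=
    mul_le_mul_of_nonneg_left hu (by positivity)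
  have h2 := pow_le_pow_left₀ (by positivity) h1 2
  refine h2.trans (le_of_eq ?_)
  field_simp

/-- PROOF. `∫ y in 0..1, w ≤ ∫ y in 0..2π, w = (1/R^2) ∑_l ∑_l' ∫ exp ((l - l')(y - κ) I) dy
= (1/R^2) * R * 2π` (`w_expand`; the integral of `exp (m y I)` over a period is `0` for an integer
`m ≠ 0`). -/
theorem w_int {R : ℕ} (hR : 0 < R) (κ : ℝ) :
    ∫ y in (0 : ℝ)..1, w R κ y ≤ 2 * Real.pi / R := by
  have hR' : (0 : ℝ) < (R : ℝ) := by exact_mod_cast hR
  have hR'' : (R : ℂ) ≠ 0 := by exact_mod_cast hR.ne'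
  have hπ := Real.pi_pos
  have hint : ∀ a b : ℝ, IntervalIntegrable (w R κ) volume a b := fun a b =>
    (continuous_w R κ).intervalIntegrable a b
  -- the integral over a period
  have hfull : ∫ y in (0 : ℝ)..(2 * Real.pi), w R κ y = 2 * Real.pi / R := by
    have h1 : ((∫ y in (0 : ℝ)..(2 * Real.pi), w R κ y : ℝ) : ℂ) =
        ∫ y in (0 : ℝ)..(2 * Real.pi), (1 / (R : ℂ) ^ 2) * ∑ l ∈ range R, ∑ l' ∈ range R,
          Complex.exp (((l : ℂ) - (l' : ℂ)) * ((y - κ : ℝ) : ℂ) * Complex.I) := by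
      rw [← intervalIntegral.integral_ofReal]
      refine intervalIntegral.integral_congr fun y _ => ?_
      exact w_expand R κ y
    have hcont : ∀ l l' : ℕ, Continuous fun y : ℝ =>
        Complex.exp (((l : ℂ) - (l' : ℂ)) * ((y - κ : ℝ) : ℂ) * Complex.I) := by
      intro l l'
      fun_prop
    have h2 : ∀ l l' : ℕ, ∫ y in (0 : ℝ)..(2 * Real.pi),
        Complex.exp (((l : ℂ) - (l' : ℂ)) * ((y - κ : ℝ) : ℂ) * Complex.I) =
        if l = l' then 2 * (Real.pi : ℂ) else 0 := by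
      intro l l'
      split_ifs with hl
      · subst hl
        simp
      · have hc : ((l : ℂ) - (l' : ℂ)) * Complex.I ≠ 0 := by
          refine mul_ne_zero (sub_ne_zero.2 ?_) Complex.I_ne_zero
          exact_mod_cast hl
        have h3 : ∀ y : ℝ, Complex.exp (((l : ℂ) - (l' : ℂ)) * ((y - κ : ℝ) : ℂ) * Complex.I) =
            Complex.exp (-(((l : ℂ) - (l' : ℂ)) * Complex.I) * κ) *
              Complex.exp ((((l : ℂ) - (l' : ℂ)) * Complex.I) * (y : ℂ)) := by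
          intro y
          rw [← Complex.exp_add]
          congr 1
          push_cast
          ring
        simp only [h3]
        rw [intervalIntegral.integral_const_mul, integral_exp_mul_complex hc]
        have h4 : Complex.exp (((l : ℂ) - (l' : ℂ)) * Complex.I * ((2 * Real.pi : ℝ) : ℂ)) = 1 := by
          have h5 : ((l : ℂ) - (l' : ℂ)) * Complex.I * ((2 * Real.pi : ℝ) : ℂ) =
              (((l : ℤ) - (l' : ℤ) : ℤ) : ℂ) * (2 * Real.pi * Complex.I) := by
            push_cast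
            ring
          rw [h5, Complex.exp_int_mul_two_pi_mul_I]
        rw [h4]
        simp
    rw [intervalIntegral.integral_const_mul, intervalIntegral.integral_finsetSum] at h1
    · have h3 : ∀ l ∈ range R, ∫ y in (0 : ℝ)..(2 * Real.pi), ∑ l' ∈ range R,
          Complex.exp (((l : ℂ) - (l' : ℂ)) * ((y - κ : ℝ) : ℂ) * Complex.I) =
          2 * (Real.pi : ℂ) := by
        intro l hl
        rw [intervalIntegral.integral_finsetSum]
        · rw [Finset.sum_congr rfl fun l' _ => h2 l l', Finset.sum_ite_eq, if_pos hl]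
        · intro l' _
          exact (hcont l l').intervalIntegrable _ _
      rw [Finset.sum_congr rfl h3, Finset.sum_const, Finset.card_range, nsmul_eq_mul] at h1
      have h4 : (1 / (R : ℂ) ^ 2) * (R * (2 * (Real.pi : ℂ))) = ((2 * Real.pi / R : ℝ) : ℂ) := by
        push_cast
        field_simp
      rw [h4] at h1
      exact_mod_cast h1
    · intro l _
      refine Continuous.intervalIntegrable ?_ _ _
      exact continuous_finsetSum _ fun l' _ => hcont l l'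
  have h1 : (∫ y in (0 : ℝ)..1, w R κ y) + ∫ y in (1 : ℝ)..(2 * Real.pi), w R κ y =
      ∫ y in (0 : ℝ)..(2 * Real.pi), w R κ y :=
    intervalIntegral.integral_add_adjacent_intervals (hint _ _) (hint _ _)
  have h2 : 0 ≤ ∫ y in (1 : ℝ)..(2 * Real.pi), w R κ y :=
    intervalIntegral.integral_nonneg (by linarith [Real.pi_gt_three]) fun y _ => w_nonneg R κ y
  linarith

/-- PROOF. For `k ≤ n` and `x ∈ [k/(n+1), (k+1)/(n+1)]` we have `|k/n - x| ≤ 1/(n+1)`
(since `k/(n+1) ≤ k/n ≤ (k+1)/(n+1)`), so by `w_lip`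
`w (k/n) / (n+1) ≤ ∫ x in k/(n+1)..(k+1)/(n+1), w x + (R/(n+1)) / (n+1)`. Sum over `k ≤ n`
(`intervalIntegral.sum_integral_adjacent_intervals`), use `w_int`. -/
theorem w_riemann {R : ℕ} (hR : 0 < R) {n : ℕ} (hn : 0 < n) (κ : ℝ) :
    (1 / ((n : ℝ) + 1)) * ∑ k ∈ range (n + 1), w R κ ((k : ℝ) / n) ≤
      2 * Real.pi / R + R / ((n : ℝ) + 1) := by
  have hn' : (0 : ℝ) < (n : ℝ) := by exact_mod_cast hn
  have hN : (0 : ℝ) < (n : ℝ) + 1 := by linarith
  have hint : ∀ a b : ℝ, IntervalIntegrable (w R κ) volume a b := fun a b =>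
    (continuous_w R κ).intervalIntegrable a b
  have hstep : ∀ k ∈ range (n + 1), (1 / ((n : ℝ) + 1)) * w R κ ((k : ℝ) / n) ≤
      (∫ x in ((k : ℝ) / ((n : ℝ) + 1))..(((k + 1 : ℕ) : ℝ) / ((n : ℝ) + 1)), w R κ x) +
        (1 / ((n : ℝ) + 1)) * (R / ((n : ℝ) + 1)) := by
    intro k hk
    have hkn : (k : ℝ) ≤ n := by exact_mod_cast Nat.lt_succ_iff.1 (Finset.mem_range.1 hk)
    have hk0 : (0 : ℝ) ≤ (k : ℝ) := Nat.cast_nonneg k
    have hab : (k : ℝ) / ((n : ℝ) + 1) ≤ ((k + 1 : ℕ) : ℝ) / ((n : ℝ) + 1) := by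
      refine div_le_div_of_nonneg_right ?_ hN.le
      push_cast
      linarith
    have hlen : ((k + 1 : ℕ) : ℝ) / ((n : ℝ) + 1) - (k : ℝ) / ((n : ℝ) + 1) = 1 / ((n : ℝ) + 1) := by
      push_cast
      ring
    have h1 : (k : ℝ) / ((n : ℝ) + 1) ≤ (k : ℝ) / n :=
      div_le_div_of_nonneg_left hk0 hn' (by linarith)
    have h2 : (k : ℝ) / n ≤ ((k + 1 : ℕ) : ℝ) / ((n : ℝ) + 1) := by
      rw [div_le_div_iff₀ hn' hN]
      push_cast
      nlinarith
    have h3 : ∀ x ∈ Set.Icc ((k : ℝ) / ((n : ℝ) + 1)) (((k + 1 : ℕ) : ℝ) / ((n : ℝ) + 1)),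
        w R κ ((k : ℝ) / n) - R / ((n : ℝ) + 1) ≤ w R κ x := by
      intro x hx
      have h4 := w_lip R κ ((k : ℝ) / n) x
      have h5 : |(k : ℝ) / n - x| ≤ 1 / ((n : ℝ) + 1) := by
        rw [abs_le]
        constructor
        · linarith [hx.2]
        · linarith [hx.1]
      have h6 : (R : ℝ) * |(k : ℝ) / n - x| ≤ R * (1 / ((n : ℝ) + 1)) :=
        mul_le_mul_of_nonneg_left h5 (Nat.cast_nonneg R)
      have h7 := le_abs_self (w R κ ((k : ℝ) / n) - w R κ x)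
      have h8 : (R : ℝ) * (1 / ((n : ℝ) + 1)) = R / ((n : ℝ) + 1) := by ring
      linarith
    have h4 := intervalIntegral.integral_mono_on hab intervalIntegrable_const (hint _ _) h3
    rw [intervalIntegral.integral_const, hlen, smul_eq_mul, mul_sub] at h4
    linarith
  have hsum := Finset.sum_le_sum hstep
  rw [← Finset.mul_sum, Finset.sum_add_distrib] at hsum
  have hadj : ∑ k ∈ range (n + 1),
      (∫ x in ((k : ℝ) / ((n : ℝ) + 1))..(((k + 1 : ℕ) : ℝ) / ((n : ℝ) + 1)), w R κ x) =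
      ∫ x in (0 : ℝ)..1, w R κ x := by
    have h1 := intervalIntegral.sum_integral_adjacent_intervals (μ := volume) (f := w R κ)
      (a := fun k : ℕ => (k : ℝ) / ((n : ℝ) + 1)) (n := n + 1) (fun k _ => hint _ _)
    rw [h1]
    have h2 : ((0 : ℕ) : ℝ) / ((n : ℝ) + 1) = 0 := by simp
    have h3 : ((n + 1 : ℕ) : ℝ) / ((n : ℝ) + 1) = 1 := by
      push_cast
      exact div_self hN.ne'
    rw [h2, h3]
  rw [hadj, Finset.sum_const, Finset.card_range, nsmul_eq_mul] at hsum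
  have h1 : ((n + 1 : ℕ) : ℝ) * (1 / ((n : ℝ) + 1) * (R / ((n : ℝ) + 1))) = R / ((n : ℝ) + 1) := by
    push_cast
    field_simp
  rw [h1] at hsum
  have h2 := w_int hR κ
  linarith

end Pool.Agent.Lib.MP_19d64f_an
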