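import Pool.Agent.Lib.MP_19d64f_an.A3
import Pool.Agent.Lib.MP_19d64f_an.F1
import Pool.Agent.Lib.MP_19d64f_an.W2
import Pool.Agent.Lib.MP_19d64f_an.C2

/-!
# Weighted correlations and the distribution of the frequency (C1)
-/

set_option autoImplicit false

namespace Pool.Agent.Lib.MP_19d64f_an

open Finset MeasureTheory

theorem corr_err {a : ℕ → ℝ} {n : ℕ} {ϕ g : ℝ → ℝ} {ε : ℝ} (h : Apx a n ϕ g ε)
    {j : ℕ} (hj : j ≤ n) (σ : ℝ) :
    ‖(∑ k ∈ range (n + 1 - j), (a k : ℂ) * (a (k + j) : ℂ) *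
        Complex.exp ((k : ℂ) * (σ : ℂ) * Complex.I)) / ((n : ℂ) + 1) -
      (1 / (2 * (Real.pi : ℂ))) * ∫ t in (0 : ℝ)..(2 * Real.pi),
        Complex.exp (((σ * g t : ℝ) : ℂ) * Complex.I) *
          Complex.exp ((j : ℂ) * (t : ℂ) * Complex.I)‖ ≤
      3 * ε + σ ^ 2 * VV g / (2 * Real.pi) := by
  have hpi : (Real.pi : ℂ) ≠ 0 := by exact_mod_cast Real.pi_ne_zero
  have hcP : Continuous (P a n) := (contDiff_P a n).continuous
  have hco : Continuous g := h.hg.continuous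
  have h1 := corr a n j hj σ
  have e1 : (∑ k ∈ range (n + 1 - j), (a k : ℂ) * (a (k + j) : ℂ) *
        Complex.exp ((k : ℂ) * (σ : ℂ) * Complex.I)) / ((n : ℂ) + 1) =
      (1 / (2 * (Real.pi : ℂ))) * ∫ t in (0 : ℝ)..(2 * Real.pi),
        (P a n (t + σ) * (starRingEnd ℂ) (P a n t) / ((n : ℂ) + 1)) *
          Complex.exp ((j : ℂ) * (t : ℂ) * Complex.I) := by
    have e2 : ∀ t : ℝ, (P a n (t + σ) * (starRingEnd ℂ) (P a n t) / ((n : ℂ) + 1)) *
          Complex.exp ((j : ℂ) * (t : ℂ) * Complex.I) =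
        (1 / ((n : ℂ) + 1)) * (P a n (t + σ) * (starRingEnd ℂ) (P a n t) *
          Complex.exp ((j : ℂ) * (t : ℂ) * Complex.I)) := by
      intro t
      ring
    simp_rw [e2]
    rw [intervalIntegral.integral_const_mul, h1]
    have e3 : ∀ Z : ℂ, Z / ((n : ℂ) + 1) =
        (1 / (2 * (Real.pi : ℂ))) * ((1 / ((n : ℂ) + 1)) * (2 * (Real.pi : ℂ) * Z)) := by
      intro Z
      field_simp
    exact e3 _
  rw [e1, ← mul_sub, ← intervalIntegral.integral_sub]
  · rw [norm_mul]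
    have h2 : ‖(1 / (2 * (Real.pi : ℂ)))‖ = 1 / (2 * Real.pi) := by
      rw [norm_div, norm_one, norm_mul, Complex.norm_real, Real.norm_of_nonneg Real.pi_pos.le]
      norm_num
    rw [h2]
    have h3 : ‖∫ t in (0 : ℝ)..(2 * Real.pi),
        ((P a n (t + σ) * (starRingEnd ℂ) (P a n t) / ((n : ℂ) + 1)) *
          Complex.exp ((j : ℂ) * (t : ℂ) * Complex.I) -
        Complex.exp (((σ * g t : ℝ) : ℂ) * Complex.I) *
          Complex.exp ((j : ℂ) * (t : ℂ) * Complex.I))‖ ≤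
        ∫ t in (0 : ℝ)..(2 * Real.pi),
          ‖P a n (t + σ) * (starRingEnd ℂ) (P a n t) / ((n : ℂ) + 1) -
          Complex.exp (((σ * g t : ℝ) : ℂ) * Complex.I)‖ := by
      refine (intervalIntegral.norm_integral_le_integral_norm (by positivity)).trans_eq ?_
      refine intervalIntegral.integral_congr fun t _ => ?_
      rw [← sub_mul, norm_mul]
      have h4 : (j : ℂ) * (t : ℂ) * Complex.I = (((j : ℝ) * t : ℝ) : ℂ) * Complex.I := by
        push_cast
        ring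
      rw [h4, Complex.norm_exp_ofReal_mul_I, mul_one]
    have h5 := trans h σ
    have h6 : (0 : ℝ) < 2 * Real.pi := by positivity
    rw [one_div, inv_mul_le_iff₀ h6]
    refine (h3.trans h5).trans (le_of_eq ?_)
    field_simp
    ring
  · refine Continuous.intervalIntegrable ?_ _ _
    fun_prop
  · refine Continuous.intervalIntegrable ?_ _ _
    fun_prop

theorem corr_w {a : ℕ → ℝ} {n : ℕ} {ϕ g : ℝ → ℝ} {ε : ℝ} (h : Apx a n ϕ g ε)
    (hn : 0 < n) {R : ℕ} (hR : 0 < R) (κ : ℝ) {j : ℕ} (hj : j ≤ n) :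
    |T a (fun k => w R κ ((k : ℝ) / n)) n j -
      mean (fun t => w R κ (g t / n) * Real.cos ((j : ℝ) * t))| ≤
      3 * ε + (R : ℝ) ^ 2 * VV g / (2 * Real.pi * (n : ℝ) ^ 2) := by
  have hco : Continuous g := h.hg.continuous
  have hnR : (0 : ℝ) < n := by exact_mod_cast hn
  have hRR : (0 : ℝ) < R := by exact_mod_cast hR
  have hTV : 0 ≤ VV g := VV_nonneg g
  set c : ℕ → ℕ → ℂ := fun l l' => Complex.exp (-(((l : ℂ) - (l' : ℂ)) * (κ : ℂ) * Complex.I)) with hc
  set σ : ℕ → ℕ → ℝ := fun l l' => ((l : ℝ) - (l' : ℝ)) / n with hσ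
  set S : ℝ → ℂ := fun s => ∑ k ∈ range (n + 1 - j), (a k : ℂ) * (a (k + j) : ℂ) *
        Complex.exp ((k : ℂ) * (s : ℂ) * Complex.I) with hS
  set J : ℝ → ℂ := fun s => (1 / (2 * (Real.pi : ℂ))) * ∫ t in (0 : ℝ)..(2 * Real.pi),
        Complex.exp (((s * g t : ℝ) : ℂ) * Complex.I) *
          Complex.exp ((j : ℂ) * (t : ℂ) * Complex.I) with hJ
  have hcn : ∀ l l', ‖c l l'‖ = 1 := by
    intro l l'
    simp only [hc]
    have : -(((l : ℂ) - (l' : ℂ)) * (κ : ℂ) * Complex.I) =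
        ((-(((l : ℝ) - (l' : ℝ)) * κ) : ℝ) : ℂ) * Complex.I := by
      push_cast
      ring
    rw [this, Complex.norm_exp_ofReal_mul_I]
  have hX : ((T a (fun k => w R κ ((k : ℝ) / n)) n j : ℝ) : ℂ) =
      (1 / (R : ℂ) ^ 2) * ∑ l ∈ range R, ∑ l' ∈ range R, c l l' * (S (σ l l') / ((n : ℂ) + 1)) := by
    unfold T
    push_cast
    have e1 : ∀ k : ℕ, ((w R κ ((k : ℝ) / n) : ℝ) : ℂ) * ((a k : ℂ) * (a (k + j) : ℂ)) =
        (1 / (R : ℂ) ^ 2) * ∑ l ∈ range R, ∑ l' ∈ range R, c l l' *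
          ((a k : ℂ) * (a (k + j) : ℂ) *
            Complex.exp ((k : ℂ) * ((σ l l' : ℝ) : ℂ) * Complex.I)) := by
      intro k
      rw [w_expand, mul_assoc, Finset.sum_mul]
      congr 1
      refine Finset.sum_congr rfl fun l _ => ?_
      rw [Finset.sum_mul]
      refine Finset.sum_congr rfl fun l' _ => ?_
      simp only [hc, hσ]
      have e2 : ((l : ℂ) - (l' : ℂ)) * (((k : ℝ) / n - κ : ℝ) : ℂ) * Complex.I =
          -(((l : ℂ) - (l' : ℂ)) * (κ : ℂ) * Complex.I) +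
            (k : ℂ) * ((((l : ℝ) - (l' : ℝ)) / n : ℝ) : ℂ) * Complex.I := by
        push_cast
        ring
      rw [e2, Complex.exp_add]
      ring
    simp_rw [e1]
    rw [← Finset.mul_sum, Finset.sum_comm]
    rw [← mul_assoc, mul_comm (1 / ((n : ℂ) + 1)) (1 / (R : ℂ) ^ 2), mul_assoc]
    congr 1
    rw [Finset.mul_sum]
    refine Finset.sum_congr rfl fun l _ => ?_
    rw [Finset.sum_comm, Finset.mul_sum]
    refine Finset.sum_congr rfl fun l' _ => ?_
    rw [← Finset.mul_sum]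
    simp only [hS]
    ring
  have hY : (1 / (2 * (Real.pi : ℂ))) * (∫ t in (0 : ℝ)..(2 * Real.pi),
      ((w R κ (g t / n) : ℝ) : ℂ) * Complex.exp ((j : ℂ) * (t : ℂ) * Complex.I)) =
      (1 / (R : ℂ) ^ 2) * ∑ l ∈ range R, ∑ l' ∈ range R, c l l' * J (σ l l') := by
    have e1 : ∀ t : ℝ, ((w R κ (g t / n) : ℝ) : ℂ) *
        Complex.exp ((j : ℂ) * (t : ℂ) * Complex.I) =
        (1 / (R : ℂ) ^ 2) * ∑ l ∈ range R, ∑ l' ∈ range R, c l l' *
          (Complex.exp (((σ l l' * g t : ℝ) : ℂ) * Complex.I) *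
          Complex.exp ((j : ℂ) * (t : ℂ) * Complex.I)) := by
      intro t
      rw [w_expand, mul_assoc, Finset.sum_mul]
      congr 1
      refine Finset.sum_congr rfl fun l _ => ?_
      rw [Finset.sum_mul]
      refine Finset.sum_congr rfl fun l' _ => ?_
      simp only [hc, hσ]
      have e2 : ((l : ℂ) - (l' : ℂ)) * ((g t / n - κ : ℝ) : ℂ) * Complex.I =
          -(((l : ℂ) - (l' : ℂ)) * (κ : ℂ) * Complex.I) +
            ((((l : ℝ) - (l' : ℝ)) / n * g t : ℝ) : ℂ) * Complex.I := by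
        push_cast
        ring
      rw [e2, Complex.exp_add]
      ring
    simp_rw [e1]
    rw [intervalIntegral.integral_const_mul, ← mul_assoc,
      mul_comm (1 / (2 * (Real.pi : ℂ))) (1 / (R : ℂ) ^ 2), mul_assoc]
    congr 1
    rw [intervalIntegral.integral_finsetSum, Finset.mul_sum]
    · refine Finset.sum_congr rfl fun l _ => ?_
      rw [intervalIntegral.integral_finsetSum, Finset.mul_sum]
      · refine Finset.sum_congr rfl fun l' _ => ?_
        rw [intervalIntegral.integral_const_mul]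
        simp only [hJ]
        ring
      · intro l' _
        refine Continuous.intervalIntegrable ?_ _ _
        fun_prop
    · intro l _
      refine Continuous.intervalIntegrable ?_ _ _
      fun_prop
  have hdiff : ‖((T a (fun k => w R κ ((k : ℝ) / n)) n j : ℝ) : ℂ) -
      (1 / (2 * (Real.pi : ℂ))) * (∫ t in (0 : ℝ)..(2 * Real.pi),
      ((w R κ (g t / n) : ℝ) : ℂ) * Complex.exp ((j : ℂ) * (t : ℂ) * Complex.I))‖ ≤
      3 * ε + (R : ℝ) ^ 2 * VV g / (2 * Real.pi * (n : ℝ) ^ 2) := by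
    rw [hX, hY, ← mul_sub, ← Finset.sum_sub_distrib]
    simp_rw [← Finset.sum_sub_distrib, ← mul_sub]
    rw [norm_mul, norm_div, norm_one, norm_pow, Complex.norm_natCast]
    have hb : ∀ l ∈ range R, ∀ l' ∈ range R,
        ‖c l l' * (S (σ l l') / ((n : ℂ) + 1) - J (σ l l'))‖ ≤
        3 * ε + (R : ℝ) ^ 2 * VV g / (2 * Real.pi * (n : ℝ) ^ 2) := by
      intro l hl l' hl'
      rw [norm_mul, hcn, one_mul]
      refine (corr_err h hj (σ l l')).trans ?_
      have hl1 : (l : ℝ) ≤ R := by exact_mod_cast (Finset.mem_range.1 hl).le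
      have hl2 : (l' : ℝ) ≤ R := by exact_mod_cast (Finset.mem_range.1 hl').le
      have hl3 : (0 : ℝ) ≤ l := Nat.cast_nonneg _
      have hl4 : (0 : ℝ) ≤ l' := Nat.cast_nonneg _
      have h1 : (σ l l') ^ 2 ≤ (R : ℝ) ^ 2 / (n : ℝ) ^ 2 := by
        simp only [hσ]
        rw [div_pow]
        refine div_le_div_of_nonneg_right ?_ (by positivity)
        exact sq_le_sq' (by linarith) (by linarith)
      have h2 : (σ l l') ^ 2 * VV g / (2 * Real.pi) ≤
          (R : ℝ) ^ 2 / (n : ℝ) ^ 2 * VV g / (2 * Real.pi) := by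
        refine div_le_div_of_nonneg_right ?_ (by positivity)
        exact mul_le_mul_of_nonneg_right h1 hTV
      have h3 : (R : ℝ) ^ 2 / (n : ℝ) ^ 2 * VV g / (2 * Real.pi) =
          (R : ℝ) ^ 2 * VV g / (2 * Real.pi * (n : ℝ) ^ 2) := by
        field_simp
      linarith
    have hsum : ‖∑ l ∈ range R, ∑ l' ∈ range R,
        c l l' * (S (σ l l') / ((n : ℂ) + 1) - J (σ l l'))‖ ≤
        (R : ℝ) * ((R : ℝ) * (3 * ε + (R : ℝ) ^ 2 * VV g / (2 * Real.pi * (n : ℝ) ^ 2))) := by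
      refine (norm_sum_le _ _).trans ?_
      refine (Finset.sum_le_sum fun l hl => (norm_sum_le _ _).trans
        (Finset.sum_le_sum fun l' hl' => hb l hl l' hl')).trans ?_
      simp only [Finset.sum_const, Finset.card_range, nsmul_eq_mul]
      exact le_refl _
    calc 1 / (R : ℝ) ^ 2 * _ ≤ 1 / (R : ℝ) ^ 2 * ((R : ℝ) * ((R : ℝ) *
          (3 * ε + (R : ℝ) ^ 2 * VV g / (2 * Real.pi * (n : ℝ) ^ 2)))) :=
          mul_le_mul_of_nonneg_left hsum (by positivity)
      _ = _ := by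
        field_simp
  have hre : ((1 / (2 * (Real.pi : ℂ))) * (∫ t in (0 : ℝ)..(2 * Real.pi),
      ((w R κ (g t / n) : ℝ) : ℂ) * Complex.exp ((j : ℂ) * (t : ℂ) * Complex.I))).re =
      mean (fun t => w R κ (g t / n) * Real.cos ((j : ℝ) * t)) := by
    have e1 : (1 / (2 * (Real.pi : ℂ))) = ((1 / (2 * Real.pi) : ℝ) : ℂ) := by push_cast; ring
    rw [e1, Complex.re_ofReal_mul]
    unfold mean
    congr 1
    have hcw := continuous_w R κ
    have h1 := Complex.reCLM.intervalIntegral_comp_comm (μ := volume)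
      (a := 0) (b := 2 * Real.pi)
      (f := fun t : ℝ => ((w R κ (g t / n) : ℝ) : ℂ) *
        Complex.exp ((j : ℂ) * (t : ℂ) * Complex.I)) (by
          refine Continuous.intervalIntegrable ?_ _ _
          fun_prop)
    simp only [Complex.reCLM_apply] at h1
    rw [← h1]
    refine intervalIntegral.integral_congr fun t _ => ?_
    rw [Complex.re_ofReal_mul]
    congr 1
    have h2 : (j : ℂ) * (t : ℂ) * Complex.I = (((j : ℝ) * t : ℝ) : ℂ) * Complex.I := by
      push_cast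
      ring
    rw [h2, Complex.exp_ofReal_mul_I_re]
  rw [← hre]
  have h7 : T a (fun k => w R κ ((k : ℝ) / n)) n j =
      ((T a (fun k => w R κ ((k : ℝ) / n)) n j : ℝ) : ℂ).re := (Complex.ofReal_re _).symm
  rw [h7, ← Complex.sub_re]
  exact (Complex.abs_re_le_norm _).trans hdiff

end Pool.Agent.Lib.MP_19d64f_an
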