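import Pool.Agent.Lib.MP_19d64f_an.Defs

/-!
# Simultaneous approximation, counting, a level set, the triangle inequality (D1)
-/

set_option autoImplicit false

namespace Pool.Agent.Lib.MP_19d64f_an

open Finset MeasureTheory

/-- PROOF. Pigeonhole: map `j ∈ {0, ..., 12^#s}` to the function
`i ∈ s ↦ ⌊12 * Int.fract (j * θ i / (2π))⌋ ∈ {0,...,11}`; there are `12^#s` functions and
`12^#s + 1` values of `j`, so two `j < j'` have the same image; `m = j' - j`. Then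
`|m θ_i/(2π) - l| < 1/12` with `l = ⌊j' θ_i/(2π)⌋ - ⌊j θ_i/(2π)⌋`. -/
theorem dirichlet (s : Finset ℕ) (θ : ℕ → ℝ) :
    ∃ m : ℕ, 1 ≤ m ∧ m ≤ 12 ^ s.card ∧
      ∀ i ∈ s, ∃ l : ℤ, |(m : ℝ) * θ i - 2 * Real.pi * l| ≤ Real.pi / 6 := by
  classical
  have hpi : 0 < Real.pi := Real.pi_pos
  let x : ℕ → ℕ → ℝ := fun j i => Int.fract ((j : ℝ) * θ i / (2 * Real.pi))
  have hx0 : ∀ j i, 0 ≤ 12 * x j i := fun j i => mul_nonneg (by norm_num) (Int.fract_nonneg _)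
  have hx1 : ∀ j i, 12 * x j i < 12 := fun j i => by
    have := Int.fract_lt_one ((j : ℝ) * θ i / (2 * Real.pi))
    have h2 : x j i < 1 := this
    linarith
  let f : Fin (12 ^ s.card + 1) → (s → Fin 12) := fun j i =>
    ⟨⌊12 * x j i⌋₊, (Nat.floor_lt (hx0 j i)).2 (by exact_mod_cast hx1 j i)⟩
  have hcard : Fintype.card (s → Fin 12) < Fintype.card (Fin (12 ^ s.card + 1)) := by
    rw [Fintype.card_fun, Fintype.card_fin, Fintype.card_fin, Fintype.card_coe]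
    omega
  obtain ⟨j, j', hne, hf⟩ := Fintype.exists_ne_map_eq_of_card_lt f hcard
  have main : ∀ a b : Fin (12 ^ s.card + 1), a < b → f a = f b →
      ∃ m : ℕ, 1 ≤ m ∧ m ≤ 12 ^ s.card ∧
      ∀ i ∈ s, ∃ l : ℤ, |(m : ℝ) * θ i - 2 * Real.pi * l| ≤ Real.pi / 6 := by
    intro a b hab hfab
    have hab' : (a : ℕ) < (b : ℕ) := hab
    have hb := b.2
    refine ⟨(b : ℕ) - (a : ℕ), by omega, by omega, fun i hi => ?_⟩
    refine ⟨⌊((b : ℕ) : ℝ) * θ i / (2 * Real.pi)⌋ - ⌊((a : ℕ) : ℝ) * θ i / (2 * Real.pi)⌋, ?_⟩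
    have h1 : ⌊12 * x a i⌋₊ = ⌊12 * x b i⌋₊ := by
      have h2 := congrFun hfab ⟨i, hi⟩
      exact congrArg Fin.val h2
    have h3 : |x b i - x a i| < 1 / 12 := by
      have ha1 := Nat.floor_le (hx0 a i)
      have ha2 := Nat.lt_floor_add_one (12 * x a i)
      have hb1 := Nat.floor_le (hx0 b i)
      have hb2 := Nat.lt_floor_add_one (12 * x b i)
      rw [h1] at ha1 ha2
      rw [abs_lt]
      constructor <;> linarith
    have h4 : (((b : ℕ) - (a : ℕ) : ℕ) : ℝ) * θ i - 2 * Real.pi *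
        ((⌊((b : ℕ) : ℝ) * θ i / (2 * Real.pi)⌋ - ⌊((a : ℕ) : ℝ) * θ i / (2 * Real.pi)⌋ : ℤ) : ℝ) =
        2 * Real.pi * (x b i - x a i) := by
      have h5 : x b i = ((b : ℕ) : ℝ) * θ i / (2 * Real.pi) -
        (⌊((b : ℕ) : ℝ) * θ i / (2 * Real.pi)⌋ : ℝ) := rfl
      have h6 : x a i = ((a : ℕ) : ℝ) * θ i / (2 * Real.pi) -
        (⌊((a : ℕ) : ℝ) * θ i / (2 * Real.pi)⌋ : ℝ) := rfl
      rw [h5, h6, Nat.cast_sub hab'.le, Int.cast_sub]
      field_simp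
      ring
    rw [h4, abs_mul, abs_of_pos (by positivity : (0 : ℝ) < 2 * Real.pi)]
    nlinarith [abs_nonneg (x b i - x a i)]
  rcases lt_or_gt_of_ne hne with h | h
  · exact main j j' h hf
  · exact main j' j h hf.symm

end Pool.Agent.Lib.MP_19d64f_an
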