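import Pool.Agent.Lib.MP_19d64f_an.Defs

/-!
# Counting the relevant arcs (D2)
-/

set_option autoImplicit false

namespace Pool.Agent.Lib.MP_19d64f_an

open Finset MeasureTheory

/-- The arc number `i` (of `Q`) contains a point where `y` is `η`-close to `2πj/R` modulo `2π`. -/
def Rel (y : ℝ → ℝ) (Q R : ℕ) (η : ℝ) (i j : ℕ) : Prop :=
  ∃ t : ℝ, 2 * Real.pi * i / Q ≤ t ∧ t ≤ 2 * Real.pi * (i + 1) / Q ∧
    ∃ l : ℤ, |y t - 2 * Real.pi * j / R - 2 * Real.pi * l| < η

private theorem D2_dist {y : ℝ → ℝ} (hy : ContDiff ℝ 1 y) {a b t : ℝ} (h1 : a ≤ t) (h2 : t ≤ b) :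
    |y t - y a| ≤ ∫ s in a..b, |deriv y s| := by
  have hc : Continuous (deriv y) := hy.continuous_deriv (le_refl _)
  have hd : ∀ s, HasDerivAt y (deriv y s) s := fun s =>
    (hy.differentiable one_ne_zero s).hasDerivAt
  have e : y t - y a = ∫ s in a..t, deriv y s :=
    (intervalIntegral.integral_eq_sub_of_hasDerivAt (fun s _ => hd s)
      (hc.intervalIntegrable a t)).symm
  rw [e]
  refine (intervalIntegral.abs_integral_le_integral_abs h1).trans ?_
  refine intervalIntegral.integral_mono_interval (le_refl a) h1 h2 ?_ (hc.abs.intervalIntegrable a b)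
  exact Filter.Eventually.of_forall (fun s => abs_nonneg _)

private theorem D2_card (S : Finset ℕ) (R : ℕ) (J : ℕ → ℤ) (x z : ℝ) (hxz : x ≤ z)
    (hS : ∀ j ∈ S, j < R) (hJ : ∀ j ∈ S, ∃ l : ℤ, J j = (j : ℤ) + R * l)
    (h1 : ∀ j ∈ S, x ≤ (J j : ℝ)) (h2 : ∀ j ∈ S, (J j : ℝ) ≤ z) :
    (S.card : ℝ) ≤ z - x + 1 := by
  have hc : S.card ≤ (Finset.Icc ⌈x⌉ ⌊z⌋).card := by
    refine Finset.card_le_card_of_injOn J ?_ ?_
    · intro j hj
      exact Finset.mem_coe.2 (Finset.mem_Icc.2 ⟨Int.ceil_le.2 (h1 j hj), Int.le_floor.2 (h2 j hj)⟩)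
    · intro j hj k hk hjk
      have hj' : j ∈ S := hj
      have hk' : k ∈ S := hk
      obtain ⟨l, hl⟩ := hJ j hj'
      obtain ⟨m, hm⟩ := hJ k hk'
      have e1 : (J j) % (R : ℤ) = j := by
        rw [hl, Int.add_mul_emod_self_left]
        exact Int.emod_eq_of_lt (Int.natCast_nonneg j) (by exact_mod_cast hS j hj')
      have e2 : (J k) % (R : ℤ) = k := by
        rw [hm, Int.add_mul_emod_self_left]
        exact Int.emod_eq_of_lt (Int.natCast_nonneg k) (by exact_mod_cast hS k hk')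
      have e3 : (j : ℤ) = k := by rw [← e1, ← e2, hjk]
      exact_mod_cast e3
  have h3 : ((Finset.Icc ⌈x⌉ ⌊z⌋).card : ℝ) ≤ z - x + 1 := by
    rw [Int.card_Icc]
    have hz : (⌊z⌋ : ℝ) ≤ z := Int.floor_le z
    have hx : x ≤ (⌈x⌉ : ℝ) := Int.le_ceil x
    rcases le_total (⌊z⌋ + 1 - ⌈x⌉) 0 with h | h
    · rw [Int.toNat_of_nonpos h]
      push_cast
      linarith
    · have h4 : (((⌊z⌋ + 1 - ⌈x⌉).toNat : ℤ) : ℝ) = ((⌊z⌋ + 1 - ⌈x⌉ : ℤ) : ℝ) := by
        rw [Int.toNat_of_nonneg h]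
      have h5 : (((⌊z⌋ + 1 - ⌈x⌉).toNat : ℕ) : ℝ) = (⌊z⌋ : ℝ) + 1 - (⌈x⌉ : ℝ) := by
        have := h4
        push_cast at this
        exact_mod_cast this
      rw [h5]
      linarith
  have h6 : (S.card : ℝ) ≤ ((Finset.Icc ⌈x⌉ ⌊z⌋).card : ℝ) := by exact_mod_cast hc
  linarith

open scoped Classical in
private theorem D2_one {y : ℝ → ℝ} (hy : ContDiff ℝ 1 y) {Q R : ℕ} (hQ : 0 < Q) (hR : 0 < R)
    {η : ℝ} (hη : 0 ≤ η) (i : ℕ) :
    (((range R).filter (fun j => Rel y Q R η i j)).card : ℝ) ≤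
      (η + ∫ s in (2 * Real.pi * i / Q)..(2 * Real.pi * ((i + 1 : ℕ) : ℝ) / Q), |deriv y s|) * R / 3
        + 1 := by
  have hpi := Real.pi_pos
  have hQ' : (0 : ℝ) < Q := by exact_mod_cast hQ
  have hR' : (0 : ℝ) < R := by exact_mod_cast hR
  set V := ∫ s in (2 * Real.pi * i / Q)..(2 * Real.pi * ((i + 1 : ℕ) : ℝ) / Q), |deriv y s| with hV
  have hab : 2 * Real.pi * i / Q ≤ 2 * Real.pi * ((i + 1 : ℕ) : ℝ) / Q := by
    apply div_le_div_of_nonneg_right _ hQ'.le
    push_cast
    nlinarith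
  have hV0 : 0 ≤ V := intervalIntegral.integral_nonneg hab (fun s _ => abs_nonneg _)
  set p := y (2 * Real.pi * i / Q) with hp
  have key : ∀ j, Rel y Q R η i j → ∃ l : ℤ,
      |p - 2 * Real.pi * j / R - 2 * Real.pi * l| < η + V := by
    rintro j ⟨t, ht1, ht2, l, hl⟩
    refine ⟨l, ?_⟩
    have h1 : |y t - p| ≤ V := by
      refine D2_dist hy ht1 ?_
      push_cast
      exact ht2
    have e : p - 2 * Real.pi * j / R - 2 * Real.pi * l =
        (y t - 2 * Real.pi * j / R - 2 * Real.pi * l) - (y t - p) := by ring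
    rw [e]
    have h2 := abs_sub (y t - 2 * Real.pi * j / R - 2 * Real.pi * l) (y t - p)
    linarith
  let L : ℕ → ℤ := fun j => if h : Rel y Q R η i j then (key j h).choose else 0
  have hL : ∀ j ∈ (range R).filter (fun j => Rel y Q R η i j),
      |p - 2 * Real.pi * j / R - 2 * Real.pi * (L j : ℝ)| < η + V := by
    intro j hj
    have h := (Finset.mem_filter.1 hj).2
    have h2 := (key j h).choose_spec
    have e : L j = (key j h).choose := dif_pos h
    rw [e]
    exact h2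
  have hc := D2_card ((range R).filter (fun j => Rel y Q R η i j)) R
    (fun j => (j : ℤ) + R * L j) ((p - (η + V)) * R / (2 * Real.pi))
    ((p + (η + V)) * R / (2 * Real.pi)) (by
      apply div_le_div_of_nonneg_right _ (by positivity)
      apply mul_le_mul_of_nonneg_right _ hR'.le
      linarith)
    (fun j hj => Finset.mem_range.1 (Finset.mem_filter.1 hj).1)
    (fun j _ => ⟨L j, rfl⟩)
    (by
      intro j hj
      have h := (abs_lt.1 (hL j hj)).2
      rw [div_le_iff₀ (by positivity)]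
      push_cast
      have e : ((j : ℝ) + R * (L j : ℝ)) * (2 * Real.pi) =
        (2 * Real.pi * j / R + 2 * Real.pi * (L j : ℝ)) * R := by
        field_simp
      rw [e]
      apply mul_le_mul_of_nonneg_right _ hR'.le
      linarith)
    (by
      intro j hj
      have h := (abs_lt.1 (hL j hj)).1
      rw [le_div_iff₀ (by positivity)]
      push_cast
      have e : ((j : ℝ) + R * (L j : ℝ)) * (2 * Real.pi) =
        (2 * Real.pi * j / R + 2 * Real.pi * (L j : ℝ)) * R := by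
        field_simp
      rw [e]
      apply mul_le_mul_of_nonneg_right _ hR'.le
      linarith)
  refine hc.trans ?_
  have e : (p + (η + V)) * R / (2 * Real.pi) - (p - (η + V)) * R / (2 * Real.pi) =
      (η + V) * R / Real.pi := by
    field_simp
    ring
  rw [e]
  have h3 : (η + V) * R / Real.pi ≤ (η + V) * R / 3 := by
    apply div_le_div_of_nonneg_left _ (by norm_num) Real.pi_gt_three.le
    positivity
  linarith

open scoped Classical in
/-- PROOF. Fix `i`, put `p = y (2πi/Q)`, `V_i = ∫ |deriv y|` over the arc `i`. If `Rel i j` holds by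
`t, l` then `|y t - p| ≤ V_i`, so the integer `J = j + R l` satisfies `|p - 2πJ/R| < η + V_i`.
Different `j < R` give different `J`; the number of such integers `J` is at most
`2 (η + V_i) R / (2π) + 1 ≤ (η + V_i) R / 3 + 1` (`π > 3`). Exchange the sums, sum over `i`:
`∑ V_i = ∫_0^{2π} |deriv y|`. -/
theorem count {y : ℝ → ℝ} (hy : ContDiff ℝ 1 y) {Q R : ℕ} (hQ : 0 < Q) (hR : 0 < R) {η : ℝ}
    (hη : 0 ≤ η) :
    ((∑ j ∈ range R, ((range Q).filter (fun i => Rel y Q R η i j)).card : ℕ) : ℝ) ≤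
      (η * Q + ∫ t in (0 : ℝ)..(2 * Real.pi), |deriv y t|) * R / 3 + Q := by
  have hQ' : (0 : ℝ) < Q := by exact_mod_cast hQ
  have hc : Continuous (fun s => |deriv y s|) := (hy.continuous_deriv (le_refl _)).abs
  have e1 : (∑ j ∈ range R, ((range Q).filter (fun i => Rel y Q R η i j)).card : ℕ) =
      ∑ i ∈ range Q, ((range R).filter (fun j => Rel y Q R η i j)).card := by
    simp only [Finset.card_filter]
    exact Finset.sum_comm
  rw [e1]
  push_cast
  have e2 : (∑ i ∈ range Q, ∫ s in (2 * Real.pi * (i : ℝ) / Q)..(2 * Real.pi * ((i + 1 : ℕ) : ℝ) / Q),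
      |deriv y s|) = ∫ t in (0 : ℝ)..(2 * Real.pi), |deriv y t| := by
    have h := intervalIntegral.sum_integral_adjacent_intervals
      (a := fun k : ℕ => 2 * Real.pi * (k : ℝ) / Q) (n := Q) (μ := volume)
      (f := fun s => |deriv y s|) (fun k _ => hc.intervalIntegrable _ _)
    rw [h]
    have h0 : 2 * Real.pi * ((0 : ℕ) : ℝ) / Q = 0 := by simp
    have hq : 2 * Real.pi * ((Q : ℕ) : ℝ) / Q = 2 * Real.pi := by field_simp
    rw [h0, hq]
  rw [← e2]
  refine (Finset.sum_le_sum (fun i _ => D2_one hy hQ hR hη i)).trans (le_of_eq ?_)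
  rw [Finset.sum_add_distrib, ← Finset.sum_div, ← Finset.sum_mul, Finset.sum_add_distrib]
  simp only [Finset.sum_const, Finset.card_range, nsmul_eq_mul, mul_one]
  ring

end Pool.Agent.Lib.MP_19d64f_an
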