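import Mathlib

/-!
# Flat Littlewood polynomials: definitions

`P a n t = ∑_{k ≤ n} a_k e^{ikt}`, its frequency `om`, flatness, the total variation of the
frequency, the Fejér weights `w`.
-/

set_option autoImplicit false

namespace Pool.Agent.Lib.MP_19d64f_an

open Finset MeasureTheory

/-- `P a n t = ∑_{k ≤ n} a_k e^{ikt}`. -/
noncomputable def P (a : ℕ → ℝ) (n : ℕ) (t : ℝ) : ℂ :=
  ∑ k ∈ range (n + 1), (a k : ℂ) * Complex.exp ((k : ℂ) * (t : ℂ) * Complex.I)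

/-- `P1 a n t = ∑_{k ≤ n} k a_k e^{ikt}`. -/
noncomputable def P1 (a : ℕ → ℝ) (n : ℕ) (t : ℝ) : ℂ :=
  ∑ k ∈ range (n + 1), (k : ℂ) * (a k : ℂ) * Complex.exp ((k : ℂ) * (t : ℂ) * Complex.I)

/-- The frequency at `t`: the real part of `z P'(z) / P(z)` at `z = e^{it}`. -/
noncomputable def om (a : ℕ → ℝ) (n : ℕ) (t : ℝ) : ℝ := (P1 a n t / P a n t).re

/-- The coefficients are `1` or `-1`. -/
def Lit (a : ℕ → ℝ) : Prop := ∀ k, a k = 1 ∨ a k = -1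

/-- `| |P| - √(n+1) | ≤ ε √(n+1)` everywhere. -/
def Flat (a : ℕ → ℝ) (n : ℕ) (ε : ℝ) : Prop :=
  ∀ t : ℝ, |‖P a n t‖ - Real.sqrt ((n : ℝ) + 1)| ≤ ε * Real.sqrt ((n : ℝ) + 1)

/-- The total variation of the frequency over one period. -/
noncomputable def TV (a : ℕ → ℝ) (n : ℕ) : ℝ :=
  ∫ t in (0 : ℝ)..(2 * Real.pi), |deriv (om a n) t|

/-- The Fejér weight of order `R` centred at `κ`. -/
noncomputable def w (R : ℕ) (κ y : ℝ) : ℝ :=
  ‖(1 / (R : ℂ)) * ∑ l ∈ range R, Complex.exp ((l : ℂ) * ((y - κ : ℝ) : ℂ) * Complex.I)‖ ^ 2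

/-- The mean over one period. -/
noncomputable def mean (g : ℝ → ℝ) : ℝ := (1 / (2 * Real.pi)) * ∫ t in (0 : ℝ)..(2 * Real.pi), g t

end Pool.Agent.Lib.MP_19d64f_an
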