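import Pool.Agent.Lib.MP_19d64f_an.C1

/-!
# The key inequality for one lag (E1)
-/

set_option autoImplicit false

namespace Pool.Agent.Lib.MP_19d64f_an

open Finset MeasureTheory

theorem mean_add {f g : ℝ → ℝ} (hf : IntervalIntegrable f volume 0 (2 * Real.pi))
    (hg : IntervalIntegrable g volume 0 (2 * Real.pi)) :
    mean (fun t => f t + g t) = mean f + mean g := by
  unfold mean
  rw [intervalIntegral.integral_add hf hg, mul_add]

theorem mean_sub {f g : ℝ → ℝ} (hf : IntervalIntegrable f volume 0 (2 * Real.pi))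
    (hg : IntervalIntegrable g volume 0 (2 * Real.pi)) :
    mean (fun t => f t - g t) = mean f - mean g := by
  unfold mean
  rw [intervalIntegral.integral_sub hf hg, mul_sub]

theorem mean_const_mul (c : ℝ) (f : ℝ → ℝ) : mean (fun t => c * f t) = c * mean f := by
  unfold mean
  rw [intervalIntegral.integral_const_mul]
  ring

theorem mean_const (c : ℝ) : mean (fun _ => c) = c := by
  unfold mean
  rw [intervalIntegral.integral_const, smul_eq_mul]
  field_simp
  ring

theorem mean_mono {f g : ℝ → ℝ} (hf : IntervalIntegrable f volume 0 (2 * Real.pi))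
    (hg : IntervalIntegrable g volume 0 (2 * Real.pi))
    (h : ∀ t, 0 ≤ t → t ≤ 2 * Real.pi → f t ≤ g t) : mean f ≤ mean g := by
  unfold mean
  refine mul_le_mul_of_nonneg_left ?_ (by positivity)
  exact intervalIntegral.integral_mono_on (by positivity) hf hg fun t ht => h t ht.1 ht.2

theorem mean_sum {ι : Type*} (s : Finset ι) (f : ι → ℝ → ℝ)
    (hf : ∀ i ∈ s, IntervalIntegrable (f i) volume 0 (2 * Real.pi)) :
    mean (fun t => ∑ i ∈ s, f i t) = ∑ i ∈ s, mean (f i) := by
  unfold mean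
  rw [intervalIntegral.integral_finsetSum hf, Finset.mul_sum]

theorem star {a : ℕ → ℝ} {n : ℕ} {ϕ g : ℝ → ℝ} {ε : ℝ} (ha : Lit a) (h : Apx a n ϕ g ε)
    (hn : 0 < n) {R : ℕ} (hR : 0 < R) (κ : ℝ) {m : ℕ} (hm : 2 * m ≤ n) :
    mean (fun t => w R κ (g t / n) *
      (2 * Real.cos ((m : ℝ) * t) * (1 - Real.cos ((m : ℝ) * t)))) ≤
      4 * (3 * ε + (R : ℝ) ^ 2 * VV g / (2 * Real.pi * (n : ℝ) ^ 2)) +
        2 * m / ((n : ℝ) + 1) + 2 * (R * m / n) := by
  have hco : Continuous g := h.hg.continuous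
  have hcw := continuous_w R κ
  have hnR : (0 : ℝ) < n := by exact_mod_cast hn
  set E := 3 * ε + (R : ℝ) ^ 2 * VV g / (2 * Real.pi * (n : ℝ) ^ 2) with hE
  set v : ℕ → ℝ := fun k => w R κ ((k : ℝ) / n) with hv
  have h0 := abs_le.1 (corr_w h hn hR κ (Nat.zero_le n))
  have h1 := abs_le.1 (corr_w h hn hR κ (j := m) (by omega))
  have h2 := abs_le.1 (corr_w h hn hR κ (j := 2 * m) hm)
  have ht := tri (a := a) (v := v) ha hm (L := R * m / n) (fun k => w_nonneg R κ _)
    (fun k => w_le_one R κ _) (by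
      intro k
      simp only [hv]
      refine (w_lip R κ _ _).trans (le_of_eq ?_)
      have : (((k + m : ℕ) : ℝ) / n - (k : ℝ) / n) = m / n := by
        push_cast
        ring
      rw [this, abs_of_nonneg (by positivity)]
      ring)
  have e : ∀ t : ℝ, w R κ (g t / n) *
      (2 * Real.cos ((m : ℝ) * t) * (1 - Real.cos ((m : ℝ) * t))) =
      2 * (w R κ (g t / n) * Real.cos ((m : ℝ) * t)) -
        w R κ (g t / n) * Real.cos (((0 : ℕ) : ℝ) * t) -
        w R κ (g t / n) * Real.cos (((2 * m : ℕ) : ℝ) * t) := by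
    intro t
    have e1 : (((2 * m : ℕ) : ℝ) * t) = 2 * ((m : ℝ) * t) := by
      push_cast
      ring
    rw [e1, Real.cos_two_mul]
    simp
    ring
  simp_rw [e]
  rw [mean_sub, mean_sub, mean_const_mul]
  · linarith [h0.1, h0.2, h1.1, h1.2, h2.1, h2.2]
  · refine Continuous.intervalIntegrable ?_ _ _
    fun_prop
  · refine Continuous.intervalIntegrable ?_ _ _
    fun_prop
  · refine Continuous.intervalIntegrable ?_ _ _
    fun_prop
  · refine Continuous.intervalIntegrable ?_ _ _
    fun_prop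

end Pool.Agent.Lib.MP_19d64f_an
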