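import Pool.Agent.Lib.MP_19d64f_an.Defs

/-!
# A level set (M1)
-/

set_option autoImplicit false

namespace Pool.Agent.Lib.MP_19d64f_an

open Finset MeasureTheory

/-- The level set. -/
private def M1_S (θ : ℝ) : Set ℝ := {x | 1 - Real.cos x < θ}

private theorem M1_meas (θ : ℝ) : MeasurableSet (M1_S θ) :=
  measurableSet_lt (measurable_const.sub Real.measurable_cos) measurable_const

private theorem M1_sub {θ : ℝ} (hθ : 0 < θ) :
    M1_S θ ∩ Set.Ioc (-Real.pi) Real.pi ⊆ Set.Icc (-(Real.pi * Real.sqrt θ)) (Real.pi * Real.sqrt θ) := by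
  rintro x ⟨hx, hx1, hx2⟩
  have hx' : 1 - Real.cos x < θ := hx
  have h1 := Real.cos_le_one_sub_mul_cos_sq (abs_le.2 ⟨hx1.le, hx2⟩)
  have hp : 0 < Real.pi := Real.pi_pos
  have h2 : 2 / Real.pi ^ 2 * x ^ 2 < θ := by linarith
  have h3 : x ^ 2 ≤ (Real.pi * Real.sqrt θ) ^ 2 := by
    rw [mul_pow, Real.sq_sqrt hθ.le]
    have h4 : x ^ 2 = Real.pi ^ 2 * (2 / Real.pi ^ 2 * x ^ 2) / 2 := by
      field_simp
    have h5 : 0 < Real.pi ^ 2 := by positivity
    have h6 := mul_lt_mul_of_pos_left h2 h5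
    have h7 : 0 < Real.pi ^ 2 * θ := by positivity
    rw [h4]
    linarith
  exact abs_le_of_sq_le_sq' h3 (by positivity)

private theorem M1_per (θ : ℝ) : Function.Periodic ((M1_S θ).indicator (1 : ℝ → ℝ)) (2 * Real.pi) := by
  intro x
  have h1 : x + 2 * Real.pi ∈ M1_S θ ↔ x ∈ M1_S θ := by
    show 1 - Real.cos (x + 2 * Real.pi) < θ ↔ 1 - Real.cos x < θ
    rw [Real.cos_add_two_pi]
  by_cases h : x ∈ M1_S θ
  · rw [Set.indicator_of_mem h, Set.indicator_of_mem (h1.2 h)]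
    rfl
  · rw [Set.indicator_of_notMem h, Set.indicator_of_notMem fun h2 => h (h1.1 h2)]

private theorem M1_int (θ a b : ℝ) : IntervalIntegrable ((M1_S θ).indicator (1 : ℝ → ℝ)) volume a b := by
  refine (intervalIntegrable_const (c := (1 : ℝ)) (μ := volume) (a := a) (b := b)).mono_fun ?_ ?_
  · exact (measurable_one.indicator (M1_meas θ)).aestronglyMeasurable
  · refine Filter.Eventually.of_forall fun x => ?_
    show ‖(M1_S θ).indicator (1 : ℝ → ℝ) x‖ ≤ ‖(1 : ℝ)‖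
    by_cases h : x ∈ M1_S θ
    · rw [Set.indicator_of_mem h]
      exact le_refl _
    · rw [Set.indicator_of_notMem h]
      simp

private theorem M1_bound {θ : ℝ} (hθ : 0 < θ) :
    ∫ x in (-Real.pi)..Real.pi, (M1_S θ).indicator (1 : ℝ → ℝ) x ≤ 2 * Real.pi * Real.sqrt θ := by
  have hp : 0 < Real.pi := Real.pi_pos
  rw [intervalIntegral.integral_of_le (by linarith), integral_indicator_one (M1_meas θ),
    measureReal_restrict_apply (M1_meas θ)]
  refine (measureReal_mono (M1_sub hθ) (by simp)).trans ?_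
  rw [Real.volume_real_Icc_of_le (by
    have : 0 ≤ Real.pi * Real.sqrt θ := by positivity
    linarith)]
  linarith

open scoped Classical in
/-- PROOF. For a `2π`-periodic measurable `h`, `∫_0^{2π} h (m t) dt = (1/m) ∫_0^{2πm} h = ∫_0^{2π} h`
(`intervalIntegral.integral_comp_mul_left`, `Function.Periodic.intervalIntegral_add_zsmul_eq` or
sum of `m` adjacent periods). So the case `m = 1` is enough. On `[-π, π]`,
`1 - cos φ ≥ 2 φ^2 / π^2` (search `cos_quadratic` / `one_sub_..cos`; or `1 - cos φ = 2 sin^2 (φ/2)`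
and `Real.mul_abs_le_abs_sin`), so `1 - cos φ < θ` implies `|φ| < π √(θ/2) ≤ π √θ`: the set in
`[0, 2π]` is inside `[0, π√θ] ∪ [2π - π√θ, 2π]`, of measure `2π√θ`. -/
theorem level {m : ℕ} (hm : 1 ≤ m) {θ : ℝ} (hθ : 0 < θ) :
    mean (fun t => if 1 - Real.cos ((m : ℝ) * t) < θ then (1 : ℝ) else 0) ≤ Real.sqrt θ := by
  have hp : 0 < Real.pi := Real.pi_pos
  have hm0 : (m : ℝ) ≠ 0 := by
    have : 0 < m := hm
    positivity
  have h1 : (fun t : ℝ => if 1 - Real.cos ((m : ℝ) * t) < θ then (1 : ℝ) else 0) =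
      fun t => (M1_S θ).indicator (1 : ℝ → ℝ) ((m : ℝ) * t) := by
    funext t
    by_cases h : 1 - Real.cos ((m : ℝ) * t) < θ
    · rw [if_pos h, Set.indicator_of_mem (show (m : ℝ) * t ∈ M1_S θ from h)]
      rfl
    · rw [if_neg h, Set.indicator_of_notMem (show (m : ℝ) * t ∉ M1_S θ from h)]
  unfold mean
  rw [h1, intervalIntegral.integral_comp_mul_left _ hm0]
  have h2 := (M1_per θ).intervalIntegral_add_zsmul_eq (m : ℤ) 0 (M1_int θ)
  have h3 : (0 : ℝ) + (m : ℤ) • (2 * Real.pi) = (m : ℝ) * (2 * Real.pi) := by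
    simp
  rw [h3, (M1_per θ).intervalIntegral_add_eq 0 (-Real.pi)] at h2
  have h4 : -Real.pi + 2 * Real.pi = Real.pi := by ring
  rw [h4] at h2
  rw [mul_zero, h2]
  have h5 := M1_bound hθ
  have h6 : (m : ℝ)⁻¹ • (m : ℤ) • ∫ x in (-Real.pi)..Real.pi, (M1_S θ).indicator (1 : ℝ → ℝ) x =
      ∫ x in (-Real.pi)..Real.pi, (M1_S θ).indicator (1 : ℝ → ℝ) x := by
    rw [zsmul_eq_mul, smul_eq_mul, Int.cast_natCast, ← mul_assoc, inv_mul_cancel₀ hm0, one_mul]
  rw [h6]
  calc 1 / (2 * Real.pi) * ∫ x in (-Real.pi)..Real.pi, (M1_S θ).indicator (1 : ℝ → ℝ) x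
      ≤ 1 / (2 * Real.pi) * (2 * Real.pi * Real.sqrt θ) := mul_le_mul_of_nonneg_left h5 (by positivity)
    _ = Real.sqrt θ := by field_simp

end Pool.Agent.Lib.MP_19d64f_an
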