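import Pool.Agent.Lib.MP_19d64f_an.Defs

/-!
# Counting: Hamming balls and codes (N1)
-/

set_option autoImplicit false

namespace Pool.Agent.Lib.MP_19d64f_an

open Finset

/-- PROOF. `∑ b ∈ piFinset (fun _ => {1,-1}), x ^ (d b) = (1 + x) ^ N` where `d b` is the number of
`k` with `b k ≠ a k`: `Finset.prod_univ_sum` with `f k v = if v = a k then 1 else x` and
`∑ v ∈ {1,-1}, f k v = 1 + x`. Every `b ∈ T` contributes `x ^ (d b) ≥ x ^ r`
(`pow_le_pow_of_le_one`). -/
theorem ball_card {N : ℕ} (a : Fin N → ℤ) (ha : ∀ k, a k = 1 ∨ a k = -1) (T : Finset (Fin N → ℤ))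
    (hT : ∀ b ∈ T, ∀ k, b k = 1 ∨ b k = -1) (r : ℕ)
    (hd : ∀ b ∈ T, (univ.filter (fun k => b k ≠ a k)).card ≤ r) {x : ℝ} (hx0 : 0 < x)
    (hx : x ≤ 1) : (T.card : ℝ) * x ^ r ≤ (1 + x) ^ N := by
  classical
  have hne : ∀ k, a k ≠ -a k := by
    intro k h
    rcases ha k with h1 | h1 <;> rw [h1] at h <;> norm_num at h
  have h1 : ∀ k, ∑ v ∈ ({a k, -a k} : Finset ℤ), (if v = a k then (1 : ℝ) else x) = 1 + x := by
    intro k
    rw [sum_pair (hne k), if_pos rfl, if_neg (fun h => hne k h.symm)]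
  have h2 : (1 + x) ^ N =
      ∑ b ∈ Fintype.piFinset (fun k => ({a k, -a k} : Finset ℤ)),
        ∏ k, (if b k = a k then (1 : ℝ) else x) := by
    rw [← Finset.prod_univ_sum (fun k => ({a k, -a k} : Finset ℤ))
      (fun k v => if v = a k then (1 : ℝ) else x)]
    rw [Finset.prod_congr rfl (fun k _ => h1 k), prod_const, card_univ, Fintype.card_fin]
  have h3 : T ⊆ Fintype.piFinset (fun k => ({a k, -a k} : Finset ℤ)) := by
    intro b hb
    rw [Fintype.mem_piFinset]
    intro k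
    rw [mem_insert, mem_singleton]
    rcases ha k with h | h <;> rcases hT b hb k with h' | h' <;> rw [h, h'] <;> norm_num
  have h4 : ∀ b : Fin N → ℤ, ∏ k, (if b k = a k then (1 : ℝ) else x) =
      x ^ (univ.filter (fun k => b k ≠ a k)).card := by
    intro b
    rw [prod_ite, prod_const_one, one_mul, prod_const]
  rw [h2]
  calc (T.card : ℝ) * x ^ r = ∑ _b ∈ T, x ^ r := by rw [sum_const, nsmul_eq_mul]
    _ ≤ ∑ b ∈ T, ∏ k, (if b k = a k then (1 : ℝ) else x) := by
        apply sum_le_sum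
        intro b hb
        rw [h4 b]
        exact pow_le_pow_of_le_one hx0.le hx (hd b hb)
    _ ≤ _ := by
        apply sum_le_sum_of_subset_of_nonneg h3
        intro b _ _
        rw [h4 b]
        positivity

/-- PROOF. `Finset.card_le_mul_card_image` (`T.card ≤ M * (T.image code).card`), the fibres are
bounded by `M = ⌊M₀⌋₊`, and `(T.image code).card ≤ K`. -/
theorem codes_card {α β : Type*} [DecidableEq β] (T : Finset α) (code : α → β) (U : Finset β)
    (hU : ∀ b ∈ T, code b ∈ U) {M₀ : ℝ} (hM : 0 ≤ M₀)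
    (hf : ∀ u ∈ U, ((T.filter (fun b => code b = u)).card : ℝ) ≤ M₀) :
    (T.card : ℝ) ≤ M₀ * U.card := by
  classical
  have h1 : T.card = ∑ u ∈ U, (T.filter (fun b => code b = u)).card :=
    card_eq_sum_card_fiberwise (fun b hb => hU b hb)
  rw [h1]
  push_cast
  calc ∑ u ∈ U, ((T.filter (fun b => code b = u)).card : ℝ) ≤ ∑ _u ∈ U, M₀ :=
        sum_le_sum hf
    _ = M₀ * U.card := by rw [sum_const, nsmul_eq_mul, mul_comm]

/-- The number of codes: `Q` pairs `(α, β)` with `α ∈ [0, q]` and `|β| ≤ M`.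
PROOF. `Fintype.card_piFinset_const` (or `Fintype.card_piFinset`), `Finset.card_product`,
`Int.card_Icc`. -/
theorem code_space_card (Q : ℕ) (q M : ℕ) :
    ((Fintype.piFinset (fun _ : Fin Q => (Finset.Icc (0 : ℤ) q) ×ˢ
      (Finset.Icc (-(M : ℤ)) M))).card : ℝ) = (((q : ℝ) + 1) * (2 * M + 1)) ^ Q := by
  rw [Fintype.card_piFinset_const, card_product, Int.card_Icc, Int.card_Icc]
  have h1 : ((q : ℤ) + 1 - 0).toNat = q + 1 := by omega
  have h2 : ((M : ℤ) + 1 - -(M : ℤ)).toNat = 2 * M + 1 := by omega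
  rw [h1, h2]
  push_cast
  rfl

end Pool.Agent.Lib.MP_19d64f_an
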