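import Pool.Agent.Lib.MP_19d64f_an.Defs

/-!
# The final numerical estimate of T3 (N3)
-/

set_option autoImplicit false

namespace Pool.Agent.Lib.MP_19d64f_an

open Finset

/-- the bound for `θ` -/
theorem theta_le {y ε s q : ℝ} (hy : 1 ≤ y) (hε0 : 0 < ε)
    (hε : ε ≤ Real.exp (-(10 ^ 9 * y ^ 12))) (hs0 : 0 ≤ s) (hs : s ≤ 2001 * y ^ 4)
    (hq : 800 * y ^ 4 ≤ q) :
    2 * ε ^ 2 + s ^ 2 * (Real.pi / Real.log (1 / (3 * ε))) / 3 + 8 / q ≤ 1 / (50 * y ^ 4) := by
  have hy0 : 0 < y := by linarith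
  have hpi4 : Real.pi < 3.15 := Real.pi_lt_d2
  have hy12 : (1 : ℝ) ≤ y ^ 12 := one_le_pow₀ hy
  have hy4 : (1 : ℝ) ≤ y ^ 4 := one_le_pow₀ hy
  have hy8 : y ^ 4 ≤ y ^ 12 := pow_le_pow_right₀ hy (by norm_num)
  have hlog : 9 * 10 ^ 8 * y ^ 12 ≤ Real.log (1 / (3 * ε)) := by
    have h1 : Real.log (1 / (3 * ε)) = -Real.log 3 - Real.log ε := by
      rw [one_div, Real.log_inv, Real.log_mul (by norm_num) hε0.ne']
      ring
    have h2 : Real.log ε ≤ -(10 ^ 9 * y ^ 12) := by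
      have := Real.log_le_log hε0 hε
      rwa [Real.log_exp] at this
    have h3 : Real.log 3 ≤ 3 - 1 := Real.log_le_sub_one_of_pos (by norm_num)
    rw [h1]
    nlinarith
  have hlog0 : 0 < Real.log (1 / (3 * ε)) := by nlinarith
  have h1 : Real.pi / Real.log (1 / (3 * ε)) ≤ 3.15 / (9 * 10 ^ 8 * y ^ 12) :=
    div_le_div₀ (by norm_num) hpi4.le (by positivity) hlog
  have h2 : s ^ 2 ≤ (2001 * y ^ 4) ^ 2 := pow_le_pow_left₀ hs0 hs 2
  have h3 : s ^ 2 * (Real.pi / Real.log (1 / (3 * ε))) / 3 ≤ 1 / (200 * y ^ 4) := by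
    have h4 : s ^ 2 * (Real.pi / Real.log (1 / (3 * ε))) ≤
        (2001 * y ^ 4) ^ 2 * (3.15 / (9 * 10 ^ 8 * y ^ 12)) :=
      mul_le_mul h2 h1 (div_nonneg Real.pi_pos.le hlog0.le) (by positivity)
    have h5 : (2001 * y ^ 4) ^ 2 * (3.15 / (9 * 10 ^ 8 * y ^ 12)) =
        (2001 ^ 2 * 3.15 / (9 * 10 ^ 8)) * (1 / y ^ 4) := by
      field_simp
    rw [h5] at h4
    have h6 : 1 / (200 * y ^ 4) = (1 / 200) * (1 / y ^ 4) := by
      field_simp
    rw [h6]
    have h7 : 0 < 1 / y ^ 4 := by positivity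
    have h8 : ((2001 : ℝ) ^ 2 * 3.15 / (9 * 10 ^ 8)) ≤ 3 / 200 := by norm_num
    have h9 := mul_le_mul_of_nonneg_right h8 h7.le
    linarith
  have h8 : 8 / q ≤ 1 / (100 * y ^ 4) := by
    have : 8 / q ≤ 8 / (800 * y ^ 4) := div_le_div_of_nonneg_left (by norm_num) (by positivity) hq
    refine this.trans (le_of_eq ?_)
    field_simp
    norm_num
  have h9 : 2 * ε ^ 2 ≤ 1 / (200 * y ^ 4) := by
    have h10 : ε ≤ 1 / (10 ^ 9 * y ^ 12) := by
      refine hε.trans ?_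
      rw [Real.exp_neg, ← one_div]
      refine one_div_le_one_div_of_le (by positivity) ?_
      linarith [Real.add_one_le_exp (10 ^ 9 * y ^ 12)]
    have h11 : ε ≤ 1 / (400 * y ^ 4) := by
      refine h10.trans (one_div_le_one_div_of_le (by positivity) ?_)
      nlinarith
    have h12 : ε ≤ 1 := h11.trans (by
      rw [div_le_one (by positivity)]
      nlinarith)
    have h13 : 2 * ε ^ 2 ≤ 2 * ε := by nlinarith
    have h14 : 1 / (200 * y ^ 4) = 2 * (1 / (400 * y ^ 4)) := by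
      field_simp
      norm_num
    rw [h14]
    linarith
  have h15 : 1 / (50 * y ^ 4) = 1 / (200 * y ^ 4) + 1 / (200 * y ^ 4) + 1 / (100 * y ^ 4) := by
    field_simp
    norm_num
  rw [h15]
  linarith

theorem numer3 {y ε : ℝ} {n s q Q r : ℕ} (hy : 1 ≤ y) (hε0 : 0 < ε)
    (hε : ε ≤ Real.exp (-(10 ^ 9 * y ^ 12))) (hn1 : 1 ≤ n) (hn : 1 ≤ 3 * ε * ((n : ℝ) + 1))
    (hs1 : 2000 * y ^ 4 ≤ s) (hs2 : (s : ℝ) ≤ 2001 * y ^ 4) (hq1 : 800 * y ^ 4 ≤ q)
    (hq2 : (q : ℝ) ≤ 801 * y ^ 4) (hQ : (Q : ℝ) ≤ 2 * Real.pi * n / s + 1)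
    (hr : (r : ℝ) ≤ ((n : ℝ) + 1) * (2 * ε ^ 2 +
      (s : ℝ) ^ 2 * (Real.pi / Real.log (1 / (3 * ε))) / 3 + 8 / q)) :
    ((n : ℝ) + 1) * Real.log (1 + 1 / (16 * y ^ 3)) + r * Real.log (16 * y ^ 3) +
      Q * Real.log (((q : ℝ) + 1) * (2 * (9 * s * q : ℕ) + 1)) ≤ n / y ^ 3 * Real.log 2 := by
  have hy0 : 0 < y := by linarith
  have hnR : (1 : ℝ) ≤ n := by exact_mod_cast hn1
  have hpi4 : Real.pi < 3.15 := Real.pi_lt_d2
  have hpi := Real.pi_pos
  have hy3 : (1 : ℝ) ≤ y ^ 3 := one_le_pow₀ hy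
  have hy4 : (1 : ℝ) ≤ y ^ 4 := one_le_pow₀ hy
  have hy12 : (1 : ℝ) ≤ y ^ 12 := one_le_pow₀ hy
  have hθ := theta_le hy hε0 hε (by positivity) hs2 hq1
  set θ := 2 * ε ^ 2 + (s : ℝ) ^ 2 * (Real.pi / Real.log (1 / (3 * ε))) / 3 + 8 / q with hθd
  set D : ℝ := n / y ^ 3 with hD
  have hD0 : 0 < D := by positivity
  -- first term
  have t1 : ((n : ℝ) + 1) * Real.log (1 + 1 / (16 * y ^ 3)) ≤ D / 8 := by
    have h1 : Real.log (1 + 1 / (16 * y ^ 3)) ≤ 1 / (16 * y ^ 3) := by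
      have := Real.log_le_sub_one_of_pos (x := 1 + 1 / (16 * y ^ 3)) (by positivity)
      linarith
    have h0 : 0 ≤ Real.log (1 + 1 / (16 * y ^ 3)) := Real.log_nonneg (by
      have : 0 ≤ 1 / (16 * y ^ 3) := by positivity
      linarith)
    calc ((n : ℝ) + 1) * Real.log (1 + 1 / (16 * y ^ 3)) ≤ (2 * n) * (1 / (16 * y ^ 3)) :=
          mul_le_mul (by linarith) h1 h0 (by positivity)
      _ = D / 8 := by
        rw [hD]
        field_simp
        ring
  -- second term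
  have hlog16 : Real.log (16 * y ^ 3) ≤ 3 * y := by
    rw [Real.log_mul (by norm_num) (by positivity), Real.log_pow]
    have h1 : Real.log 16 = 4 * Real.log 2 := by
      rw [show (16 : ℝ) = 2 ^ 4 by norm_num, Real.log_pow]
      norm_num
    have h2 := Real.log_two_lt_d9
    have h3 := Real.log_le_sub_one_of_pos hy0
    rw [h1]
    norm_num at h2 ⊢
    linarith
  have hlog160 : 0 ≤ Real.log (16 * y ^ 3) := Real.log_nonneg (by nlinarith)
  have t2 : r * Real.log (16 * y ^ 3) ≤ 0.12 * D := by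
    have h1 : (r : ℝ) ≤ 2 * n * (1 / (50 * y ^ 4)) := by
      refine hr.trans ?_
      exact mul_le_mul (by linarith) hθ (by
        have hlog0 : 0 ≤ Real.pi / Real.log (1 / (3 * ε)) := by
          refine div_nonneg hpi.le (Real.log_nonneg ?_)
          rw [le_div_iff₀ (by positivity)]
          have h5 : Real.exp (-(10 ^ 9 * y ^ 12)) ≤ 1 / (10 ^ 9 * y ^ 12 + 1) := by
            rw [Real.exp_neg, ← one_div]
            refine one_div_le_one_div_of_le (by positivity) ?_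
            linarith [Real.add_one_le_exp (10 ^ 9 * y ^ 12)]
          have h6 : 1 / (10 ^ 9 * y ^ 12 + 1) ≤ 1 / 3 :=
            one_div_le_one_div_of_le (by norm_num) (by linarith)
          have h7 : ε ≤ 1 / 3 := hε.trans (h5.trans h6)
          linarith
        rw [hθd]
        positivity) (by positivity)
    calc r * Real.log (16 * y ^ 3) ≤ (2 * n * (1 / (50 * y ^ 4))) * (3 * y) :=
          mul_le_mul h1 hlog16 hlog160 (by positivity)
      _ = 0.12 * D := by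
        rw [hD]
        field_simp
        ring
  -- third term
  have hA0 : (1 : ℝ) ≤ ((q : ℝ) + 1) * (2 * (9 * s * q : ℕ) + 1) := by
    have : (0 : ℝ) ≤ (q : ℝ) := by positivity
    have : (0 : ℝ) ≤ ((9 * s * q : ℕ) : ℝ) := by positivity
    nlinarith
  have hA : Real.log (((q : ℝ) + 1) * (2 * (9 * s * q : ℕ) + 1)) ≤ 25 * y := by
    have h1 : ((q : ℝ) + 1) * (2 * (9 * s * q : ℕ) + 1) ≤ 2 ^ 35 * y ^ 12 := by
      push_cast
      have a1 : (q : ℝ) + 1 ≤ 802 * y ^ 4 := by linarith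
      have a2 : (s : ℝ) * q ≤ (2001 * y ^ 4) * (801 * y ^ 4) :=
        mul_le_mul hs2 hq2 (by positivity) (by positivity)
      have a3 : (2 * (9 * (s : ℝ) * q) + 1) ≤ 19 * ((2001 * y ^ 4) * (801 * y ^ 4)) := by
        have : 1 ≤ (2001 * y ^ 4) * (801 * y ^ 4) := by nlinarith
        linarith
      calc ((q : ℝ) + 1) * (2 * (9 * (s : ℝ) * q) + 1) ≤
            (802 * y ^ 4) * (19 * ((2001 * y ^ 4) * (801 * y ^ 4))) :=
            mul_le_mul a1 a3 (by positivity) (by positivity)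
        _ = (802 * 19 * 2001 * 801) * y ^ 12 := by ring
        _ ≤ 2 ^ 35 * y ^ 12 := by
          refine mul_le_mul_of_nonneg_right ?_ (by positivity)
          norm_num
    have h2 := Real.log_le_log (by linarith) h1
    rw [Real.log_mul (x := (2 : ℝ) ^ 35) (y := y ^ 12) (by norm_num) (by positivity),
      Real.log_pow, Real.log_pow] at h2
    have h3 := Real.log_two_lt_d9
    have h4 := Real.log_le_sub_one_of_pos hy0
    norm_num at h2 h3 ⊢
    linarith
  have hA00 : 0 ≤ Real.log (((q : ℝ) + 1) * (2 * (9 * s * q : ℕ) + 1)) := Real.log_nonneg hA0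
  have hnbig : 250 * y ^ 4 ≤ n := by
    have h1 : Real.exp (-(10 ^ 9 * y ^ 12)) ≤ 1 / (10 ^ 9 * y ^ 12 + 1) := by
      rw [Real.exp_neg, ← one_div]
      refine one_div_le_one_div_of_le (by positivity) ?_
      linarith [Real.add_one_le_exp (10 ^ 9 * y ^ 12)]
    have h2 : 1 ≤ 3 * (1 / (10 ^ 9 * y ^ 12 + 1)) * ((n : ℝ) + 1) := by
      refine hn.trans ?_
      refine mul_le_mul_of_nonneg_right ?_ (by positivity)
      exact mul_le_mul_of_nonneg_left (hε.trans h1) (by norm_num)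
    have h3 : 10 ^ 9 * y ^ 12 + 1 ≤ 3 * ((n : ℝ) + 1) := by
      have h4 : 3 * (1 / (10 ^ 9 * y ^ 12 + 1)) * ((n : ℝ) + 1) =
          (3 * ((n : ℝ) + 1)) / (10 ^ 9 * y ^ 12 + 1) := by ring
      rw [h4, le_div_iff₀ (by positivity)] at h2
      linarith
    have h5 : y ^ 4 ≤ y ^ 12 := pow_le_pow_right₀ hy (by norm_num)
    norm_num at h3
    nlinarith
  have t3 : Q * Real.log (((q : ℝ) + 1) * (2 * (9 * s * q : ℕ) + 1)) ≤ 0.2 * D := by
    have h1 : (Q : ℝ) ≤ 6.3 * n / (2000 * y ^ 4) + 1 := by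
      refine hQ.trans ?_
      have : 2 * Real.pi * n / s ≤ 6.3 * n / (2000 * y ^ 4) := by
        refine div_le_div₀ (by positivity) ?_ (by positivity) hs1
        refine mul_le_mul_of_nonneg_right ?_ (by positivity)
        norm_num at hpi4 ⊢
        linarith
      linarith
    have h2 : 25 * y ≤ 0.1 * D := by
      rw [hD, mul_div_assoc', le_div_iff₀ (by positivity)]
      have h3 : 25 * y * y ^ 3 = (0.1 : ℝ) * (250 * y ^ 4) := by
        norm_num
        ring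
      rw [h3]
      exact mul_le_mul_of_nonneg_left hnbig (by norm_num)
    calc Q * Real.log (((q : ℝ) + 1) * (2 * (9 * s * q : ℕ) + 1)) ≤
          (6.3 * n / (2000 * y ^ 4) + 1) * (25 * y) :=
          mul_le_mul h1 hA hA00 (by positivity)
      _ = 0.07875 * D + 25 * y := by
        rw [hD]
        field_simp
        ring
      _ ≤ 0.2 * D := by linarith
  have hlog2 := Real.log_two_gt_d9
  have : D / 8 + 0.12 * D + 0.2 * D ≤ D * Real.log 2 := by
    norm_num at hlog2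
    nlinarith
  linarith

end Pool.Agent.Lib.MP_19d64f_an
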