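import Pool.Agent.Lib.MP_19d64f_an.A5

/-!
# A phase function (Ph)
-/

set_option autoImplicit false

namespace Pool.Agent.Lib.MP_19d64f_an

open Finset MeasureTheory

/-- PROOF. Take `B` from `phase h` (file A1) and `c` an argument of
`P a n 0 * exp (- i B 0)`, `ϕ t = B t + c`. `phase` with `t = 0`:
`P s * conj (P 0) = ‖P s‖ ‖P 0‖ e^{i(B s - B 0)}`; multiply by `P 0` and divide by `‖P 0‖^2`:
`P s = ‖P s‖ (P 0 / ‖P 0‖) e^{i(B s - B 0)} = ‖P s‖ e^{i(B s + c)}`. -/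
theorem phase' {a : ℕ → ℝ} {n : ℕ} (h : ∀ t, P a n t ≠ 0) :
    ∃ ϕ : ℝ → ℝ, (∀ t, HasDerivAt ϕ (om a n t) t) ∧ ∀ t : ℝ,
      P a n t = (‖P a n t‖ : ℂ) * Complex.exp ((ϕ t : ℂ) * Complex.I) := by
  obtain ⟨B, hB, hph⟩ := phase h
  set θ : ℝ := Complex.arg (P a n 0) with hθ
  refine ⟨fun t => B t + (θ - B 0), fun t => (hB t).add_const _, fun t => ?_⟩
  have h0 : (‖P a n 0‖ : ℂ) ≠ 0 := by
    exact_mod_cast (norm_ne_zero_iff.2 (h 0))
  have h1 := hph t 0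
  have h2 : (‖P a n 0‖ : ℂ) * Complex.exp ((θ : ℂ) * Complex.I) = P a n 0 :=
    Complex.norm_mul_exp_arg_mul_I _
  have h3 : (starRingEnd ℂ) (P a n 0) * P a n 0 = (‖P a n 0‖ : ℂ) * (‖P a n 0‖ : ℂ) := by
    rw [mul_comm, Complex.mul_conj, Complex.normSq_eq_norm_sq]
    push_cast
    ring
  have h4 : P a n t * ((‖P a n 0‖ : ℂ) * (‖P a n 0‖ : ℂ)) =
      ((‖P a n t‖ : ℂ) * Complex.exp (((B t + (θ - B 0) : ℝ) : ℂ) * Complex.I)) *
        ((‖P a n 0‖ : ℂ) * (‖P a n 0‖ : ℂ)) := by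
    calc P a n t * ((‖P a n 0‖ : ℂ) * (‖P a n 0‖ : ℂ)) =
        (P a n t * (starRingEnd ℂ) (P a n 0)) * P a n 0 := by rw [← h3]; ring
      _ = (((‖P a n t‖ * ‖P a n 0‖ : ℝ) : ℂ) *
          Complex.exp (((B t - B 0 : ℝ) : ℂ) * Complex.I)) *
          ((‖P a n 0‖ : ℂ) * Complex.exp ((θ : ℂ) * Complex.I)) := by rw [h1, h2]
      _ = _ := by
          have h5 : Complex.exp (((B t + (θ - B 0) : ℝ) : ℂ) * Complex.I) =
              Complex.exp (((B t - B 0 : ℝ) : ℂ) * Complex.I) * Complex.exp ((θ : ℂ) * Complex.I) := by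
            rw [← Complex.exp_add]
            congr 1
            push_cast
            ring
          rw [h5]
          push_cast
          ring
  exact mul_right_cancel₀ (mul_ne_zero h0 h0) h4

/-- PROOF. As `int_sq` (file A5): `corr b n 0` with `σ = 0`. -/
theorem int_sq_gen (b : ℕ → ℝ) (n : ℕ) :
    ∫ t in (0 : ℝ)..(2 * Real.pi), ‖P b n t‖ ^ 2 =
      2 * Real.pi * ∑ k ∈ range (n + 1), b k ^ 2 := by
  have h1 := corr b n 0 (Nat.zero_le n) 0
  have h2 : ∀ t : ℝ, P b n (t + 0) * (starRingEnd ℂ) (P b n t) *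
      Complex.exp (((0 : ℕ) : ℂ) * (t : ℂ) * Complex.I) = ((‖P b n t‖ ^ 2 : ℝ) : ℂ) := by
    intro t
    rw [add_zero, Complex.mul_conj, Complex.normSq_eq_norm_sq]
    simp
  simp_rw [h2] at h1
  rw [intervalIntegral.integral_ofReal] at h1
  have h3 : ∀ k, (b k : ℂ) * (b (k + 0) : ℂ) *
      Complex.exp ((k : ℂ) * ((0 : ℝ) : ℂ) * Complex.I) = ((b k ^ 2 : ℝ) : ℂ) := by
    intro k
    simp [sq]
  simp_rw [h3] at h1
  rw [Nat.sub_zero] at h1
  have h4 : (2 * (Real.pi : ℂ) * ∑ k ∈ range (n + 1), ((b k ^ 2 : ℝ) : ℂ)) =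
      ((2 * Real.pi * ∑ k ∈ range (n + 1), b k ^ 2 : ℝ) : ℂ) := by
    push_cast
    ring
  rw [h4] at h1
  exact_mod_cast h1

/-- PROOF. Let `b k = a k - a' k`; `b k ^ 2 = 4` if `a k ≠ a' k` and `0` otherwise,
`P b n t = P a n t - P a' n t`. -/
theorem int_sq_diff {a a' : ℕ → ℝ} (ha : Lit a) (ha' : Lit a') (n : ℕ) :
    ∫ t in (0 : ℝ)..(2 * Real.pi), ‖P a n t - P a' n t‖ ^ 2 =
      8 * Real.pi * (((range (n + 1)).filter (fun k => a k ≠ a' k)).card : ℝ) := by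
  have h1 : ∀ t : ℝ, P a n t - P a' n t = P (fun k => a k - a' k) n t := by
    intro t
    simp only [P]
    rw [← Finset.sum_sub_distrib]
    refine Finset.sum_congr rfl (fun k _ => ?_)
    push_cast
    ring
  simp_rw [h1]
  rw [int_sq_gen]
  have h2 : ∑ k ∈ range (n + 1), (a k - a' k) ^ 2 =
      4 * (((range (n + 1)).filter (fun k => a k ≠ a' k)).card : ℝ) := by
    rw [Finset.card_filter]
    push_cast
    rw [Finset.mul_sum]
    refine Finset.sum_congr rfl (fun k _ => ?_)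
    rcases ha k with h | h <;> rcases ha' k with h' | h' <;> rw [h, h'] <;> norm_num
  rw [h2]
  ring

end Pool.Agent.Lib.MP_19d64f_an
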