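import Pool.Agent.Lib.MP_19d64f_an.A1

/-!
# The polynomial behind `P` (Pol)
-/

set_option autoImplicit false

namespace Pool.Agent.Lib.MP_19d64f_an

open Finset MeasureTheory Polynomial

/-- The polynomial `∑_{k ≤ n} a_k X^k`. -/
noncomputable def pol (a : ℕ → ℝ) (n : ℕ) : ℂ[X] :=
  ∑ k ∈ range (n + 1), C (a k : ℂ) * X ^ k

/-- The coefficients in reverse order. -/
def rev (a : ℕ → ℝ) (n : ℕ) : ℕ → ℝ := fun k => a (n - k)

theorem eval_pol (a : ℕ → ℝ) (n : ℕ) (z : ℂ) :
    (pol a n).eval z = ∑ k ∈ range (n + 1), (a k : ℂ) * z ^ k := by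
  unfold pol
  rw [eval_finsetSum]
  refine Finset.sum_congr rfl fun k _ => ?_
  simp

theorem exp_nat (k : ℕ) (t : ℝ) : Complex.exp ((k : ℂ) * (t : ℂ) * Complex.I) =
    Complex.exp ((t : ℂ) * Complex.I) ^ k := by
  rw [← Complex.exp_nat_mul]
  congr 1
  ring

theorem eval_pol_exp (a : ℕ → ℝ) (n : ℕ) (t : ℝ) :
    (pol a n).eval (Complex.exp ((t : ℂ) * Complex.I)) = P a n t := by
  rw [eval_pol, P]
  refine Finset.sum_congr rfl fun k _ => ?_
  rw [exp_nat]

theorem eval_der_exp (a : ℕ → ℝ) (n : ℕ) (t : ℝ) :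
    Complex.exp ((t : ℂ) * Complex.I) *
      (pol a n).derivative.eval (Complex.exp ((t : ℂ) * Complex.I)) = P1 a n t := by
  unfold pol P1
  rw [derivative_sum, eval_finsetSum, Finset.mul_sum]
  refine Finset.sum_congr rfl fun k _ => ?_
  rw [exp_nat, derivative_C_mul, derivative_X_pow]
  simp only [eval_mul, eval_C, eval_pow, eval_X]
  cases k with
  | zero => simp
  | succ m =>
    simp only [Nat.add_sub_cancel]
    ring

theorem natDegree_pol_le (a : ℕ → ℝ) (n : ℕ) : (pol a n).natDegree ≤ n := by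
  unfold pol
  refine natDegree_sum_le_of_forall_le _ _ fun k hk => ?_
  refine (natDegree_C_mul_X_pow_le _ _).trans ?_
  have := Finset.mem_range.1 hk
  omega

theorem coeff_pol (a : ℕ → ℝ) (n k : ℕ) (hk : k ≤ n) : (pol a n).coeff k = (a k : ℂ) := by
  unfold pol
  rw [finsetSum_coeff]
  simp only [coeff_C_mul_X_pow]
  rw [Finset.sum_ite_eq]
  rw [if_pos (Finset.mem_range.2 (by omega))]

theorem natDegree_pol {a : ℕ → ℝ} {n : ℕ} (h : a n ≠ 0) : (pol a n).natDegree = n := by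
  refine le_antisymm (natDegree_pol_le a n) ?_
  refine le_natDegree_of_ne_zero ?_
  rw [coeff_pol a n n le_rfl]
  exact_mod_cast h

theorem exists_arg {z : ℂ} (hz : ‖z‖ = 1) : ∃ t : ℝ, z = Complex.exp ((t : ℂ) * Complex.I) := by
  refine ⟨z.arg, ?_⟩
  have := Complex.norm_mul_exp_arg_mul_I z
  rw [hz] at this
  simpa using this.symm

theorem P_rev (a : ℕ → ℝ) (n : ℕ) (t : ℝ) :
    P (rev a n) n t = Complex.exp ((n : ℂ) * (t : ℂ) * Complex.I) * (starRingEnd ℂ) (P a n t) := by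
  unfold P rev
  rw [map_sum, Finset.mul_sum, ← Finset.sum_range_reflect]
  refine Finset.sum_congr rfl fun k hk => ?_
  have hk' : k ≤ n := by
    have := Finset.mem_range.1 hk
    omega
  have h1 : n + 1 - 1 - k = n - k := by omega
  have h2 : n - (n - k) = k := by omega
  rw [h1, h2, map_mul, Complex.conj_ofReal, ← Complex.exp_conj]
  have h3 : Complex.exp (((n - k : ℕ) : ℂ) * (t : ℂ) * Complex.I) =
      Complex.exp ((n : ℂ) * (t : ℂ) * Complex.I) *
        Complex.exp ((starRingEnd ℂ) ((k : ℂ) * (t : ℂ) * Complex.I)) := by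
    rw [← Complex.exp_add]
    congr 1
    rw [Nat.cast_sub hk']
    simp
    ring
  rw [h3]
  ring

end Pool.Agent.Lib.MP_19d64f_an
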