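import Pool.Agent.Lib.MP_19d64f_an.A3

/-!
# Two phases with the same quantization are close (Q1)
-/

set_option autoImplicit false

namespace Pool.Agent.Lib.MP_19d64f_an

open Finset MeasureTheory

private theorem Q1_var {g : ℝ → ℝ} (hg : ContDiff ℝ 1 g) {c h t : ℝ} (h1 : c ≤ t)
    (h2 : t ≤ c + h) : |g t - g c| ≤ ∫ s in c..(c + h), |deriv g s| := by
  have hd : Continuous (deriv g) := hg.continuous_deriv le_rfl
  have e1 : ∫ s in c..t, deriv g s = g t - g c := by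
    refine intervalIntegral.integral_eq_sub_of_hasDerivAt (fun s _ => ?_)
      (hd.intervalIntegrable _ _)
    exact (hg.differentiable (by norm_num) s).hasDerivAt
  rw [← e1]
  have e2 : |∫ s in c..t, deriv g s| ≤ ∫ s in c..t, |deriv g s| :=
    intervalIntegral.abs_integral_le_integral_abs h1
  refine e2.trans ?_
  have e3 : ∫ s in c..(c + h), |deriv g s| =
      (∫ s in c..t, |deriv g s|) + ∫ s in t..(c + h), |deriv g s| :=
    (intervalIntegral.integral_add_adjacent_intervals (hd.abs.intervalIntegrable _ _)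
      (hd.abs.intervalIntegrable _ _)).symm
  have e4 : 0 ≤ ∫ s in t..(c + h), |deriv g s| :=
    intervalIntegral.integral_nonneg h2 fun s _ => abs_nonneg _
  linarith

private theorem Q1_exp_shift (x : ℝ) (k : ℤ) :
    Complex.exp (((x + 2 * Real.pi * k : ℝ) : ℂ) * Complex.I) =
      Complex.exp ((x : ℂ) * Complex.I) := by
  have e : (((x + 2 * Real.pi * k : ℝ) : ℂ) * Complex.I) =
      (x : ℂ) * Complex.I + (k : ℂ) * (2 * (Real.pi : ℂ) * Complex.I) := by
    push_cast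
    ring
  rw [e, Complex.exp_add, Complex.exp_int_mul_two_pi_mul_I, mul_one]

/-- PROOF. Let `d t = ϕ t - ϕ' t - 2πk`, `d' = g - g'`; for `t` in `[c, c + h]`,
`|d t - d c - (t - c) (g c - g' c)| = |∫ s in c..t, ((g s - g c) - (g' s - g' c))|
 ≤ h * ∫ s in c..c+h, (|deriv g s| + |deriv g' s|)`
(fundamental theorem of calculus for `d` and then for `g`, `g'`). So
`‖e^{iϕ t} - e^{iϕ' t}‖ = ‖e^{iϕ t} - e^{i(ϕ' t + 2πk)}‖ ≤ |d t| ≤ A + h B +
 h ∫ (|deriv g| + |deriv g'|)` (`norm_exp_sub_le`, periodicity of `exp`). The norm is also `≤ 2`, so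
its square is at most `2` times this; integrate over `[c, c + h]`. -/
theorem quant_arc {ϕ ϕ' g g' : ℝ → ℝ} (hg : ContDiff ℝ 1 g) (hg' : ContDiff ℝ 1 g')
    (hϕ : ∀ t, HasDerivAt ϕ (g t) t) (hϕ' : ∀ t, HasDerivAt ϕ' (g' t) t) {c h A B : ℝ} {k : ℤ}
    (hh : 0 ≤ h) (h1 : |ϕ c - ϕ' c - 2 * Real.pi * k| ≤ A) (h2 : |g c - g' c| ≤ B) :
    ∫ t in c..(c + h), ‖Complex.exp ((ϕ t : ℂ) * Complex.I) -
      Complex.exp ((ϕ' t : ℂ) * Complex.I)‖ ^ 2 ≤
      2 * h * (A + h * B + h * ((∫ t in c..(c + h), |deriv g t|) +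
        ∫ t in c..(c + h), |deriv g' t|)) := by
  set V : ℝ := ∫ t in c..(c + h), |deriv g t| with hV
  set V' : ℝ := ∫ t in c..(c + h), |deriv g' t| with hV'
  have hcϕ : Continuous ϕ := continuous_iff_continuousAt.2 fun t => (hϕ t).continuousAt
  have hcϕ' : Continuous ϕ' := continuous_iff_continuousAt.2 fun t => (hϕ' t).continuousAt
  have hV0 : 0 ≤ V := intervalIntegral.integral_nonneg (by linarith) fun s _ => abs_nonneg _
  have hV0' : 0 ≤ V' := intervalIntegral.integral_nonneg (by linarith) fun s _ => abs_nonneg _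
  have hB0 : 0 ≤ B := (abs_nonneg _).trans h2
  -- the derivative of the difference
  have hder : ∀ s ∈ Set.Icc c (c + h), |g s - g' s| ≤ B + V + V' := by
    intro s hs
    have a1 := Q1_var hg hs.1 hs.2
    have a2 := Q1_var hg' hs.1 hs.2
    rw [← hV] at a1
    rw [← hV'] at a2
    rw [abs_le] at a1 a2 h2 ⊢
    constructor <;> linarith [a1.1, a1.2, a2.1, a2.2, h2.1, h2.2]
  have hd : ∀ t ∈ Set.Icc c (c + h),
      |(ϕ t - ϕ' t) - (ϕ c - ϕ' c)| ≤ (B + V + V') * h := by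
    intro t ht
    have b1 := (convex_Icc c (c + h)).norm_image_sub_le_of_norm_hasDerivWithin_le
      (f := fun s => ϕ s - ϕ' s) (f' := fun s => g s - g' s) (C := B + V + V')
      (fun s _ => ((hϕ s).sub (hϕ' s)).hasDerivWithinAt) (fun s hs => hder s hs)
      (Set.left_mem_Icc.2 (by linarith)) ht
    rw [Real.norm_eq_abs, Real.norm_eq_abs, abs_of_nonneg (by linarith [ht.1] : (0 : ℝ) ≤ t - c)] at b1
    refine b1.trans ?_
    exact mul_le_mul_of_nonneg_left (by linarith [ht.2]) (by linarith)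
  have hpt : ∀ t ∈ Set.Icc c (c + h), ‖Complex.exp ((ϕ t : ℂ) * Complex.I) -
      Complex.exp ((ϕ' t : ℂ) * Complex.I)‖ ^ 2 ≤ 2 * (A + h * B + h * (V + V')) := by
    intro t ht
    set x : ℝ := ‖Complex.exp ((ϕ t : ℂ) * Complex.I) -
      Complex.exp ((ϕ' t : ℂ) * Complex.I)‖ with hx
    have x0 : 0 ≤ x := norm_nonneg _
    have x1 : x ≤ 2 := by
      have c1 := norm_sub_le (Complex.exp ((ϕ t : ℂ) * Complex.I))
        (Complex.exp ((ϕ' t : ℂ) * Complex.I))
      rw [Complex.norm_exp_ofReal_mul_I, Complex.norm_exp_ofReal_mul_I] at c1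
      linarith
    have x2 : x ≤ A + h * B + h * (V + V') := by
      have c1 : x ≤ |ϕ t - (ϕ' t + 2 * Real.pi * k)| := by
        rw [hx, ← Q1_exp_shift (ϕ' t) k]
        exact norm_exp_sub_le _ _
      have c2 := hd t ht
      have c3 : |ϕ t - (ϕ' t + 2 * Real.pi * k)| ≤
          |(ϕ t - ϕ' t) - (ϕ c - ϕ' c)| + |ϕ c - ϕ' c - 2 * Real.pi * k| := by
        have : ϕ t - (ϕ' t + 2 * Real.pi * k) =
          ((ϕ t - ϕ' t) - (ϕ c - ϕ' c)) + (ϕ c - ϕ' c - 2 * Real.pi * k) := by ring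
        rw [this]
        exact abs_add_le _ _
      have c4 : (B + V + V') * h = h * B + h * (V + V') := by ring
      linarith
    have : x ^ 2 ≤ 2 * x := by
      rw [pow_two]
      exact mul_le_mul_of_nonneg_right x1 x0
    linarith
  have hm : ∫ t in c..(c + h), ‖Complex.exp ((ϕ t : ℂ) * Complex.I) -
      Complex.exp ((ϕ' t : ℂ) * Complex.I)‖ ^ 2 ≤
      ∫ _t in c..(c + h), 2 * (A + h * B + h * (V + V')) := by
    refine intervalIntegral.integral_mono_on (by linarith) ?_ ?_ hpt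
    · refine Continuous.intervalIntegrable ?_ _ _
      fun_prop
    · exact intervalIntegrable_const
  refine hm.trans ?_
  rw [intervalIntegral.integral_const, smul_eq_mul]
  refine le_of_eq ?_
  ring

/-- PROOF. Sum `quant_arc` over the arcs (`intervalIntegral.sum_integral_adjacent_intervals` with
`fun i => 2π i / Q`), `c = 2π i / Q`, `h = 2π / Q`: `Q h = 2π`, so the sum of the bounds is
`4π (A + h B) + 2 h^2 (∫ |deriv g| + ∫ |deriv g'|)`. -/
theorem quant {ϕ ϕ' g g' : ℝ → ℝ} (hg : ContDiff ℝ 1 g) (hg' : ContDiff ℝ 1 g')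
    (hϕ : ∀ t, HasDerivAt ϕ (g t) t) (hϕ' : ∀ t, HasDerivAt ϕ' (g' t) t) {A B : ℝ} {Q : ℕ}
    (hQ : 0 < Q)
    (h1 : ∀ i < Q, ∃ k : ℤ,
      |ϕ (2 * Real.pi * i / Q) - ϕ' (2 * Real.pi * i / Q) - 2 * Real.pi * k| ≤ A)
    (h2 : ∀ i < Q, |g (2 * Real.pi * i / Q) - g' (2 * Real.pi * i / Q)| ≤ B) :
    ∫ t in (0 : ℝ)..(2 * Real.pi), ‖Complex.exp ((ϕ t : ℂ) * Complex.I) -
      Complex.exp ((ϕ' t : ℂ) * Complex.I)‖ ^ 2 ≤
      4 * Real.pi * (A + 2 * Real.pi / Q * B) +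
        2 * (2 * Real.pi / Q) ^ 2 * (VV g + VV g') := by
  set h : ℝ := 2 * Real.pi / Q with hh
  have hQ' : (0 : ℝ) < Q := by exact_mod_cast hQ
  have hh0 : 0 ≤ h := by positivity
  have hQh : (Q : ℝ) * h = 2 * Real.pi := by
    rw [hh]
    field_simp
  have hcϕ : Continuous ϕ := continuous_iff_continuousAt.2 fun t => (hϕ t).continuousAt
  have hcϕ' : Continuous ϕ' := continuous_iff_continuousAt.2 fun t => (hϕ' t).continuousAt
  have hdg : Continuous (fun t => |deriv g t|) := (hg.continuous_deriv le_rfl).abs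
  have hdg' : Continuous (fun t => |deriv g' t|) := (hg'.continuous_deriv le_rfl).abs
  have hF : Continuous (fun t : ℝ => ‖Complex.exp ((ϕ t : ℂ) * Complex.I) -
      Complex.exp ((ϕ' t : ℂ) * Complex.I)‖ ^ 2) := by fun_prop
  have hsum : ∀ f : ℝ → ℝ, Continuous f →
      ∫ t in (0 : ℝ)..(2 * Real.pi), f t =
        ∑ i ∈ range Q, ∫ t in (2 * Real.pi * i / Q)..(2 * Real.pi * i / Q + h), f t := by
    intro f hf
    have a1 := intervalIntegral.sum_integral_adjacent_intervals (μ := volume) (f := f)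
      (a := fun i : ℕ => 2 * Real.pi * (i : ℝ) / Q) (n := Q)
      (fun k _ => hf.intervalIntegrable _ _)
    have a2 : 2 * Real.pi * ((0 : ℕ) : ℝ) / Q = 0 := by simp
    have a3 : 2 * Real.pi * ((Q : ℕ) : ℝ) / Q = 2 * Real.pi := by field_simp
    simp only [a2, a3] at a1
    rw [← a1]
    refine Finset.sum_congr rfl fun i _ => ?_
    have a4 : 2 * Real.pi * ((i + 1 : ℕ) : ℝ) / Q = 2 * Real.pi * i / Q + h := by
      rw [hh]
      push_cast
      ring
    rw [a4]
  unfold VV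
  rw [hsum _ hF, hsum _ hdg, hsum _ hdg']
  have hle : ∀ i ∈ range Q, (∫ t in (2 * Real.pi * i / Q)..(2 * Real.pi * i / Q + h),
      ‖Complex.exp ((ϕ t : ℂ) * Complex.I) - Complex.exp ((ϕ' t : ℂ) * Complex.I)‖ ^ 2) ≤
      2 * h * (A + h * B) + 2 * h ^ 2 *
        ((∫ t in (2 * Real.pi * i / Q)..(2 * Real.pi * i / Q + h), |deriv g t|) +
        ∫ t in (2 * Real.pi * i / Q)..(2 * Real.pi * i / Q + h), |deriv g' t|) := by
    intro i hi
    obtain ⟨k, hk⟩ := h1 i (Finset.mem_range.1 hi)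
    refine (quant_arc hg hg' hϕ hϕ' hh0 hk (h2 i (Finset.mem_range.1 hi))).trans ?_
    refine le_of_eq ?_
    ring
  refine (Finset.sum_le_sum hle).trans ?_
  rw [Finset.sum_add_distrib, Finset.sum_const, Finset.card_range, nsmul_eq_mul,
    ← Finset.mul_sum, Finset.sum_add_distrib]
  refine le_of_eq ?_
  have e1 : (Q : ℝ) * (2 * h * (A + h * B)) = 4 * Real.pi * (A + h * B) := by
    have : (Q : ℝ) * (2 * h * (A + h * B)) = 2 * (Q * h) * (A + h * B) := by ring
    rw [this, hQh]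
    ring
  rw [e1]

/-- PROOF. `x = fract (u / 2π)`, `y = fract (v / 2π)` have the same integer part of `q x`, `q y`,
so `|x - y| ≤ 1 / q`, and `u - v = 2π (x - y) + 2π (⌊u/2π⌋ - ⌊v/2π⌋)`. -/
theorem code_phase {u v : ℝ} {q : ℕ} (hq : 0 < q)
    (h : ⌊(q : ℝ) * Int.fract (u / (2 * Real.pi))⌋ = ⌊(q : ℝ) * Int.fract (v / (2 * Real.pi))⌋) :
    ∃ k : ℤ, |u - v - 2 * Real.pi * k| ≤ 2 * Real.pi / q := by
  have hq' : (0 : ℝ) < q := by exact_mod_cast hq
  have h1 := Int.abs_sub_lt_one_of_floor_eq_floor h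
  refine ⟨⌊u / (2 * Real.pi)⌋ - ⌊v / (2 * Real.pi)⌋, ?_⟩
  have hu : u = 2 * Real.pi * (⌊u / (2 * Real.pi)⌋ + Int.fract (u / (2 * Real.pi))) := by
    rw [Int.floor_add_fract]
    field_simp
  have hv : v = 2 * Real.pi * (⌊v / (2 * Real.pi)⌋ + Int.fract (v / (2 * Real.pi))) := by
    rw [Int.floor_add_fract]
    field_simp
  have e : u - v - 2 * Real.pi * ((⌊u / (2 * Real.pi)⌋ - ⌊v / (2 * Real.pi)⌋ : ℤ) : ℝ) =
      (q * Int.fract (u / (2 * Real.pi)) - q * Int.fract (v / (2 * Real.pi))) *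
        (2 * Real.pi / q) := by
    have e1 : (q * Int.fract (u / (2 * Real.pi)) - q * Int.fract (v / (2 * Real.pi))) *
        (2 * Real.pi / q) =
        2 * Real.pi * (Int.fract (u / (2 * Real.pi)) - Int.fract (v / (2 * Real.pi))) := by
      field_simp
    rw [e1]
    push_cast
    linear_combination hu - hv
  rw [e, abs_mul, abs_of_pos (by positivity : (0 : ℝ) < 2 * Real.pi / q)]
  exact mul_le_of_le_one_left (by positivity) h1.le

/-- PROOF. `|u c - v c| ≤ 1`. -/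
theorem code_freq {u v c : ℝ} (hc : 0 < c) (h : ⌊u * c⌋ = ⌊v * c⌋) : |u - v| ≤ 1 / c := by
  have h1 := Int.abs_sub_lt_one_of_floor_eq_floor h
  rw [← sub_mul, abs_mul, abs_of_pos hc] at h1
  rw [le_div_iff₀ hc]
  exact h1.le

end Pool.Agent.Lib.MP_19d64f_an
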