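import Pool.Agent.Lib.MP_19d64f_an.Ph
import Pool.Agent.Lib.MP_19d64f_an.Q1

/-!
# Two flat polynomials with the same code have few different coefficients (Q2)
-/

set_option autoImplicit false

namespace Pool.Agent.Lib.MP_19d64f_an

open Finset MeasureTheory

theorem close_card {a a' : ℕ → ℝ} {n : ℕ} {ε ρ : ℝ} {ϕ ϕ' : ℝ → ℝ} (ha : Lit a) (ha' : Lit a')
    (h : Flat a n ε) (h' : Flat a' n ε) (hε0 : 0 ≤ ε) (hε : ε ≤ 1 / 2) (hn : 1 ≤ n)
    (hρ : 0 ≤ ρ)
    (hV : VV (om a n) ≤ ρ * (n : ℝ) ^ 2) (hV' : VV (om a' n) ≤ ρ * (n : ℝ) ^ 2)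
    (hd : ∀ t, HasDerivAt ϕ (om a n t) t) (hd' : ∀ t, HasDerivAt ϕ' (om a' n t) t)
    (hP : ∀ t : ℝ, P a n t = (‖P a n t‖ : ℂ) * Complex.exp ((ϕ t : ℂ) * Complex.I))
    (hP' : ∀ t : ℝ, P a' n t = (‖P a' n t‖ : ℂ) * Complex.exp ((ϕ' t : ℂ) * Complex.I))
    {Q q s : ℕ} (hQ0 : 0 < Q) (hQ : 2 * Real.pi * n / Q ≤ s) (hs : 0 < s) (hq : 0 < q)
    (h1 : ∀ i < Q, ⌊(q : ℝ) * Int.fract (ϕ (2 * Real.pi * i / Q) / (2 * Real.pi))⌋ =
      ⌊(q : ℝ) * Int.fract (ϕ' (2 * Real.pi * i / Q) / (2 * Real.pi))⌋)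
    (h2 : ∀ i < Q, ⌊om a n (2 * Real.pi * i / Q) * ((s : ℝ) * q / n)⌋ =
      ⌊om a' n (2 * Real.pi * i / Q) * ((s : ℝ) * q / n)⌋) :
    (((range (n + 1)).filter (fun k => a k ≠ a' k)).card : ℝ) ≤
      ((n : ℝ) + 1) * (2 * ε ^ 2 + (s : ℝ) ^ 2 * ρ / 3 + 8 / q) := by
  have hpi := Real.pi_pos
  have hpi3 := Real.pi_gt_three
  have hpi4 : Real.pi < 3.15 := Real.pi_lt_d2
  have hnR : (1 : ℝ) ≤ n := by exact_mod_cast hn
  have hsR : (0 : ℝ) < s := by exact_mod_cast hs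
  have hqR : (0 : ℝ) < q := by exact_mod_cast hq
  have hQR : (0 : ℝ) < Q := by exact_mod_cast hQ0
  have hne : ∀ t, P a n t ≠ 0 := P_ne h (by linarith)
  have hne' : ∀ t, P a' n t ≠ 0 := P_ne h' (by linarith)
  have hcϕ : Continuous ϕ := continuous_iff_continuousAt.2 fun t => (hd t).continuousAt
  have hcϕ' : Continuous ϕ' := continuous_iff_continuousAt.2 fun t => (hd' t).continuousAt
  have hcP : Continuous (P a n) := (contDiff_P a n).continuous
  have hcP' : Continuous (P a' n) := (contDiff_P a' n).continuous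
  have hN : (0 : ℝ) < (n : ℝ) + 1 := by positivity
  set N : ℝ := (n : ℝ) + 1 with hNd
  have hqq := quant (A := 2 * Real.pi / q) (B := 1 / ((s : ℝ) * q / n)) (contDiff_om hne)
    (contDiff_om hne') hd hd' hQ0
    (fun i hi => code_phase hq (h1 i hi)) (fun i hi => code_freq (by positivity) (h2 i hi))
  set I : ℝ := ∫ t in (0 : ℝ)..(2 * Real.pi), ‖Complex.exp ((ϕ t : ℂ) * Complex.I) -
      Complex.exp ((ϕ' t : ℂ) * Complex.I)‖ ^ 2 with hI
  have hIb : I ≤ 4 * Real.pi * ((2 * Real.pi + 1) / q) + 4 * (s : ℝ) ^ 2 * ρ := by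
    refine hqq.trans ?_
    have e1 : 2 * Real.pi / Q * (1 / ((s : ℝ) * q / n)) ≤ 1 / q := by
      have : 2 * Real.pi / Q * (1 / ((s : ℝ) * q / n)) = (2 * Real.pi * n / Q) * (1 / (s * q)) := by
        field_simp
      rw [this]
      calc (2 * Real.pi * n / Q) * (1 / (s * q)) ≤ s * (1 / (s * q)) :=
            mul_le_mul_of_nonneg_right hQ (by positivity)
        _ = 1 / q := by field_simp
    have e2 : 2 * (2 * Real.pi / Q) ^ 2 * (VV (om a n) + VV (om a' n)) ≤ 4 * (s : ℝ) ^ 2 * ρ := by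
      have h3 : (2 * Real.pi * n / Q) ^ 2 ≤ (s : ℝ) ^ 2 :=
        pow_le_pow_left₀ (by positivity) hQ 2
      calc 2 * (2 * Real.pi / Q) ^ 2 * (VV (om a n) + VV (om a' n)) ≤
          2 * (2 * Real.pi / Q) ^ 2 * (ρ * (n : ℝ) ^ 2 + ρ * (n : ℝ) ^ 2) :=
            mul_le_mul_of_nonneg_left (add_le_add hV hV') (by positivity)
        _ = 4 * (2 * Real.pi * n / Q) ^ 2 * ρ := by ring
        _ ≤ 4 * (s : ℝ) ^ 2 * ρ := by
          refine mul_le_mul_of_nonneg_right ?_ hρ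
          linarith
    have e3 : 4 * Real.pi * (2 * Real.pi / q + 2 * Real.pi / Q * (1 / ((s : ℝ) * q / n))) ≤
        4 * Real.pi * ((2 * Real.pi + 1) / q) := by
      refine mul_le_mul_of_nonneg_left ?_ (by positivity)
      have : (2 * Real.pi + 1) / q = 2 * Real.pi / q + 1 / q := by ring
      rw [this]
      linarith
    linarith
  have hpt : ∀ t, ‖P a n t - P a' n t‖ ^ 2 ≤ 8 * ε ^ 2 * N +
      2 * N * ‖Complex.exp ((ϕ t : ℂ) * Complex.I) - Complex.exp ((ϕ' t : ℂ) * Complex.I)‖ ^ 2 := by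
    intro t
    set r := Real.sqrt N with hr
    have hrr : r ^ 2 = N := Real.sq_sqrt hN.le
    have hr0 : 0 ≤ r := Real.sqrt_nonneg _
    set D := ‖Complex.exp ((ϕ t : ℂ) * Complex.I) - Complex.exp ((ϕ' t : ℂ) * Complex.I)‖ with hD
    have hD0 : 0 ≤ D := norm_nonneg _
    have e : P a n t - P a' n t = ((‖P a n t‖ - r : ℝ) : ℂ) * Complex.exp ((ϕ t : ℂ) * Complex.I) -
        ((‖P a' n t‖ - r : ℝ) : ℂ) * Complex.exp ((ϕ' t : ℂ) * Complex.I) +
        (r : ℂ) * (Complex.exp ((ϕ t : ℂ) * Complex.I) - Complex.exp ((ϕ' t : ℂ) * Complex.I)) := by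
      have e0 : P a n t - P a' n t = (‖P a n t‖ : ℂ) * Complex.exp ((ϕ t : ℂ) * Complex.I) -
          (‖P a' n t‖ : ℂ) * Complex.exp ((ϕ' t : ℂ) * Complex.I) := by
        rw [← hP t, ← hP' t]
      rw [e0]
      push_cast
      ring
    have hb : ‖P a n t - P a' n t‖ ≤ 2 * ε * r + r * D := by
      rw [e]
      refine (norm_add_le _ _).trans ?_
      refine (add_le_add_left (norm_sub_le _ _) _).trans ?_
      rw [norm_mul, norm_mul, norm_mul, Complex.norm_exp_ofReal_mul_I,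
        Complex.norm_exp_ofReal_mul_I, Complex.norm_real, Complex.norm_real, Complex.norm_real,
        Real.norm_eq_abs, Real.norm_eq_abs, Real.norm_of_nonneg hr0]
      have := h t
      have := h' t
      linarith
    have h4 : ‖P a n t - P a' n t‖ ^ 2 ≤ (2 * ε * r + r * D) ^ 2 :=
      pow_le_pow_left₀ (norm_nonneg _) hb 2
    refine h4.trans ?_
    rw [← hrr]
    nlinarith [sq_nonneg (2 * ε * r - r * D)]
  have hint : ∫ t in (0 : ℝ)..(2 * Real.pi), ‖P a n t - P a' n t‖ ^ 2 ≤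
      16 * Real.pi * ε ^ 2 * N + 2 * N * I := by
    have h5 : ∫ t in (0 : ℝ)..(2 * Real.pi), ‖P a n t - P a' n t‖ ^ 2 ≤
        ∫ t in (0 : ℝ)..(2 * Real.pi), (8 * ε ^ 2 * N +
      2 * N * ‖Complex.exp ((ϕ t : ℂ) * Complex.I) -
        Complex.exp ((ϕ' t : ℂ) * Complex.I)‖ ^ 2) := by
      refine intervalIntegral.integral_mono_on (by positivity) ?_ ?_ fun t _ => hpt t
      · refine Continuous.intervalIntegrable ?_ _ _
        fun_prop
      · refine Continuous.intervalIntegrable ?_ _ _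
        fun_prop
    refine h5.trans (le_of_eq ?_)
    rw [intervalIntegral.integral_add (by simp) (by
      refine Continuous.intervalIntegrable ?_ _ _
      fun_prop), intervalIntegral.integral_const, intervalIntegral.integral_const_mul, smul_eq_mul]
    ring
  rw [int_sq_diff ha ha' n] at hint
  set c : ℝ := (((range (n + 1)).filter (fun k => a k ≠ a' k)).card : ℝ) with hc
  have h6 : 8 * Real.pi * c ≤ 16 * Real.pi * ε ^ 2 * N +
      2 * N * (4 * Real.pi * ((2 * Real.pi + 1) / q) + 4 * (s : ℝ) ^ 2 * ρ) := by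
    refine hint.trans ?_
    have := mul_le_mul_of_nonneg_left hIb (by positivity : 0 ≤ 2 * N)
    linarith
  have h7 : 16 * Real.pi * ε ^ 2 * N +
      2 * N * (4 * Real.pi * ((2 * Real.pi + 1) / q) + 4 * (s : ℝ) ^ 2 * ρ) =
      8 * Real.pi * (N * (2 * ε ^ 2 + (2 * Real.pi + 1) / q + (s : ℝ) ^ 2 * ρ / Real.pi)) := by
    field_simp
    ring
  rw [h7] at h6
  have h8 := le_of_mul_le_mul_left h6 (by positivity)
  refine h8.trans (mul_le_mul_of_nonneg_left ?_ hN.le)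
  have h9 : (2 * Real.pi + 1) / q ≤ 8 / q := by
    refine div_le_div_of_nonneg_right ?_ hqR.le
    norm_num at hpi4 ⊢
    linarith
  have h10 : (s : ℝ) ^ 2 * ρ / Real.pi ≤ (s : ℝ) ^ 2 * ρ / 3 :=
    div_le_div_of_nonneg_left (by positivity) (by norm_num) hpi3.le
  linarith

end Pool.Agent.Lib.MP_19d64f_an
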