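import Pool.Agent.Lib.MP_19d64f_an.E1
import Pool.Agent.Lib.MP_19d64f_an.D1
import Pool.Agent.Lib.MP_19d64f_an.D2
import Pool.Agent.Lib.MP_19d64f_an.M1

/-!
# The variation of the frequency (T1)
-/

set_option autoImplicit false

namespace Pool.Agent.Lib.MP_19d64f_an

open Finset MeasureTheory

theorem numer {x V ε u E β : ℝ} (hx : 1 ≤ x) (hV : V ≤ x) (hε0 : 0 ≤ ε)
    (hε : x ^ 6 * ε ≤ 1 / 10 ^ 12) (hu0 : 0 ≤ u) (hu : x ^ 15 * u ≤ 1 / 10 ^ 26)
    (hE : E ≤ 3 * ε + (10 ^ 7 * x ^ 4) ^ 2 * V * u / 6)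
    (hβ : β ≤ 4 * E + 2 * x * u + 2 * ((10 ^ 7 * x ^ 4) * x * u) +
      6 * (Real.pi ^ 2 * (12 * x) ^ 2 / (10 ^ 7 * x ^ 4) ^ 2)) :
    (10 ^ 7 * x ^ 4 / 20) * (2 * Real.pi / (10 ^ 7 * x ^ 4) + 10 ^ 7 * x ^ 4 * u + E) +
      (10 ^ 7 * x ^ 4 * (100 * x ^ 2)) * β + 1 / 10 < 1 := by
  have hx0 : 0 < x := by linarith
  have hpi : Real.pi < 3.15 := Real.pi_lt_d2
  have hpi0 := Real.pi_pos
  -- powers
  have p4 : (1 : ℝ) ≤ x ^ 4 := one_le_pow₀ hx
  have hu2 : ∀ k : ℕ, k ≤ 15 → x ^ k * u ≤ 1 / 10 ^ 26 := fun k hk =>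
    (mul_le_mul_of_nonneg_right (pow_le_pow_right₀ hx hk) hu0).trans hu
  have hε2 : ∀ k : ℕ, k ≤ 6 → x ^ k * ε ≤ 1 / 10 ^ 12 := fun k hk =>
    (mul_le_mul_of_nonneg_right (pow_le_pow_right₀ hx hk) hε0).trans hε
  have hVu : ∀ k : ℕ, k ≤ 14 → x ^ k * (V * u) ≤ 1 / 10 ^ 26 := by
    intro k hk
    refine le_trans ?_ (hu2 (k + 1) (by omega))
    rw [pow_succ]
    have : V * u ≤ x * u := mul_le_mul_of_nonneg_right hV hu0
    calc x ^ k * (V * u) ≤ x ^ k * (x * u) := mul_le_mul_of_nonneg_left this (by positivity)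
      _ = x ^ k * x * u := by ring
  have e1 : (10 ^ 7 * x ^ 4 / 20) * (2 * Real.pi / (10 ^ 7 * x ^ 4) + 10 ^ 7 * x ^ 4 * u + E) =
      Real.pi / 10 + 10 ^ 14 / 20 * (x ^ 8 * u) + 10 ^ 7 / 20 * x ^ 4 * E := by
    field_simp
    ring
  have e2 : x ^ 4 * E ≤ 3 * (x ^ 4 * ε) + 10 ^ 14 / 6 * (x ^ 12 * (V * u)) := by
    calc x ^ 4 * E ≤ x ^ 4 * (3 * ε + (10 ^ 7 * x ^ 4) ^ 2 * V * u / 6) :=
        mul_le_mul_of_nonneg_left hE (by positivity)
      _ = _ := by ring
  have e3 : x ^ 6 * E ≤ 3 * (x ^ 6 * ε) + 10 ^ 14 / 6 * (x ^ 14 * (V * u)) := by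
    calc x ^ 6 * E ≤ x ^ 6 * (3 * ε + (10 ^ 7 * x ^ 4) ^ 2 * V * u / 6) :=
        mul_le_mul_of_nonneg_left hE (by positivity)
      _ = _ := by ring
  have e4 : x ^ 6 * β ≤ 4 * (x ^ 6 * E) + 2 * (x ^ 7 * u) + 2 * 10 ^ 7 * (x ^ 11 * u) +
      864 * Real.pi ^ 2 / 10 ^ 14 := by
    calc x ^ 6 * β ≤ x ^ 6 * (4 * E + 2 * x * u + 2 * ((10 ^ 7 * x ^ 4) * x * u) +
      6 * (Real.pi ^ 2 * (12 * x) ^ 2 / (10 ^ 7 * x ^ 4) ^ 2)) :=
        mul_le_mul_of_nonneg_left hβ (by positivity)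
      _ = _ := by
        field_simp
        ring
  have e5 : (10 ^ 7 * x ^ 4 * (100 * x ^ 2)) * β = 10 ^ 9 * (x ^ 6 * β) := by ring
  have hp2 : Real.pi ^ 2 ≤ 10 := by nlinarith
  rw [e1, e5]
  have a1 := hu2 8 (by norm_num)
  have a2 := hu2 7 (by norm_num)
  have a3 := hu2 11 (by norm_num)
  have a4 := hVu 12 (by norm_num)
  have a5 := hVu 14 (by norm_num)
  have a6 := hε2 4 (by norm_num)
  have a7 := hε2 6 (by norm_num)
  have e6 : 10 ^ 7 / 20 * x ^ 4 * E = 10 ^ 7 / 20 * (x ^ 4 * E) := by ring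
  rw [e6]
  norm_num at *
  linarith

/-- a point of `[0, 2π]` lies in one of the `Q` arcs -/
theorem arc_of {Q : ℕ} (hQ : 0 < Q) {t : ℝ} (h0 : 0 ≤ t) (h1 : t ≤ 2 * Real.pi) :
    ∃ i ∈ range Q, 2 * Real.pi * i / Q ≤ t ∧ t ≤ 2 * Real.pi * (i + 1) / Q := by
  have hQR : (0 : ℝ) < Q := by exact_mod_cast hQ
  have hpi := Real.pi_pos
  rcases h1.lt_or_eq with h2 | h2
  · refine ⟨⌊t * Q / (2 * Real.pi)⌋₊, ?_, ?_, ?_⟩
    · rw [Finset.mem_range, Nat.floor_lt (by positivity)]
      rw [div_lt_iff₀ (by positivity)]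
      nlinarith
    · have := Nat.floor_le (a := t * Q / (2 * Real.pi)) (by positivity)
      rw [le_div_iff₀ (by positivity)] at this
      rw [div_le_iff₀ hQR]
      linarith
    · have := (Nat.lt_floor_add_one (t * Q / (2 * Real.pi))).le
      rw [div_le_iff₀ (by positivity)] at this
      rw [le_div_iff₀ hQR]
      linarith
  · refine ⟨Q - 1, by rw [Finset.mem_range]; omega, ?_, ?_⟩
    · rw [h2, div_le_iff₀ hQR]
      have : ((Q - 1 : ℕ) : ℝ) ≤ Q := by exact_mod_cast Nat.sub_le Q 1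
      nlinarith
    · rw [h2, le_div_iff₀ hQR]
      have : ((Q - 1 : ℕ) : ℝ) + 1 = Q := by
        have : 1 ≤ Q := hQ
        push_cast [Nat.cast_sub this]
        ring
      rw [this]

theorem cos_ge_half {x : ℝ} {l : ℤ} (h : |x - 2 * Real.pi * l| ≤ Real.pi / 3) :
    1 / 2 ≤ Real.cos x := by
  have e : Real.cos x = Real.cos |x - 2 * Real.pi * l| := by
    rw [Real.cos_abs]
    have : x - 2 * Real.pi * l = x - l * (2 * Real.pi) := by ring
    rw [this, Real.cos_sub_int_mul_two_pi]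
  rw [e, ← Real.cos_pi_div_three]
  exact Real.cos_le_cos_of_nonneg_of_le_pi (abs_nonneg _) (by linarith [Real.pi_pos]) h

theorem int_ind (m : ℕ) (θ : ℝ) : IntervalIntegrable
    (fun t : ℝ => if 1 - Real.cos ((m : ℝ) * t) < θ then (1 : ℝ) else 0) volume 0
      (2 * Real.pi) := by
  have hms : MeasurableSet {t : ℝ | 1 - Real.cos ((m : ℝ) * t) < θ} :=
    measurableSet_lt (by fun_prop) measurable_const
  have hmeas : Measurable (fun t : ℝ => if 1 - Real.cos ((m : ℝ) * t) < θ then (1 : ℝ) else 0) :=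
    Measurable.ite hms measurable_const measurable_const
  refine IntervalIntegrable.mono_fun (g := fun t : ℝ =>
    if 1 - Real.cos ((m : ℝ) * t) < θ then (1 : ℝ) else 0) (f := fun _ : ℝ => (1 : ℝ))
    (by simp) hmeas.aestronglyMeasurable ?_
  refine Filter.Eventually.of_forall fun t => ?_
  simp only
  split_ifs <;> simp

open scoped Classical in
theorem core {a : ℕ → ℝ} {n : ℕ} {ϕ g : ℝ → ℝ} {ε V : ℝ} {K : ℕ} (ha : Lit a)
    (h : Apx a n ϕ g ε) (hε0 : 0 ≤ ε) (hV : VV g ≤ V * n) (hV0 : 0 ≤ V) (hK : 7 * V + 27 ≤ K)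
    (hε : ((12 : ℝ) ^ K) ^ 6 * ε ≤ 1 / 10 ^ 12)
    (hn : 10 ^ 26 * ((12 : ℝ) ^ K) ^ 15 ≤ n) : False := by
  set M : ℕ := 12 ^ K with hM
  have hM1 : 1 ≤ M := Nat.one_le_pow _ _ (by norm_num)
  have hMx : ((12 : ℝ) ^ K) = (M : ℝ) := by rw [hM]; push_cast; rfl
  rw [hMx] at hε hn
  have hx : (1 : ℝ) ≤ M := by exact_mod_cast hM1
  set Q : ℕ := 12 * M with hQ
  set R : ℕ := 10 ^ 7 * M ^ 4 with hR
  have hQ0 : 0 < Q := by rw [hQ]; omega
  have hR0 : 0 < R := by rw [hR]; positivity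
  have hQR : Q ≤ R := by
    rw [hQ, hR]
    have : M ≤ M ^ 4 := Nat.le_self_pow (by norm_num) M
    nlinarith
  have hxn : (1 : ℝ) ≤ n := by
    have : (1 : ℝ) ≤ (M : ℝ) ^ 15 := one_le_pow₀ hx
    nlinarith
  have hn0 : 0 < n := by
    have : (0 : ℝ) < n := by linarith
    exact_mod_cast this
  have hnR : (0 : ℝ) < n := by linarith
  have hRR : (R : ℝ) = 10 ^ 7 * (M : ℝ) ^ 4 := by rw [hR]; push_cast; ring
  have hQQ : (Q : ℝ) = 12 * M := by rw [hQ]; push_cast; ring
  have hR0' : (0 : ℝ) < R := by exact_mod_cast hR0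
  have hQ0' : (0 : ℝ) < Q := by exact_mod_cast hQ0
  have hM6 : (1 : ℝ) ≤ (M : ℝ) ^ 6 := one_le_pow₀ hx
  have hTV0 : 0 ≤ VV g := VV_nonneg g
  have hVK : V ≤ M := by
    have h1 : (K : ℝ) ≤ M := by
      rw [← hMx]
      have : (K : ℝ) < (12 : ℝ) ^ K := by exact_mod_cast Nat.lt_pow_self (by norm_num : 1 < 12)
      exact this.le
    linarith
  set y : ℝ → ℝ := fun t => g t / n with hy
  have hyc : ContDiff ℝ 1 y := h.hg.div_const _
  have hyd : ∀ t, deriv y t = deriv g t / n := by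
    intro t
    rw [hy]
    exact deriv_div_const _
  have hyV : ∫ t in (0 : ℝ)..(2 * Real.pi), |deriv y t| ≤ V := by
    have e : ∀ t, |deriv y t| = (1 / (n : ℝ)) * |deriv g t| := by
      intro t
      rw [hyd, abs_div, abs_of_pos hnR]
      ring
    simp_rw [e]
    rw [intervalIntegral.integral_const_mul]
    have : (1 / (n : ℝ)) * VV g ≤ V := by
      rw [one_div, inv_mul_le_iff₀ hnR]
      linarith
    exact this
  set η : ℝ := 1 / Q with hη
  have hη0 : 0 < η := by positivity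
  set S : ℕ → Finset ℕ := fun j => (range Q).filter (fun i => Rel y Q R η i j) with hS
  have hcount := count hyc hQ0 hR0 hη0.le
  set Bd : Finset ℕ := (range R).filter (fun j => K < (S j).card) with hBd
  set Gd : Finset ℕ := (range R).filter (fun j => ¬ K < (S j).card) with hGd
  have hBdR : ((Bd.card : ℕ) : ℝ) ≤ R / 20 := by
    have h1 : (Bd.card : ℝ) * K ≤
        ((∑ j ∈ range R, ((range Q).filter (fun i => Rel y Q R η i j)).card : ℕ) : ℝ) := by
      have : Bd.card * K ≤ ∑ j ∈ range R, (S j).card := by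
        calc Bd.card * K = ∑ _j ∈ Bd, K := by simp
          _ ≤ ∑ j ∈ Bd, (S j).card := Finset.sum_le_sum fun j hj => by
            have := (Finset.mem_filter.1 hj).2
            omega
          _ ≤ ∑ j ∈ range R, (S j).card :=
            Finset.sum_le_sum_of_subset (Finset.filter_subset _ _)
      exact_mod_cast this
    have h2 : η * Q = 1 := by rw [hη]; field_simp
    rw [h2] at hcount
    have h3 : (Bd.card : ℝ) * K ≤ (1 + V) * R / 3 + Q := by
      refine (h1.trans hcount).trans ?_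
      have : (1 + ∫ t in (0 : ℝ)..(2 * Real.pi), |deriv y t|) * R / 3 ≤ (1 + V) * R / 3 := by
        refine div_le_div_of_nonneg_right ?_ (by norm_num)
        exact mul_le_mul_of_nonneg_right (by linarith) hR0'.le
      linarith
    have h4 : (Q : ℝ) ≤ R := by exact_mod_cast hQR
    have hK0 : (0 : ℝ) < K := by linarith
    have h5 : (Bd.card : ℝ) * K ≤ (R / 20) * K := by
      refine h3.trans ?_
      nlinarith
    exact le_of_mul_le_mul_right h5 hK0
  -- the lags
  choose mm hm1 hm2 hm3 using fun j => dirichlet (S j) (fun i => 2 * Real.pi * i / Q)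
  have hmM : ∀ j ∈ Gd, mm j ≤ M := by
    intro j hj
    have := (Finset.mem_filter.1 hj).2
    exact (hm2 j).trans (Nat.pow_le_pow_right (by norm_num) (by omega))
  set κ : ℕ → ℝ := fun j => 2 * Real.pi * j / R with hκ
  set τ : ℝ := Real.pi ^ 2 / ((R : ℝ) ^ 2 * η ^ 2) with hτ
  have hτ0 : 0 ≤ τ := by positivity
  set E : ℝ := 3 * ε + (R : ℝ) ^ 2 * VV g / (2 * Real.pi * (n : ℝ) ^ 2) with hE
  set β : ℝ := 4 * E + 2 * M / ((n : ℝ) + 1) + 2 * (R * M / n) + 6 * τ with hβ
  have hcy : Continuous y := hyc.continuous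
  have hpt : ∀ j ∈ Gd, ∀ t, 0 ≤ t → t ≤ 2 * Real.pi →
      w R (κ j) (y t) * (1 - Real.cos ((mm j : ℝ) * t)) ≤
      w R (κ j) (y t) * (2 * Real.cos ((mm j : ℝ) * t) * (1 - Real.cos ((mm j : ℝ) * t))) +
        6 * τ := by
    intro j hj t h0 h1
    have hw0 := w_nonneg R (κ j) (y t)
    have hc1 := Real.cos_le_one ((mm j : ℝ) * t)
    have hc2 := Real.neg_one_le_cos ((mm j : ℝ) * t)
    obtain ⟨i, hi, hi1, hi2⟩ := arc_of hQ0 h0 h1
    by_cases hrel : Rel y Q R η i j
    · have hiS : i ∈ S j := Finset.mem_filter.2 ⟨hi, hrel⟩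
      obtain ⟨l, hl⟩ := hm3 j i hiS
      have hhalf : 1 / 2 ≤ Real.cos ((mm j : ℝ) * t) := by
        refine cos_ge_half (l := l) ?_
        have e : (mm j : ℝ) * t - 2 * Real.pi * l =
            ((mm j : ℝ) * (2 * Real.pi * i / Q) - 2 * Real.pi * l) +
              (mm j : ℝ) * (t - 2 * Real.pi * i / Q) := by ring
        rw [e]
        refine (abs_add_le _ _).trans ?_
        have hmj : (mm j : ℝ) ≤ M := by exact_mod_cast hmM j hj
        have h2 : |(mm j : ℝ) * (t - 2 * Real.pi * i / Q)| ≤ Real.pi / 6 := by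
          rw [abs_of_nonneg (mul_nonneg (Nat.cast_nonneg _) (by linarith))]
          have h3 : t - 2 * Real.pi * i / Q ≤ 2 * Real.pi / Q := by
            have : 2 * Real.pi * (i + 1) / Q = 2 * Real.pi * i / Q + 2 * Real.pi / Q := by ring
            linarith
          calc (mm j : ℝ) * (t - 2 * Real.pi * i / Q) ≤ M * (2 * Real.pi / Q) :=
              mul_le_mul hmj h3 (by linarith) (by positivity)
            _ = Real.pi / 6 := by
              rw [hQQ]
              field_simp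
              ring
        linarith
      have : w R (κ j) (y t) * (1 - Real.cos ((mm j : ℝ) * t)) ≤
          w R (κ j) (y t) * (2 * Real.cos ((mm j : ℝ) * t) * (1 - Real.cos ((mm j : ℝ) * t))) := by
        refine mul_le_mul_of_nonneg_left ?_ hw0
        nlinarith
      linarith
    · have hfar : w R (κ j) (y t) ≤ τ := by
        refine w_far hR0 hη0 fun l => ?_
        by_contra hlt
        push Not at hlt
        exact hrel ⟨t, hi1, hi2, l, hlt⟩
      have h2 : w R (κ j) (y t) * (1 - Real.cos ((mm j : ℝ) * t)) -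
          w R (κ j) (y t) * (2 * Real.cos ((mm j : ℝ) * t) * (1 - Real.cos ((mm j : ℝ) * t))) =
          w R (κ j) (y t) * ((1 - Real.cos ((mm j : ℝ) * t)) *
            (1 - 2 * Real.cos ((mm j : ℝ) * t))) := by ring
      have h3 : (1 - Real.cos ((mm j : ℝ) * t)) * (1 - 2 * Real.cos ((mm j : ℝ) * t)) ≤ 6 := by
        nlinarith
      have h4 : w R (κ j) (y t) * ((1 - Real.cos ((mm j : ℝ) * t)) *
            (1 - 2 * Real.cos ((mm j : ℝ) * t))) ≤ w R (κ j) (y t) * 6 :=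
        mul_le_mul_of_nonneg_left h3 hw0
      linarith
  have hcw : ∀ j, Continuous (fun t => w R (κ j) (y t)) := fun j =>
    (continuous_w R (κ j)).comp hcy
  have hmean : ∀ j ∈ Gd, mean (fun t => w R (κ j) (y t) * (1 - Real.cos ((mm j : ℝ) * t))) ≤ β := by
    intro j hj
    have hmj : (mm j : ℝ) ≤ M := by exact_mod_cast hmM j hj
    have h2m : 2 * mm j ≤ n := by
      have : (2 * mm j : ℝ) ≤ n := by
        have h15 : (M : ℝ) ≤ (M : ℝ) ^ 15 := le_self_pow₀ hx (by norm_num)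
        nlinarith
      exact_mod_cast this
    have h1 : mean (fun t => w R (κ j) (y t) * (1 - Real.cos ((mm j : ℝ) * t))) ≤
        mean (fun t => w R (κ j) (y t) *
          (2 * Real.cos ((mm j : ℝ) * t) * (1 - Real.cos ((mm j : ℝ) * t))) + 6 * τ) := by
      refine mean_mono ?_ ?_ (hpt j hj)
      · refine Continuous.intervalIntegrable ?_ _ _
        exact (hcw j).mul (by fun_prop)
      · refine Continuous.intervalIntegrable ?_ _ _
        exact ((hcw j).mul (by fun_prop)).add continuous_const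
    have hc3 : Continuous (fun t => w R (κ j) (y t) *
          (2 * Real.cos ((mm j : ℝ) * t) * (1 - Real.cos ((mm j : ℝ) * t)))) :=
      (hcw j).mul (by fun_prop)
    have hc4 := mean_add (hc3.intervalIntegrable (μ := volume) 0 (2 * Real.pi))
      ((continuous_const (y := 6 * τ)).intervalIntegrable (μ := volume) 0 (2 * Real.pi))
    rw [mean_const] at hc4
    rw [hc4] at h1
    have h2 := star ha h hn0 hR0 (κ j) h2m
    have h3 : 2 * (mm j : ℝ) / ((n : ℝ) + 1) ≤ 2 * M / ((n : ℝ) + 1) :=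
      div_le_div_of_nonneg_right (by linarith) (by positivity)
    have h4 : 2 * ((R : ℝ) * (mm j : ℝ) / n) ≤ 2 * (R * M / n) := by
      refine mul_le_mul_of_nonneg_left ?_ (by norm_num)
      refine div_le_div_of_nonneg_right ?_ hnR.le
      exact mul_le_mul_of_nonneg_left hmj hR0'.le
    rw [hβ]
    linarith
  have hbad : ∀ j, mean (fun t => w R (κ j) (y t)) ≤
      2 * Real.pi / R + R / ((n : ℝ) + 1) + E := by
    intro j
    have h1 := abs_le.1 (corr_w h hn0 hR0 (κ j) (Nat.zero_le n))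
    have h2 := w_riemann hR0 hn0 (κ j)
    have h3 : T a (fun k => w R (κ j) ((k : ℝ) / n)) n 0 =
        (1 / ((n : ℝ) + 1)) * ∑ k ∈ range (n + 1), w R (κ j) ((k : ℝ) / n) := by
      unfold T
      congr 1
      refine Finset.sum_congr rfl fun k _ => ?_
      have : a k * a k = 1 := by rcases ha k with h | h <;> rw [h] <;> norm_num
      simp [this]
    have h4 : mean (fun t => w R (κ j) (g t / n) * Real.cos (((0 : ℕ) : ℝ) * t)) =
        mean (fun t => w R (κ j) (y t)) := by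
      congr 1
      funext t
      simp [hy]
    rw [h4, h3] at h1
    linarith [h1.1]
  set θ : ℝ := 1 / (100 * (M : ℝ) ^ 2) with hθ
  have hθ0 : 0 < θ := by positivity
  set G : ℝ → ℝ := fun t => ∑ m ∈ Finset.Icc 1 M,
    (if 1 - Real.cos ((m : ℝ) * t) < θ then (1 : ℝ) else 0) with hG
  have hGmean : mean G ≤ 1 / 10 := by
    rw [hG, mean_sum _ _ (fun m _ => int_ind m θ)]
    have h1 : ∀ m ∈ Finset.Icc 1 M, mean (fun t => if 1 - Real.cos ((m : ℝ) * t) < θ
        then (1 : ℝ) else 0) ≤ Real.sqrt θ := fun m hm => level (Finset.mem_Icc.1 hm).1 hθ0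
    refine (Finset.sum_le_sum h1).trans ?_
    have h2 : Real.sqrt θ = 1 / (10 * M) := by
      rw [hθ, Real.sqrt_eq_iff_mul_self_eq (by positivity) (by positivity)]
      field_simp
      norm_num
    rw [h2]
    simp only [Finset.sum_const, Nat.card_Icc, nsmul_eq_mul, Nat.add_sub_cancel]
    have : (0 : ℝ) < M := by linarith
    rw [mul_one_div, div_le_div_iff₀ (by positivity) (by norm_num)]
    linarith
  have hGint : IntervalIntegrable G volume 0 (2 * Real.pi) := by
    have h1 := IntervalIntegrable.sum (Finset.Icc 1 M) (fun m _ => int_ind m θ)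
    rw [Finset.sum_fn] at h1
    exact h1
  have hptG : ∀ t, ∑ j ∈ Gd, w R (κ j) (y t) ≤
      (∑ j ∈ Gd, (1 / θ) * (w R (κ j) (y t) * (1 - Real.cos ((mm j : ℝ) * t)))) + G t := by
    intro t
    have hG0 : 0 ≤ G t := by
      simp only [hG]
      exact Finset.sum_nonneg fun m _ => by split_ifs <;> norm_num
    have h1 : ∀ j ∈ Gd, w R (κ j) (y t) ≤
        (1 / θ) * (w R (κ j) (y t) * (1 - Real.cos ((mm j : ℝ) * t))) + w R (κ j) (y t) * G t := by
      intro j hj
      have hw0 := w_nonneg R (κ j) (y t)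
      have hc1 := Real.cos_le_one ((mm j : ℝ) * t)
      by_cases hlt : 1 - Real.cos ((mm j : ℝ) * t) < θ
      · have hG1 : 1 ≤ G t := by
          simp only [hG]
          have h2 : (1 : ℝ) = (if 1 - Real.cos ((mm j : ℝ) * t) < θ then (1 : ℝ) else 0) := by
            rw [if_pos hlt]
          have h5 := Finset.single_le_sum (s := Finset.Icc 1 M) (f := fun m : ℕ =>
            (if 1 - Real.cos ((m : ℝ) * t) < θ then (1 : ℝ) else 0))
            (fun m _ => by
              show (0 : ℝ) ≤ if 1 - Real.cos ((m : ℝ) * t) < θ then (1 : ℝ) else 0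
              split_ifs <;> norm_num)
            (Finset.mem_Icc.2 ⟨hm1 j, hmM j hj⟩)
          rw [← h2] at h5
          exact h5
        have h3 : 0 ≤ (1 / θ) * (w R (κ j) (y t) * (1 - Real.cos ((mm j : ℝ) * t))) := by
          have : 0 ≤ 1 - Real.cos ((mm j : ℝ) * t) := by linarith
          positivity
        nlinarith
      · push Not at hlt
        have h3 : w R (κ j) (y t) ≤
            (1 / θ) * (w R (κ j) (y t) * (1 - Real.cos ((mm j : ℝ) * t))) := by
          have e : (1 / θ) * (w R (κ j) (y t) * (1 - Real.cos ((mm j : ℝ) * t))) =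
              w R (κ j) (y t) * ((1 - Real.cos ((mm j : ℝ) * t)) / θ) := by ring
          rw [e]
          refine le_mul_of_one_le_right hw0 ?_
          rw [le_div_iff₀ hθ0]
          linarith
        have h4 : 0 ≤ w R (κ j) (y t) * G t := mul_nonneg hw0 hG0
        linarith
    refine (Finset.sum_le_sum h1).trans ?_
    rw [Finset.sum_add_distrib, ← Finset.sum_mul]
    have h2 : ∑ j ∈ Gd, w R (κ j) (y t) ≤ 1 := by
      rw [← w_sum_one hR0 (y t)]
      exact Finset.sum_le_sum_of_subset_of_nonneg (Finset.filter_subset _ _)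
        (fun j _ _ => w_nonneg R _ _)
    have h3 : (∑ j ∈ Gd, w R (κ j) (y t)) * G t ≤ 1 * G t := mul_le_mul_of_nonneg_right h2 hG0
    linarith
  have hone : mean (fun t => ∑ j ∈ range R, w R (κ j) (y t)) = 1 := by
    have : (fun t => ∑ j ∈ range R, w R (κ j) (y t)) = fun _ => (1 : ℝ) := by
      funext t
      exact w_sum_one hR0 (y t)
    rw [this, mean_const]
  rw [mean_sum _ _ (fun j _ => (hcw j).intervalIntegrable _ _)] at hone
  have hsplit : ∑ j ∈ range R, mean (fun t => w R (κ j) (y t)) =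
      ∑ j ∈ Bd, mean (fun t => w R (κ j) (y t)) + ∑ j ∈ Gd, mean (fun t => w R (κ j) (y t)) :=
    (Finset.sum_filter_add_sum_filter_not _ _ _).symm
  have hGsum : ∑ j ∈ Gd, mean (fun t => w R (κ j) (y t)) ≤ R * ((1 / θ) * β) + 1 / 10 := by
    rw [← mean_sum _ _ (fun j _ => (hcw j).intervalIntegrable _ _)]
    set F : ℕ → ℝ → ℝ := fun j t => (1 / θ) * (w R (κ j) (y t) *
          (1 - Real.cos ((mm j : ℝ) * t))) with hF
    have hFc : ∀ j, Continuous (F j) := by
      intro j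
      rw [hF]
      exact continuous_const.mul ((hcw j).mul (by fun_prop))
    have h1 : mean (fun t => ∑ j ∈ Gd, w R (κ j) (y t)) ≤
        mean (fun t => (∑ j ∈ Gd, F j t) + G t) := by
      refine mean_mono ?_ ?_ fun t _ _ => hptG t
      · exact (continuous_finsetSum _ fun j _ => hcw j).intervalIntegrable _ _
      · refine IntervalIntegrable.add ?_ hGint
        exact (continuous_finsetSum _ fun j _ => hFc j).intervalIntegrable _ _
    have h6 := mean_add ((continuous_finsetSum Gd fun j _ => hFc j).intervalIntegrable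
      (μ := volume) 0 (2 * Real.pi)) hGint
    have h7 := mean_sum Gd F (fun j _ => (hFc j).intervalIntegrable (μ := volume) 0 (2 * Real.pi))
    rw [h6, h7] at h1
    have hβ0 : 0 ≤ β := by
      rw [hβ, hE]
      positivity
    have h2 : ∑ j ∈ Gd, mean (F j) ≤ R * ((1 / θ) * β) := by
      have h3 : ∀ j ∈ Gd, mean (F j) ≤ (1 / θ) * β := by
        intro j hj
        rw [hF, mean_const_mul]
        exact mul_le_mul_of_nonneg_left (hmean j hj) (by positivity)
      refine (Finset.sum_le_sum h3).trans ?_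
      rw [Finset.sum_const, nsmul_eq_mul]
      have h4 : (Gd.card : ℝ) ≤ R := by
        have : Gd.card ≤ (range R).card := Finset.card_le_card (Finset.filter_subset _ _)
        rw [Finset.card_range] at this
        exact_mod_cast this
      exact mul_le_mul_of_nonneg_right h4 (by positivity)
    linarith
  have hE0 : 0 ≤ E := by rw [hE]; positivity
  have hBsum : ∑ j ∈ Bd, mean (fun t => w R (κ j) (y t)) ≤
      (R / 20) * (2 * Real.pi / R + R / ((n : ℝ) + 1) + E) := by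
    refine (Finset.sum_le_sum fun j _ => hbad j).trans ?_
    rw [Finset.sum_const, nsmul_eq_mul]
    refine mul_le_mul_of_nonneg_right hBdR ?_
    have := Real.pi_pos
    positivity
  have hfinal : (1 : ℝ) ≤ (R / 20) * (2 * Real.pi / R + R / ((n : ℝ) + 1) + E) +
      (R * ((1 / θ) * β) + 1 / 10) := by
    have h1 : (1 : ℝ) = ∑ j ∈ Bd, mean (fun t => w R (κ j) (y t)) +
        ∑ j ∈ Gd, mean (fun t => w R (κ j) (y t)) := by
      rw [← hsplit]
      exact hone.symm
    linarith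
  -- numerics
  set u : ℝ := 1 / n with hu
  have hu0 : 0 ≤ u := by positivity
  have hu1 : (M : ℝ) ^ 15 * u ≤ 1 / 10 ^ 26 := by
    rw [hu, mul_one_div, div_le_div_iff₀ hnR (by positivity)]
    linarith
  have hEb : E ≤ 3 * ε + (10 ^ 7 * (M : ℝ) ^ 4) ^ 2 * V * u / 6 := by
    rw [hE, hRR]
    have h1 : (10 ^ 7 * (M : ℝ) ^ 4) ^ 2 * VV g / (2 * Real.pi * (n : ℝ) ^ 2) ≤
        (10 ^ 7 * (M : ℝ) ^ 4) ^ 2 * (V * n) / (6 * (n : ℝ) ^ 2) := by
      refine div_le_div₀ (by positivity) (mul_le_mul_of_nonneg_left hV (by positivity))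
        (by positivity) ?_
      have := Real.pi_gt_three
      nlinarith [sq_nonneg (n : ℝ)]
    have h2 : (10 ^ 7 * (M : ℝ) ^ 4) ^ 2 * (V * n) / (6 * (n : ℝ) ^ 2) =
        (10 ^ 7 * (M : ℝ) ^ 4) ^ 2 * V * u / 6 := by
      rw [hu]
      field_simp
    linarith
  have hun : 1 / ((n : ℝ) + 1) ≤ u := by
    rw [hu]
    exact one_div_le_one_div_of_le hnR (by linarith)
  have hβb : β ≤ 4 * E + 2 * M * u + 2 * ((10 ^ 7 * (M : ℝ) ^ 4) * M * u) +
      6 * (Real.pi ^ 2 * (12 * (M : ℝ)) ^ 2 / (10 ^ 7 * (M : ℝ) ^ 4) ^ 2) := by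
    rw [hβ]
    have h1 : 2 * (M : ℝ) / ((n : ℝ) + 1) ≤ 2 * M * u := by
      have : 2 * (M : ℝ) / ((n : ℝ) + 1) = 2 * M * (1 / ((n : ℝ) + 1)) := by ring
      rw [this]
      exact mul_le_mul_of_nonneg_left hun (by positivity)
    have h2 : 2 * ((R : ℝ) * M / n) = 2 * ((10 ^ 7 * (M : ℝ) ^ 4) * M * u) := by
      rw [hRR, hu]
      ring
    have h3 : τ = Real.pi ^ 2 * (12 * (M : ℝ)) ^ 2 / (10 ^ 7 * (M : ℝ) ^ 4) ^ 2 := by
      rw [hτ, hη, hRR, hQQ]
      field_simp
    rw [h2, h3]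
    linarith
  have hnum := numer hx hVK hε0 hε hu0 hu1 hEb hβb
  have h1 : (R / 20) * (2 * Real.pi / R + R / ((n : ℝ) + 1) + E) ≤
      (10 ^ 7 * (M : ℝ) ^ 4 / 20) * (2 * Real.pi / (10 ^ 7 * (M : ℝ) ^ 4) +
        10 ^ 7 * (M : ℝ) ^ 4 * u + E) := by
    rw [hRR]
    refine mul_le_mul_of_nonneg_left ?_ (by positivity)
    have : 10 ^ 7 * (M : ℝ) ^ 4 / ((n : ℝ) + 1) ≤ 10 ^ 7 * (M : ℝ) ^ 4 * u := by
      rw [div_eq_mul_one_div]
      exact mul_le_mul_of_nonneg_left hun (by positivity)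
    linarith
  have h2 : R * ((1 / θ) * β) = (10 ^ 7 * (M : ℝ) ^ 4 * (100 * (M : ℝ) ^ 2)) * β := by
    rw [hRR, hθ]
    field_simp
  rw [h2] at hfinal
  linarith

end Pool.Agent.Lib.MP_19d64f_an
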