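import Pool.Agent.Lib.MP_19d64f_an.T1

/-!
# The logarithmic lower bound for the variation of the frequency (T1b)
-/

set_option autoImplicit false

namespace Pool.Agent.Lib.MP_19d64f_an

open Finset MeasureTheory

theorem eps_lower {a : ℕ → ℝ} {n : ℕ} {ϕ g : ℝ → ℝ} {ε : ℝ} (ha : Lit a)
    (h : Apx a n ϕ g ε) (hn : 0 < n) : 1 ≤ 3 * ε * ((n : ℝ) + 1) := by
  have h1 := corr_err h (le_refl n) 0
  have h2 : n + 1 - n = 1 := by omega
  rw [h2] at h1
  simp only [Finset.sum_range_one, zero_add, Complex.ofReal_zero, mul_zero,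
    zero_mul, Complex.exp_zero, mul_one, one_mul] at h1
  have h3 := int_exp (n : ℤ)
  have h4 : ((n : ℤ) : ℂ) = (n : ℂ) := by norm_cast
  rw [h4, if_neg (by exact_mod_cast hn.ne')] at h3
  rw [h3, mul_zero, sub_zero, norm_div, norm_mul, Complex.norm_real, Complex.norm_real] at h1
  have h5 : ∀ k, ‖a k‖ = 1 := by
    intro k
    rcases ha k with h | h <;> rw [h] <;> simp
  rw [h5, h5] at h1
  have h6 : ‖((n : ℂ) + 1)‖ = (n : ℝ) + 1 := by
    have : ((n : ℂ) + 1) = (((n : ℝ) + 1 : ℝ) : ℂ) := by push_cast; rfl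
    rw [this, Complex.norm_real, Real.norm_of_nonneg (by positivity)]
  rw [h6] at h1
  have h7 : (0 : ℝ) < (n : ℝ) + 1 := by positivity
  rw [mul_one, div_le_iff₀ h7] at h1
  norm_num at h1
  linarith

theorem log12_lt : Real.log 12 < 2.486 := by
  have h2 := Real.log_two_lt_d9
  have h3 : Real.log 3 < 1.0987 := by
    have h : Real.log 3 = Real.log (3 ^ 12) / 12 := by
      rw [Real.log_pow]
      push_cast
      ring
    -- 3 ^ 12 = 531441 < 2 ^ 20 * (1 - 0.49) ; use 3 ^ 5 = 243 < 256 = 2 ^ 8 is too weak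
    have h4 : Real.log (3 ^ 12) < Real.log (2 ^ 19 * 1.0137) :=
      Real.log_lt_log (by norm_num) (by norm_num)
    have h5 : Real.log (2 ^ 19 * 1.0137) = 19 * Real.log 2 + Real.log 1.0137 := by
      rw [Real.log_mul (by norm_num) (by norm_num), Real.log_pow]
      push_cast
      ring
    have h6 : Real.log 1.0137 ≤ 1.0137 - 1 := Real.log_le_sub_one_of_pos (by norm_num)
    rw [h]
    rw [h5] at h4
    norm_num at h2 h6 ⊢
    linarith
  have h : Real.log 12 = 2 * Real.log 2 + Real.log 3 := by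
    have : (12 : ℝ) = 2 ^ 2 * 3 := by norm_num
    rw [this, Real.log_mul (by norm_num) (by norm_num), Real.log_pow]
    push_cast
    ring
  rw [h]
  norm_num at h2 h3 ⊢
  linarith

theorem log10_lt : Real.log 10 < 2.32 := by
  have h2 := Real.log_two_lt_d9
  have h4 : Real.log ((10 : ℝ) ^ 3) < Real.log ((2 : ℝ) ^ 10) :=
    Real.log_lt_log (by norm_num) (by norm_num)
  rw [Real.log_pow, Real.log_pow] at h4
  push_cast at h4
  norm_num at h2 ⊢
  linarith

theorem log6_lt : Real.log 6 < 2.1 := by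
  have h2 := Real.log_two_lt_d9
  have h4 : Real.log 6 < Real.log (2 ^ 3) := Real.log_lt_log (by norm_num) (by norm_num)
  rw [Real.log_pow] at h4
  push_cast at h4
  norm_num at h2 ⊢
  linarith

theorem final {a : ℕ → ℝ} {n : ℕ} {ϕ g : ℝ → ℝ} {ε : ℝ} (ha : Lit a) (h : Apx a n ϕ g ε)
    (hε : 0 < ε) (hn : 1 ≤ n) : n * (Real.log (1 / ε) / 266 - 5) ≤ VV g := by
  have hnR : (1 : ℝ) ≤ n := by exact_mod_cast hn
  have hTV : 0 ≤ VV g := VV_nonneg g
  by_contra hlt
  push Not at hlt
  set L := Real.log (1 / ε) with hL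
  set V := VV g / n with hV
  have hV0 : 0 ≤ V := by positivity
  have hVn : VV g = V * n := by rw [hV]; field_simp
  have hVL : 266 * V + 1330 < L := by
    have h1 : V * n < n * (L / 266 - 5) := by rw [← hVn]; exact hlt
    have h2 : V < L / 266 - 5 := by
      by_contra h3
      push Not at h3
      have : (n : ℝ) * (L / 266 - 5) ≤ n * V := mul_le_mul_of_nonneg_left h3 (by linarith)
      linarith
    linarith
  have hεL : ε = Real.exp (-L) := by
    rw [hL, one_div, Real.log_inv, neg_neg, Real.exp_log hε]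
  have hε2 : ε ≤ 1 / 2 := by
    have h1 : Real.exp (-L) ≤ Real.exp (-1) := Real.exp_le_exp.2 (by linarith)
    have h2 : Real.exp (-1) ≤ 1 / 2 := by
      rw [Real.exp_neg, one_div]
      exact inv_anti₀ (by norm_num) (by linarith [Real.add_one_le_exp (1 : ℝ)])
    rw [hεL]
    linarith
  have hlow := eps_lower ha h hn
  have hlogn : L - 2.1 ≤ Real.log n := by
    have h1 : (1 / ε) ≤ 6 * n := by
      rw [div_le_iff₀ hε]
      nlinarith
    have h2 : L ≤ Real.log (6 * n) := Real.log_le_log (by positivity) h1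
    rw [Real.log_mul (by norm_num) (by positivity)] at h2
    linarith [log6_lt]
  set K := ⌈7 * V + 27⌉₊ with hK
  have hK1 : 7 * V + 27 ≤ K := Nat.le_ceil _
  have hK2 : (K : ℝ) < 7 * V + 28 := by
    have := Nat.ceil_lt_add_one (a := 7 * V + 27) (by positivity)
    linarith
  have hl12 := log12_lt
  have hl12' : 0 < Real.log 12 := Real.log_pos (by norm_num)
  have hl10 := log10_lt
  have hKl : K * Real.log 12 ≤ (7 * V + 28) * 2.486 :=
    mul_le_mul hK2.le hl12.le hl12'.le (by positivity)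
  have hpow : ((12 : ℝ) ^ K) = Real.exp (K * Real.log 12) := by
    rw [mul_comm, Real.exp_mul, Real.exp_log (by norm_num), Real.rpow_natCast]
  refine core (V := V) (K := K) ha h hε.le (le_of_eq hVn) hV0 hK1 ?_ ?_
  · rw [hpow, hεL, ← Real.exp_nat_mul, ← Real.exp_add]
    have h1 : (1 / 10 ^ 12 : ℝ) = Real.exp (-(12 * Real.log 10)) := by
      rw [Real.exp_neg, mul_comm, Real.exp_mul, Real.exp_log (by norm_num)]
      norm_num
    rw [h1]
    refine Real.exp_le_exp.2 ?_
    push_cast
    norm_num at hKl hl10 ⊢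
    linarith
  · rw [hpow, ← Real.exp_nat_mul]
    have h1 : (10 ^ 26 : ℝ) = Real.exp (26 * Real.log 10) := by
      rw [mul_comm, Real.exp_mul, Real.exp_log (by norm_num)]
      norm_num
    rw [h1, ← Real.exp_add]
    have h2 : (n : ℝ) = Real.exp (Real.log n) := (Real.exp_log (by linarith)).symm
    rw [h2]
    refine Real.exp_le_exp.2 ?_
    push_cast
    norm_num at hKl hl10 hlogn ⊢
    linarith

end Pool.Agent.Lib.MP_19d64f_an
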