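import Pool.Agent.Lib.MP_19d64f_an.V1

/-!
# The tent function (V7)
-/

set_option autoImplicit false

namespace Pool.Agent.Lib.MP_19d64f_an

open Finset MeasureTheory

/-- The `2π`-periodic tent function of height `1` at `κ` with half-width `η`. -/
noncomputable def tent (κ η y : ℝ) : ℝ :=
  max 0 (1 - |y - κ - 2 * Real.pi * (round ((y - κ) / (2 * Real.pi)) : ℤ)| / η)

/-- PROOF. `round_le` / `abs_sub_round_le`-type lemma: `round x` is a nearest integer to `x`
(`round_le : |x - round x| ≤ |x - z|`), multiply by `2π`. -/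
theorem near_le (x : ℝ) (l : ℤ) :
    |x - 2 * Real.pi * (round (x / (2 * Real.pi)) : ℤ)| ≤ |x - 2 * Real.pi * l| := by
  have hpi : 0 < 2 * Real.pi := by positivity
  have h := round_le (x / (2 * Real.pi)) l
  have e1 : x - 2 * Real.pi * (round (x / (2 * Real.pi)) : ℤ)
      = (2 * Real.pi) * (x / (2 * Real.pi) - (round (x / (2 * Real.pi)) : ℤ)) := by
    field_simp
  have e2 : x - 2 * Real.pi * l = (2 * Real.pi) * (x / (2 * Real.pi) - l) := by
    field_simp
  rw [e1, e2, abs_mul (2 * Real.pi), abs_mul (2 * Real.pi) (x / (2 * Real.pi) - l), abs_of_pos hpi]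
  exact mul_le_mul_of_nonneg_left h hpi.le

private theorem V7_lip (x x' : ℝ) (l : ℤ) :
    |x - 2 * Real.pi * (round (x / (2 * Real.pi)) : ℤ)| ≤
      |x' - 2 * Real.pi * (round (x' / (2 * Real.pi)) : ℤ)| + |x - x' - 2 * Real.pi * l| := by
  have h := near_le x (l + round (x' / (2 * Real.pi)))
  refine h.trans ?_
  have e : x - 2 * Real.pi * ((l + round (x' / (2 * Real.pi)) : ℤ) : ℝ)
      = (x' - 2 * Real.pi * (round (x' / (2 * Real.pi)) : ℤ)) + (x - x' - 2 * Real.pi * l) := by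
    push_cast
    ring
  rw [e]
  exact abs_add_le _ _

/-- PROOF. Values: clear. Let `D(x)` be the left side of `near_le`. For any integer `l`,
`D(x) ≤ D(x') + |x - x' - 2πl|` by `near_le x (l + round (x'/2π))` and the triangle inequality; by
symmetry `|D(x) - D(x')| ≤ |x - x' - 2πl|`. `max 0` and division by `η` finish. -/
theorem tent_PL (κ : ℝ) {η : ℝ} (hη : 0 < η) : PL (tent κ η) (1 / η) := by
  refine ⟨fun y => ⟨le_max_left _ _, max_le zero_le_one ?_⟩, fun y y' l => ?_⟩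
  · have : 0 ≤ |y - κ - 2 * Real.pi * (round ((y - κ) / (2 * Real.pi)) : ℤ)| / η := by positivity
    linarith
  · unfold tent
    have h0 : ∀ a b : ℝ, |max 0 a - max 0 b| ≤ |a - b| := by
      intro a b
      have h := abs_max_sub_max_le_max (0 : ℝ) a 0 b
      rw [sub_zero, abs_zero] at h
      exact h.trans (max_le (abs_nonneg _) le_rfl)
    refine (h0 _ _).trans ?_
    have h1 := V7_lip (y - κ) (y' - κ) l
    have h2 := V7_lip (y' - κ) (y - κ) (-l)
    have e1 : y - κ - (y' - κ) - 2 * Real.pi * l = y - y' - 2 * Real.pi * l := by ring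
    have e2 : y' - κ - (y - κ) - 2 * Real.pi * ((-l : ℤ) : ℝ) = -(y - y' - 2 * Real.pi * l) := by
      push_cast
      ring
    rw [e1] at h1
    rw [e2, abs_neg] at h2
    set A := |y - κ - 2 * Real.pi * (round ((y - κ) / (2 * Real.pi)) : ℤ)| with hA
    set B := |y' - κ - 2 * Real.pi * (round ((y' - κ) / (2 * Real.pi)) : ℤ)| with hB
    have e3 : 1 - A / η - (1 - B / η) = (B - A) / η := by ring
    rw [e3, abs_div, abs_of_pos hη, one_div, inv_mul_eq_div]
    apply div_le_div_of_nonneg_right _ hη.le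
    rw [abs_le]
    constructor <;> linarith

theorem tent_half {κ η y : ℝ} (hη : 0 < η) (h : |y - κ| ≤ η / 2) : 1 / 2 ≤ tent κ η y := by
  unfold tent
  have h1 := near_le (y - κ) 0
  rw [Int.cast_zero, mul_zero, sub_zero] at h1
  refine le_max_of_le_right ?_
  have h2 : |y - κ - 2 * Real.pi * (round ((y - κ) / (2 * Real.pi)) : ℤ)| / η ≤ 1 / 2 := by
    rw [div_le_iff₀ hη]
    linarith
  linarith

/-- PROOF. `0 < tent` gives `|x/(4n) - (u+v)/8 - 2π l| < (v-u)/8` for the integer `l = round ..`. As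
`|x/(4n)| ≤ 9/4`, `0 ≤ (u+v)/8 ≤ 1/4`, `(v-u)/8 ≤ 1/8` and `2π > 6`, `l = 0`. Multiply by `4 n`. -/
theorem tent_band {u v x : ℝ} {n : ℕ} (hu : 0 ≤ u) (huv : u < v) (hv : v ≤ 1) (hn : 1 ≤ n)
    (hx : |x| ≤ 9 * n) (h : 0 < tent ((u + v) / 8) ((v - u) / 8) (x / (4 * n))) :
    u * n < x ∧ x < v * n := by
  have hη : 0 < (v - u) / 8 := by linarith
  have hn' : (1 : ℝ) ≤ n := by exact_mod_cast hn
  have hn0 : (0 : ℝ) < n := by linarith
  unfold tent at h
  have h1 : 0 < 1 - |x / (4 * n) - (u + v) / 8 -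
      2 * Real.pi * (round ((x / (4 * n) - (u + v) / 8) / (2 * Real.pi)) : ℤ)| / ((v - u) / 8) := by
    rcases lt_max_iff.mp h with h | h
    · exact absurd h (lt_irrefl _)
    · exact h
  set l : ℤ := round ((x / (4 * n) - (u + v) / 8) / (2 * Real.pi)) with hl
  have h2 : |x / (4 * n) - (u + v) / 8 - 2 * Real.pi * l| < (v - u) / 8 := by
    have : |x / (4 * n) - (u + v) / 8 - 2 * Real.pi * l| / ((v - u) / 8) < 1 := by linarith
    rwa [div_lt_one hη] at this
  have hx4 : |x / (4 * n)| ≤ 9 / 4 := by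
    rw [abs_div, abs_of_pos (by linarith : (0 : ℝ) < 4 * n), div_le_iff₀ (by linarith)]
    linarith
  have hpi : 3 < Real.pi := Real.pi_gt_three
  have hl0 : l = 0 := by
    by_contra hne
    have h3 : (1 : ℝ) ≤ |(l : ℝ)| := by
      have : (1 : ℤ) ≤ |l| := Int.one_le_abs hne
      exact_mod_cast this
    have h4 : |2 * Real.pi * (l : ℝ)| = 2 * Real.pi * |(l : ℝ)| := by
      rw [abs_mul, abs_of_pos (by linarith)]
    have h5 : 6 < |2 * Real.pi * (l : ℝ)| := by
      rw [h4]; nlinarith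
    have h6 : |2 * Real.pi * (l : ℝ)| ≤ |x / (4 * n)| + (u + v) / 8 + (v - u) / 8 := by
      have e : 2 * Real.pi * (l : ℝ) = x / (4 * n) + (-((u + v) / 8)) +
          (-(x / (4 * n) - (u + v) / 8 - 2 * Real.pi * l)) := by ring
      have h7 := abs_add_three (x / (4 * n)) (-((u + v) / 8))
        (-(x / (4 * n) - (u + v) / 8 - 2 * Real.pi * l))
      rw [← e] at h7
      rw [abs_neg, abs_neg, abs_of_nonneg (by linarith : (0 : ℝ) ≤ (u + v) / 8)] at h7
      linarith
    linarith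
  rw [hl0, Int.cast_zero, mul_zero, sub_zero] at h2
  rw [abs_lt] at h2
  obtain ⟨h8, h9⟩ := h2
  have e1 : x / (4 * n) * (4 * n) = x := by field_simp
  constructor
  · have : u / 4 < x / (4 * n) := by linarith
    rw [lt_div_iff₀ (by linarith)] at this
    linarith
  · have : x / (4 * n) < v / 4 := by linarith
    rw [div_lt_iff₀ (by linarith)] at this
    linarith

/-- PROOF. Let `c = (u+v)/2`, `η = (v-u)/2`. For integers `k` in
`[⌈(c - η/2) n⌉, ⌊(c + η/2) n⌋]` (they are in `[0, n]`): `|k/(4n) - c/4| ≤ (η/4)/2`, so the tent is `≥ 1/2`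
(`tent_half`). Their number is at least `η n - 1`, so the sum is at least `(η n - 1)/2`, and
`(1/(n+1)) (η n - 1)/2 ≥ η/8` if `n η ≥ 4` (then `η n - 1 ≥ (3/4) η n ≥ (3/8) η (n+1)`). -/
theorem tent_sum {u v : ℝ} {n : ℕ} (hu : 0 ≤ u) (huv : u < v) (hv : v ≤ 1)
    (hn : 8 ≤ n * (v - u)) :
    (v - u) / 16 ≤ (1 / ((n : ℝ) + 1)) * ∑ k ∈ range (n + 1),
      tent ((u + v) / 8) ((v - u) / 8) ((k : ℝ) / (4 * n)) := by
  have hη : 0 < (v - u) / 8 := by linarith
  have hn0 : (0 : ℝ) < n := by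
    by_contra hc
    have : (n : ℝ) * (v - u) ≤ 0 :=
      mul_nonpos_of_nonpos_of_nonneg (not_lt.mp hc) (by linarith)
    linarith
  set c : ℝ := (u + v) / 2 with hc
  set η : ℝ := (v - u) / 2 with hη'
  have hηn : 4 ≤ η * n := by rw [hη']; linarith
  -- the integers in the window
  set a : ℕ := ⌈(c - η / 2) * n⌉₊ with ha
  set b : ℕ := ⌊(c + η / 2) * n⌋₊ with hb
  have hc1 : 0 ≤ (c - η / 2) * n := by
    apply mul_nonneg _ hn0.le
    rw [hc, hη']; linarith
  have hc2 : 0 ≤ (c + η / 2) * n := by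
    apply mul_nonneg _ hn0.le
    rw [hc, hη']; linarith
  have ha1 : (a : ℝ) < (c - η / 2) * n + 1 := Nat.ceil_lt_add_one hc1
  have ha2 : (c - η / 2) * n ≤ a := Nat.le_ceil _
  have hb1 : (c + η / 2) * n - 1 < b := Nat.sub_one_lt_floor _
  have hb2 : (b : ℝ) ≤ (c + η / 2) * n := Nat.floor_le hc2
  have hbn : b ≤ n := by
    have : (b : ℝ) ≤ n := by
      refine hb2.trans ?_
      have : c + η / 2 ≤ 1 := by rw [hc, hη']; linarith
      nlinarith
    exact_mod_cast this
  have hsub : Finset.Icc a b ⊆ range (n + 1) := by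
    intro k hk
    rw [Finset.mem_Icc] at hk
    rw [Finset.mem_range]
    omega
  have hnn : ∀ k : ℕ, 0 ≤ tent ((u + v) / 8) ((v - u) / 8) ((k : ℝ) / (4 * n)) := by
    intro k
    exact le_max_left _ _
  have hcard : η * n - 1 ≤ ((Finset.Icc a b).card : ℝ) := by
    rw [Nat.card_Icc]
    have : ((b + 1 : ℕ) : ℝ) - (a : ℝ) ≤ ((b + 1 - a : ℕ) : ℝ) := by
      rw [sub_le_iff_le_add]
      have : b + 1 ≤ b + 1 - a + a := by omega
      exact_mod_cast this
    refine le_trans ?_ this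
    push_cast
    nlinarith
  have hsum1 : ((Finset.Icc a b).card : ℝ) * (1 / 2) ≤ ∑ k ∈ Finset.Icc a b,
      tent ((u + v) / 8) ((v - u) / 8) ((k : ℝ) / (4 * n)) := by
    rw [← nsmul_eq_mul]
    apply Finset.card_nsmul_le_sum
    intro k hk
    rw [Finset.mem_Icc] at hk
    apply tent_half hη
    have hk1 : (a : ℝ) ≤ k := by exact_mod_cast hk.1
    have hk2 : (k : ℝ) ≤ b := by exact_mod_cast hk.2
    have e : (k : ℝ) / (4 * n) - (u + v) / 8 = ((k : ℝ) - c * n) / (4 * n) := by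
      rw [hc]; field_simp; ring
    rw [e, abs_div, abs_of_pos (by linarith : (0 : ℝ) < 4 * n), div_le_iff₀ (by linarith), abs_le]
    constructor
    · have : (v - u) / 8 / 2 * (4 * n) = η / 2 * n := by rw [hη']; ring
      rw [this]; linarith
    · have : (v - u) / 8 / 2 * (4 * n) = η / 2 * n := by rw [hη']; ring
      rw [this]; linarith
  have hsum2 : ∑ k ∈ Finset.Icc a b,
      tent ((u + v) / 8) ((v - u) / 8) ((k : ℝ) / (4 * n)) ≤ ∑ k ∈ range (n + 1),
      tent ((u + v) / 8) ((v - u) / 8) ((k : ℝ) / (4 * n)) :=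
    Finset.sum_le_sum_of_subset_of_nonneg hsub (fun k _ _ => hnn k)
  have hη1 : η ≤ 1 / 2 := by rw [hη']; linarith
  have hfin : η / 8 * (n + 1) ≤ (η * n - 1) * (1 / 2) := by nlinarith
  have e3 : (v - u) / 16 = η / 8 := by rw [hη']; ring
  rw [e3, one_div, ← div_eq_inv_mul, le_div_iff₀ (by linarith)]
  linarith

end Pool.Agent.Lib.MP_19d64f_an
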