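import Pool.Agent.Lib.MP_19d64f_an.Defs

/-!
# An integral over the circle, and an elementary inequality (Z3a)
-/

set_option autoImplicit false

namespace Pool.Agent.Lib.MP_19d64f_an

open Finset MeasureTheory

open ComplexConjugate in
private theorem Z3a_point {z ζ : ℂ} (hz : ‖z‖ = 1) (hne : ‖ζ‖ ≠ 1) :
    z * Complex.I * ((z - ζ)⁻¹ * (1 - conj ζ * z)⁻¹) =
      Complex.I * (((1 / ‖z - ζ‖ ^ 2 : ℝ)) : ℂ) := by
  have hzz : z * conj z = 1 := by
    rw [Complex.mul_conj, Complex.normSq_eq_norm_sq, hz, one_pow, Complex.ofReal_one]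
  have h0 : z ≠ 0 := by
    intro h
    rw [h, norm_zero] at hz
    exact zero_ne_one hz
  have h1 : z - ζ ≠ 0 := by
    intro h
    rw [sub_eq_zero] at h
    exact hne (h ▸ hz)
  have h2 : 1 - conj ζ * z ≠ 0 := by
    intro h
    have h3 : conj ζ * z = 1 := (sub_eq_zero.mp h).symm
    have h4 : ‖conj ζ * z‖ = 1 := by rw [h3, norm_one]
    rw [norm_mul, hz, mul_one, Complex.norm_conj] at h4
    exact hne h4
  have h5 : ((‖z - ζ‖ ^ 2 : ℝ) : ℂ) = (z - ζ) * (conj z * (1 - conj ζ * z)) := by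
    rw [← Complex.normSq_eq_norm_sq, ← Complex.mul_conj, map_sub]
    have h6 : conj z * (1 - conj ζ * z) = conj z - conj ζ * (z * conj z) := by ring
    rw [h6, hzz, mul_one]
  rw [Complex.ofReal_div, h5, Complex.ofReal_one, one_div, mul_inv, mul_inv]
  have h7 : (conj z)⁻¹ = z := by
    rw [inv_eq_iff_eq_inv]
    exact eq_inv_of_mul_eq_one_right hzz
  rw [h7]
  ring

private theorem Z3a_exp {u : ℝ} (hu : 0 < u) : 2 * u ≤ Real.exp u - Real.exp (-u) := by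
  have h := Real.self_le_sinh_iff.mpr hu.le
  rw [Real.sinh_eq] at h
  linarith

/-- PROOF. For `|z| = 1`: `‖z - ζ‖^2 = (z - ζ) (1/z - conj ζ)`, so
`1 / ‖z - ζ‖^2 = z / ((z - ζ) (1 - conj ζ z))`. With `f z = (1 - conj ζ z)⁻¹` (holomorphic near the
closed unit disc, as `‖conj ζ z‖ < 1`), Cauchy's formula
(`DiffContOnCl.circleIntegral_sub_inv_smul` or `Complex.circleIntegral_sub_inv_smul_of_...`):
`∮ z in C(0,1), (z - ζ)⁻¹ • f z = 2πI • f ζ = 2πI / (1 - ‖ζ‖^2)`. The left side is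
`∫ t in 0..2π, (I e^{it}) * (e^{it} - ζ)⁻¹ * f (e^{it}) = I * ∫ t in 0..2π, 1 / ‖e^{it} - ζ‖^2`
(`circleIntegral`, `circleMap`, `deriv_circleMap`); cancel `I`, take real parts
(`intervalIntegral.integral_ofReal`). -/
theorem pois_in (ζ : ℂ) (hζ : ‖ζ‖ < 1) :
    ∫ t in (0 : ℝ)..(2 * Real.pi), 1 / ‖Complex.exp ((t : ℂ) * Complex.I) - ζ‖ ^ 2 =
      2 * Real.pi / (1 - ‖ζ‖ ^ 2) := by
  have hc : ∀ z : ℂ, ‖z‖ ≤ 1 → 1 - (starRingEnd ℂ) ζ * z ≠ 0 := by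
    intro z hz h
    have h3 : (starRingEnd ℂ) ζ * z = 1 := (sub_eq_zero.mp h).symm
    have h4 : ‖(starRingEnd ℂ) ζ * z‖ = 1 := by rw [h3, norm_one]
    rw [norm_mul, Complex.norm_conj] at h4
    have h5 : ‖ζ‖ * ‖z‖ ≤ ‖ζ‖ * 1 := mul_le_mul_of_nonneg_left hz (norm_nonneg _)
    linarith
  have hd : DiffContOnCl ℂ (fun z : ℂ => (1 - (starRingEnd ℂ) ζ * z)⁻¹) (Metric.ball 0 1) := by
    apply DifferentiableOn.diffContOnCl
    rw [closure_ball (0 : ℂ) one_ne_zero]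
    intro z hz
    have hz1 : ‖z‖ ≤ 1 := by
      rw [Metric.mem_closedBall, dist_zero_right] at hz
      exact hz
    apply DifferentiableAt.differentiableWithinAt
    apply DifferentiableAt.fun_inv
    · fun_prop
    · exact hc z hz1
  have hmem : ζ ∈ Metric.ball (0 : ℂ) 1 := by
    rw [Metric.mem_ball, dist_zero_right]
    exact hζ
  have hC := hd.circleIntegral_sub_inv_smul hmem
  rw [circleIntegral] at hC
  have hint : ∀ θ : ℝ, deriv (circleMap (0 : ℂ) 1) θ • ((circleMap (0 : ℂ) 1 θ - ζ)⁻¹ •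
      (1 - (starRingEnd ℂ) ζ * circleMap (0 : ℂ) 1 θ)⁻¹) =
      Complex.I * (((1 / ‖Complex.exp ((θ : ℂ) * Complex.I) - ζ‖ ^ 2 : ℝ)) : ℂ) := by
    intro θ
    have h1 : circleMap (0 : ℂ) 1 θ = Complex.exp ((θ : ℂ) * Complex.I) := by
      rw [circleMap, Complex.ofReal_one, one_mul, zero_add]
    rw [deriv_circleMap, h1, smul_eq_mul, smul_eq_mul]
    exact Z3a_point (Complex.norm_exp_ofReal_mul_I θ) hζ.ne
  simp only [hint] at hC
  rw [intervalIntegral.integral_const_mul, intervalIntegral.integral_ofReal] at hC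
  have h2 : (2 * (Real.pi : ℂ) * Complex.I) • (1 - (starRingEnd ℂ) ζ * ζ)⁻¹ =
      Complex.I * ((2 * Real.pi / (1 - ‖ζ‖ ^ 2) : ℝ) : ℂ) := by
    have h3 : (starRingEnd ℂ) ζ * ζ = ((‖ζ‖ ^ 2 : ℝ) : ℂ) := by
      rw [mul_comm, Complex.mul_conj, Complex.normSq_eq_norm_sq]
    rw [h3, smul_eq_mul, Complex.ofReal_div, Complex.ofReal_mul, Complex.ofReal_sub,
      Complex.ofReal_one, div_eq_mul_inv]
    push_cast
    ring
  rw [h2] at hC
  exact Complex.ofReal_injective (mul_left_cancel₀ Complex.I_ne_zero hC)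

/-- PROOF. Let `ξ = (conj ζ)⁻¹`, `‖ξ‖ < 1`. For `|z| = 1`: `‖z - ζ‖ = ‖ζ‖ * ‖z - ξ‖`
(`‖ζ‖ ‖z - ξ‖ = ‖conj ζ z - 1‖ = ‖conj ζ - conj z‖`, as `1 = z conj z`). So the integral is
`‖ζ‖⁻² * 2π / (1 - ‖ζ‖⁻²)` by `pois_in`. -/
theorem pois_out (ζ : ℂ) (hζ : 1 < ‖ζ‖) :
    ∫ t in (0 : ℝ)..(2 * Real.pi), 1 / ‖Complex.exp ((t : ℂ) * Complex.I) - ζ‖ ^ 2 =
      2 * Real.pi / (‖ζ‖ ^ 2 - 1) := by
  have hζ0 : 0 < ‖ζ‖ := lt_trans zero_lt_one hζ
  have hζne : ζ ≠ 0 := norm_pos_iff.mp hζ0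
  have hcne : (starRingEnd ℂ) ζ ≠ 0 := by
    rw [← norm_pos_iff, Complex.norm_conj]
    exact hζ0
  set ξ : ℂ := ((starRingEnd ℂ) ζ)⁻¹ with hξ
  have hnξ : ‖ξ‖ = ‖ζ‖⁻¹ := by rw [hξ, norm_inv, Complex.norm_conj]
  have hξ1 : ‖ξ‖ < 1 := by
    rw [hnξ]
    exact inv_lt_one_of_one_lt₀ hζ
  have hpt : ∀ t : ℝ, 1 / ‖Complex.exp ((t : ℂ) * Complex.I) - ζ‖ ^ 2 =
      (‖ζ‖ ^ 2)⁻¹ * (1 / ‖Complex.exp ((t : ℂ) * Complex.I) - ξ‖ ^ 2) := by
    intro t
    set z : ℂ := Complex.exp ((t : ℂ) * Complex.I) with hz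
    have hz1 : ‖z‖ = 1 := Complex.norm_exp_ofReal_mul_I t
    have hzz : z * (starRingEnd ℂ) z = 1 := by
      rw [Complex.mul_conj, Complex.normSq_eq_norm_sq, hz1, one_pow, Complex.ofReal_one]
    have h1 : ‖z - ζ‖ = ‖ζ‖ * ‖z - ξ‖ := by
      have h2 : (starRingEnd ℂ) ζ * (z - ξ) = -(z * ((starRingEnd ℂ) (z - ζ))) := by
        rw [map_sub, hξ, mul_sub, mul_inv_cancel₀ hcne, mul_sub, hzz]
        ring
      have h3 : ‖(starRingEnd ℂ) ζ * (z - ξ)‖ = ‖z - ζ‖ := by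
        rw [h2, norm_neg, norm_mul, hz1, one_mul, Complex.norm_conj]
      rw [← h3, norm_mul, Complex.norm_conj]
    rw [h1, mul_pow, one_div, mul_inv, one_div]
  simp only [hpt]
  rw [intervalIntegral.integral_const_mul, pois_in ξ hξ1, hnξ]
  have h4 : ‖ζ‖ ^ 2 - 1 ≠ 0 := by nlinarith
  have h5 : ‖ζ‖ ≠ 0 := hζ0.ne'
  have h6 : 1 - ‖ζ‖⁻¹ ^ 2 = (‖ζ‖ ^ 2 - 1) / ‖ζ‖ ^ 2 := by
    field_simp
  rw [h6]
  field_simp

theorem pois (ζ : ℂ) (hζ : ‖ζ‖ ≠ 1) :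
    ∫ t in (0 : ℝ)..(2 * Real.pi), 1 / ‖Complex.exp ((t : ℂ) * Complex.I) - ζ‖ ^ 2 =
      2 * Real.pi / |1 - ‖ζ‖ ^ 2| := by
  rcases lt_or_gt_of_ne hζ with h | h
  · rw [pois_in ζ h, abs_of_pos]
    nlinarith [norm_nonneg ζ]
  · rw [pois_out ζ h, abs_of_neg (by nlinarith), neg_sub]

/-- PROOF. Let `S = log (1 / δ) > 0`. Case `r = 0`: the left side is `0`.
Case `0 < r`, `r ^ n ≤ δ`: then `r < 1`, `u = log (1 / r)` satisfies `n u ≥ S` (logarithm of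
`r ^ n ≤ δ`), `u > 0`, and `|1 - r^2| / r = 1 / r - r = exp u - exp (-u) = 2 sinh u ≥ 2 u`
(`Real.self_le_sinh_iff`, `Real.sinh_eq`), so `r / |1 - r^2| ≤ 1 / (2 u) ≤ n / (2 S)`.
Case `1 ≤ δ r ^ n`: the same with `u = log r`, `|1 - r^2| / r = r - 1 / r = 2 sinh u`. -/
theorem ratio_le {r δ : ℝ} {n : ℕ} (hr : 0 ≤ r) (hδ0 : 0 < δ) (hδ : δ < 1)
    (h : r ^ n ≤ δ ∨ 1 ≤ δ * r ^ n) :
    r ≠ 1 ∧ r / |1 - r ^ 2| ≤ n / (2 * Real.log (1 / δ)) := by
  have hS : 0 < Real.log (1 / δ) := Real.log_pos (by rw [lt_div_iff₀ hδ0]; linarith)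
  have hfin : ∀ u : ℝ, 0 < u → Real.log (1 / δ) ≤ n * u →
      1 / (2 * u) ≤ n / (2 * Real.log (1 / δ)) := by
    intro u hu h1
    rw [div_le_div_iff₀ (by positivity) (by positivity)]
    linarith
  rcases hr.eq_or_lt with h0 | hpos
  · rw [← h0]
    refine ⟨zero_ne_one, ?_⟩
    rw [zero_div]
    positivity
  · have hlog : Real.log (r ^ n) = n * Real.log r := Real.log_pow _ _
    have hrn : 0 < r ^ n := pow_pos hpos n
    have hlogδ : Real.log (1 / δ) = -Real.log δ := by rw [one_div, Real.log_inv]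
    rcases h with h | h
    · have hr1 : r < 1 := by
        by_contra hcon
        have h1 : 1 ≤ r ^ n := one_le_pow₀ (not_lt.mp hcon)
        linarith
      have hu : 0 < -Real.log r := by
        have := Real.log_neg hpos hr1
        linarith
      have h2 : Real.log (1 / δ) ≤ n * (-Real.log r) := by
        have h3 := Real.log_le_log hrn h
        rw [hlog] at h3
        rw [hlogδ]
        linarith
      refine ⟨hr1.ne, le_trans ?_ (hfin _ hu h2)⟩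
      have h4 := Z3a_exp hu
      rw [neg_neg, Real.exp_log hpos, Real.exp_neg, Real.exp_log hpos] at h4
      have h5 : 0 < 1 - r ^ 2 := by nlinarith
      rw [abs_of_pos h5, div_le_div_iff₀ h5 (by positivity)]
      have h6 : r * (2 * -Real.log r) ≤ r * (r⁻¹ - r) := mul_le_mul_of_nonneg_left h4 hpos.le
      have h7 : r * (r⁻¹ - r) = 1 - r ^ 2 := by
        rw [mul_sub, mul_inv_cancel₀ hpos.ne']
        ring
      linarith
    · have hr1 : 1 < r := by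
        by_contra hcon
        have h1 : r ^ n ≤ 1 := pow_le_one₀ hpos.le (not_lt.mp hcon)
        nlinarith
      have hu : 0 < Real.log r := Real.log_pos hr1
      have h2 : Real.log (1 / δ) ≤ n * Real.log r := by
        rw [← hlog]
        apply Real.log_le_log (by positivity)
        rw [div_le_iff₀ hδ0]
        linarith
      refine ⟨hr1.ne', le_trans ?_ (hfin _ hu h2)⟩
      have h4 := Z3a_exp hu
      rw [Real.exp_neg, Real.exp_log hpos] at h4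
      have h5 : 1 - r ^ 2 < 0 := by nlinarith
      rw [abs_of_neg h5, div_le_div_iff₀ (by linarith) (by positivity)]
      have h6 : r * (2 * Real.log r) ≤ r * (r - r⁻¹) := mul_le_mul_of_nonneg_left h4 hpos.le
      have h7 : r * (r - r⁻¹) = r ^ 2 - 1 := by
        rw [mul_sub, mul_inv_cancel₀ hpos.ne']
        ring
      linarith

end Pool.Agent.Lib.MP_19d64f_an
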