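import Pool.Agent.Lib.MP_19d64f_an.Pol

/-!
# The derivative of the frequency in terms of the roots (Z3c)
-/

set_option autoImplicit false

namespace Pool.Agent.Lib.MP_19d64f_an

open Finset MeasureTheory Polynomial

private theorem Z3c_ne {ζ : ℂ} (hζ : ‖ζ‖ ≠ 1) (t : ℝ) :
    Complex.exp ((t : ℂ) * Complex.I) - ζ ≠ 0 := by
  intro h
  apply hζ
  rw [← sub_eq_zero.1 h, Complex.norm_exp_ofReal_mul_I]

private theorem Z3c_exp (t : ℝ) : HasDerivAt (fun t : ℝ => Complex.exp ((t : ℂ) * Complex.I))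
    (Complex.I * Complex.exp ((t : ℂ) * Complex.I)) t := by
  have h1 : HasDerivAt (fun t : ℝ => (t : ℂ) * Complex.I) (1 * Complex.I) t :=
    (Complex.ofRealCLM.hasDerivAt (x := t)).mul_const Complex.I
  have h2 := h1.cexp
  have e : Complex.exp ((t : ℂ) * Complex.I) * (1 * Complex.I) =
      Complex.I * Complex.exp ((t : ℂ) * Complex.I) := by ring
  rwa [e] at h2

private theorem Z3c_one {ζ : ℂ} (hζ : ‖ζ‖ ≠ 1) (t : ℝ) :
    HasDerivAt (fun t : ℝ => Complex.exp ((t : ℂ) * Complex.I) /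
      (Complex.exp ((t : ℂ) * Complex.I) - ζ))
      (-(Complex.I * ζ * Complex.exp ((t : ℂ) * Complex.I)) /
        (Complex.exp ((t : ℂ) * Complex.I) - ζ) ^ 2) t := by
  have h1 := Z3c_exp t
  have h2 := (h1.div (h1.sub_const ζ) (Z3c_ne hζ t))
  have e : (Complex.I * Complex.exp ((t : ℂ) * Complex.I) * (Complex.exp ((t : ℂ) * Complex.I) - ζ) -
      Complex.exp ((t : ℂ) * Complex.I) * (Complex.I * Complex.exp ((t : ℂ) * Complex.I))) /
      (Complex.exp ((t : ℂ) * Complex.I) - ζ) ^ 2 =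
      -(Complex.I * ζ * Complex.exp ((t : ℂ) * Complex.I)) /
        (Complex.exp ((t : ℂ) * Complex.I) - ζ) ^ 2 := by
    congr 1
    ring
  rw [e] at h2
  exact h2

private theorem Z3c_cont {ζ : ℂ} (hζ : ‖ζ‖ ≠ 1) : Continuous (fun t : ℝ => ‖ζ‖ *
      (1 / ‖Complex.exp ((t : ℂ) * Complex.I) - ζ‖ ^ 2)) := by
  refine continuous_const.mul (continuous_const.div ?_ ?_)
  · fun_prop
  · intro t
    exact pow_ne_zero 2 (norm_ne_zero_iff.2 (Z3c_ne hζ t))

private theorem Z3c_roots {a : ℕ → ℝ} {n : ℕ} (h : ∀ t, P a n t ≠ 0) :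
    ∀ ζ ∈ (pol a n).roots, ‖ζ‖ ≠ 1 := by
  intro ζ hζ h1
  obtain ⟨t, ht⟩ := exists_arg h1
  have h2 := isRoot_of_mem_roots hζ
  rw [IsRoot.def, ht, eval_pol_exp] at h2
  exact h t h2

private theorem Z3c_norm (s : Multiset ℂ) (t : ℝ) :
    ‖(s.map (fun ζ => -(Complex.I * ζ * Complex.exp ((t : ℂ) * Complex.I)) /
        (Complex.exp ((t : ℂ) * Complex.I) - ζ) ^ 2)).sum‖ ≤ (s.map (fun ζ => ‖ζ‖ *
      (1 / ‖Complex.exp ((t : ℂ) * Complex.I) - ζ‖ ^ 2))).sum := by
  induction s using Multiset.induction_on with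
  | empty => simp
  | cons ζ s ih =>
    simp only [Multiset.map_cons, Multiset.sum_cons]
    refine (norm_add_le _ _).trans (add_le_add (le_of_eq ?_) ih)
    rw [norm_div, norm_neg, norm_mul, norm_mul, Complex.norm_I, Complex.norm_exp_ofReal_mul_I,
      norm_pow, one_mul, mul_one]
    ring

private theorem Z3c_controots (s : Multiset ℂ) (hs : ∀ ζ ∈ s, ‖ζ‖ ≠ 1) :
    Continuous (fun t : ℝ => (s.map (fun ζ => ‖ζ‖ *
      (1 / ‖Complex.exp ((t : ℂ) * Complex.I) - ζ‖ ^ 2))).sum) := by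
  induction s using Multiset.induction_on with
  | empty => simpa using continuous_const
  | cons ζ s ih =>
    have hζ : ‖ζ‖ ≠ 1 := hs ζ (Multiset.mem_cons_self ζ s)
    have ih' := ih fun x hx => hs x (Multiset.mem_cons_of_mem hx)
    simp only [Multiset.map_cons, Multiset.sum_cons]
    exact (Z3c_cont hζ).add ih'

/-- PROOF. Induction on the multiset `s` (`Multiset.induction_on`). For one root: with
`z = e^{it}`, `z' = I z`, the derivative of `z / (z - ζ)` is
`(I z (z - ζ) - z (I z)) / (z - ζ)^2 = - I ζ z / (z - ζ)^2`. -/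
theorem hasDerivAt_roots (s : Multiset ℂ) (hs : ∀ ζ ∈ s, ‖ζ‖ ≠ 1) (t : ℝ) :
    HasDerivAt (fun t : ℝ => (s.map (fun ζ => Complex.exp ((t : ℂ) * Complex.I) /
      (Complex.exp ((t : ℂ) * Complex.I) - ζ))).sum)
      (s.map (fun ζ => -(Complex.I * ζ * Complex.exp ((t : ℂ) * Complex.I)) /
        (Complex.exp ((t : ℂ) * Complex.I) - ζ) ^ 2)).sum t := by
  induction s using Multiset.induction_on with
  | empty => simpa using hasDerivAt_const t (0 : ℂ)
  | cons ζ s ih =>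
    have hζ : ‖ζ‖ ≠ 1 := hs ζ (Multiset.mem_cons_self ζ s)
    have ih' := ih fun x hx => hs x (Multiset.mem_cons_of_mem hx)
    simp only [Multiset.map_cons, Multiset.sum_cons]
    refine HasDerivAt.add ?_ ih'
    exact Z3c_one hζ t

/-- PROOF. `P1 a n t / P a n t = z p'(z) / p(z)` with `z = e^{it}` (`eval_der_exp`,
`eval_pol_exp`), and `p'(z) / p(z) = ∑ 1 / (z - ζ)` over the roots
(`Polynomial.Splits.eval_derivative_div_eval_of_ne_zero` or a similar name; over `ℂ` every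
polynomial splits, `IsAlgClosed.splits`; `p(z) ≠ 0`); `Multiset.sum_map_mul_left`. -/
theorem quot_roots {a : ℕ → ℝ} {n : ℕ} (h : ∀ t, P a n t ≠ 0) (t : ℝ) :
    P1 a n t / P a n t = ((pol a n).roots.map (fun ζ => Complex.exp ((t : ℂ) * Complex.I) /
      (Complex.exp ((t : ℂ) * Complex.I) - ζ))).sum := by
  have h0 : (pol a n).eval (Complex.exp ((t : ℂ) * Complex.I)) ≠ 0 := by
    rw [eval_pol_exp]
    exact h t
  have h1 := (IsAlgClosed.splits (pol a n)).eval_derivative_div_eval_of_ne_zero h0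
  rw [← eval_der_exp, ← eval_pol_exp, mul_div_assoc, h1, ← Multiset.sum_map_mul_left]
  refine congrArg Multiset.sum (Multiset.map_congr rfl fun ζ _ => ?_)
  ring

/-- PROOF. A root `ζ` of `p` is not on the circle (`exists_arg`, `eval_pol_exp`, `h`). By
`quot_roots` and `hasDerivAt_roots`, `om a n` is the real part of a function with derivative
`∑ - I ζ z / (z - ζ)^2`; the norm of each summand is `‖ζ‖ / ‖z - ζ‖^2`; `|Re w| ≤ ‖w‖`,
`Multiset.induction_on` for the triangle inequality (or `Multiset.norm_sum_le`-type lemma). -/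
theorem deriv_om_le {a : ℕ → ℝ} {n : ℕ} (h : ∀ t, P a n t ≠ 0) (t : ℝ) :
    |deriv (om a n) t| ≤ ((pol a n).roots.map (fun ζ => ‖ζ‖ *
      (1 / ‖Complex.exp ((t : ℂ) * Complex.I) - ζ‖ ^ 2))).sum := by
  have hr := Z3c_roots h
  have h1 : (fun t : ℝ => P1 a n t / P a n t) = fun t : ℝ => ((pol a n).roots.map (fun ζ =>
      Complex.exp ((t : ℂ) * Complex.I) / (Complex.exp ((t : ℂ) * Complex.I) - ζ))).sum := by
    funext t
    exact quot_roots h t
  have h2 := hasDerivAt_roots (pol a n).roots hr t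
  rw [← h1] at h2
  have h3 : HasDerivAt (om a n) (((pol a n).roots.map (fun ζ =>
      -(Complex.I * ζ * Complex.exp ((t : ℂ) * Complex.I)) /
        (Complex.exp ((t : ℂ) * Complex.I) - ζ) ^ 2)).sum).re t :=
    Complex.reCLM.hasFDerivAt.comp_hasDerivAt t h2
  rw [h3.deriv]
  exact (Complex.abs_re_le_norm _).trans (Z3c_norm _ t)

/-- PROOF. `Multiset.induction_on`, `intervalIntegral.integral_add` (each summand is continuous as
`ζ` is not on the circle). -/
theorem int_roots (s : Multiset ℂ) (hs : ∀ ζ ∈ s, ‖ζ‖ ≠ 1) :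
    ∫ t in (0 : ℝ)..(2 * Real.pi), (s.map (fun ζ => ‖ζ‖ *
      (1 / ‖Complex.exp ((t : ℂ) * Complex.I) - ζ‖ ^ 2))).sum =
    (s.map (fun ζ => ‖ζ‖ * ∫ t in (0 : ℝ)..(2 * Real.pi),
      1 / ‖Complex.exp ((t : ℂ) * Complex.I) - ζ‖ ^ 2)).sum := by
  induction s using Multiset.induction_on with
  | empty => simp
  | cons ζ s ih =>
    have hζ : ‖ζ‖ ≠ 1 := hs ζ (Multiset.mem_cons_self ζ s)
    have hs' : ∀ ζ ∈ s, ‖ζ‖ ≠ 1 := fun x hx => hs x (Multiset.mem_cons_of_mem hx)
    simp only [Multiset.map_cons, Multiset.sum_cons]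
    rw [intervalIntegral.integral_add ((Z3c_cont hζ).intervalIntegrable _ _)
      ((Z3c_controots s hs').intervalIntegrable _ _), ih hs', intervalIntegral.integral_const_mul]

theorem cont_roots (s : Multiset ℂ) (hs : ∀ ζ ∈ s, ‖ζ‖ ≠ 1) :
    Continuous (fun t : ℝ => (s.map (fun ζ => ‖ζ‖ *
      (1 / ‖Complex.exp ((t : ℂ) * Complex.I) - ζ‖ ^ 2))).sum) := by
  exact Z3c_controots s hs

end Pool.Agent.Lib.MP_19d64f_an
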