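import Pool.Agent.Lib.MP_19d64f_an.Z2
import Pool.Agent.Lib.MP_19d64f_an.Z3a
import Pool.Agent.Lib.MP_19d64f_an.Z3c
import Pool.Agent.Lib.MP_19d64f_an.A3

/-!
# Upper bound for the variation of the frequency of a flat polynomial (Z3)
-/

set_option autoImplicit false

namespace Pool.Agent.Lib.MP_19d64f_an

open Finset MeasureTheory Polynomial

theorem tv_le {a : ℕ → ℝ} {n : ℕ} {ε : ℝ} (h : Flat a n ε) (hε0 : 0 < ε) (hε : 3 * ε < 1) :
    VV (om a n) ≤ Real.pi * (n : ℝ) ^ 2 / Real.log (1 / (3 * ε)) := by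
  have hne : ∀ t, P a n t ≠ 0 := P_ne h (by linarith)
  set S := Real.log (1 / (3 * ε)) with hS
  have hS0 : 0 < S := Real.log_pos (by rw [lt_div_iff₀ (by positivity)]; linarith)
  have hroot : ∀ ζ ∈ (pol a n).roots, ‖ζ‖ ≠ 1 ∧ ‖ζ‖ / |1 - ‖ζ‖ ^ 2| ≤ n / (2 * S) := by
    intro ζ hζ
    have h1 := (Polynomial.mem_roots'.1 hζ).2
    exact ratio_le (norm_nonneg _) (by positivity) hε
      (roots_far h hε0.le (by linarith) ζ h1)
  have hs : ∀ ζ ∈ (pol a n).roots, ‖ζ‖ ≠ 1 := fun ζ hζ => (hroot ζ hζ).1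
  have hcd : Continuous (deriv (om a n)) := (contDiff_om hne).continuous_deriv le_rfl
  unfold VV
  calc ∫ t in (0 : ℝ)..(2 * Real.pi), |deriv (om a n) t|
      ≤ ∫ t in (0 : ℝ)..(2 * Real.pi), ((pol a n).roots.map (fun ζ => ‖ζ‖ *
      (1 / ‖Complex.exp ((t : ℂ) * Complex.I) - ζ‖ ^ 2))).sum := by
        refine intervalIntegral.integral_mono_on (by positivity) ?_ ?_ fun t _ =>
          deriv_om_le hne t
        · exact (continuous_abs.comp hcd).intervalIntegrable _ _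
        · exact (cont_roots _ hs).intervalIntegrable _ _
    _ = ((pol a n).roots.map (fun ζ => ‖ζ‖ * ∫ t in (0 : ℝ)..(2 * Real.pi),
      1 / ‖Complex.exp ((t : ℂ) * Complex.I) - ζ‖ ^ 2)).sum := int_roots _ hs
    _ ≤ (Multiset.card ((pol a n).roots.map (fun ζ => ‖ζ‖ * ∫ t in (0 : ℝ)..(2 * Real.pi),
      1 / ‖Complex.exp ((t : ℂ) * Complex.I) - ζ‖ ^ 2))) • (Real.pi * n / S) := by
        refine Multiset.sum_le_card_nsmul _ _ fun x hx => ?_
        obtain ⟨ζ, hζ, rfl⟩ := Multiset.mem_map.1 hx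
        rw [pois ζ (hs ζ hζ)]
        have h2 := (hroot ζ hζ).2
        have h3 : ‖ζ‖ * (2 * Real.pi / |1 - ‖ζ‖ ^ 2|) =
            2 * Real.pi * (‖ζ‖ / |1 - ‖ζ‖ ^ 2|) := by ring
        rw [h3]
        calc 2 * Real.pi * (‖ζ‖ / |1 - ‖ζ‖ ^ 2|) ≤ 2 * Real.pi * (n / (2 * S)) :=
              mul_le_mul_of_nonneg_left h2 (by positivity)
          _ = Real.pi * n / S := by
            field_simp
    _ ≤ Real.pi * (n : ℝ) ^ 2 / S := by
        rw [Multiset.card_map, nsmul_eq_mul]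
        have h4 : ((Multiset.card (pol a n).roots : ℕ) : ℝ) ≤ n := by
          exact_mod_cast (Polynomial.card_roots' _).trans (natDegree_pol_le a n)
        calc ((Multiset.card (pol a n).roots : ℕ) : ℝ) * (Real.pi * n / S) ≤
            n * (Real.pi * n / S) := mul_le_mul_of_nonneg_right h4 (by positivity)
          _ = Real.pi * (n : ℝ) ^ 2 / S := by ring

end Pool.Agent.Lib.MP_19d64f_an
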