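import Pool.Agent.Lib.MP_19d64f_an.Z1

/-!
# The frequency of a flat polynomial is at most `9 n` (Z4)
-/

set_option autoImplicit false

namespace Pool.Agent.Lib.MP_19d64f_an

open Finset MeasureTheory Polynomial

/-- PROOF. Cauchy's estimate `Complex.norm_deriv_le_of_forall_mem_sphere_norm_le` on the circle of
radius `1 / n` about `z`: for `‖w - z‖ = 1 / n` we have `‖w‖ ≤ 1 + 1 / n`, so by `growth`
`‖p(w)‖ ≤ μ max 1 ((1 + 1/n)^n) ≤ 3 μ` (`(1 + 1/n)^n ≤ exp 1 < 3`: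
`Real.one_add_div_pow_le_exp..` or `Real.add_one_le_exp` and `Real.exp_nat_mul`,
`Real.exp_one_lt_d9`). Hence `‖p'(z)‖ ≤ 3 μ / (1 / n) = 3 n μ`. (`Polynomial.deriv`.) -/
theorem bernstein_weak (p : ℂ[X]) (n : ℕ) (hn : 1 ≤ n) (hm : p.natDegree ≤ n) (μ : ℝ)
    (hμ : ∀ z : ℂ, ‖z‖ = 1 → ‖p.eval z‖ ≤ μ) (z : ℂ) (hz : ‖z‖ = 1) :
    ‖p.derivative.eval z‖ ≤ 3 * n * μ := by
  have hn0 : (0 : ℝ) < n := by exact_mod_cast hn
  have hμ0 : 0 ≤ μ := (norm_nonneg _).trans (hμ z hz)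
  have hR : (0 : ℝ) < 1 / n := by positivity
  have hd : DiffContOnCl ℂ (fun w => p.eval w) (Metric.ball z (1 / (n : ℝ))) :=
    p.differentiable.diffContOnCl
  have hC : ∀ w ∈ Metric.sphere z (1 / (n : ℝ)), ‖(fun w => p.eval w) w‖ ≤ 3 * μ := by
    intro w hw
    rw [mem_sphere_iff_norm] at hw
    have h1 : ‖w‖ ≤ 1 + 1 / n := by
      calc ‖w‖ = ‖z + (w - z)‖ := by rw [add_sub_cancel]
        _ ≤ ‖z‖ + ‖w - z‖ := norm_add_le _ _
        _ = 1 + 1 / n := by rw [hz, hw]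
    have h2 : ‖w‖ ^ n ≤ 3 := by
      have e1 : (1 : ℝ) + 1 / n ≤ Real.exp (1 / n) := by
        have := Real.add_one_le_exp (1 / (n : ℝ))
        linarith
      calc ‖w‖ ^ n ≤ (Real.exp (1 / n)) ^ n :=
            pow_le_pow_left₀ (norm_nonneg _) (h1.trans e1) n
        _ = Real.exp (n * (1 / n)) := by rw [← Real.exp_nat_mul]
        _ = Real.exp 1 := by
            congr 1
            field_simp
        _ ≤ 3 := by
            have := Real.exp_one_lt_d9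
            linarith
    have h3 := growth p n hm μ hμ w
    have h4 : max 1 (‖w‖ ^ n) ≤ 3 := max_le (by norm_num) h2
    calc ‖(fun w => p.eval w) w‖ = ‖p.eval w‖ := rfl
      _ ≤ μ * max 1 (‖w‖ ^ n) := h3
      _ ≤ μ * 3 := mul_le_mul_of_nonneg_left h4 hμ0
      _ = 3 * μ := mul_comm _ _
  have h := Complex.norm_deriv_le_of_forall_mem_sphere_norm_le hR hd hC
  have e : deriv (fun w => p.eval w) z = p.derivative.eval z := p.deriv
  rw [e] at h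
  calc ‖p.derivative.eval z‖ ≤ 3 * μ / (1 / n) := h
    _ = 3 * n * μ := by field_simp

/-- PROOF. `‖p(z)‖ ≤ (3/2) √(n+1)` on the circle (`norm_upper`, `exists_arg`, `eval_pol_exp`), so
`‖P1 a n t‖ = ‖p'(z)‖ ≤ (9/2) n √(n+1)` (`bernstein_weak`, `eval_der_exp`,
`Complex.norm_exp_ofReal_mul_I`), and `‖P a n t‖ ≥ (1/2) √(n+1)`. `|Re w| ≤ ‖w‖`. -/
theorem om_le {a : ℕ → ℝ} {n : ℕ} {ε : ℝ} (h : Flat a n ε) (hε0 : 0 ≤ ε) (hε : ε ≤ 1 / 2)
    (hn : 1 ≤ n) (t : ℝ) : |om a n t| ≤ 9 * n := by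
  have hs : 0 < Real.sqrt ((n : ℝ) + 1) := Real.sqrt_pos.2 (by positivity)
  have hb : ∀ z : ℂ, ‖z‖ = 1 → ‖(pol a n).eval z‖ ≤ 3 / 2 * Real.sqrt ((n : ℝ) + 1) := by
    intro z hz
    obtain ⟨s, rfl⟩ := exists_arg hz
    rw [eval_pol_exp]
    have h1 := norm_upper h s
    nlinarith
  have hz : ‖Complex.exp ((t : ℂ) * Complex.I)‖ = 1 := Complex.norm_exp_ofReal_mul_I t
  have h1 := bernstein_weak (pol a n) n hn (natDegree_pol_le a n) _ hb _ hz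
  have h2 : ‖P1 a n t‖ ≤ 9 / 2 * n * Real.sqrt ((n : ℝ) + 1) := by
    rw [← eval_der_exp, norm_mul, hz, one_mul]
    calc _ ≤ 3 * (n : ℝ) * (3 / 2 * Real.sqrt ((n : ℝ) + 1)) := h1
      _ = 9 / 2 * n * Real.sqrt ((n : ℝ) + 1) := by ring
  have h3 : 1 / 2 * Real.sqrt ((n : ℝ) + 1) ≤ ‖P a n t‖ := by
    have := norm_lower h t
    nlinarith
  have h4 : 0 < ‖P a n t‖ := lt_of_lt_of_le (by positivity) h3
  have h5 : |om a n t| ≤ ‖P1 a n t / P a n t‖ := by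
    unfold om
    exact Complex.abs_re_le_norm _
  rw [norm_div] at h5
  refine h5.trans ?_
  rw [div_le_iff₀ h4]
  have hn0 : (0 : ℝ) ≤ n := Nat.cast_nonneg n
  calc ‖P1 a n t‖ ≤ 9 / 2 * n * Real.sqrt ((n : ℝ) + 1) := h2
    _ = 9 * n * (1 / 2 * Real.sqrt ((n : ℝ) + 1)) := by ring
    _ ≤ 9 * n * ‖P a n t‖ := by gcongr

end Pool.Agent.Lib.MP_19d64f_an
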