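import Pool.Agent.Lib.MP_19d64f_an.V9
import Pool.Agent.Lib.MP_19d64f_an.V7
import Pool.Agent.Lib.MP_19d64f_an.Z3
import Pool.Agent.Lib.MP_19d64f_an.Z4
import Pool.Agent.Lib.MP_19d64f_an.A5
import Pool.Agent.Lib.MP_19d64f_an.T1b

/-!
# The frequencies of a flat Littlewood polynomial are dense in phase space (T2)
-/

set_option autoImplicit false

namespace Pool.Agent.Lib.MP_19d64f_an

open Finset MeasureTheory Polynomial

theorem fin_num {c LB D Y Z Λ n δ τ γ : ℝ} (hc : 0 < c) (hLB : 0 ≤ LB) (hD : 0 ≤ D) (hY : 0 ≤ Y)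
    (hZ : 0 ≤ Z) (hΛ : 0 ≤ Λ) (hn : 0 < n)
    (hnX : 8000 * ((1 + Λ) * (1 + LB) * (1 + D + Y + Z)) / c ≤ n)
    (hδ0 : 0 ≤ δ) (hδ : δ ≤ c / (1000 * (1 + LB))) (hτ : τ = c / (1000 * (1 + LB)))
    (hγ : γ = c / 1000) :
    2 * τ + (1 / (n + 1)) * (D + 2 * Y + 2 * Z) +
      4 * (γ + LB * (δ / (2 * Real.pi) + τ + (Z / (n + 1) + Λ / (4 * n) * Z))) +
      4 * Y * (Λ / (4 * n)) < c / 16 := by
  have hpi := Real.pi_gt_three
  set X := (1 + Λ) * (1 + LB) * (1 + D + Y + Z) with hX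
  set i := 1 / n with hi
  have hi0 : 0 < i := by positivity
  have hX1 : 0 < X := by positivity
  have hiX : i * X ≤ c / 8000 := by
    rw [hi, one_div_mul_eq_div, div_le_iff₀ hn]
    rw [div_le_iff₀ hc] at hnX
    linarith
  have hN : 1 / (n + 1) ≤ i := one_div_le_one_div_of_le hn (by linarith)
  have hτ0 : 0 ≤ τ := by rw [hτ]; positivity
  have a1 : τ * (1 + LB) = c / 1000 := by
    rw [hτ]
    field_simp
  have a2 : δ * (1 + LB) ≤ c / 1000 := by
    have := mul_le_mul_of_nonneg_right hδ (by positivity : 0 ≤ 1 + LB)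
    refine this.trans (le_of_eq ?_)
    field_simp
  have b1 : (1 / (n + 1)) * (D + 2 * Y + 2 * Z) ≤ 2 * (i * X) := by
    have h1 : D + 2 * Y + 2 * Z ≤ 2 * X := by
      have : (1 + D + Y + Z) ≤ X := by
        rw [hX]
        have h2 : 1 ≤ (1 + Λ) * (1 + LB) := by nlinarith [mul_nonneg hΛ hLB]
        nlinarith
      linarith
    calc (1 / (n + 1)) * (D + 2 * Y + 2 * Z) ≤ i * (2 * X) :=
          mul_le_mul hN h1 (by positivity) hi0.le
      _ = _ := by ring
  have b2 : LB * (δ / (2 * Real.pi)) ≤ c / 1000 := by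
    have h1 : δ / (2 * Real.pi) ≤ δ := div_le_self hδ0 (by linarith)
    have h2 : LB * (δ / (2 * Real.pi)) ≤ LB * δ := mul_le_mul_of_nonneg_left h1 hLB
    nlinarith
  have b3 : LB * τ ≤ c / 1000 := by nlinarith
  have b4 : LB * (Z / (n + 1)) ≤ i * X := by
    have h1 : LB * Z ≤ X := by
      rw [hX]
      have h2 : LB * Z ≤ (1 + LB) * (1 + D + Y + Z) :=
        mul_le_mul (by linarith) (by linarith) hZ (by linarith)
      have h3 : 0 ≤ Λ * ((1 + LB) * (1 + D + Y + Z)) := by positivity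
      nlinarith
    have h4 : LB * (Z / (n + 1)) = (1 / (n + 1)) * (LB * Z) := by ring
    rw [h4]
    exact mul_le_mul hN h1 (by positivity) hi0.le
  have b5 : LB * (Λ / (4 * n) * Z) ≤ i * X / 4 := by
    have h1 : Λ * LB * Z ≤ X := by
      rw [hX]
      exact mul_le_mul (mul_le_mul (by linarith) (by linarith) hLB (by linarith)) (by linarith) hZ
        (by positivity)
    have h2 : LB * (Λ / (4 * n) * Z) = i * (Λ * LB * Z) / 4 := by
      rw [hi]
      field_simp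
    rw [h2]
    have := mul_le_mul_of_nonneg_left h1 hi0.le
    linarith
  have b6 : 4 * Y * (Λ / (4 * n)) ≤ i * X := by
    have h1 : Y * Λ ≤ X := by
      rw [hX]
      have h2 : Λ * Y ≤ (1 + Λ) * (1 + D + Y + Z) :=
        mul_le_mul (by linarith) (by linarith) hY (by linarith)
      have h3 : 0 ≤ LB * ((1 + Λ) * (1 + D + Y + Z)) := by positivity
      nlinarith
    have h4 : 4 * Y * (Λ / (4 * n)) = i * (Y * Λ) := by
      rw [hi]
      field_simp
    rw [h4]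
    exact mul_le_mul_of_nonneg_left h1 hi0.le
  have b7 : τ ≤ c / 1000 := by nlinarith
  have h1 : LB * (δ / (2 * Real.pi) + τ + (Z / (n + 1) + Λ / (4 * n) * Z)) =
      LB * (δ / (2 * Real.pi)) + LB * τ + LB * (Z / (n + 1)) + LB * (Λ / (4 * n) * Z) := by ring
  rw [h1, hγ]
  linarith

theorem dense {α β u v : ℝ} (h0 : 0 ≤ α) (h1 : α < β) (h2 : β ≤ 2 * Real.pi) (hu : 0 ≤ u)
    (huv : u < v) (hv : v ≤ 1) : ∃ δ : ℝ, 0 < δ ∧ ∀ (n : ℕ) (a : ℕ → ℝ), 1 ≤ n → Lit a →
      Flat a n δ → ENNReal.ofReal δ ≤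
        volume {t : ℝ | α < t ∧ t < β ∧ u * n < om a n t ∧ om a n t < v * n} := by
  have hpi := Real.pi_pos
  have huv' : 0 < v - u := by linarith
  obtain ⟨d, s, p, hd, hs0, hs1, hp, hp0, hoff⟩ := predictor h0 h1 h2
  set c0 : ℝ := (v - u) / 16 with hc0d
  have hc0 : 0 < c0 := by positivity
  have hc01 : c0 ≤ 1 / 16 := by
    rw [hc0d]
    linarith
  set c : ℝ := c0 ^ 3 with hcd
  have hc : 0 < c := by positivity
  obtain ⟨H, hH⟩ := geo hs0 hs1 hd (γ := c / 1000) (by positivity)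
  set h0' : ℕ := d * H with hh0
  set Y : ℕ := 2 ^ (h0' + 1) with hY
  set 𝓓 : ℕ := Nat.factorial Y with h𝓓
  set L : ℕ := Y + 𝓓 with hL
  set B : ℝ := ∑ ℓ ∈ range (h0' + L + 1), ∑ j ∈ range (ℓ + 1), ‖pc p d ℓ j‖ with hB
  have hB1 : ∀ ℓ ≤ h0' + L, ∑ j ∈ range (ℓ + 1), ‖pc p d ℓ j‖ ≤ B := by
    intro ℓ hℓ
    exact Finset.single_le_sum (f := fun ℓ => ∑ j ∈ range (ℓ + 1), ‖pc p d ℓ j‖)
      (fun _ _ => Finset.sum_nonneg fun _ _ => norm_nonneg _) (Finset.mem_range.2 (by omega))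
  set LB : ℝ := L * B ^ 2 with hLB
  have hLB0 : 0 ≤ LB := by positivity
  set Λ : ℝ := 1 / ((v - u) / 8) with hΛ
  have hΛ0 : 0 ≤ Λ := by positivity
  set τ : ℝ := c / (1000 * (1 + LB)) with hτ
  have hτ0 : 0 < τ := by positivity
  have hPL := tent_PL ((u + v) / 8) (η := (v - u) / 8) (by positivity)
  obtain ⟨ε0, hε0, hcorr⟩ := corr_W hPL hΛ0 hτ0
  set X : ℝ := (1 + Λ) * (1 + LB) * (1 + 𝓓 + Y + (h0' + L : ℕ)) with hX
  have hX0 : 0 < X := by positivity
  set n1 : ℝ := 8000 * X / c + 8 / (v - u) + (h0' + L + Y : ℕ) with hn1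
  have hn10 : 0 ≤ n1 := by positivity
  set δ : ℝ := min (min ε0 (1 / 4)) (min (Real.exp (-(Real.pi / ε0)) / 3)
    (min (1 / (3 * (n1 + 2))) τ)) with hδ
  have hδ0 : 0 < δ := by
    rw [hδ]
    refine lt_min (lt_min hε0 (by norm_num)) (lt_min (by positivity) (lt_min (by positivity) hτ0))
  have hδ1 : δ ≤ ε0 := (min_le_left _ _).trans (min_le_left _ _)
  have hδ2 : δ ≤ 1 / 4 := (min_le_left _ _).trans (min_le_right _ _)
  have hδ3 : δ ≤ Real.exp (-(Real.pi / ε0)) / 3 := (min_le_right _ _).trans (min_le_left _ _)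
  have hδ4 : δ ≤ 1 / (3 * (n1 + 2)) :=
    (min_le_right _ _).trans ((min_le_right _ _).trans (min_le_left _ _))
  have hδ5 : δ ≤ τ := (min_le_right _ _).trans ((min_le_right _ _).trans (min_le_right _ _))
  refine ⟨δ, hδ0, fun n a hn ha hfl => ?_⟩
  by_contra hlt
  push Not at hlt
  have hnR : (1 : ℝ) ≤ n := by exact_mod_cast hn
  have hn0 : (0 : ℝ) < n := by linarith
  have hne : ∀ t, P a n t ≠ 0 := P_ne hfl (by linarith)
  have hom : Continuous (om a n) := (contDiff_om hne).continuous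
  obtain ⟨ϕ, hA⟩ := apx_of_flat hfl hδ0.le (by linarith)
  have hlow := eps_lower ha hA (by omega)
  have hnbig : n1 + 1 ≤ n := by
    have h3 : 3 * δ * ((n : ℝ) + 1) ≤ ((n : ℝ) + 1) / (n1 + 2) := by
      have : 3 * δ ≤ 1 / (n1 + 2) := by
        have h4 : 3 * (1 / (3 * (n1 + 2))) = 1 / (n1 + 2) := by
          field_simp
        linarith
      calc 3 * δ * ((n : ℝ) + 1) ≤ 1 / (n1 + 2) * ((n : ℝ) + 1) :=
            mul_le_mul_of_nonneg_right this (by positivity)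
        _ = _ := by ring
    have h4 : 1 ≤ ((n : ℝ) + 1) / (n1 + 2) := hlow.trans h3
    rw [le_div_iff₀ (by positivity)] at h4
    linarith
  have hVV : VV (om a n) ≤ ε0 * (n : ℝ) ^ 2 := by
    refine (tv_le hfl hδ0 (by linarith)).trans ?_
    have h3 : Real.pi / ε0 ≤ Real.log (1 / (3 * δ)) := by
      rw [Real.le_log_iff_exp_le (by positivity), le_div_iff₀ (by positivity)]
      have h4 : 3 * δ ≤ Real.exp (-(Real.pi / ε0)) := by linarith
      calc Real.exp (Real.pi / ε0) * (3 * δ) ≤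
            Real.exp (Real.pi / ε0) * Real.exp (-(Real.pi / ε0)) :=
            mul_le_mul_of_nonneg_left h4 (Real.exp_pos _).le
        _ = 1 := by rw [← Real.exp_add]; simp
    have h5 : 0 < Real.pi / ε0 := by positivity
    rw [div_le_iff₀ (by linarith)]
    calc Real.pi * (n : ℝ) ^ 2 = ε0 * (n : ℝ) ^ 2 * (Real.pi / ε0) := by
          field_simp
      _ ≤ ε0 * (n : ℝ) ^ 2 * Real.log (1 / (3 * δ)) :=
          mul_le_mul_of_nonneg_left h3 (by positivity)
  have hc1 := hcorr a n ϕ (om a n) δ ha hA hδ1 hVV hn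
  have h4n : (0 : ℝ) < 4 * n := by positivity
  have hS : Setup a (fun k => tent ((u + v) / 8) ((v - u) / 8) ((k : ℝ) / (4 * n)))
      (fun t => tent ((u + v) / 8) ((v - u) / 8) (om a n t / (4 * n))) n (Λ / (4 * n)) τ δ α β d s p := by
    refine ⟨ha, hPL.cont.comp (by fun_prop), fun t => (hPL.1 _).1, fun t => (hPL.1 _).2,
      fun k => (hPL.1 _).1, fun k => (hPL.1 _).2, by positivity, ?_, hc1, hτ0.le, hδ0.le, h0, h2,
      ?_, hd, hs0, hs1, hp, hp0, hoff⟩
    · intro k m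
      have h3 := hPL.2 (((k + m : ℕ) : ℝ) / (4 * n)) ((k : ℝ) / (4 * n)) 0
      refine h3.trans (le_of_eq ?_)
      have h4 : (((k + m : ℕ) : ℝ) / (4 * n)) - ((k : ℝ) / (4 * n)) - 2 * Real.pi * ((0 : ℤ) : ℝ) =
          (m : ℝ) / (4 * n) := by
        push_cast
        ring
      rw [h4, abs_of_nonneg (by positivity)]
      ring
    · refine le_trans (measure_mono ?_) hlt.le
      intro t ht
      obtain ⟨ht1, ht2, ht3⟩ := ht
      have h3 := tent_band hu huv hv hn (om_le hfl hδ0.le (by linarith) hn t) ht3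
      exact ⟨ht1, ht2, h3.1, h3.2⟩
  have hnY : h0' + L + Y ≤ n := by
    have h3 : (((h0' + L + Y : ℕ) : ℝ)) ≤ n := by
      have : 0 ≤ 8000 * X / c + 8 / (v - u) := by positivity
      linarith
    exact_mod_cast h3
  have hT : c0 ≤ T a (fun k => tent ((u + v) / 8) ((v - u) / 8) ((k : ℝ) / (4 * n))) n 0 := by
    have h3 := tent_sum hu huv hv (n := n) (by
      have : 8 / (v - u) ≤ n := by
        have : 0 ≤ 8000 * X / c + ((h0' + L + Y : ℕ) : ℝ) := by positivity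
        linarith
      rw [div_le_iff₀ huv'] at this
      exact this)
    refine h3.trans (le_of_eq ?_)
    unfold T
    rw [Nat.sub_zero]
    congr 1
    refine Finset.sum_congr rfl fun k _ => ?_
    have : a k * a (k + 0) = 1 := by
      rw [add_zero]
      rcases ha k with h | h <;> rw [h] <;> norm_num
    rw [this, mul_one]
  have hτc : τ ≤ c0 / 4 := by
    have h3 : τ ≤ c := by
      rw [hτ]
      exact div_le_self hc.le (by linarith)
    have h4 : c ≤ c0 / 4 := by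
      rw [hcd]
      have : c0 ^ 2 ≤ 1 / 4 := by nlinarith
      calc c0 ^ 3 = c0 * c0 ^ 2 := by ring
        _ ≤ c0 * (1 / 4) := mul_le_mul_of_nonneg_left this hc0.le
        _ = c0 / 4 := by ring
    linarith
  have hkey := key hS (h0 := h0') hY h𝓓 hL hnY hB1 (hH L) hc0 hT hτc
  have hfin := fin_num (c := c) (LB := LB) (D := 𝓓) (Y := Y) (Z := (h0' + L : ℕ)) (Λ := Λ)
    (n := n) (δ := δ) (τ := τ) (γ := c / 1000) hc hLB0 (by positivity) (by positivity)
    (by positivity) hΛ0 hn0 (by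
      have : 0 ≤ 8 / (v - u) + ((h0' + L + Y : ℕ) : ℝ) := by positivity
      linarith) hδ0.le hδ5 hτ rfl
  have h5 : (L : ℝ) * (B ^ 2 * (δ / (2 * Real.pi) + τ + (((h0' + L : ℕ) : ℝ) / ((n : ℝ) + 1) +
      Λ / (4 * n) * ((h0' + L : ℕ) : ℝ)))) = LB * (δ / (2 * Real.pi) + τ +
      (((h0' + L : ℕ) : ℝ) / ((n : ℝ) + 1) + Λ / (4 * n) * ((h0' + L : ℕ) : ℝ))) := by
    rw [hLB]
    ring
  rw [h5] at hkey
  linarith

end Pool.Agent.Lib.MP_19d64f_an
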