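import Pool.Agent.Lib.MP_19d64f_an.Z3
import Pool.Agent.Lib.MP_19d64f_an.Z4
import Pool.Agent.Lib.MP_19d64f_an.Q2
import Pool.Agent.Lib.MP_19d64f_an.N1
import Pool.Agent.Lib.MP_19d64f_an.N3
import Pool.Agent.Lib.MP_19d64f_an.T1b

/-!
# Few Littlewood polynomials are flat (T3)
-/

set_option autoImplicit false

namespace Pool.Agent.Lib.MP_19d64f_an

open Finset MeasureTheory

/-- extension of a sign sequence of length `n + 1` to `ℕ` -/
def ext {n : ℕ} (b : Fin (n + 1) → ℤ) : ℕ → ℝ := fun k => if h : k < n + 1 then (b ⟨k, h⟩ : ℝ) else 1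

theorem ext_lit {n : ℕ} {b : Fin (n + 1) → ℤ} (hb : ∀ k, b k = 1 ∨ b k = -1) : Lit (ext b) := by
  intro k
  unfold ext
  split_ifs with h
  · rcases hb ⟨k, h⟩ with h | h <;> rw [h] <;> simp
  · exact Or.inl rfl

theorem ext_card {n : ℕ} (b b' : Fin (n + 1) → ℤ) :
    (univ.filter (fun k => b k ≠ b' k)).card ≤
      ((range (n + 1)).filter (fun k => ext b k ≠ ext b' k)).card := by
  refine Finset.card_le_card_of_injOn (fun k => (k : ℕ)) ?_ (fun x _ y _ h => Fin.ext h)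
  intro k hk
  have h1 : b k ≠ b' k := (Finset.mem_filter.1 hk).2
  refine Finset.mem_coe.2 (Finset.mem_filter.2 ⟨Finset.mem_range.2 k.2, ?_⟩)
  unfold ext
  rw [dif_pos k.2, dif_pos k.2]
  intro h2
  exact h1 (by exact_mod_cast h2)

open scoped Classical in
theorem few {y ε : ℝ} {n : ℕ} (hy : 1 ≤ y) (hε0 : 0 < ε)
    (hε : ε ≤ Real.exp (-(10 ^ 9 * y ^ 12))) (hn1 : 1 ≤ n) (T : Finset (Fin (n + 1) → ℤ))
    (hT : ∀ b ∈ T, (∀ k, b k = 1 ∨ b k = -1) ∧ Flat (ext b) n ε) :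
    (T.card : ℝ) ≤ Real.exp (n / y ^ 3 * Real.log 2) := by
  rcases T.eq_empty_or_nonempty with h0 | ⟨b0, hb0⟩
  · rw [h0]
    simp only [Finset.card_empty, Nat.cast_zero]
    positivity
  have hy0 : 0 < y := by linarith
  have hnR : (1 : ℝ) ≤ n := by exact_mod_cast hn1
  have hpi := Real.pi_pos
  have hy12 : (1 : ℝ) ≤ y ^ 12 := one_le_pow₀ hy
  have hy4 : (1 : ℝ) ≤ y ^ 4 := one_le_pow₀ hy
  have hy3 : (1 : ℝ) ≤ y ^ 3 := one_le_pow₀ hy
  have hε2 : ε < 1 / 4 := by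
    have h5 : Real.exp (-(10 ^ 9 * y ^ 12)) ≤ 1 / (10 ^ 9 * y ^ 12 + 1) := by
      rw [Real.exp_neg, ← one_div]
      refine one_div_le_one_div_of_le (by positivity) ?_
      linarith [Real.add_one_le_exp (10 ^ 9 * y ^ 12)]
    have h6 : 1 / (10 ^ 9 * y ^ 12 + 1) < 1 / 4 :=
      one_div_lt_one_div_of_lt (by norm_num) (by linarith)
    exact (hε.trans h5).trans_lt h6
  have hflat : ∀ b ∈ T, Flat (ext b) n ε := fun b hb => (hT b hb).2
  have hlit : ∀ b ∈ T, Lit (ext b) := fun b hb => ext_lit (hT b hb).1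
  have hne : ∀ b ∈ T, ∀ t, P (ext b) n t ≠ 0 := fun b hb => P_ne (hflat b hb) (by linarith)
  -- lower bound for n
  obtain ⟨ϕ0, hϕ0⟩ := apx_of_flat (hflat b0 hb0) hε0.le (by linarith)
  have hlow := eps_lower (hlit b0 hb0) hϕ0 (by omega)
  -- the parameters
  set s : ℕ := ⌈2000 * y ^ 4⌉₊ with hs
  set q : ℕ := ⌈800 * y ^ 4⌉₊ with hq
  have hs1 : 2000 * y ^ 4 ≤ s := Nat.le_ceil _
  have hs2 : (s : ℝ) ≤ 2001 * y ^ 4 := by
    have := (Nat.ceil_lt_add_one (a := 2000 * y ^ 4) (by positivity)).le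
    linarith
  have hq1 : 800 * y ^ 4 ≤ q := Nat.le_ceil _
  have hq2 : (q : ℝ) ≤ 801 * y ^ 4 := by
    have := (Nat.ceil_lt_add_one (a := 800 * y ^ 4) (by positivity)).le
    linarith
  have hs0 : (0 : ℝ) < s := by linarith
  have hq0 : (0 : ℝ) < q := by linarith
  have hs0' : 0 < s := by exact_mod_cast hs0
  have hq0' : 0 < q := by exact_mod_cast hq0
  set Q : ℕ := ⌈2 * Real.pi * n / s⌉₊ with hQ
  have hQ1 : (Q : ℝ) ≤ 2 * Real.pi * n / s + 1 :=
    (Nat.ceil_lt_add_one (a := 2 * Real.pi * n / s) (by positivity)).le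
  have hQ2 : 2 * Real.pi * n / s ≤ Q := Nat.le_ceil _
  have hQ0 : (0 : ℝ) < Q := lt_of_lt_of_le (by positivity) hQ2
  have hQ0' : 0 < Q := by exact_mod_cast hQ0
  have hQ3 : 2 * Real.pi * n / Q ≤ s := by
    rw [div_le_iff₀ hQ0]
    rw [div_le_iff₀ hs0] at hQ2
    linarith
  set ρ : ℝ := Real.pi / Real.log (1 / (3 * ε)) with hρ
  have hlog : 0 < Real.log (1 / (3 * ε)) :=
    Real.log_pos (by rw [lt_div_iff₀ (by positivity)]; linarith)
  have hρ0 : 0 ≤ ρ := by positivity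
  have hVV : ∀ b ∈ T, VV (om (ext b) n) ≤ ρ * (n : ℝ) ^ 2 := by
    intro b hb
    refine (tv_le (hflat b hb) hε0 (by linarith)).trans (le_of_eq ?_)
    rw [hρ]
    ring
  have hph : ∀ b ∈ T, ∃ ϕ : ℝ → ℝ, (∀ t, HasDerivAt ϕ (om (ext b) n t) t) ∧ ∀ t : ℝ,
      P (ext b) n t = (‖P (ext b) n t‖ : ℂ) * Complex.exp ((ϕ t : ℂ) * Complex.I) :=
    fun b hb => phase' (hne b hb)
  choose! ϕ hϕ1 hϕ2 using hph
  set code : (Fin (n + 1) → ℤ) → (Fin Q → ℤ × ℤ) := fun b i =>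
    (⌊(q : ℝ) * Int.fract (ϕ b (2 * Real.pi * (i : ℕ) / Q) / (2 * Real.pi))⌋,
      ⌊om (ext b) n (2 * Real.pi * (i : ℕ) / Q) * ((s : ℝ) * q / n)⌋) with hcode
  set U : Finset (Fin Q → ℤ × ℤ) := Fintype.piFinset (fun _ : Fin Q => (Finset.Icc (0 : ℤ) q) ×ˢ
      (Finset.Icc (-((9 * s * q : ℕ) : ℤ)) ((9 * s * q : ℕ) : ℤ))) with hU
  have hUm : ∀ b ∈ T, code b ∈ U := by
    intro b hb
    rw [hU, Fintype.mem_piFinset]
    intro i
    rw [Finset.mem_product, Finset.mem_Icc, Finset.mem_Icc]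
    have hf0 := Int.fract_nonneg (ϕ b (2 * Real.pi * (i : ℕ) / Q) / (2 * Real.pi))
    have hf1 := (Int.fract_lt_one (ϕ b (2 * Real.pi * (i : ℕ) / Q) / (2 * Real.pi))).le
    have ho := abs_le.1 (om_le (hflat b hb) hε0.le (by linarith) hn1 (2 * Real.pi * (i : ℕ) / Q))
    have hc0 : (0 : ℝ) ≤ (s : ℝ) * q / n := by positivity
    have e : (9 * (n : ℝ)) * ((s : ℝ) * q / n) = ((9 * s * q : ℕ) : ℝ) := by
      push_cast
      field_simp
    refine ⟨⟨?_, ?_⟩, ?_, ?_⟩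
    · exact Int.floor_nonneg.2 (by positivity)
    · have h1 : (q : ℝ) * Int.fract (ϕ b (2 * Real.pi * (i : ℕ) / Q) / (2 * Real.pi)) ≤
          ((q : ℤ) : ℝ) := by
        push_cast
        nlinarith
      have h2 := Int.floor_le_floor h1
      rw [Int.floor_intCast] at h2
      exact h2
    · rw [Int.le_floor]
      push_cast
      have h3 := mul_le_mul_of_nonneg_right ho.1 hc0
      push_cast at e
      linarith
    · have h1 : om (ext b) n (2 * Real.pi * (i : ℕ) / Q) * ((s : ℝ) * q / n) ≤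
          (((9 * s * q : ℕ) : ℤ) : ℝ) := by
        have h3 := mul_le_mul_of_nonneg_right ho.2 hc0
        rw [e] at h3
        exact_mod_cast h3
      have h2 := Int.floor_le_floor h1
      rw [Int.floor_intCast] at h2
      exact h2
  set θ : ℝ := 2 * ε ^ 2 + (s : ℝ) ^ 2 * ρ / 3 + 8 / q with hθ
  set r : ℕ := ⌊((n : ℝ) + 1) * θ⌋₊ with hr
  have hθ0 : 0 ≤ θ := by positivity
  have hr1 : (r : ℝ) ≤ ((n : ℝ) + 1) * θ := Nat.floor_le (by positivity)
  set x : ℝ := 1 / (16 * y ^ 3) with hx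
  have hx0 : 0 < x := by positivity
  have hx1 : x ≤ 1 := by
    rw [hx, div_le_one (by positivity)]
    nlinarith
  have hfib : ∀ u ∈ U, ((T.filter (fun b => code b = u)).card : ℝ) ≤ (1 + x) ^ (n + 1) / x ^ r := by
    intro u _
    rcases (T.filter (fun b => code b = u)).eq_empty_or_nonempty with h0 | ⟨b1, hb1⟩
    · rw [h0]
      simp only [Finset.card_empty, Nat.cast_zero]
      positivity
    · rw [le_div_iff₀ (by positivity)]
      have hb1' := Finset.mem_filter.1 hb1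
      refine ball_card b1 (hT b1 hb1'.1).1 _
        (fun b hb => (hT b (Finset.mem_filter.1 hb).1).1) r ?_ hx0 hx1
      intro b hb
      have hb' := Finset.mem_filter.1 hb
      have hcc : code b = code b1 := hb'.2.trans hb1'.2.symm
      refine (ext_card b b1).trans ?_
      rw [hr]
      refine Nat.le_floor ?_
      refine close_card (hlit b hb'.1) (hlit b1 hb1'.1) (hflat b hb'.1) (hflat b1 hb1'.1) hε0.le
        (by linarith) hn1 hρ0 (hVV b hb'.1) (hVV b1 hb1'.1) (hϕ1 b hb'.1) (hϕ1 b1 hb1'.1)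
        (hϕ2 b hb'.1) (hϕ2 b1 hb1'.1) hQ0' hQ3 hs0' hq0' ?_ ?_
      · intro i hi
        have h1 := congrFun hcc ⟨i, hi⟩
        simp only [hcode, Prod.mk.injEq] at h1
        exact h1.1
      · intro i hi
        have h1 := congrFun hcc ⟨i, hi⟩
        simp only [hcode, Prod.mk.injEq] at h1
        exact h1.2
  have hcount := codes_card T code U hUm (M₀ := (1 + x) ^ (n + 1) / x ^ r) (by positivity) hfib
  rw [code_space_card] at hcount
  refine hcount.trans ?_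
  have hA0 : (0 : ℝ) < ((q : ℝ) + 1) * (2 * (9 * s * q : ℕ) + 1) := by positivity
  rw [← Real.exp_log (x := (1 + x) ^ (n + 1) / x ^ r *
    (((q : ℝ) + 1) * (2 * (9 * s * q : ℕ) + 1)) ^ Q) (by positivity)]
  refine Real.exp_le_exp.2 ?_
  rw [Real.log_mul (by positivity) (by positivity), Real.log_div (by positivity) (by positivity),
    Real.log_pow, Real.log_pow, Real.log_pow]
  have hnum := numer3 (Q := Q) (r := r) hy hε0 hε hn1 hlow hs1 hs2 hq1 hq2 hQ1 hr1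
  have hlx : Real.log x = -Real.log (16 * y ^ 3) := by
    rw [hx, one_div, Real.log_inv]
  rw [hlx]
  push_cast at hnum ⊢
  linarith

end Pool.Agent.Lib.MP_19d64f_an
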