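import Pool.Agent.Lib.MP_19d64f_an.C1

/-!
# Weighted correlations, complex version, at an arbitrary scale (V0)
-/

set_option autoImplicit false

namespace Pool.Agent.Lib.MP_19d64f_an

open Finset MeasureTheory

/-- The complex version, for the weight at scale `M`. -/
theorem corr_wc {a : ℕ → ℝ} {n : ℕ} {ϕ g : ℝ → ℝ} {ε : ℝ} (h : Apx a n ϕ g ε)
    {M : ℝ} (hM : 0 < M) {R : ℕ} (hR : 0 < R) (κ : ℝ) {j : ℕ} (hj : j ≤ n) :
    ‖((T a (fun k => w R κ ((k : ℝ) / M)) n j : ℝ) : ℂ) -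
      (1 / (2 * (Real.pi : ℂ))) * (∫ t in (0 : ℝ)..(2 * Real.pi),
      ((w R κ (g t / M) : ℝ) : ℂ) * Complex.exp ((j : ℂ) * (t : ℂ) * Complex.I))‖ ≤
      3 * ε + (R : ℝ) ^ 2 * VV g / (2 * Real.pi * M ^ 2) := by
  have hco : Continuous g := h.hg.continuous
  have hRR : (0 : ℝ) < R := by exact_mod_cast hR
  have hTV : 0 ≤ VV g := VV_nonneg g
  set c : ℕ → ℕ → ℂ := fun l l' => Complex.exp (-(((l : ℂ) - (l' : ℂ)) * (κ : ℂ) * Complex.I)) with hc
  set σ : ℕ → ℕ → ℝ := fun l l' => ((l : ℝ) - (l' : ℝ)) / M with hσ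
  set S : ℝ → ℂ := fun s => ∑ k ∈ range (n + 1 - j), (a k : ℂ) * (a (k + j) : ℂ) *
        Complex.exp ((k : ℂ) * (s : ℂ) * Complex.I) with hS
  set J : ℝ → ℂ := fun s => (1 / (2 * (Real.pi : ℂ))) * ∫ t in (0 : ℝ)..(2 * Real.pi),
        Complex.exp (((s * g t : ℝ) : ℂ) * Complex.I) *
          Complex.exp ((j : ℂ) * (t : ℂ) * Complex.I) with hJ
  have hcn : ∀ l l', ‖c l l'‖ = 1 := by
    intro l l'
    simp only [hc]
    have : -(((l : ℂ) - (l' : ℂ)) * (κ : ℂ) * Complex.I) =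
        ((-(((l : ℝ) - (l' : ℝ)) * κ) : ℝ) : ℂ) * Complex.I := by
      push_cast
      ring
    rw [this, Complex.norm_exp_ofReal_mul_I]
  have hX : ((T a (fun k => w R κ ((k : ℝ) / M)) n j : ℝ) : ℂ) =
      (1 / (R : ℂ) ^ 2) * ∑ l ∈ range R, ∑ l' ∈ range R, c l l' * (S (σ l l') / ((n : ℂ) + 1)) := by
    unfold T
    push_cast
    have e1 : ∀ k : ℕ, ((w R κ ((k : ℝ) / M) : ℝ) : ℂ) * ((a k : ℂ) * (a (k + j) : ℂ)) =
        (1 / (R : ℂ) ^ 2) * ∑ l ∈ range R, ∑ l' ∈ range R, c l l' *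
          ((a k : ℂ) * (a (k + j) : ℂ) *
            Complex.exp ((k : ℂ) * ((σ l l' : ℝ) : ℂ) * Complex.I)) := by
      intro k
      rw [w_expand, mul_assoc, Finset.sum_mul]
      congr 1
      refine Finset.sum_congr rfl fun l _ => ?_
      rw [Finset.sum_mul]
      refine Finset.sum_congr rfl fun l' _ => ?_
      simp only [hc, hσ]
      have e2 : ((l : ℂ) - (l' : ℂ)) * (((k : ℝ) / M - κ : ℝ) : ℂ) * Complex.I =
          -(((l : ℂ) - (l' : ℂ)) * (κ : ℂ) * Complex.I) +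
            (k : ℂ) * ((((l : ℝ) - (l' : ℝ)) / M : ℝ) : ℂ) * Complex.I := by
        push_cast
        ring
      rw [e2, Complex.exp_add]
      ring
    simp_rw [e1]
    rw [← Finset.mul_sum, Finset.sum_comm]
    rw [← mul_assoc, mul_comm (1 / ((n : ℂ) + 1)) (1 / (R : ℂ) ^ 2), mul_assoc]
    congr 1
    rw [Finset.mul_sum]
    refine Finset.sum_congr rfl fun l _ => ?_
    rw [Finset.sum_comm, Finset.mul_sum]
    refine Finset.sum_congr rfl fun l' _ => ?_
    rw [← Finset.mul_sum]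
    simp only [hS]
    ring
  have hY : (1 / (2 * (Real.pi : ℂ))) * (∫ t in (0 : ℝ)..(2 * Real.pi),
      ((w R κ (g t / M) : ℝ) : ℂ) * Complex.exp ((j : ℂ) * (t : ℂ) * Complex.I)) =
      (1 / (R : ℂ) ^ 2) * ∑ l ∈ range R, ∑ l' ∈ range R, c l l' * J (σ l l') := by
    have e1 : ∀ t : ℝ, ((w R κ (g t / M) : ℝ) : ℂ) *
        Complex.exp ((j : ℂ) * (t : ℂ) * Complex.I) =
        (1 / (R : ℂ) ^ 2) * ∑ l ∈ range R, ∑ l' ∈ range R, c l l' *
          (Complex.exp (((σ l l' * g t : ℝ) : ℂ) * Complex.I) *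
          Complex.exp ((j : ℂ) * (t : ℂ) * Complex.I)) := by
      intro t
      rw [w_expand, mul_assoc, Finset.sum_mul]
      congr 1
      refine Finset.sum_congr rfl fun l _ => ?_
      rw [Finset.sum_mul]
      refine Finset.sum_congr rfl fun l' _ => ?_
      simp only [hc, hσ]
      have e2 : ((l : ℂ) - (l' : ℂ)) * ((g t / M - κ : ℝ) : ℂ) * Complex.I =
          -(((l : ℂ) - (l' : ℂ)) * (κ : ℂ) * Complex.I) +
            ((((l : ℝ) - (l' : ℝ)) / M * g t : ℝ) : ℂ) * Complex.I := by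
        push_cast
        ring
      rw [e2, Complex.exp_add]
      ring
    simp_rw [e1]
    rw [intervalIntegral.integral_const_mul, ← mul_assoc,
      mul_comm (1 / (2 * (Real.pi : ℂ))) (1 / (R : ℂ) ^ 2), mul_assoc]
    congr 1
    rw [intervalIntegral.integral_finsetSum, Finset.mul_sum]
    · refine Finset.sum_congr rfl fun l _ => ?_
      rw [intervalIntegral.integral_finsetSum, Finset.mul_sum]
      · refine Finset.sum_congr rfl fun l' _ => ?_
        rw [intervalIntegral.integral_const_mul]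
        simp only [hJ]
        ring
      · intro l' _
        refine Continuous.intervalIntegrable ?_ _ _
        fun_prop
    · intro l _
      refine Continuous.intervalIntegrable ?_ _ _
      fun_prop
  have hdiff : ‖((T a (fun k => w R κ ((k : ℝ) / M)) n j : ℝ) : ℂ) -
      (1 / (2 * (Real.pi : ℂ))) * (∫ t in (0 : ℝ)..(2 * Real.pi),
      ((w R κ (g t / M) : ℝ) : ℂ) * Complex.exp ((j : ℂ) * (t : ℂ) * Complex.I))‖ ≤
      3 * ε + (R : ℝ) ^ 2 * VV g / (2 * Real.pi * M ^ 2) := by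
    rw [hX, hY, ← mul_sub, ← Finset.sum_sub_distrib]
    simp_rw [← Finset.sum_sub_distrib, ← mul_sub]
    rw [norm_mul, norm_div, norm_one, norm_pow, Complex.norm_natCast]
    have hb : ∀ l ∈ range R, ∀ l' ∈ range R,
        ‖c l l' * (S (σ l l') / ((n : ℂ) + 1) - J (σ l l'))‖ ≤
        3 * ε + (R : ℝ) ^ 2 * VV g / (2 * Real.pi * M ^ 2) := by
      intro l hl l' hl'
      rw [norm_mul, hcn, one_mul]
      refine (corr_err h hj (σ l l')).trans ?_
      have hl1 : (l : ℝ) ≤ R := by exact_mod_cast (Finset.mem_range.1 hl).le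
      have hl2 : (l' : ℝ) ≤ R := by exact_mod_cast (Finset.mem_range.1 hl').le
      have hl3 : (0 : ℝ) ≤ l := Nat.cast_nonneg _
      have hl4 : (0 : ℝ) ≤ l' := Nat.cast_nonneg _
      have h1 : (σ l l') ^ 2 ≤ (R : ℝ) ^ 2 / M ^ 2 := by
        simp only [hσ]
        rw [div_pow]
        refine div_le_div_of_nonneg_right ?_ (by positivity)
        exact sq_le_sq' (by linarith) (by linarith)
      have h2 : (σ l l') ^ 2 * VV g / (2 * Real.pi) ≤
          (R : ℝ) ^ 2 / M ^ 2 * VV g / (2 * Real.pi) := by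
        refine div_le_div_of_nonneg_right ?_ (by positivity)
        exact mul_le_mul_of_nonneg_right h1 hTV
      have h3 : (R : ℝ) ^ 2 / M ^ 2 * VV g / (2 * Real.pi) =
          (R : ℝ) ^ 2 * VV g / (2 * Real.pi * M ^ 2) := by
        field_simp
      linarith
    have hsum : ‖∑ l ∈ range R, ∑ l' ∈ range R,
        c l l' * (S (σ l l') / ((n : ℂ) + 1) - J (σ l l'))‖ ≤
        (R : ℝ) * ((R : ℝ) * (3 * ε + (R : ℝ) ^ 2 * VV g / (2 * Real.pi * M ^ 2))) := by
      refine (norm_sum_le _ _).trans ?_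
      refine (Finset.sum_le_sum fun l hl => (norm_sum_le _ _).trans
        (Finset.sum_le_sum fun l' hl' => hb l hl l' hl')).trans ?_
      simp only [Finset.sum_const, Finset.card_range, nsmul_eq_mul]
      exact le_refl _
    calc 1 / (R : ℝ) ^ 2 * _ ≤ 1 / (R : ℝ) ^ 2 * ((R : ℝ) * ((R : ℝ) *
          (3 * ε + (R : ℝ) ^ 2 * VV g / (2 * Real.pi * M ^ 2)))) :=
          mul_le_mul_of_nonneg_left hsum (by positivity)
      _ = _ := by
        field_simp
  exact hdiff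

end Pool.Agent.Lib.MP_19d64f_an
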