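import Pool.Agent.Lib.MP_19d64f_an.V0

/-!
# Weighted correlations for Lipschitz weights (V1)
-/

set_option autoImplicit false
set_option linter.unusedSectionVars false

namespace Pool.Agent.Lib.MP_19d64f_an

open Finset MeasureTheory

/-- `W` has values in `[0,1]`, is `2π`-periodic and Lipschitz with constant `Λ`. -/
def PL (W : ℝ → ℝ) (Λ : ℝ) : Prop :=
  (∀ y, 0 ≤ W y ∧ W y ≤ 1) ∧ ∀ (y y' : ℝ) (l : ℤ), |W y - W y'| ≤ Λ * |y - y' - 2 * Real.pi * l|

theorem PL.cont {W : ℝ → ℝ} {Λ : ℝ} (h : PL W Λ) : Continuous W := by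
  have h1 : ∀ y y', dist (W y) (W y') ≤ |Λ| * dist y y' := by
    intro y y'
    have := h.2 y y' 0
    simp only [Int.cast_zero, mul_zero, sub_zero] at this
    rw [Real.dist_eq, Real.dist_eq]
    exact this.trans (mul_le_mul_of_nonneg_right (le_abs_self _) (abs_nonneg _))
  exact (LipschitzWith.of_dist_le_mul (K := ⟨|Λ|, abs_nonneg _⟩) h1).continuous

/-- PROOF. With `κ_j = 2π j / R` and `∑ w R κ_j y = 1` (`w_sum_one`), the difference is
`∑ (W y - W κ_j) w R κ_j y`. For each `j`: either some integer `l` has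
`|y - κ_j - 2π l| < η`, then `|W y - W κ_j| ≤ Λ η`; or `w R κ_j y ≤ π^2 / (R^2 η^2)` (`w_far`) and
`|W y - W κ_j| ≤ 1`. So each term is at most `Λ η w R κ_j y + π^2 / (R^2 η^2)`; sum over `j < R`. -/
theorem approx_W {W : ℝ → ℝ} {Λ : ℝ} (hW : PL W Λ) (hΛ : 0 ≤ Λ) {R : ℕ} (hR : 0 < R) {η : ℝ}
    (hη : 0 < η) (y : ℝ) :
    |W y - ∑ j ∈ range R, W (2 * Real.pi * j / R) * w R (2 * Real.pi * j / R) y| ≤
      Λ * η + Real.pi ^ 2 / (R * η ^ 2) := by
  have hRR : (0 : ℝ) < R := by exact_mod_cast hR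
  have e1 : W y - ∑ j ∈ range R, W (2 * Real.pi * j / R) * w R (2 * Real.pi * j / R) y =
      ∑ j ∈ range R, (W y - W (2 * Real.pi * j / R)) * w R (2 * Real.pi * j / R) y := by
    have e2 : W y = ∑ j ∈ range R, W y * w R (2 * Real.pi * j / R) y := by
      rw [← Finset.mul_sum, w_sum_one hR y, mul_one]
    conv_lhs => rw [e2]
    rw [← Finset.sum_sub_distrib]
    refine Finset.sum_congr rfl fun j _ => ?_
    ring
  rw [e1]
  have hterm : ∀ j ∈ range R, |(W y - W (2 * Real.pi * j / R)) * w R (2 * Real.pi * j / R) y| ≤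
      Λ * η * w R (2 * Real.pi * j / R) y + Real.pi ^ 2 / ((R : ℝ) ^ 2 * η ^ 2) := by
    intro j _
    have hw0 := w_nonneg R (2 * Real.pi * j / R) y
    have hp0 : 0 ≤ Real.pi ^ 2 / ((R : ℝ) ^ 2 * η ^ 2) := by positivity
    rw [abs_mul, abs_of_nonneg hw0]
    by_cases h : ∀ l : ℤ, η ≤ |y - 2 * Real.pi * j / R - 2 * Real.pi * l|
    · have h1 := w_far hR hη h
      have h2 : |W y - W (2 * Real.pi * j / R)| ≤ 1 := by
        have ha := hW.1 y
        have hb := hW.1 (2 * Real.pi * j / R)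
        rw [abs_le]
        constructor <;> linarith [ha.1, ha.2, hb.1, hb.2]
      have h3 : |W y - W (2 * Real.pi * j / R)| * w R (2 * Real.pi * j / R) y ≤
          1 * (Real.pi ^ 2 / ((R : ℝ) ^ 2 * η ^ 2)) :=
        mul_le_mul h2 h1 hw0 zero_le_one
      have h4 : 0 ≤ Λ * η * w R (2 * Real.pi * j / R) y := by positivity
      linarith
    · push Not at h
      obtain ⟨l, hl⟩ := h
      have h1 := hW.2 y (2 * Real.pi * j / R) l
      have h2 : |W y - W (2 * Real.pi * j / R)| ≤ Λ * η :=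
        h1.trans (mul_le_mul_of_nonneg_left hl.le hΛ)
      have h3 := mul_le_mul_of_nonneg_right h2 hw0
      linarith
  refine (Finset.abs_sum_le_sum_abs _ _).trans ((Finset.sum_le_sum hterm).trans_eq ?_)
  rw [Finset.sum_add_distrib, ← Finset.mul_sum, w_sum_one hR y, mul_one, Finset.sum_const,
    Finset.card_range, nsmul_eq_mul]
  congr 1
  field_simp

/-- PROOF. First choose `η > 0` and then `R ≥ 1` with `Λ η + π^2 / (R η^2) ≤ τ / 3`
(e.g. `η = τ / (6 (Λ + 1))`, `R ≥ 6 π^2 / (τ η^2)`), then `ε0 > 0` with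
`R (3 + R^2) ε0 ≤ τ / 3`. Write `V y = ∑ i ∈ range R, W κ_i * w R κ_i y`. Then
`T a (fun k => V (k / (4n))) n j = ∑ i, W κ_i * T a (fun k => w R κ_i (k / (4n))) n j` and the same
for the integrals (linearity; `intervalIntegral.integral_finsetSum`, everything is continuous); by
`corr_wc` with `M = 4 n` the difference of the two is at most
`∑ i, 1 * (3 ε + R^2 VV g / (2π (4n)^2)) ≤ R (3 + R^2) ε0 ≤ τ / 3`.
Replacing `W` by `V` (`approx_W`) changes `T` by at most `(1/(n+1)) (n+1-j) τ/3 ≤ τ/3` (`|a k a (k+j)| = 1`) and the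
integral (times `1/2π`) by at most `τ / 3`. -/
theorem corr_W {W : ℝ → ℝ} {Λ : ℝ} (hW : PL W Λ) (hΛ : 0 ≤ Λ) {τ : ℝ} (hτ : 0 < τ) :
    ∃ ε0 : ℝ, 0 < ε0 ∧ ∀ (a : ℕ → ℝ) (n : ℕ) (ϕ g : ℝ → ℝ) (ε : ℝ), Lit a → Apx a n ϕ g ε →
      ε ≤ ε0 → VV g ≤ ε0 * (n : ℝ) ^ 2 → 1 ≤ n → ∀ j ≤ n,
      ‖((T a (fun k => W ((k : ℝ) / (4 * n))) n j : ℝ) : ℂ) -
        (1 / (2 * (Real.pi : ℂ))) * (∫ t in (0 : ℝ)..(2 * Real.pi),
        ((W (g t / (4 * n)) : ℝ) : ℂ) * Complex.exp ((j : ℂ) * (t : ℂ) * Complex.I))‖ ≤ τ := by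
  obtain ⟨η, hη, hη1⟩ : ∃ η : ℝ, 0 < η ∧ Λ * η ≤ τ / 6 := by
    refine ⟨τ / (6 * (Λ + 1)), by positivity, ?_⟩
    rw [mul_div_assoc', div_le_div_iff₀ (by positivity) (by norm_num)]
    nlinarith
  obtain ⟨R, hR, hR1⟩ : ∃ R : ℕ, 0 < R ∧ Real.pi ^ 2 / (R * η ^ 2) ≤ τ / 6 := by
    refine ⟨⌈6 * Real.pi ^ 2 / (τ * η ^ 2)⌉₊ + 1, Nat.succ_pos _, ?_⟩
    have h1 : 6 * Real.pi ^ 2 / (τ * η ^ 2) ≤
        ((⌈6 * Real.pi ^ 2 / (τ * η ^ 2)⌉₊ + 1 : ℕ) : ℝ) := by
      push_cast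
      exact (Nat.le_ceil _).trans (by linarith)
    rw [div_le_iff₀ (by positivity)] at h1
    rw [div_le_div_iff₀ (by positivity) (by norm_num)]
    linarith
  have hRR : (0 : ℝ) < R := by exact_mod_cast hR
  have happ : ∀ y, |W y - ∑ j ∈ range R, W (2 * Real.pi * j / R) * w R (2 * Real.pi * j / R) y| ≤
      τ / 3 := fun y => (approx_W hW hΛ hR hη y).trans (by linarith)
  refine ⟨τ / (3 * (R * (3 + (R : ℝ) ^ 2))), by positivity, ?_⟩
  set ε0 : ℝ := τ / (3 * (R * (3 + (R : ℝ) ^ 2))) with hε0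
  have hε0p : 0 < ε0 := by positivity
  have hε0R : (R : ℝ) * ((3 + (R : ℝ) ^ 2) * ε0) = τ / 3 := by
    rw [hε0]
    field_simp
  intro a n ϕ g ε ha h hε hV hn j hj
  have hnR : (1 : ℝ) ≤ n := by exact_mod_cast hn
  have hn0 : (0 : ℝ) < n := by linarith
  have hM : (0 : ℝ) < 4 * (n : ℝ) := by linarith
  have hco : Continuous g := h.hg.continuous
  have hcW : Continuous W := hW.cont
  set κ : ℕ → ℝ := fun i => 2 * Real.pi * i / R with hκ
  set V : ℝ → ℝ := fun y => ∑ i ∈ range R, W (κ i) * w R (κ i) y with hVdef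
  have hcw : ∀ i, Continuous (w R (κ i)) := fun i => continuous_w R (κ i)
  have hcV : Continuous V := by
    simp only [hVdef]
    refine continuous_finsetSum _ fun i _ => ?_
    exact continuous_const.mul (hcw i)
  set I : (ℝ → ℝ) → ℂ := fun f => (1 / (2 * (Real.pi : ℂ))) * (∫ t in (0 : ℝ)..(2 * Real.pi),
        ((f (g t / (4 * n)) : ℝ) : ℂ) * Complex.exp ((j : ℂ) * (t : ℂ) * Complex.I)) with hI
  set TT : (ℝ → ℝ) → ℝ := fun f => T a (fun k => f ((k : ℝ) / (4 * n))) n j with hTT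
  show ‖((TT W : ℝ) : ℂ) - I W‖ ≤ τ
  -- the trigonometric polynomial
  have hT1 : TT V = ∑ i ∈ range R, W (κ i) * TT (w R (κ i)) := by
    simp only [hTT, hVdef, T]
    simp_rw [Finset.mul_sum, Finset.sum_mul, Finset.mul_sum]
    rw [Finset.sum_comm]
    refine Finset.sum_congr rfl fun i _ => Finset.sum_congr rfl fun k _ => ?_
    ring
  have hI1 : I V = ∑ i ∈ range R, (W (κ i) : ℂ) * I (w R (κ i)) := by
    simp only [hI, hVdef]
    have e1 : ∀ t : ℝ, ((∑ i ∈ range R, W (κ i) * w R (κ i) (g t / (4 * n)) : ℝ) : ℂ) *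
        Complex.exp ((j : ℂ) * (t : ℂ) * Complex.I) =
        ∑ i ∈ range R, (W (κ i) : ℂ) * (((w R (κ i) (g t / (4 * n)) : ℝ) : ℂ) *
          Complex.exp ((j : ℂ) * (t : ℂ) * Complex.I)) := by
      intro t
      push_cast
      rw [Finset.sum_mul]
      refine Finset.sum_congr rfl fun i _ => ?_
      ring
    simp_rw [e1]
    rw [intervalIntegral.integral_finsetSum, Finset.mul_sum]
    · refine Finset.sum_congr rfl fun i _ => ?_
      rw [intervalIntegral.integral_const_mul]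
      ring
    · intro i _
      refine Continuous.intervalIntegrable ?_ _ _
      have := hcw i
      fun_prop
  have hmid : ‖((TT V : ℝ) : ℂ) - I V‖ ≤ τ / 3 := by
    rw [hT1, hI1]
    push_cast
    rw [← Finset.sum_sub_distrib]
    simp_rw [← mul_sub]
    refine (norm_sum_le _ _).trans ?_
    have hb : ∀ i ∈ range R, ‖(W (κ i) : ℂ) * (((TT (w R (κ i)) : ℝ) : ℂ) - I (w R (κ i)))‖ ≤
        (3 + (R : ℝ) ^ 2) * ε0 := by
      intro i _
      rw [norm_mul, Complex.norm_real, Real.norm_eq_abs]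
      have h1 : |W (κ i)| ≤ 1 := by
        have := hW.1 (κ i)
        rw [abs_le]
        constructor <;> linarith [this.1, this.2]
      have h2 := corr_wc h hM hR (κ i) hj
      have h3 : 3 * ε + (R : ℝ) ^ 2 * VV g / (2 * Real.pi * (4 * (n : ℝ)) ^ 2) ≤
          (3 + (R : ℝ) ^ 2) * ε0 := by
        have h4 : (R : ℝ) ^ 2 * VV g / (2 * Real.pi * (4 * (n : ℝ)) ^ 2) ≤ (R : ℝ) ^ 2 * ε0 := by
          rw [div_le_iff₀ (by positivity)]
          have h5 : (R : ℝ) ^ 2 * VV g ≤ (R : ℝ) ^ 2 * (ε0 * (n : ℝ) ^ 2) :=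
            mul_le_mul_of_nonneg_left hV (by positivity)
          have h6 : (n : ℝ) ^ 2 ≤ 2 * Real.pi * (4 * (n : ℝ)) ^ 2 := by
            have h7 := Real.pi_gt_three
            nlinarith [sq_nonneg (n : ℝ), mul_nonneg (sub_nonneg.2 h7.le) (sq_nonneg (n : ℝ))]
          have h8 : (R : ℝ) ^ 2 * ε0 * (n : ℝ) ^ 2 ≤
              (R : ℝ) ^ 2 * ε0 * (2 * Real.pi * (4 * (n : ℝ)) ^ 2) :=
            mul_le_mul_of_nonneg_left h6 (by positivity)
          linarith
        linarith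
      calc |W (κ i)| * ‖((TT (w R (κ i)) : ℝ) : ℂ) - I (w R (κ i))‖
          ≤ 1 * ((3 + (R : ℝ) ^ 2) * ε0) :=
            mul_le_mul h1 (h2.trans h3) (norm_nonneg _) zero_le_one
        _ = (3 + (R : ℝ) ^ 2) * ε0 := one_mul _
    refine (Finset.sum_le_sum hb).trans_eq ?_
    rw [Finset.sum_const, Finset.card_range, nsmul_eq_mul, hε0R]
  have hleft : ‖((TT W : ℝ) : ℂ) - ((TT V : ℝ) : ℂ)‖ ≤ τ / 3 := by
    rw [← Complex.ofReal_sub, Complex.norm_real, Real.norm_eq_abs]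
    have e1 : TT W - TT V = (1 / ((n : ℝ) + 1)) * ∑ k ∈ range (n + 1 - j),
        (W ((k : ℝ) / (4 * n)) - V ((k : ℝ) / (4 * n))) * (a k * a (k + j)) := by
      simp only [hTT, T]
      rw [← mul_sub, ← Finset.sum_sub_distrib]
      congr 1
      refine Finset.sum_congr rfl fun k _ => ?_
      ring
    rw [e1, abs_mul, abs_of_pos (by positivity : (0 : ℝ) < 1 / ((n : ℝ) + 1))]
    have hb : ∀ k ∈ range (n + 1 - j),
        |(W ((k : ℝ) / (4 * n)) - V ((k : ℝ) / (4 * n))) * (a k * a (k + j))| ≤ τ / 3 := by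
      intro k _
      have h1 : |a k * a (k + j)| = 1 := by
        rw [abs_mul]
        have h2 : ∀ i, |a i| = 1 := by
          intro i
          rcases ha i with h3 | h3 <;> rw [h3] <;> norm_num
        rw [h2, h2, mul_one]
      rw [abs_mul, h1, mul_one]
      exact happ _
    have h2 := (Finset.abs_sum_le_sum_abs _ _).trans (Finset.sum_le_sum hb)
    rw [Finset.sum_const, Finset.card_range, nsmul_eq_mul] at h2
    have h3 : (((n + 1 - j : ℕ)) : ℝ) ≤ (n : ℝ) + 1 := by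
      have : n + 1 - j ≤ n + 1 := Nat.sub_le _ _
      exact_mod_cast this
    rw [one_div, inv_mul_le_iff₀ (by positivity)]
    exact h2.trans (mul_le_mul_of_nonneg_right h3 (by positivity))
  have hright : ‖I V - I W‖ ≤ τ / 3 := by
    simp only [hI]
    rw [← mul_sub, ← intervalIntegral.integral_sub]
    · have h1 : ‖∫ t in (0 : ℝ)..(2 * Real.pi), (((V (g t / (4 * n)) : ℝ) : ℂ) *
          Complex.exp ((j : ℂ) * (t : ℂ) * Complex.I) - ((W (g t / (4 * n)) : ℝ) : ℂ) *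
          Complex.exp ((j : ℂ) * (t : ℂ) * Complex.I))‖ ≤ τ / 3 * |2 * Real.pi - 0| := by
        refine intervalIntegral.norm_integral_le_of_norm_le_const fun t _ => ?_
        rw [← sub_mul, norm_mul]
        have h4 : (j : ℂ) * (t : ℂ) * Complex.I = (((j : ℝ) * t : ℝ) : ℂ) * Complex.I := by
          push_cast
          ring
        rw [h4, Complex.norm_exp_ofReal_mul_I, mul_one, ← Complex.ofReal_sub, Complex.norm_real,
          Real.norm_eq_abs, abs_sub_comm]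
        exact happ _
      rw [sub_zero, abs_of_pos (by positivity : (0 : ℝ) < 2 * Real.pi)] at h1
      rw [norm_mul]
      have h5 : ‖(1 / (2 * (Real.pi : ℂ)))‖ = 1 / (2 * Real.pi) := by
        rw [norm_div, norm_one, norm_mul, Complex.norm_real, Real.norm_eq_abs,
          abs_of_pos Real.pi_pos]
        norm_num
      rw [h5, one_div, inv_mul_le_iff₀ (by positivity)]
      linarith
    · refine Continuous.intervalIntegrable ?_ _ _
      fun_prop
    · refine Continuous.intervalIntegrable ?_ _ _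
      fun_prop
  calc ‖((TT W : ℝ) : ℂ) - I W‖
      = ‖(((TT W : ℝ) : ℂ) - ((TT V : ℝ) : ℂ)) + (((TT V : ℝ) : ℂ) - I V) + (I V - I W)‖ := by
        congr 1
        ring
    _ ≤ τ / 3 + τ / 3 + τ / 3 :=
        (norm_add_le _ _).trans (add_le_add ((norm_add_le _ _).trans (add_le_add hleft hmid)) hright)
    _ = τ := by ring

end Pool.Agent.Lib.MP_19d64f_an
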