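import Pool.Agent.Lib.MP_19d64f_an.C2

/-!
# Shifted correlations (V2a)
-/

set_option autoImplicit false

namespace Pool.Agent.Lib.MP_19d64f_an

open Finset MeasureTheory

private theorem V2a_abs {a : ℕ → ℝ} (ha : Lit a) (x y : ℕ) : |a x * a y| = 1 := by
  rcases ha x with h | h <;> rcases ha y with h' | h' <;> rw [h, h'] <;> norm_num

/-- PROOF. Let `N = n + 1`, `s = ℓ - j`, `m = j - i`. For `k < N - ℓ`: `k + ℓ - j = k + s`,
`k + ℓ - i = k + s + m`. So the left sum is `∑ k < N - ℓ, v k (a (k+s) a (k+s+m))`. In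
`∑ x < N - m, v x (a x a (x+m))` (the sum in `T a v n m`, `N - m ≥ N - ℓ + s`) the terms `x < s` and
`N - ℓ + s ≤ x < N - m` are `s` and `ℓ - s - m = i` terms of absolute value at most `1`, together at
most `ℓ`; the others are `∑ k < N - ℓ, v (k+s) (a (k+s) a (k+s+m))`, and
`|v (k+s) - v k| ≤ lam s ≤ lam ℓ` for at most `N` values of `k`. Divide by `N`. -/
theorem pair {a v : ℕ → ℝ} (ha : Lit a) {n ℓ : ℕ} (hℓ : ℓ ≤ n) (hv0 : ∀ k, 0 ≤ v k)
    (hv1 : ∀ k, v k ≤ 1) {lam : ℝ} (hlam : 0 ≤ lam)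
    (hv : ∀ k m : ℕ, |v (k + m) - v k| ≤ lam * m) {i j : ℕ} (hij : i ≤ j) (hj : j ≤ ℓ) :
    |(1 / ((n : ℝ) + 1)) * ∑ k ∈ range (n + 1 - ℓ), v k * (a (k + ℓ - i) * a (k + ℓ - j)) -
      T a v n (j - i)| ≤ ℓ / ((n : ℝ) + 1) + lam * ℓ := by
  obtain ⟨s, rfl⟩ : ∃ s, ℓ = j + s := ⟨ℓ - j, by omega⟩
  obtain ⟨m, rfl⟩ : ∃ m, j = i + m := ⟨j - i, by omega⟩
  have hm : i + m - i = m := by omega
  rw [hm]
  have hN : (0 : ℝ) < (n : ℝ) + 1 := by positivity
  unfold T
  obtain ⟨r, hr⟩ : ∃ r, n + 1 = i + m + s + r := ⟨n + 1 - (i + m + s), by omega⟩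
  have e1 : n + 1 - (i + m + s) = r := by omega
  have e2 : n + 1 - m = s + r + i := by omega
  rw [e1, e2, Finset.sum_range_add, Finset.sum_range_add]
  have hf : ∀ x : ℕ, |v x * (a x * a (x + m))| ≤ 1 := by
    intro x
    rw [abs_mul, V2a_abs ha, mul_one, abs_of_nonneg (hv0 x)]
    exact hv1 x
  have h1 : |∑ x ∈ range s, v x * (a x * a (x + m))| ≤ s := by
    refine (Finset.abs_sum_le_sum_abs _ _).trans ((Finset.sum_le_sum fun x _ => hf x).trans ?_)
    rw [Finset.sum_const, Finset.card_range, nsmul_eq_mul, mul_one]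
  have h2 : |∑ x ∈ range i, v (s + r + x) * (a (s + r + x) * a (s + r + x + m))| ≤ i := by
    refine (Finset.abs_sum_le_sum_abs _ _).trans ((Finset.sum_le_sum fun x _ => hf _).trans ?_)
    rw [Finset.sum_const, Finset.card_range, nsmul_eq_mul, mul_one]
  have h3 : |∑ k ∈ range r, v k * (a (k + (i + m + s) - i) * a (k + (i + m + s) - (i + m))) -
      ∑ x ∈ range r, v (s + x) * (a (s + x) * a (s + x + m))| ≤ r * (lam * s) := by
    rw [← Finset.sum_sub_distrib]
    have h4 : ∀ k ∈ range r, |v k * (a (k + (i + m + s) - i) * a (k + (i + m + s) - (i + m))) -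
        v (s + k) * (a (s + k) * a (s + k + m))| ≤ lam * s := by
      intro k _
      have e3 : k + (i + m + s) - i = s + k + m := by omega
      have e4 : k + (i + m + s) - (i + m) = s + k := by omega
      rw [e3, e4]
      have e5 : v k * (a (s + k + m) * a (s + k)) - v (s + k) * (a (s + k) * a (s + k + m)) =
          (v k - v (s + k)) * (a (s + k) * a (s + k + m)) := by ring
      rw [e5, abs_mul, V2a_abs ha, mul_one, abs_sub_comm, add_comm s k]
      exact hv k s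
    refine (Finset.abs_sum_le_sum_abs _ _).trans ((Finset.sum_le_sum h4).trans ?_)
    rw [Finset.sum_const, Finset.card_range, nsmul_eq_mul]
  have hrN : (r : ℝ) ≤ (n : ℝ) + 1 := by
    have : r ≤ n + 1 := by omega
    exact_mod_cast this
  have hs0 : (0 : ℝ) ≤ s := Nat.cast_nonneg s
  have hi0 : (0 : ℝ) ≤ i := Nat.cast_nonneg i
  have hm0 : (0 : ℝ) ≤ m := Nat.cast_nonneg m
  have h5 : (r : ℝ) * (lam * s) ≤ ((n : ℝ) + 1) * (lam * ((i + m + s : ℕ) : ℝ)) := by
    push_cast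
    exact mul_le_mul hrN (mul_le_mul_of_nonneg_left (by linarith) hlam)
      (mul_nonneg hlam hs0) hN.le
  rw [← mul_sub, abs_mul, abs_of_pos (by positivity : (0 : ℝ) < 1 / ((n : ℝ) + 1))]
  have h6 : |∑ k ∈ range r, v k * (a (k + (i + m + s) - i) * a (k + (i + m + s) - (i + m))) -
      (∑ x ∈ range s, v x * (a x * a (x + m)) +
        ∑ x ∈ range r, v (s + x) * (a (s + x) * a (s + x + m)) +
        ∑ x ∈ range i, v (s + r + x) * (a (s + r + x) * a (s + r + x + m)))| ≤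
      ((i + m + s : ℕ) : ℝ) + ((n : ℝ) + 1) * (lam * ((i + m + s : ℕ) : ℝ)) := by
    have h7 : ((i + m + s : ℕ) : ℝ) = (i : ℝ) + m + s := by push_cast; ring
    rw [h7] at h5 ⊢
    rw [abs_le] at h1 h2 h3 ⊢
    constructor <;> linarith [h1.1, h1.2, h2.1, h2.2, h3.1, h3.2]
  calc 1 / ((n : ℝ) + 1) * |∑ k ∈ range r, v k *
        (a (k + (i + m + s) - i) * a (k + (i + m + s) - (i + m))) -
      (∑ x ∈ range s, v x * (a x * a (x + m)) +
        ∑ x ∈ range r, v (s + x) * (a (s + x) * a (s + x + m)) +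
        ∑ x ∈ range i, v (s + r + x) * (a (s + r + x) * a (s + r + x + m)))|
      ≤ 1 / ((n : ℝ) + 1) * (((i + m + s : ℕ) : ℝ) +
          ((n : ℝ) + 1) * (lam * ((i + m + s : ℕ) : ℝ))) :=
        mul_le_mul_of_nonneg_left h6 (by positivity)
    _ = ((i + m + s : ℕ) : ℝ) / ((n : ℝ) + 1) + lam * ((i + m + s : ℕ) : ℝ) := by
        field_simp

end Pool.Agent.Lib.MP_19d64f_an
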