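import Pool.Agent.Lib.MP_19d64f_an.V2a
import Pool.Agent.Lib.MP_19d64f_an.E1

/-!
# The quadratic form inequality (V2b)
-/

set_option autoImplicit false

namespace Pool.Agent.Lib.MP_19d64f_an

open Finset MeasureTheory

private theorem V2b_sq (z : ℂ) : ((‖z‖ ^ 2 : ℝ) : ℂ) = z * (starRingEnd ℂ) z := by
  rw [Complex.mul_conj, Complex.normSq_eq_norm_sq]

private theorem V2b_conj_exp (j : ℕ) (t : ℝ) :
    (starRingEnd ℂ) (Complex.exp ((j : ℂ) * (t : ℂ) * Complex.I)) =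
      Complex.exp (-((j : ℂ) * (t : ℂ) * Complex.I)) := by
  rw [← Complex.exp_conj]
  simp

/-- the Fourier coefficient -/
private noncomputable def V2b_F (U : ℝ → ℝ) (i j : ℕ) : ℂ :=
  (1 / (2 * (Real.pi : ℂ))) * ∫ t in (0 : ℝ)..(2 * Real.pi),
    ((U t : ℝ) : ℂ) * Complex.exp (((i : ℂ) - (j : ℂ)) * (t : ℂ) * Complex.I)

private theorem V2b_F_conj (U : ℝ → ℝ) (i j : ℕ) :
    V2b_F U j i = (starRingEnd ℂ) (V2b_F U i j) := by
  unfold V2b_F
  rw [map_mul]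
  have e1 : (starRingEnd ℂ) (1 / (2 * (Real.pi : ℂ))) = 1 / (2 * (Real.pi : ℂ)) := by
    rw [map_div₀, map_mul, map_one, Complex.conj_ofReal, Complex.conj_ofNat]
  rw [e1]
  congr 1
  have h0 : (0 : ℝ) ≤ 2 * Real.pi := by positivity
  rw [intervalIntegral.integral_of_le h0, intervalIntegral.integral_of_le h0, ← integral_conj]
  refine integral_congr_ae (Filter.Eventually.of_forall fun t => ?_)
  simp only [map_mul, Complex.conj_ofReal]
  rw [← Complex.exp_conj]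
  congr 2
  simp
  ring

private theorem V2b_F_near {a v : ℕ → ℝ} {U : ℝ → ℝ} {n ℓ : ℕ} (hℓ : ℓ ≤ n) {τ : ℝ}
    (hc : ∀ j ≤ n, ‖((T a v n j : ℝ) : ℂ) - (1 / (2 * (Real.pi : ℂ))) *
      (∫ t in (0 : ℝ)..(2 * Real.pi),
        ((U t : ℝ) : ℂ) * Complex.exp ((j : ℂ) * (t : ℂ) * Complex.I))‖ ≤ τ) {i j : ℕ}
    (hij : i ≤ j) (hj : j ≤ ℓ) : ‖((T a v n (j - i) : ℝ) : ℂ) - V2b_F U j i‖ ≤ τ := by
  have h := hc (j - i) (by omega)
  unfold V2b_F
  have e : ((j : ℂ) - (i : ℂ)) = ((j - i : ℕ) : ℂ) := by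
    rw [Nat.cast_sub hij]
  rw [e]
  exact h

theorem quad {a v : ℕ → ℝ} {U : ℝ → ℝ} (ha : Lit a) (hU : Continuous U) {n ℓ : ℕ} (hℓ : ℓ ≤ n)
    (hv0 : ∀ k, 0 ≤ v k) (hv1 : ∀ k, v k ≤ 1) {lam τ : ℝ} (hlam : 0 ≤ lam)
    (hv : ∀ k m : ℕ, |v (k + m) - v k| ≤ lam * m)
    (hc : ∀ j ≤ n, ‖((T a v n j : ℝ) : ℂ) - (1 / (2 * (Real.pi : ℂ))) *
      (∫ t in (0 : ℝ)..(2 * Real.pi),
        ((U t : ℝ) : ℂ) * Complex.exp ((j : ℂ) * (t : ℂ) * Complex.I))‖ ≤ τ) (p : ℕ → ℂ) :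
    (1 / ((n : ℝ) + 1)) * ∑ k ∈ range (n + 1 - ℓ),
      v k * ‖∑ j ∈ range (ℓ + 1), p j * (a (k + ℓ - j) : ℂ)‖ ^ 2 ≤
    mean (fun t => U t * ‖∑ j ∈ range (ℓ + 1), p j *
      Complex.exp ((j : ℂ) * (t : ℂ) * Complex.I)‖ ^ 2) +
      (∑ j ∈ range (ℓ + 1), ‖p j‖) ^ 2 * (τ + (ℓ / ((n : ℝ) + 1) + lam * ℓ)) := by
  set W : ℝ := τ + (ℓ / ((n : ℝ) + 1) + lam * ℓ) with hW
  set G : ℕ → ℕ → ℝ := fun i j => (1 / ((n : ℝ) + 1)) * ∑ k ∈ range (n + 1 - ℓ),
    v k * (a (k + ℓ - i) * a (k + ℓ - j)) with hG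
  have hGs : ∀ i j, G i j = G j i := by
    intro i j
    simp only [hG]
    congr 1
    refine Finset.sum_congr rfl fun k _ => ?_
    ring
  -- the two expansions
  have h1 : (((1 / ((n : ℝ) + 1)) * ∑ k ∈ range (n + 1 - ℓ),
      v k * ‖∑ j ∈ range (ℓ + 1), p j * (a (k + ℓ - j) : ℂ)‖ ^ 2 : ℝ) : ℂ) =
      ∑ i ∈ range (ℓ + 1), ∑ j ∈ range (ℓ + 1), p i * (starRingEnd ℂ) (p j) * (G i j : ℂ) := by
    have e1 : ∀ k, ((v k * ‖∑ j ∈ range (ℓ + 1), p j * (a (k + ℓ - j) : ℂ)‖ ^ 2 : ℝ) : ℂ) =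
        ∑ i ∈ range (ℓ + 1), ∑ j ∈ range (ℓ + 1), p i * (starRingEnd ℂ) (p j) *
          ((v k * (a (k + ℓ - i) * a (k + ℓ - j)) : ℝ) : ℂ) := by
      intro k
      rw [Complex.ofReal_mul, V2b_sq, map_sum, Finset.sum_mul_sum, Finset.mul_sum]
      refine Finset.sum_congr rfl fun i _ => ?_
      rw [Finset.mul_sum]
      refine Finset.sum_congr rfl fun j _ => ?_
      rw [map_mul, Complex.conj_ofReal]
      push_cast
      ring
    rw [Complex.ofReal_mul, Complex.ofReal_sum]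
    simp_rw [e1]
    rw [Finset.sum_comm, Finset.mul_sum]
    refine Finset.sum_congr rfl fun i _ => ?_
    rw [Finset.sum_comm, Finset.mul_sum]
    refine Finset.sum_congr rfl fun j _ => ?_
    simp only [hG]
    rw [← Finset.mul_sum, Complex.ofReal_mul, Complex.ofReal_sum]
    ring
  have h2 : ((mean (fun t => U t * ‖∑ j ∈ range (ℓ + 1), p j *
      Complex.exp ((j : ℂ) * (t : ℂ) * Complex.I)‖ ^ 2) : ℝ) : ℂ) =
      ∑ i ∈ range (ℓ + 1), ∑ j ∈ range (ℓ + 1), p i * (starRingEnd ℂ) (p j) * V2b_F U i j := by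
    have e1 : ∀ t : ℝ, ((U t * ‖∑ j ∈ range (ℓ + 1), p j *
      Complex.exp ((j : ℂ) * (t : ℂ) * Complex.I)‖ ^ 2 : ℝ) : ℂ) =
        ∑ i ∈ range (ℓ + 1), ∑ j ∈ range (ℓ + 1), p i * (starRingEnd ℂ) (p j) *
          (((U t : ℝ) : ℂ) * Complex.exp (((i : ℂ) - (j : ℂ)) * (t : ℂ) * Complex.I)) := by
      intro t
      rw [Complex.ofReal_mul, V2b_sq, map_sum, Finset.sum_mul_sum, Finset.mul_sum]
      refine Finset.sum_congr rfl fun i _ => ?_
      rw [Finset.mul_sum]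
      refine Finset.sum_congr rfl fun j _ => ?_
      rw [map_mul, V2b_conj_exp]
      have e2 : ((i : ℂ) - (j : ℂ)) * (t : ℂ) * Complex.I =
          (i : ℂ) * (t : ℂ) * Complex.I + -((j : ℂ) * (t : ℂ) * Complex.I) := by ring
      rw [e2, Complex.exp_add]
      ring
    unfold mean
    rw [Complex.ofReal_mul, ← intervalIntegral.integral_ofReal]
    simp_rw [e1]
    rw [intervalIntegral.integral_finsetSum, Finset.mul_sum]
    · refine Finset.sum_congr rfl fun i _ => ?_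
      rw [intervalIntegral.integral_finsetSum, Finset.mul_sum]
      · refine Finset.sum_congr rfl fun j _ => ?_
        rw [intervalIntegral.integral_const_mul]
        unfold V2b_F
        push_cast
        ring
      · intro j _
        refine Continuous.intervalIntegrable ?_ _ _
        fun_prop
    · intro i _
      refine Continuous.intervalIntegrable ?_ _ _
      fun_prop
  -- the difference of the coefficients
  have h3 : ∀ i ∈ range (ℓ + 1), ∀ j ∈ range (ℓ + 1), ‖(G i j : ℂ) - V2b_F U i j‖ ≤ W := by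
    have key : ∀ i j, i ≤ j → j ≤ ℓ → ‖(G i j : ℂ) - V2b_F U j i‖ ≤ W := by
      intro i j hij hj
      have e1 : (G i j : ℂ) - V2b_F U j i = ((G i j - T a v n (j - i) : ℝ) : ℂ) +
          (((T a v n (j - i) : ℝ) : ℂ) - V2b_F U j i) := by
        push_cast
        ring
      rw [e1]
      refine (norm_add_le _ _).trans ?_
      rw [Complex.norm_real, Real.norm_eq_abs]
      have k1 := pair ha hℓ hv0 hv1 hlam hv hij hj
      have k2 := V2b_F_near hℓ hc hij hj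
      rw [hW]
      linarith
    intro i hi j hj
    have hi' := Finset.mem_range.1 hi
    have hj' := Finset.mem_range.1 hj
    rcases le_total i j with hij | hij
    · have k1 := key i j hij (by omega)
      rw [V2b_F_conj U j i]
      have e1 : (G i j : ℂ) - (starRingEnd ℂ) (V2b_F U j i) =
          (starRingEnd ℂ) ((G i j : ℂ) - V2b_F U j i) := by
        rw [map_sub, Complex.conj_ofReal]
      rw [e1, RCLike.norm_conj]
      exact k1
    · have k1 := key j i hij (by omega)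
      rw [hGs i j]
      exact k1
  -- conclusion
  have h4 : ((1 / ((n : ℝ) + 1)) * ∑ k ∈ range (n + 1 - ℓ),
      v k * ‖∑ j ∈ range (ℓ + 1), p j * (a (k + ℓ - j) : ℂ)‖ ^ 2) -
      mean (fun t => U t * ‖∑ j ∈ range (ℓ + 1), p j *
      Complex.exp ((j : ℂ) * (t : ℂ) * Complex.I)‖ ^ 2) ≤
      ‖∑ i ∈ range (ℓ + 1), ∑ j ∈ range (ℓ + 1), p i * (starRingEnd ℂ) (p j) *
        ((G i j : ℂ) - V2b_F U i j)‖ := by
    have e1 : ∑ i ∈ range (ℓ + 1), ∑ j ∈ range (ℓ + 1), p i * (starRingEnd ℂ) (p j) *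
        ((G i j : ℂ) - V2b_F U i j) =
        ((((1 / ((n : ℝ) + 1)) * ∑ k ∈ range (n + 1 - ℓ),
      v k * ‖∑ j ∈ range (ℓ + 1), p j * (a (k + ℓ - j) : ℂ)‖ ^ 2) -
      mean (fun t => U t * ‖∑ j ∈ range (ℓ + 1), p j *
      Complex.exp ((j : ℂ) * (t : ℂ) * Complex.I)‖ ^ 2) : ℝ) : ℂ) := by
      rw [Complex.ofReal_sub, h1, h2, ← Finset.sum_sub_distrib]
      refine Finset.sum_congr rfl fun i _ => ?_
      rw [← Finset.sum_sub_distrib]
      refine Finset.sum_congr rfl fun j _ => ?_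
      ring
    rw [e1, Complex.norm_real]
    exact le_abs_self _
  have h5 : ‖∑ i ∈ range (ℓ + 1), ∑ j ∈ range (ℓ + 1), p i * (starRingEnd ℂ) (p j) *
        ((G i j : ℂ) - V2b_F U i j)‖ ≤ (∑ j ∈ range (ℓ + 1), ‖p j‖) ^ 2 * W := by
    rw [sq, Finset.sum_mul_sum, Finset.sum_mul]
    refine (norm_sum_le _ _).trans (Finset.sum_le_sum fun i hi => ?_)
    rw [Finset.sum_mul]
    refine (norm_sum_le _ _).trans (Finset.sum_le_sum fun j hj => ?_)
    rw [norm_mul, norm_mul, RCLike.norm_conj]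
    exact mul_le_mul_of_nonneg_left (h3 i hi j hj) (by positivity)
  linarith

end Pool.Agent.Lib.MP_19d64f_an
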