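import Pool.Agent.Lib.MP_19d64f_an.W2

/-!
# The predictor polynomial (V3)
-/

set_option autoImplicit false

namespace Pool.Agent.Lib.MP_19d64f_an

open Finset MeasureTheory Polynomial

/-- The polynomial `G(z) = (2/R) ∑_{j=1}^{R-1} (R - j) e^{-ijθ} z^j`. -/
noncomputable def GP (R : ℕ) (θ : ℝ) : ℂ[X] :=
  ∑ j ∈ Ico 1 R, C ((2 / (R : ℂ)) * ((R : ℂ) - (j : ℂ)) *
    Complex.exp (-((j : ℂ) * (θ : ℂ) * Complex.I))) * X ^ j

private theorem V3_conj {z : ℂ} (hz : ‖z‖ = 1) : (starRingEnd ℂ) z * z = 1 := by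
  rw [mul_comm, Complex.mul_conj, Complex.normSq_eq_norm_sq, hz]
  simp

private theorem V3_cross {z : ℂ} (hz : ‖z‖ = 1) (R : ℕ) :
    (starRingEnd ℂ) (∑ l ∈ range R, z ^ l) * z ^ R = ∑ j ∈ Ico 1 (R + 1), z ^ j := by
  rw [Finset.sum_Ico_eq_sum_range, map_sum, Finset.sum_mul]
  rw [show R + 1 - 1 = R from rfl]
  rw [← Finset.sum_range_reflect (fun j => z ^ (1 + j)) R]
  refine Finset.sum_congr rfl fun l hl => ?_
  rw [Finset.mem_range] at hl
  have h1 : 1 + (R - 1 - l) = R - l := by omega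
  have h2 : z ^ R = z ^ l * z ^ (R - l) := by
    rw [← pow_add]
    congr 1
    omega
  have h3 : (starRingEnd ℂ) (z ^ l) * z ^ l = 1 := by
    rw [map_pow, ← mul_pow, V3_conj hz, one_pow]
  rw [h1, h2, ← mul_assoc, h3, one_mul]

private theorem V3_id {z : ℂ} (hz : ‖z‖ = 1) (R : ℕ) :
    ‖∑ l ∈ range R, z ^ l‖ ^ 2 = R + 2 * (∑ j ∈ Ico 1 R, ((R : ℂ) - (j : ℂ)) * z ^ j).re := by
  induction R with
  | zero => simp
  | succ R ih =>
    have h1 : ‖∑ l ∈ range (R + 1), z ^ l‖ ^ 2 = ‖∑ l ∈ range R, z ^ l‖ ^ 2 + 1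
        + 2 * ((starRingEnd ℂ) (∑ l ∈ range R, z ^ l) * z ^ R).re := by
      rw [Finset.sum_range_succ, ← Complex.normSq_eq_norm_sq, ← Complex.normSq_eq_norm_sq,
        Complex.normSq_add]
      have h2 : Complex.normSq (z ^ R) = 1 := by
        rw [map_pow, Complex.normSq_eq_norm_sq, hz]
        simp
      have h3 : ((∑ l ∈ range R, z ^ l) * (starRingEnd ℂ) (z ^ R)).re
          = ((starRingEnd ℂ) (∑ l ∈ range R, z ^ l) * z ^ R).re := by
        rw [← Complex.conj_re, map_mul, Complex.conj_conj]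
      rw [h2, h3]
    have h4 : (∑ j ∈ Ico 1 (R + 1), (((R + 1 : ℕ) : ℂ) - (j : ℂ)) * z ^ j)
        = (∑ j ∈ Ico 1 R, ((R : ℂ) - (j : ℂ)) * z ^ j) + ∑ j ∈ Ico 1 (R + 1), z ^ j := by
      rcases Nat.eq_zero_or_pos R with hR | hR
      · subst hR
        simp
      · have h5 : ∑ j ∈ Ico 1 (R + 1), ((R : ℂ) - (j : ℂ)) * z ^ j
            = ∑ j ∈ Ico 1 R, ((R : ℂ) - (j : ℂ)) * z ^ j := by
          rw [Finset.sum_Ico_succ_top hR]
          simp
        rw [← h5, ← Finset.sum_add_distrib]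
        refine Finset.sum_congr rfl fun j _ => ?_
        push_cast
        ring
    rw [h1, ih, h4, V3_cross hz, Complex.add_re]
    push_cast
    ring

private theorem V3_eval (R : ℕ) (θ t : ℝ) :
    (GP R θ).eval (Complex.exp ((t : ℂ) * Complex.I)) =
      (2 / (R : ℂ)) * ∑ j ∈ Ico 1 R, ((R : ℂ) - (j : ℂ)) *
        (Complex.exp (((t - θ : ℝ) : ℂ) * Complex.I)) ^ j := by
  unfold GP
  rw [eval_finsetSum, Finset.mul_sum]
  refine Finset.sum_congr rfl fun j _ => ?_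
  rw [eval_mul, eval_C, eval_pow, eval_X, mul_assoc, mul_assoc]
  congr 2
  rw [← Complex.exp_nat_mul, ← Complex.exp_nat_mul, ← Complex.exp_add]
  congr 1
  push_cast
  ring

private theorem V3_sum (n : ℕ) :
    ∑ j ∈ Ico 1 (n + 1), (((n + 1 : ℕ) : ℝ) - (j : ℝ)) = (n : ℝ) * (n + 1) / 2 := by
  induction n with
  | zero => simp
  | succ n ih =>
    rw [Finset.sum_Ico_succ_top (by omega)]
    have h : ∑ j ∈ Ico 1 (n + 1), (((n + 1 + 1 : ℕ) : ℝ) - (j : ℝ))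
        = ∑ j ∈ Ico 1 (n + 1), (((n + 1 : ℕ) : ℝ) - (j : ℝ)) + n := by
      have h1 : ∀ j ∈ Ico 1 (n + 1), (((n + 1 + 1 : ℕ) : ℝ) - (j : ℝ))
          = (((n + 1 : ℕ) : ℝ) - (j : ℝ)) + 1 := by
        intro j _
        push_cast
        ring
      rw [Finset.sum_congr rfl h1, Finset.sum_add_distrib]
      simp
    rw [h, ih]
    push_cast
    ring

/-- PROOF. `w_expand`: `R^2 w = ∑_{l,l' < R} e^{i(l-l')(t-θ)}`; the diagonal gives `R`, the pairs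
with `l - l' = j` and `l' - l = j` (`R - j` of each) give `2 (R - j) Re e^{ij(t-θ)}`.
(One way: induction on `R` for `‖∑_{l<R} z^l‖^2 = R + 2 Re ∑_{j=1}^{R-1} (R-j) z^j`, `|z| = 1`; the
step is `‖S + z^R‖^2 = ‖S‖^2 + 1 + 2 Re (conj S z^R)`, and `conj S z^R = ∑_{l<R} z^{R-l}`.) -/
theorem GP_re {R : ℕ} (hR : 0 < R) (θ t : ℝ) :
    ((GP R θ).eval (Complex.exp ((t : ℂ) * Complex.I))).re = R * w R θ t - 1 := by
  have hR' : (R : ℝ) ≠ 0 := by exact_mod_cast hR.ne'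
  rw [V3_eval]
  have hz : ‖Complex.exp (((t - θ : ℝ) : ℂ) * Complex.I)‖ = 1 := Complex.norm_exp_ofReal_mul_I _
  have h1 := V3_id hz R
  have h2 : w R θ t = ((1 / (R : ℝ)) * ‖∑ l ∈ range R,
      (Complex.exp (((t - θ : ℝ) : ℂ) * Complex.I)) ^ l‖) ^ 2 := by
    unfold w
    rw [norm_mul, norm_div, norm_one, Complex.norm_natCast]
    congr 3
    refine Finset.sum_congr rfl fun l _ => ?_
    rw [← Complex.exp_nat_mul]
    congr 1
    ring
  have h3 : (2 / (R : ℂ)) = ((2 / (R : ℝ) : ℝ) : ℂ) := by push_cast; rfl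
  rw [h3, Complex.re_ofReal_mul, h2, mul_pow, h1]
  field_simp
  ring

/-- PROOF. `(2/R) ∑_{j=1}^{R-1} (R - j) = R - 1 ≤ R`. -/
theorem GP_norm {R : ℕ} (hR : 0 < R) (θ t : ℝ) :
    ‖(GP R θ).eval (Complex.exp ((t : ℂ) * Complex.I))‖ ≤ R := by
  have hR' : (0 : ℝ) < (R : ℝ) := by exact_mod_cast hR
  rw [V3_eval, norm_mul, norm_div, Complex.norm_natCast, Complex.norm_ofNat]
  have h1 : ‖∑ j ∈ Ico 1 R, ((R : ℂ) - (j : ℂ)) *
      (Complex.exp (((t - θ : ℝ) : ℂ) * Complex.I)) ^ j‖ ≤ ∑ j ∈ Ico 1 R, ((R : ℝ) - (j : ℝ)) := by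
    refine (norm_sum_le _ _).trans (Finset.sum_le_sum fun j hj => ?_)
    rw [Finset.mem_Ico] at hj
    rw [norm_mul, norm_pow, Complex.norm_exp_ofReal_mul_I, one_pow, mul_one]
    have h2 : (R : ℂ) - (j : ℂ) = (((R : ℝ) - (j : ℝ) : ℝ) : ℂ) := by push_cast; rfl
    rw [h2, Complex.norm_real, Real.norm_eq_abs, abs_of_nonneg]
    have : (j : ℝ) ≤ R := by exact_mod_cast hj.2.le
    linarith
  obtain ⟨n, rfl⟩ : ∃ n, R = n + 1 := ⟨R - 1, by omega⟩
  rw [V3_sum] at h1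
  have h3 : 2 / (((n + 1 : ℕ) : ℝ)) * ((n : ℝ) * (n + 1) / 2) = n := by
    push_cast
    field_simp
  refine (mul_le_mul_of_nonneg_left h1 (by positivity)).trans ?_
  rw [h3]
  push_cast
  linarith

/-- PROOF. Let `θ = (α + β)/2`, `η = (β - α)/2`. For `t ∈ [0, 2π]` outside `(α, β)` and every
integer `l`: `|t - θ - 2π l| ≥ η` (`l = 0`: clear; `l ≥ 1`: `t - θ - 2πl ≤ -θ ≤ -η` as `α ≥ 0`;
`l ≤ -1`: `t - θ - 2πl ≥ 2π - θ ≥ η` as `β ≤ 2π`). Take `R ≥ 1` with `R ≥ 2π^2/η^2`: by `w_far`,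
`R w R θ t ≤ π^2/(R η^2) ≤ 1/2`, so `Re G ≤ -1/2` (`GP_re`). With `c = 1/(2R^2)` and
`p = 1 + C c * GP R θ`: `‖p‖^2 = 1 + 2 c Re G + c^2 ‖G‖^2 ≤ 1 - c + c^2 R^2 = 1 - 1/(4R^2) =: s`.
`d = R`; the constant coefficient of `GP` is `0`, its degree is `≤ R - 1`. -/
theorem predictor {α β : ℝ} (h0 : 0 ≤ α) (h1 : α < β) (h2 : β ≤ 2 * Real.pi) :
    ∃ (d : ℕ) (s : ℝ) (p : ℂ[X]), 1 ≤ d ∧ 0 < s ∧ s < 1 ∧ p.natDegree ≤ d ∧ p.coeff 0 = 1 ∧
      ∀ t : ℝ, 0 ≤ t → t ≤ 2 * Real.pi → ¬ (α < t ∧ t < β) →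
        ‖p.eval (Complex.exp ((t : ℂ) * Complex.I))‖ ^ 2 ≤ s := by
  have hπ := Real.pi_pos
  obtain ⟨θ, hθ⟩ : ∃ θ : ℝ, θ = (α + β) / 2 := ⟨_, rfl⟩
  obtain ⟨η, hη⟩ : ∃ η : ℝ, η = (β - α) / 2 := ⟨_, rfl⟩
  have hη0 : 0 < η := by rw [hη]; linarith
  obtain ⟨R0, hR0⟩ := exists_nat_ge (2 * Real.pi ^ 2 / η ^ 2)
  obtain ⟨R, hRd⟩ : ∃ R : ℕ, R = R0 + 1 := ⟨_, rfl⟩
  have hR : 0 < R := by omega
  have hRge : 2 * Real.pi ^ 2 / η ^ 2 ≤ (R : ℝ) := by
    rw [hRd]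
    push_cast
    linarith
  have hR1 : (1 : ℝ) ≤ (R : ℝ) := by exact_mod_cast hR
  have hRpos : (0 : ℝ) < (R : ℝ) := by linarith
  obtain ⟨c, hc⟩ : ∃ c : ℝ, c = 1 / (2 * (R : ℝ) ^ 2) := ⟨_, rfl⟩
  have hcR : c * (R : ℝ) ^ 2 = 1 / 2 := by
    rw [hc]
    field_simp
  have hc0 : 0 < c := by rw [hc]; positivity
  have hc1 : c ≤ 1 / 2 := by
    have h3 := mul_le_mul_of_nonneg_left (one_le_pow₀ (n := 2) hR1) hc0.le
    linarith
  refine ⟨R, 1 - c / 2, 1 + C (c : ℂ) * GP R θ, hR, by linarith, by linarith, ?_, ?_, ?_⟩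
  · refine (natDegree_add_le _ _).trans ?_
    rw [natDegree_one, max_le_iff]
    refine ⟨Nat.zero_le _, ?_⟩
    refine (natDegree_C_mul_le _ _).trans ?_
    unfold GP
    refine natDegree_sum_le_of_forall_le _ _ fun j hj => ?_
    rw [Finset.mem_Ico] at hj
    exact (natDegree_C_mul_X_pow_le _ _).trans hj.2.le
  · have h3 : (GP R θ).coeff 0 = 0 := by
      unfold GP
      rw [finsetSum_coeff]
      refine Finset.sum_eq_zero fun j hj => ?_
      rw [Finset.mem_Ico] at hj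
      rw [coeff_C_mul, coeff_X_pow, if_neg (by omega), mul_zero]
    rw [coeff_add, coeff_one_zero, coeff_C_mul, h3, mul_zero, add_zero]
  · intro t ht0 ht1 hnot
    have hfar : ∀ l : ℤ, η ≤ |t - θ - 2 * Real.pi * l| := by
      intro l
      rcases lt_trichotomy l 0 with hl | hl | hl
      · have h4 : (l : ℝ) ≤ -1 := by exact_mod_cast (by omega : l ≤ -1)
        refine le_trans ?_ (le_abs_self _)
        rw [hη, hθ]
        nlinarith
      · subst hl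
        rw [Int.cast_zero, mul_zero, sub_zero]
        by_cases h5 : α < t
        · have h6 : β ≤ t := by
            by_contra h7
            exact hnot ⟨h5, not_le.mp h7⟩
          refine le_trans ?_ (le_abs_self _)
          rw [hη, hθ]
          linarith
        · have h6 : t ≤ α := not_lt.mp h5
          refine le_trans ?_ (neg_le_abs _)
          rw [hη, hθ]
          linarith
      · have h4 : (1 : ℝ) ≤ (l : ℝ) := by exact_mod_cast (by omega : (1 : ℤ) ≤ l)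
        refine le_trans ?_ (neg_le_abs _)
        rw [hη, hθ]
        nlinarith
    have hw := w_far hR hη0 hfar
    have h6 : (R : ℝ) * w R θ t ≤ 1 / 2 := by
      have h7 : (R : ℝ) * w R θ t ≤ R * (Real.pi ^ 2 / ((R : ℝ) ^ 2 * η ^ 2)) :=
        mul_le_mul_of_nonneg_left hw hRpos.le
      have h8 : (R : ℝ) * (Real.pi ^ 2 / ((R : ℝ) ^ 2 * η ^ 2)) = (Real.pi ^ 2 / η ^ 2) / R := by
        field_simp
      have h9 : (Real.pi ^ 2 / η ^ 2) / R ≤ 1 / 2 := by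
        rw [div_le_iff₀ hRpos]
        have h10 : 2 * Real.pi ^ 2 / η ^ 2 = 2 * (Real.pi ^ 2 / η ^ 2) := by ring
        rw [h10] at hRge
        linarith
      linarith
    have hre := GP_re hR θ t
    have hno := GP_norm hR θ t
    obtain ⟨g, hg⟩ : ∃ g : ℂ, g = (GP R θ).eval (Complex.exp ((t : ℂ) * Complex.I)) := ⟨_, rfl⟩
    rw [← hg] at hre hno
    rw [eval_add, eval_one, eval_mul, eval_C, ← hg, ← Complex.normSq_eq_norm_sq,
      Complex.normSq_add]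
    have h11 : Complex.normSq ((c : ℂ) * g) ≤ c ^ 2 * (R : ℝ) ^ 2 := by
      rw [Complex.normSq_eq_norm_sq, norm_mul, Complex.norm_real, Real.norm_eq_abs,
        abs_of_pos hc0, mul_pow]
      exact mul_le_mul_of_nonneg_left (pow_le_pow_left₀ (norm_nonneg _) hno 2) (by positivity)
    have h12 : (1 * (starRingEnd ℂ) ((c : ℂ) * g)).re = c * g.re := by
      rw [one_mul, Complex.conj_re, Complex.re_ofReal_mul]
    have h13 : Complex.normSq (1 : ℂ) = 1 := by simp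
    rw [h12, h13]
    have h14 : g.re ≤ -(1 / 2) := by linarith
    have h15 : c ^ 2 * (R : ℝ) ^ 2 = c * (1 / 2) := by
      rw [← hcR]
      ring
    nlinarith

end Pool.Agent.Lib.MP_19d64f_an
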