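import Pool.Agent.Lib.MP_19d64f_an.Defs

/-!
# Powers of the predictor, a geometric sum (V4)
-/

set_option autoImplicit false

namespace Pool.Agent.Lib.MP_19d64f_an

open Finset MeasureTheory Polynomial

/-- PROOF. `natDegree_pow_le`, `(ℓ / d) * d ≤ ℓ`; `coeff_zero_eq_eval_zero`, `eval_pow`;
`‖q‖^2 = (‖p‖^2)^(ℓ/d) ≤ s^(ℓ/d)`; `eval_eq_sum_range'` and `e^{it}^j = e^{ijt}`. -/
theorem pow_pred {d : ℕ} {s : ℝ} {p : ℂ[X]} {A : Set ℝ} (hp : p.natDegree ≤ d)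
    (hp0 : p.coeff 0 = 1) (hs : 0 < s)
    (hA : ∀ t ∈ A, ‖p.eval (Complex.exp ((t : ℂ) * Complex.I))‖ ^ 2 ≤ s) (ℓ : ℕ) :
    (p ^ (ℓ / d)).natDegree ≤ ℓ ∧ (p ^ (ℓ / d)).coeff 0 = 1 ∧
      (∀ t ∈ A, ‖(p ^ (ℓ / d)).eval (Complex.exp ((t : ℂ) * Complex.I))‖ ^ 2 ≤ s ^ (ℓ / d)) ∧
      ∀ t : ℝ, (p ^ (ℓ / d)).eval (Complex.exp ((t : ℂ) * Complex.I)) =
        ∑ j ∈ range (ℓ + 1), (p ^ (ℓ / d)).coeff j *
          Complex.exp ((j : ℂ) * (t : ℂ) * Complex.I) := by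
  have hdeg : (p ^ (ℓ / d)).natDegree ≤ ℓ := by
    refine natDegree_pow_le.trans ?_
    refine (Nat.mul_le_mul_left _ hp).trans ?_
    exact Nat.div_mul_le_self ℓ d
  refine ⟨hdeg, ?_, ?_, ?_⟩
  · rw [coeff_zero_eq_eval_zero, eval_pow, ← coeff_zero_eq_eval_zero, hp0, one_pow]
  · intro t ht
    rw [eval_pow, norm_pow, ← pow_mul, mul_comm (ℓ / d) 2, pow_mul]
    exact pow_le_pow_left₀ (sq_nonneg _) (hA t ht) _
  · intro t
    rw [eval_eq_sum_range' (Nat.lt_succ_of_le hdeg)]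
    refine Finset.sum_congr rfl fun j _ => ?_
    rw [← Complex.exp_nat_mul, mul_assoc]

/-- PROOF. Let `r = s ^ (1/d)` (real power), `0 < r < 1`, `r ^ d = s`. As `d (x / d) ≥ x - d`
(`Nat.div_add_mod`, `Nat.mod_lt`): `s ^ (x / d) * s = r ^ (d (x/d) + d) ≤ r ^ x`. And
`(d H + x) / d = H + x / d`. So the sum is at most `s ^ H * s⁻¹ * ∑ r ^ x ≤ s ^ H * s⁻¹ / (1 - r)`
(`geom_sum` bounds, e.g. `Summable.sum_le_tsum` and `tsum_geometric_of_lt_one`), which is `≤ γ` for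
large `H` (`exists_pow_lt_of_lt_one`). -/
theorem geo {s : ℝ} (hs0 : 0 < s) (hs1 : s < 1) {d : ℕ} (hd : 1 ≤ d) {γ : ℝ} (hγ : 0 < γ) :
    ∃ H : ℕ, ∀ L : ℕ, ∑ x ∈ range L, s ^ ((d * H + x) / d) ≤ γ := by
  obtain ⟨r, hr0, hr1, hrd⟩ : ∃ r : ℝ, 0 < r ∧ r < 1 ∧ r ^ d = s := by
    have h1 : (s ^ ((d : ℝ)⁻¹)) ^ d = s := Real.rpow_inv_natCast_pow hs0.le (by omega)
    have h0 : 0 < s ^ ((d : ℝ)⁻¹) := Real.rpow_pos_of_pos hs0 _
    refine ⟨s ^ ((d : ℝ)⁻¹), h0, ?_, h1⟩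
    by_contra hc
    have h2 : 1 ≤ (s ^ ((d : ℝ)⁻¹)) ^ d := one_le_pow₀ (not_lt.1 hc)
    rw [h1] at h2
    linarith
  have h1r : 0 < 1 - r := by linarith
  obtain ⟨H, hH⟩ := exists_pow_lt_of_lt_one (show 0 < γ * s * (1 - r) by positivity) hs1
  refine ⟨H, fun L => ?_⟩
  have key : ∀ x : ℕ, s ^ ((d * H + x) / d) ≤ s ^ H * s⁻¹ * r ^ x := by
    intro x
    have h2 : (d * H + x) / d = H + x / d := Nat.mul_add_div (by omega) H x
    rw [h2, pow_add, mul_assoc]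
    refine mul_le_mul_of_nonneg_left ?_ (pow_nonneg hs0.le H)
    rw [inv_mul_eq_div, le_div_iff₀ hs0]
    have h3 : s ^ (x / d) * s = r ^ (d * (x / d) + d) := by
      rw [pow_add, pow_mul, hrd]
    rw [h3]
    refine pow_le_pow_of_le_one hr0.le hr1.le ?_
    have h4 := Nat.div_add_mod x d
    have h5 := Nat.mod_lt x (show 0 < d by omega)
    omega
  have hsum : ∑ x ∈ range L, r ^ x ≤ (1 - r)⁻¹ := by
    rw [← tsum_geometric_of_lt_one hr0.le hr1]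
    exact (summable_geometric_of_lt_one hr0.le hr1).sum_le_tsum (range L)
      (fun i _ => pow_nonneg hr0.le i)
  calc ∑ x ∈ range L, s ^ ((d * H + x) / d) ≤ ∑ x ∈ range L, s ^ H * s⁻¹ * r ^ x :=
        Finset.sum_le_sum fun x _ => key x
    _ = s ^ H * s⁻¹ * ∑ x ∈ range L, r ^ x := by rw [Finset.mul_sum]
    _ ≤ s ^ H * s⁻¹ * (1 - r)⁻¹ :=
        mul_le_mul_of_nonneg_left hsum (by positivity)
    _ ≤ (γ * s * (1 - r)) * s⁻¹ * (1 - r)⁻¹ := by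
        have h6 : 0 ≤ s⁻¹ * (1 - r)⁻¹ := by positivity
        rw [mul_assoc, mul_assoc (γ * s * (1 - r))]
        exact mul_le_mul_of_nonneg_right hH.le h6
    _ = γ := by
        field_simp

end Pool.Agent.Lib.MP_19d64f_an
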