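import Pool.Agent.Lib.MP_19d64f_an.Defs

/-!
# Determined sequences are locally periodic (V5)
-/

set_option autoImplicit false

namespace Pool.Agent.Lib.MP_19d64f_an

open Finset

/-- The letter `a (k + ℓ)` is predicted by `a k, ..., a (k + ℓ - 1)`. -/
def Good (c : ℕ → ℕ → ℂ) (a : ℕ → ℝ) (ℓ k : ℕ) : Prop :=
  ‖∑ j ∈ range (ℓ + 1), c ℓ j * (a (k + ℓ - j) : ℂ)‖ < 1

/-- PROOF. Induction on `i`; `i < h0` is `heq`. For `i = h0 + x`, `x < L`: let
`S = ∑_{j=1}^{i} c i j a(k+i-j) = ∑_{j=1}^{i} c i j a(k'+i-j)` (the indices `k+i-j = k+(i-j)` with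
`i - j < i`, induction hypothesis). Good gives `‖a(k+i) + S‖ < 1` and `‖a(k'+i) + S‖ < 1`
(`c i 0 = 1`), so `|a(k+i) - a(k'+i)| < 2`, and both are `±1`, so they are equal. -/
theorem determined {a : ℕ → ℝ} (ha : Lit a) {c : ℕ → ℕ → ℂ} (hc : ∀ ℓ, c ℓ 0 = 1)
    {k k' h0 L : ℕ} (hD : ∀ x < L, Good c a (h0 + x) k) (hD' : ∀ x < L, Good c a (h0 + x) k')
    (heq : ∀ i < h0, a (k + i) = a (k' + i)) : ∀ i < h0 + L, a (k + i) = a (k' + i) := by
  intro i
  induction i using Nat.strong_induction_on with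
  | _ i ih =>
    intro hi
    by_cases h : i < h0
    · exact heq i h
    · obtain ⟨x, rfl⟩ : ∃ x, i = h0 + x := ⟨i - h0, by omega⟩
      have hx : x < L := by omega
      have g1 := hD x hx
      have g2 := hD' x hx
      unfold Good at g1 g2
      rw [Finset.sum_range_succ'] at g1 g2
      rw [hc, one_mul, Nat.sub_zero] at g1 g2
      have hS : ∑ j ∈ range (h0 + x), c (h0 + x) (j + 1) * (a (k + (h0 + x) - (j + 1)) : ℂ)
          = ∑ j ∈ range (h0 + x), c (h0 + x) (j + 1) * (a (k' + (h0 + x) - (j + 1)) : ℂ) := by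
        apply Finset.sum_congr rfl
        intro j hj
        have hj' := Finset.mem_range.mp hj
        have e : k + (h0 + x) - (j + 1) = k + (h0 + x - (j + 1)) := by omega
        have e' : k' + (h0 + x) - (j + 1) = k' + (h0 + x - (j + 1)) := by omega
        rw [e, e', ih (h0 + x - (j + 1)) (by omega) (by omega)]
      rw [hS] at g1
      have h3 : ‖(a (k + (h0 + x)) : ℂ) - (a (k' + (h0 + x)) : ℂ)‖ < 2 := by
        have e : (a (k + (h0 + x)) : ℂ) - (a (k' + (h0 + x)) : ℂ)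
            = (∑ j ∈ range (h0 + x), c (h0 + x) (j + 1) * (a (k' + (h0 + x) - (j + 1)) : ℂ)
                + (a (k + (h0 + x)) : ℂ))
              - (∑ j ∈ range (h0 + x), c (h0 + x) (j + 1) * (a (k' + (h0 + x) - (j + 1)) : ℂ)
                + (a (k' + (h0 + x)) : ℂ)) := by ring
        rw [e]
        exact (norm_sub_le _ _).trans_lt (by linarith)
      rw [← Complex.ofReal_sub, Complex.norm_real] at h3
      rcases ha (k + (h0 + x)) with h4 | h4 <;> rcases ha (k' + (h0 + x)) with h5 | h5 <;>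
        rw [h4, h5] at h3 ⊢ <;> norm_num at h3

open scoped Classical in
/-- PROOF. By contradiction. Let `Y = 2 ^ (h0 + 1)`, `F = Nat.factorial Y`. The number of `i < Y` with
`D i : ∀ x < Y + F, Good c a (h0 + x) (k0 + i)` is then more than `Y / 2 = 2 ^ h0`. Pigeonhole
(`Finset.exists_ne_map_eq_of_card_lt_of_maps_to` or
`Fintype`-version) for `i ↦ (fun r : Fin h0 => decide (a (k0 + i + r) = 1))` into
`Fin h0 → Bool` (`2 ^ h0` elements): there are `i1 < i2 < Y` with `D i1`, `D i2` and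
`a (k0 + i1 + r) = a (k0 + i2 + r)` for `r < h0`. `determined` with `L = Y + F`: equality for
`r < h0 + Y + F`; with `m = i2 - i1`, `1 ≤ m ≤ Y`: `a z = a (z + m)` for
`k0 + i1 ≤ z < k0 + i1 + h0 + Y + F`. `F = m * q` (`Nat.dvd_factorial`). Induction on `t ≤ q`:
`a (k0 + Y) = a (k0 + Y + t * m)`: for the step `z = k0 + Y + t * m` with `t < q`, so
`t * m ≤ F - m < F` and `k0 + i1 ≤ z < k0 + Y + F`. With `t = q` this contradicts `hne`. -/
theorem window {a : ℕ → ℝ} (ha : Lit a) {c : ℕ → ℕ → ℂ} (hc : ∀ ℓ, c ℓ 0 = 1) {h0 k0 : ℕ}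
    (hne : a (k0 + 2 ^ (h0 + 1)) ≠
      a (k0 + 2 ^ (h0 + 1) + Nat.factorial (2 ^ (h0 + 1)))) :
    2 ^ (h0 + 1) ≤ 2 * ((range (2 ^ (h0 + 1))).filter (fun i =>
      ¬ ∀ x < 2 ^ (h0 + 1) + Nat.factorial (2 ^ (h0 + 1)), Good c a (h0 + x) (k0 + i))).card := by
  classical
  obtain ⟨Y, hY⟩ : ∃ Y, Y = 2 ^ (h0 + 1) := ⟨_, rfl⟩
  rw [← hY] at hne ⊢
  obtain ⟨F, hF⟩ : ∃ F, F = Nat.factorial Y := ⟨_, rfl⟩
  rw [← hF] at hne ⊢
  by_contra hcon
  have hcard := Finset.card_filter_add_card_filter_not (s := range Y)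
    (fun i => ∀ x < Y + F, Good c a (h0 + x) (k0 + i))
  rw [Finset.card_range] at hcard
  have hYe : Y = 2 * 2 ^ h0 := by rw [hY, pow_succ]; ring
  have hlt : (Finset.univ : Finset (Fin h0 → Bool)).card
      < ((range Y).filter (fun i => ∀ x < Y + F, Good c a (h0 + x) (k0 + i))).card := by
    have e : (Finset.univ : Finset (Fin h0 → Bool)).card = 2 ^ h0 := by
      rw [Finset.card_univ, Fintype.card_fun, Fintype.card_bool, Fintype.card_fin]
    rw [e]
    omega
  obtain ⟨i1, h1, i2, h2, h12, hf⟩ := Finset.exists_ne_map_eq_of_card_lt_of_maps_to hlt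
    (f := fun i => fun r : Fin h0 => decide (a (k0 + i + r) = 1)) (fun _ _ => Finset.mem_univ _)
  obtain ⟨j1, j2, hj, hj2, hD1, hD2, hfe⟩ : ∃ j1 j2 : ℕ, j1 < j2 ∧ j2 < Y ∧
      (∀ x < Y + F, Good c a (h0 + x) (k0 + j1)) ∧ (∀ x < Y + F, Good c a (h0 + x) (k0 + j2)) ∧
      (fun r : Fin h0 => decide (a (k0 + j1 + r) = 1))
        = (fun r : Fin h0 => decide (a (k0 + j2 + r) = 1)) := by
    have m1 := Finset.mem_filter.mp h1
    have m2 := Finset.mem_filter.mp h2
    rcases lt_or_gt_of_ne h12 with h | h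
    · exact ⟨i1, i2, h, Finset.mem_range.mp m2.1, m1.2, m2.2, hf⟩
    · exact ⟨i2, i1, h, Finset.mem_range.mp m1.1, m2.2, m1.2, hf.symm⟩
  have heq : ∀ r < h0, a (k0 + j1 + r) = a (k0 + j2 + r) := by
    intro r hr
    have h3 := congrFun hfe ⟨r, hr⟩
    simp only [decide_eq_decide] at h3
    rcases ha (k0 + j1 + r) with h4 | h4
    · rw [h4, h3.mp h4]
    · rcases ha (k0 + j2 + r) with h5 | h5
      · rw [h3.mpr h5, h5]
      · rw [h4, h5]
  have hdet := determined ha hc hD1 hD2 heq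
  obtain ⟨m, hm⟩ : ∃ m, j2 = j1 + m := ⟨j2 - j1, by omega⟩
  have hm0 : 0 < m := by omega
  obtain ⟨q, hq⟩ : m ∣ F := by
    rw [hF]
    exact Nat.dvd_factorial hm0 (by omega)
  have hper : ∀ t, t ≤ q → a (k0 + Y) = a (k0 + Y + t * m) := by
    intro t
    induction t with
    | zero => intro _; rw [Nat.zero_mul, Nat.add_zero]
    | succ t ih =>
      intro ht
      rw [ih (by omega)]
      have h6 : (t + 1) * m ≤ F := by
        rw [hq, Nat.mul_comm m q]
        exact Nat.mul_le_mul_right m ht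
      have h7 : (t + 1) * m = t * m + m := by ring
      have h8 := hdet (Y - j1 + t * m) (by omega)
      have e1 : k0 + j1 + (Y - j1 + t * m) = k0 + Y + t * m := by omega
      have e2 : k0 + j2 + (Y - j1 + t * m) = k0 + Y + (t + 1) * m := by omega
      rw [e1, e2] at h8
      exact h8
  apply hne
  rw [hper q le_rfl, Nat.mul_comm q m, ← hq]

end Pool.Agent.Lib.MP_19d64f_an
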