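import Pool.Agent.Lib.MP_19d64f_an.C2

/-!
# Weighted counting (V6)
-/

set_option autoImplicit false

namespace Pool.Agent.Lib.MP_19d64f_an

open Finset

open scoped Classical in
/-- PROOF. For `k` with `E (k + Y)`: `Y v(k+Y) ≤ 2 ∑_{i<Y, F(k+i)} v(k+Y)` and
`v(k+Y) ≤ v(k+i) + lam (Y - i) ≤ v(k+i) + lam Y`. So
`Y ∑_{k<K, E(k+Y)} v(k+Y) ≤ 2 ∑_{k<K} ∑_{i<Y, F(k+i)} (v(k+i) + lam Y)`; swap the sums
(`Finset.sum_comm`); for fixed `i < Y`, `∑_{k<K, F(k+i)} v(k+i) ≤ ∑_{k<K+Y, F k} v k`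
(`Finset.sum_le_sum_of_injOn`-type or `sum_image`/`range_eq_Ico` shift) and
`∑_{k<K} lam Y = K lam Y`. So the right side is `≤ 2 Y (∑_{k<K+Y, F k} v k) + 2 Y K Y lam`; divide
by `Y`. -/
theorem count_w {v : ℕ → ℝ} (hv0 : ∀ k, 0 ≤ v k) {lam : ℝ} (hlam : 0 ≤ lam)
    (hv : ∀ k m : ℕ, |v (k + m) - v k| ≤ lam * m) {E F : ℕ → Prop} {Y : ℕ} (hY : 0 < Y)
    (hEF : ∀ k, E (k + Y) → Y ≤ 2 * ((range Y).filter (fun i => F (k + i))).card) (K : ℕ) :
    ∑ k ∈ (range K).filter (fun k => E (k + Y)), v (k + Y) ≤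
      2 * ∑ k ∈ (range (K + Y)).filter F, v k + 2 * K * Y * lam := by
  classical
  obtain ⟨g, hg⟩ : ∃ g : ℕ → ℝ, g = fun k => if F k then v k else 0 := ⟨_, rfl⟩
  have hg0 : ∀ k, 0 ≤ g k := by
    intro k
    rw [hg]
    simp only
    split_ifs
    · exact hv0 k
    · exact le_rfl
  have hS : ∑ k ∈ (range (K + Y)).filter F, v k = ∑ k ∈ range (K + Y), g k := by
    rw [hg, Finset.sum_filter]
  have hYr : (0 : ℝ) < Y := by exact_mod_cast hY
  have key : ∀ k, E (k + Y) →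
      (Y : ℝ) * v (k + Y) ≤ 2 * ∑ i ∈ range Y, g (k + i) + 2 * Y * (lam * Y) := by
    intro k hk
    have h1 : (Y : ℝ) ≤ 2 * (((range Y).filter (fun i => F (k + i))).card : ℝ) := by
      exact_mod_cast hEF k hk
    have h2 : (Y : ℝ) * v (k + Y)
        ≤ 2 * (((range Y).filter (fun i => F (k + i))).card : ℝ) * v (k + Y) :=
      mul_le_mul_of_nonneg_right h1 (hv0 _)
    refine h2.trans ?_
    have h3 : (((range Y).filter (fun i => F (k + i))).card : ℝ) * v (k + Y)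
        = ∑ i ∈ (range Y).filter (fun i => F (k + i)), v (k + Y) := by
      rw [Finset.sum_const, nsmul_eq_mul]
    have h4 : ∑ i ∈ (range Y).filter (fun i => F (k + i)), v (k + Y)
        ≤ ∑ i ∈ (range Y).filter (fun i => F (k + i)), (v (k + i) + lam * Y) := by
      apply Finset.sum_le_sum
      intro i hi
      have hi' := Finset.mem_range.mp (Finset.mem_filter.mp hi).1
      have h5 := hv (k + i) (Y - i)
      have e : k + i + (Y - i) = k + Y := by omega
      rw [e] at h5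
      have h6 := (abs_le.mp h5).2
      have h7 : ((Y - i : ℕ) : ℝ) ≤ Y := by exact_mod_cast Nat.sub_le Y i
      have h8 : lam * ((Y - i : ℕ) : ℝ) ≤ lam * Y := mul_le_mul_of_nonneg_left h7 hlam
      linarith
    have h5 : ∑ i ∈ (range Y).filter (fun i => F (k + i)), (v (k + i) + lam * Y)
        ≤ ∑ i ∈ range Y, g (k + i) + Y * (lam * Y) := by
      rw [Finset.sum_add_distrib, Finset.sum_const, nsmul_eq_mul]
      have e : ∑ i ∈ (range Y).filter (fun i => F (k + i)), v (k + i)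
          = ∑ i ∈ range Y, g (k + i) := by
        rw [hg, Finset.sum_filter]
      have hc : (((range Y).filter (fun i => F (k + i))).card : ℝ) ≤ Y := by
        have := Finset.card_filter_le (range Y) (fun i => F (k + i))
        rw [Finset.card_range] at this
        exact_mod_cast this
      have h6 : (((range Y).filter (fun i => F (k + i))).card : ℝ) * (lam * Y)
          ≤ Y * (lam * Y) := mul_le_mul_of_nonneg_right hc (by positivity)
      rw [e]
      linarith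
    have h6 : 2 * (((range Y).filter (fun i => F (k + i))).card : ℝ) * v (k + Y)
        = 2 * ∑ i ∈ (range Y).filter (fun i => F (k + i)), v (k + Y) := by
      rw [← h3]; ring
    rw [h6]
    linarith
  have hshift : ∀ i ∈ range Y, ∑ k ∈ range K, g (k + i) ≤ ∑ k ∈ range (K + Y), g k := by
    intro i hi
    have hi' := Finset.mem_range.mp hi
    have e : ∑ k ∈ range K, g (k + i) = ∑ k ∈ Ico i (K + i), g k := by
      rw [Finset.range_eq_Ico, Finset.sum_Ico_add' g 0 K i, Nat.zero_add]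
    rw [e]
    apply Finset.sum_le_sum_of_subset_of_nonneg
    · intro k hk
      have := Finset.mem_Ico.mp hk
      exact Finset.mem_range.mpr (by omega)
    · intro k _ _
      exact hg0 k
  have h1 : (Y : ℝ) * ∑ k ∈ (range K).filter (fun k => E (k + Y)), v (k + Y)
      ≤ ∑ k ∈ range K, (2 * ∑ i ∈ range Y, g (k + i) + 2 * Y * (lam * Y)) := by
    rw [Finset.mul_sum]
    calc ∑ k ∈ (range K).filter (fun k => E (k + Y)), (Y : ℝ) * v (k + Y)
        ≤ ∑ k ∈ (range K).filter (fun k => E (k + Y)),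
            (2 * ∑ i ∈ range Y, g (k + i) + 2 * Y * (lam * Y)) := by
          apply Finset.sum_le_sum
          intro k hk
          exact key k (Finset.mem_filter.mp hk).2
      _ ≤ _ := by
          apply Finset.sum_le_sum_of_subset_of_nonneg (Finset.filter_subset _ _)
          intro k _ _
          have := Finset.sum_nonneg (s := range Y) (f := fun i => g (k + i)) (fun i _ => hg0 _)
          positivity
  have h2 : ∑ k ∈ range K, (2 * ∑ i ∈ range Y, g (k + i) + 2 * Y * (lam * Y))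
      = 2 * ∑ i ∈ range Y, ∑ k ∈ range K, g (k + i) + K * (2 * Y * (lam * Y)) := by
    rw [Finset.sum_add_distrib, ← Finset.mul_sum, Finset.sum_const, Finset.card_range,
      nsmul_eq_mul, Finset.sum_comm]
  have h3 : ∑ i ∈ range Y, ∑ k ∈ range K, g (k + i) ≤ Y * ∑ k ∈ range (K + Y), g k := by
    calc _ ≤ ∑ i ∈ range Y, ∑ k ∈ range (K + Y), g k := Finset.sum_le_sum hshift
      _ = _ := by rw [Finset.sum_const, Finset.card_range, nsmul_eq_mul]
  rw [hS]
  rw [h2] at h1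
  have h4 : (Y : ℝ) * ∑ k ∈ (range K).filter (fun k => E (k + Y)), v (k + Y)
      ≤ (Y : ℝ) * (2 * ∑ k ∈ range (K + Y), g k + 2 * K * Y * lam) := by
    refine h1.trans ?_
    have : (Y : ℝ) * (2 * ∑ k ∈ range (K + Y), g k + 2 * K * Y * lam)
        = 2 * (Y * ∑ k ∈ range (K + Y), g k) + K * (2 * Y * (lam * Y)) := by ring
    rw [this]
    linarith
  exact le_of_mul_le_mul_left h4 hYr

open scoped Classical in
/-- PROOF. `N = n + 1`. `T a v n 0 - T a v n 𝓓 = (1/N) (∑_{k<N} v k - ∑_{k<N-𝓓} v k a k a(k+𝓓))`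
(`a k ^ 2 = 1`) `= (1/N) (∑_{k<N-𝓓} v k (1 - a k a(k+𝓓)) + ∑_{N-𝓓≤k<N} v k)`
`≤ (1/N) (2 ∑_{k<N-𝓓, a k ≠ a(k+𝓓)} v k + 𝓓)`. Split `range (N - 𝓓)` into `k < Y`, `k = k' + Y` with
`k' < K`, and the rest (at most `N - 𝓓 - Y - K ≤ Z` terms); terms are at most `1`. -/
theorem diff_T {a v : ℕ → ℝ} (ha : Lit a) (hv0 : ∀ k, 0 ≤ v k) (hv1 : ∀ k, v k ≤ 1)
    {n 𝓓 Y K Z : ℕ} (h𝓓 : 𝓓 ≤ n) (hZ : n + 1 ≤ 𝓓 + Y + K + Z) :
    T a v n 0 - T a v n 𝓓 ≤ (1 / ((n : ℝ) + 1)) * (𝓓 + 2 * Y + 2 * Z +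
      2 * ∑ k ∈ (range K).filter (fun k => a (k + Y) ≠ a (k + Y + 𝓓)), v (k + Y)) := by
  classical
  have hn : (0 : ℝ) < (n : ℝ) + 1 := by positivity
  obtain ⟨e, he⟩ : ∃ e : ℕ → ℝ, e = fun k => if a k ≠ a (k + 𝓓) then 2 * v k else 0 := ⟨_, rfl⟩
  have he0 : ∀ k, 0 ≤ e k := by
    intro k
    rw [he]
    simp only
    split_ifs
    · have := hv0 k; linarith
    · exact le_rfl
  have he2 : ∀ k, e k ≤ 2 := by
    intro k
    rw [he]
    simp only
    split_ifs
    · have := hv1 k; linarith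
    · norm_num
  have hterm : ∀ k, v k * (1 - a k * a (k + 𝓓)) = e k := by
    intro k
    rw [he]
    simp only
    rcases ha k with h1 | h1 <;> rcases ha (k + 𝓓) with h2 | h2 <;> rw [h1, h2] <;> norm_num <;> ring
  have hsq : ∀ k, a k * a k = 1 := by
    intro k
    rcases ha k with h | h <;> rw [h] <;> norm_num
  have h0 : T a v n 0 = (1 / ((n : ℝ) + 1)) * ∑ k ∈ range (n + 1), v k := by
    unfold T
    congr 1
    apply Finset.sum_congr rfl
    intro k _
    rw [Nat.add_zero, hsq, mul_one]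
  have hsplit : ∑ k ∈ range (n + 1), v k
      = ∑ k ∈ range (n + 1 - 𝓓), v k + ∑ k ∈ Ico (n + 1 - 𝓓) (n + 1), v k := by
    rw [Finset.sum_range_add_sum_Ico _ (Nat.sub_le _ _)]
  have htail : ∑ k ∈ Ico (n + 1 - 𝓓) (n + 1), v k ≤ 𝓓 := by
    calc ∑ k ∈ Ico (n + 1 - 𝓓) (n + 1), v k ≤ ∑ k ∈ Ico (n + 1 - 𝓓) (n + 1), (1 : ℝ) :=
          Finset.sum_le_sum fun k _ => hv1 k
      _ = 𝓓 := by
          rw [Finset.sum_const, Nat.card_Ico, nsmul_eq_mul, mul_one]
          have : n + 1 - (n + 1 - 𝓓) = 𝓓 := by omega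
          rw [this]
  have hdiff : T a v n 0 - T a v n 𝓓 = (1 / ((n : ℝ) + 1)) *
      (∑ k ∈ range (n + 1 - 𝓓), e k + ∑ k ∈ Ico (n + 1 - 𝓓) (n + 1), v k) := by
    rw [h0]
    unfold T
    rw [← mul_sub, hsplit]
    congr 1
    have h3 : ∑ k ∈ range (n + 1 - 𝓓), e k
        = ∑ k ∈ range (n + 1 - 𝓓), v k - ∑ k ∈ range (n + 1 - 𝓓), v k * (a k * a (k + 𝓓)) := by
      rw [← Finset.sum_sub_distrib]
      apply Finset.sum_congr rfl
      intro k _
      rw [← hterm k]
      ring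
    rw [h3]
    ring
  have hmain : ∑ k ∈ range (n + 1 - 𝓓), e k ≤ 2 * Y + 2 * Z +
      2 * ∑ k ∈ (range K).filter (fun k => a (k + Y) ≠ a (k + Y + 𝓓)), v (k + Y) := by
    have h1 : ∑ k ∈ range (n + 1 - 𝓓), e k ≤ ∑ k ∈ range (Y + K + Z), e k := by
      apply Finset.sum_le_sum_of_subset_of_nonneg
      · intro k hk
        have := Finset.mem_range.mp hk
        exact Finset.mem_range.mpr (by omega)
      · intro k _ _
        exact he0 k
    have h2 : ∑ k ∈ range Y, e k ≤ 2 * Y := by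
      calc ∑ k ∈ range Y, e k ≤ ∑ k ∈ range Y, (2 : ℝ) := Finset.sum_le_sum fun k _ => he2 k
        _ = 2 * Y := by rw [Finset.sum_const, Finset.card_range, nsmul_eq_mul]; ring
    have h3 : ∑ k ∈ range Z, e (Y + K + k) ≤ 2 * Z := by
      calc ∑ k ∈ range Z, e (Y + K + k) ≤ ∑ k ∈ range Z, (2 : ℝ) :=
            Finset.sum_le_sum fun k _ => he2 _
        _ = 2 * Z := by rw [Finset.sum_const, Finset.card_range, nsmul_eq_mul]; ring
    have h4 : ∑ k ∈ range K, e (Y + k)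
        = 2 * ∑ k ∈ (range K).filter (fun k => a (k + Y) ≠ a (k + Y + 𝓓)), v (k + Y) := by
      rw [Finset.sum_filter, Finset.mul_sum]
      apply Finset.sum_congr rfl
      intro k _
      rw [he]
      simp only
      rw [Nat.add_comm Y k]
      split_ifs <;> ring
    rw [Finset.sum_range_add, Finset.sum_range_add] at h1
    linarith
  rw [hdiff]
  apply mul_le_mul_of_nonneg_left _ (by positivity)
  linarith

end Pool.Agent.Lib.MP_19d64f_an
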