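import Pool.Agent.Lib.MP_19d64f_an.E1
import Pool.Agent.Lib.MP_19d64f_an.M1

/-!
# Two estimates of means (V8)
-/

set_option autoImplicit false

namespace Pool.Agent.Lib.MP_19d64f_an

open Finset MeasureTheory

/-- PROOF. On `[0, 2π]`: if `t ∉ (α, β)` then `U t * q t ≤ s'`; if `t ∈ (α, β)` and `U t = 0` the
product is `0`; otherwise it is at most `B2`. So `U t * q t ≤ s' + B2 * 1_A(t)`,
`A = {t ∈ (α, β) : 0 < U t}` (open, so measurable), and the mean of `1_A` is `volume A / (2π) ≤ δ/(2π)`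
(`intervalIntegral.integral_of_le`, `setIntegral_indicator`, `integral_indicator_one`..). -/
theorem mean_pred {U q : ℝ → ℝ} (hU : Continuous U) (hq : Continuous q) (hU0 : ∀ t, 0 ≤ U t)
    (hU1 : ∀ t, U t ≤ 1) (hq0 : ∀ t, 0 ≤ q t) {α β s' B2 δ : ℝ} (hα : 0 ≤ α)
    (hβ : β ≤ 2 * Real.pi) (hs' : 0 ≤ s') (hB : ∀ t, q t ≤ B2)
    (hoff : ∀ t, 0 ≤ t → t ≤ 2 * Real.pi → ¬ (α < t ∧ t < β) → q t ≤ s') (hδ : 0 ≤ δ)
    (hvol : volume {t : ℝ | α < t ∧ t < β ∧ 0 < U t} ≤ ENNReal.ofReal δ) :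
    mean (fun t => U t * q t) ≤ s' + B2 * (δ / (2 * Real.pi)) := by
  have hp : 0 < Real.pi := Real.pi_pos
  have hB2 : 0 ≤ B2 := (hq0 0).trans (hB 0)
  set A : Set ℝ := {t : ℝ | α < t ∧ t < β ∧ 0 < U t} with hA
  have hmeas : MeasurableSet A := by
    have h1 : IsOpen A := by
      have : A = Set.Ioi α ∩ (Set.Iio β ∩ U ⁻¹' Set.Ioi 0) := by
        ext t
        rfl
      rw [this]
      exact isOpen_Ioi.inter (isOpen_Iio.inter (isOpen_Ioi.preimage hU))
    exact h1.measurableSet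
  have hint : IntervalIntegrable (A.indicator (1 : ℝ → ℝ)) volume 0 (2 * Real.pi) := by
    refine (intervalIntegrable_const (c := (1 : ℝ)) (μ := volume) (a := 0)
      (b := 2 * Real.pi)).mono_fun ?_ ?_
    · exact (measurable_one.indicator hmeas).aestronglyMeasurable
    · refine Filter.Eventually.of_forall fun x => ?_
      show ‖A.indicator (1 : ℝ → ℝ) x‖ ≤ ‖(1 : ℝ)‖
      by_cases h : x ∈ A
      · rw [Set.indicator_of_mem h]
        exact le_refl _
      · rw [Set.indicator_of_notMem h]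
        simp
  have hpt : ∀ t, 0 ≤ t → t ≤ 2 * Real.pi →
      U t * q t ≤ s' + B2 * A.indicator (1 : ℝ → ℝ) t := by
    intro t h0 h1
    have hind : 0 ≤ A.indicator (1 : ℝ → ℝ) t := Set.indicator_nonneg (fun _ _ => zero_le_one) t
    have hUq : U t * q t ≤ q t := by
      have := mul_le_mul_of_nonneg_right (hU1 t) (hq0 t)
      rwa [one_mul] at this
    by_cases hab : α < t ∧ t < β
    · by_cases hUt : 0 < U t
      · have hmem : t ∈ A := ⟨hab.1, hab.2, hUt⟩
        rw [Set.indicator_of_mem hmem]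
        have h2 := hB t
        show U t * q t ≤ s' + B2 * 1
        linarith
      · have h2 : U t = 0 := le_antisymm (not_lt.1 hUt) (hU0 t)
        rw [h2, zero_mul]
        have := mul_nonneg hB2 hind
        linarith
    · have h2 := hoff t h0 h1 hab
      have := mul_nonneg hB2 hind
      linarith
  have hind1 : IntervalIntegrable (fun t => B2 * A.indicator (1 : ℝ → ℝ) t) volume 0 (2 * Real.pi) :=
    hint.const_mul B2
  have hsum : IntervalIntegrable (fun t => s' + B2 * A.indicator (1 : ℝ → ℝ) t) volume 0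
      (2 * Real.pi) := intervalIntegrable_const.add hind1
  have hmean1 : mean (A.indicator (1 : ℝ → ℝ)) ≤ δ / (2 * Real.pi) := by
    unfold mean
    rw [intervalIntegral.integral_of_le (by positivity), integral_indicator_one hmeas,
      measureReal_restrict_apply hmeas]
    have hfin : volume A ≠ ⊤ := (lt_of_le_of_lt hvol ENNReal.ofReal_lt_top).ne
    have h3 : volume.real (A ∩ Set.Ioc 0 (2 * Real.pi)) ≤ δ :=
      (measureReal_mono Set.inter_subset_left hfin).trans
        (ENNReal.toReal_le_of_le_ofReal hδ hvol)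
    rw [one_div, inv_mul_eq_div]
    exact div_le_div_of_nonneg_right h3 (by positivity)
  calc mean (fun t => U t * q t) ≤ mean (fun t => s' + B2 * A.indicator (1 : ℝ → ℝ) t) :=
        mean_mono ((hU.mul hq).intervalIntegrable _ _) hsum hpt
    _ = s' + B2 * mean (A.indicator (1 : ℝ → ℝ)) := by
        rw [mean_add intervalIntegrable_const hind1, mean_const, mean_const_mul]
    _ ≤ s' + B2 * (δ / (2 * Real.pi)) := by
        have := mul_le_mul_of_nonneg_left hmean1 hB2
        linarith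

open scoped Classical in
/-- PROOF. `θ = c0^2/4`, `√θ = c0/2`. Pointwise
`θ * (U t - 1[1 - cos (m t) < θ]) ≤ U t * (1 - cos (m t))` (if `1 - cos ≥ θ` the indicator is `0`; if
`1 - cos < θ` the left side is `≤ 0` as `U ≤ 1`). Take means, `level` (file M1):
`mean ≥ θ (3 c0/4 - c0/2) = c0^3/16`. (Integrability of the indicator: `int_ind`-type argument,
measurable and bounded; `IntervalIntegrable.mono_fun` from the constant `1`.) -/
theorem lower_mean {U : ℝ → ℝ} (hU : Continuous U) (hU0 : ∀ t, 0 ≤ U t) (hU1 : ∀ t, U t ≤ 1)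
    {m : ℕ} (hm : 1 ≤ m) {c0 : ℝ} (hc0 : 0 < c0) (hmean : 3 * c0 / 4 ≤ mean U) :
    c0 ^ 3 / 16 ≤ mean (fun t => U t * (1 - Real.cos ((m : ℝ) * t))) := by
  have hθ : 0 < c0 ^ 2 / 4 := by positivity
  have hsq : Real.sqrt (c0 ^ 2 / 4) = c0 / 2 := by
    have h1 : c0 ^ 2 / 4 = (c0 / 2) ^ 2 := by ring
    rw [h1, Real.sqrt_sq (by positivity)]
  have hlev := level hm hθ
  rw [hsq] at hlev
  set ind : ℝ → ℝ := fun t => if 1 - Real.cos ((m : ℝ) * t) < c0 ^ 2 / 4 then (1 : ℝ) else 0 with hind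
  have hmeas : Measurable ind := by
    refine Measurable.ite ?_ measurable_const measurable_const
    exact measurableSet_lt (measurable_const.sub
      (Real.measurable_cos.comp (measurable_const.mul measurable_id))) measurable_const
  have hint : IntervalIntegrable ind volume 0 (2 * Real.pi) := by
    refine (intervalIntegrable_const (c := (1 : ℝ)) (μ := volume) (a := 0)
      (b := 2 * Real.pi)).mono_fun hmeas.aestronglyMeasurable ?_
    refine Filter.Eventually.of_forall fun x => ?_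
    show ‖(if 1 - Real.cos ((m : ℝ) * x) < c0 ^ 2 / 4 then (1 : ℝ) else 0)‖ ≤ ‖(1 : ℝ)‖
    split_ifs
    · exact le_refl _
    · simp
  have hUi : IntervalIntegrable U volume 0 (2 * Real.pi) := hU.intervalIntegrable _ _
  have hpt : ∀ t, 0 ≤ t → t ≤ 2 * Real.pi →
      c0 ^ 2 / 4 * (U t - ind t) ≤ U t * (1 - Real.cos ((m : ℝ) * t)) := by
    intro t _ _
    show c0 ^ 2 / 4 * (U t - (if 1 - Real.cos ((m : ℝ) * t) < c0 ^ 2 / 4 then (1 : ℝ) else 0)) ≤
      U t * (1 - Real.cos ((m : ℝ) * t))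
    have hc : 0 ≤ 1 - Real.cos ((m : ℝ) * t) := by
      have := Real.cos_le_one ((m : ℝ) * t)
      linarith
    by_cases h : 1 - Real.cos ((m : ℝ) * t) < c0 ^ 2 / 4
    · rw [if_pos h]
      have h1 : c0 ^ 2 / 4 * (U t - 1) ≤ 0 :=
        mul_nonpos_of_nonneg_of_nonpos hθ.le (by linarith [hU1 t])
      exact h1.trans (mul_nonneg (hU0 t) hc)
    · rw [if_neg h, sub_zero, mul_comm]
      exact mul_le_mul_of_nonneg_left (not_lt.1 h) (hU0 t)
  have hm1 : mean (fun t => c0 ^ 2 / 4 * (U t - ind t)) ≤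
      mean (fun t => U t * (1 - Real.cos ((m : ℝ) * t))) := by
    refine mean_mono ((hUi.sub hint).const_mul _) ?_ hpt
    refine Continuous.intervalIntegrable ?_ _ _
    fun_prop
  rw [mean_const_mul, mean_sub hUi hint] at hm1
  have h2 : c0 / 4 ≤ mean U - mean ind := by linarith
  calc c0 ^ 3 / 16 = c0 ^ 2 / 4 * (c0 / 4) := by ring
    _ ≤ c0 ^ 2 / 4 * (mean U - mean ind) := mul_le_mul_of_nonneg_left h2 hθ.le
    _ ≤ _ := hm1

end Pool.Agent.Lib.MP_19d64f_an
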