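import Pool.Agent.Lib.MP_19d64f_an.V2b
import Pool.Agent.Lib.MP_19d64f_an.V3
import Pool.Agent.Lib.MP_19d64f_an.V4
import Pool.Agent.Lib.MP_19d64f_an.V5
import Pool.Agent.Lib.MP_19d64f_an.V6
import Pool.Agent.Lib.MP_19d64f_an.V8

/-!
# The unpredictable letters are rare (V9)
-/

set_option autoImplicit false

namespace Pool.Agent.Lib.MP_19d64f_an

open Finset MeasureTheory Polynomial

theorem corr_re {U : ℝ → ℝ} (hU : Continuous U) {x τ : ℝ} {j : ℕ}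
    (h : ‖((x : ℝ) : ℂ) - (1 / (2 * (Real.pi : ℂ))) * (∫ t in (0 : ℝ)..(2 * Real.pi),
        ((U t : ℝ) : ℂ) * Complex.exp ((j : ℂ) * (t : ℂ) * Complex.I))‖ ≤ τ) :
    |x - mean (fun t => U t * Real.cos ((j : ℝ) * t))| ≤ τ := by
  have hre : ((1 / (2 * (Real.pi : ℂ))) * (∫ t in (0 : ℝ)..(2 * Real.pi),
      ((U t : ℝ) : ℂ) * Complex.exp ((j : ℂ) * (t : ℂ) * Complex.I))).re =
      mean (fun t => U t * Real.cos ((j : ℝ) * t)) := by
    have e1 : (1 / (2 * (Real.pi : ℂ))) = ((1 / (2 * Real.pi) : ℝ) : ℂ) := by push_cast; ring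
    rw [e1, Complex.re_ofReal_mul]
    unfold mean
    congr 1
    have h1 := Complex.reCLM.intervalIntegral_comp_comm (μ := volume)
      (a := 0) (b := 2 * Real.pi)
      (f := fun t : ℝ => ((U t : ℝ) : ℂ) *
        Complex.exp ((j : ℂ) * (t : ℂ) * Complex.I)) (by
          refine Continuous.intervalIntegrable ?_ _ _
          fun_prop)
    simp only [Complex.reCLM_apply] at h1
    rw [← h1]
    refine intervalIntegral.integral_congr fun t _ => ?_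
    rw [Complex.re_ofReal_mul]
    congr 1
    have h2 : (j : ℂ) * (t : ℂ) * Complex.I = (((j : ℝ) * t : ℝ) : ℂ) * Complex.I := by
      push_cast
      ring
    rw [h2, Complex.exp_ofReal_mul_I_re]
  rw [← hre]
  have h7 : x = ((x : ℝ) : ℂ).re := (Complex.ofReal_re _).symm
  rw [h7, ← Complex.sub_re]
  exact (Complex.abs_re_le_norm _).trans h

/-- All the data of the argument. -/
structure Setup (a v : ℕ → ℝ) (U : ℝ → ℝ) (n : ℕ) (lam τ δ α β : ℝ) (d : ℕ) (s : ℝ) (p : ℂ[X]) :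
    Prop where
  ha : Lit a
  hU : Continuous U
  hU0 : ∀ t, 0 ≤ U t
  hU1 : ∀ t, U t ≤ 1
  hv0 : ∀ k, 0 ≤ v k
  hv1 : ∀ k, v k ≤ 1
  hlam : 0 ≤ lam
  hv : ∀ k m : ℕ, |v (k + m) - v k| ≤ lam * m
  hc : ∀ j ≤ n, ‖((T a v n j : ℝ) : ℂ) - (1 / (2 * (Real.pi : ℂ))) *
      (∫ t in (0 : ℝ)..(2 * Real.pi),
        ((U t : ℝ) : ℂ) * Complex.exp ((j : ℂ) * (t : ℂ) * Complex.I))‖ ≤ τ
  hτ : 0 ≤ τ
  hδ : 0 ≤ δ
  hα : 0 ≤ α
  hβ : β ≤ 2 * Real.pi
  hvol : volume {t : ℝ | α < t ∧ t < β ∧ 0 < U t} ≤ ENNReal.ofReal δ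
  hd : 1 ≤ d
  hs0 : 0 < s
  hs1 : s < 1
  hp : p.natDegree ≤ d
  hp0 : p.coeff 0 = 1
  hoff : ∀ t : ℝ, 0 ≤ t → t ≤ 2 * Real.pi → ¬ (α < t ∧ t < β) →
    ‖p.eval (Complex.exp ((t : ℂ) * Complex.I))‖ ^ 2 ≤ s

/-- the coefficients of the predictor of length `ℓ` -/
noncomputable def pc (p : ℂ[X]) (d : ℕ) (ℓ j : ℕ) : ℂ := (p ^ (ℓ / d)).coeff j

/-- some letter after the first `h0` is not predicted -/
def Bd (c : ℕ → ℕ → ℂ) (a : ℕ → ℝ) (h0 L k : ℕ) : Prop := ¬ ∀ x < L, Good c a (h0 + x) k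

/-- the letters at distance `𝓓` differ -/
def Df (a : ℕ → ℝ) (𝓓 k : ℕ) : Prop := a k ≠ a (k + 𝓓)

open scoped Classical in
theorem bad_le {a v : ℕ → ℝ} {U : ℝ → ℝ} {n : ℕ} {lam τ δ α β : ℝ} {d : ℕ} {s : ℝ} {p : ℂ[X]}
    (S : Setup a v U n lam τ δ α β d s p) {ℓ : ℕ} (hℓ : ℓ ≤ n) {B : ℝ}
    (hB : ∑ j ∈ range (ℓ + 1), ‖pc p d ℓ j‖ ≤ B) :
    (1 / ((n : ℝ) + 1)) * ∑ k ∈ (range (n + 1 - ℓ)).filter (fun k => ¬ Good (pc p d) a ℓ k), v k ≤
      s ^ (ℓ / d) + B ^ 2 * (δ / (2 * Real.pi) + τ + (ℓ / ((n : ℝ) + 1) + lam * ℓ)) := by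
  have hpi := Real.pi_pos
  have hB0 : 0 ≤ ∑ j ∈ range (ℓ + 1), ‖pc p d ℓ j‖ := Finset.sum_nonneg fun _ _ => norm_nonneg _
  have hpp := pow_pred (A := {t | 0 ≤ t ∧ t ≤ 2 * Real.pi ∧ ¬ (α < t ∧ t < β)}) S.hp S.hp0 S.hs0
    (fun t ht => S.hoff t ht.1 ht.2.1 ht.2.2) ℓ
  obtain ⟨_, _, h3, h4⟩ := hpp
  have hq := quad S.ha S.hU hℓ S.hv0 S.hv1 S.hlam S.hv S.hc (pc p d ℓ)
  have h1 : ∑ k ∈ (range (n + 1 - ℓ)).filter (fun k => ¬ Good (pc p d) a ℓ k), v k ≤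
      ∑ k ∈ range (n + 1 - ℓ),
      v k * ‖∑ j ∈ range (ℓ + 1), pc p d ℓ j * (a (k + ℓ - j) : ℂ)‖ ^ 2 := by
    refine (Finset.sum_le_sum (g := fun k => v k *
      ‖∑ j ∈ range (ℓ + 1), pc p d ℓ j * (a (k + ℓ - j) : ℂ)‖ ^ 2) ?_).trans ?_
    · intro k hk
      have hk' := (Finset.mem_filter.1 hk).2
      unfold Good at hk'
      push Not at hk'
      have : (1 : ℝ) ≤ ‖∑ j ∈ range (ℓ + 1), pc p d ℓ j * (a (k + ℓ - j) : ℂ)‖ ^ 2 := by
        exact one_le_pow₀ hk'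
      have := S.hv0 k
      nlinarith
    · refine Finset.sum_le_sum_of_subset_of_nonneg (Finset.filter_subset _ _) ?_
      intro k _ _
      exact mul_nonneg (S.hv0 k) (by positivity)
  have h2 : mean (fun t => U t * ‖∑ j ∈ range (ℓ + 1), pc p d ℓ j *
      Complex.exp ((j : ℂ) * (t : ℂ) * Complex.I)‖ ^ 2) ≤
      s ^ (ℓ / d) + B ^ 2 * (δ / (2 * Real.pi)) := by
    refine mean_pred S.hU (by fun_prop) S.hU0 S.hU1 (fun t => by positivity) S.hα S.hβ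
      (pow_nonneg S.hs0.le _) ?_ ?_ S.hδ S.hvol
    · intro t
      refine pow_le_pow_left₀ (norm_nonneg _) ?_ 2
      refine ((norm_sum_le _ _).trans (le_of_eq ?_)).trans hB
      refine Finset.sum_congr rfl fun j _ => ?_
      have h5 : (j : ℂ) * (t : ℂ) * Complex.I = (((j : ℝ) * t : ℝ) : ℂ) * Complex.I := by
        push_cast
        ring
      rw [norm_mul, h5, Complex.norm_exp_ofReal_mul_I, mul_one]
    · intro t ht0 ht1 ht2
      have h6 := h3 t ⟨ht0, ht1, ht2⟩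
      rw [h4 t] at h6
      exact h6
  have hN : (0 : ℝ) < (n : ℝ) + 1 := by positivity
  have h7 : (1 / ((n : ℝ) + 1)) * ∑ k ∈ (range (n + 1 - ℓ)).filter
      (fun k => ¬ Good (pc p d) a ℓ k), v k ≤ (1 / ((n : ℝ) + 1)) * ∑ k ∈ range (n + 1 - ℓ),
      v k * ‖∑ j ∈ range (ℓ + 1), pc p d ℓ j * (a (k + ℓ - j) : ℂ)‖ ^ 2 :=
    mul_le_mul_of_nonneg_left h1 (by positivity)
  have hE : 0 ≤ τ + (ℓ / ((n : ℝ) + 1) + lam * ℓ) := by
    have := S.hτ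
    have := S.hlam
    positivity
  have h8 : (∑ j ∈ range (ℓ + 1), ‖pc p d ℓ j‖) ^ 2 * (τ + (ℓ / ((n : ℝ) + 1) + lam * ℓ)) ≤
      B ^ 2 * (τ + (ℓ / ((n : ℝ) + 1) + lam * ℓ)) :=
    mul_le_mul_of_nonneg_right (pow_le_pow_left₀ hB0 hB 2) hE
  have h9 : B ^ 2 * (δ / (2 * Real.pi) + τ + (ℓ / ((n : ℝ) + 1) + lam * ℓ)) =
      B ^ 2 * (δ / (2 * Real.pi)) + B ^ 2 * (τ + (ℓ / ((n : ℝ) + 1) + lam * ℓ)) := by ring
  rw [h9]
  linarith

open scoped Classical in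
theorem bad_all {a v : ℕ → ℝ} {U : ℝ → ℝ} {n : ℕ} {lam τ δ α β : ℝ} {d : ℕ} {s : ℝ} {p : ℂ[X]}
    (S : Setup a v U n lam τ δ α β d s p) {h0 L : ℕ} (hn : h0 + L ≤ n) {B γ : ℝ}
    (hB : ∀ ℓ ≤ h0 + L, ∑ j ∈ range (ℓ + 1), ‖pc p d ℓ j‖ ≤ B)
    (hγ : ∑ x ∈ range L, s ^ ((h0 + x) / d) ≤ γ) :
    (1 / ((n : ℝ) + 1)) * ∑ k ∈ (range (n + 1 - (h0 + L))).filter
      (Bd (pc p d) a h0 L), v k ≤
      γ + L * (B ^ 2 * (δ / (2 * Real.pi) + τ + ((h0 + L : ℕ) / ((n : ℝ) + 1) +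
        lam * (h0 + L : ℕ)))) := by
  have hpi := Real.pi_pos
  have hN : (0 : ℝ) < (n : ℝ) + 1 := by positivity
  have h1 : ∑ k ∈ (range (n + 1 - (h0 + L))).filter
      (Bd (pc p d) a h0 L), v k ≤
      ∑ x ∈ range L, ∑ k ∈ (range (n + 1 - (h0 + x))).filter
        (fun k => ¬ Good (pc p d) a (h0 + x) k), v k := by
    have h2 : ∀ k ∈ (range (n + 1 - (h0 + L))).filter
        (Bd (pc p d) a h0 L),
        v k ≤ ∑ x ∈ range L, if (k ∈ (range (n + 1 - (h0 + x))).filter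
          (fun k => ¬ Good (pc p d) a (h0 + x) k)) then v k else 0 := by
      intro k hk
      obtain ⟨hk1, hk2⟩ := Finset.mem_filter.1 hk
      unfold Bd at hk2
      push Not at hk2
      obtain ⟨x, hx, hg⟩ := hk2
      have h3 : (if (k ∈ (range (n + 1 - (h0 + x))).filter
          (fun k => ¬ Good (pc p d) a (h0 + x) k)) then v k else 0) = v k := by
        rw [if_pos]
        refine Finset.mem_filter.2 ⟨Finset.mem_range.2 ?_, hg⟩
        have := Finset.mem_range.1 hk1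
        omega
      refine h3.symm.trans_le ?_
      refine Finset.single_le_sum (f := fun x => if (k ∈ (range (n + 1 - (h0 + x))).filter
          (fun k => ¬ Good (pc p d) a (h0 + x) k)) then v k else 0) ?_ (Finset.mem_range.2 hx)
      intro y _
      split_ifs
      · exact S.hv0 k
      · exact le_refl _
    refine (Finset.sum_le_sum h2).trans ?_
    rw [Finset.sum_comm]
    refine Finset.sum_le_sum fun x hx => ?_
    have hx' := Finset.mem_range.1 hx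
    rw [← Finset.sum_filter]
    refine Finset.sum_le_sum_of_subset_of_nonneg ?_ (fun k _ _ => S.hv0 k)
    intro k hk
    exact (Finset.mem_filter.1 hk).2
  have h4 : (1 / ((n : ℝ) + 1)) * ∑ k ∈ (range (n + 1 - (h0 + L))).filter
      (Bd (pc p d) a h0 L), v k ≤
      ∑ x ∈ range L, (1 / ((n : ℝ) + 1)) * ∑ k ∈ (range (n + 1 - (h0 + x))).filter
        (fun k => ¬ Good (pc p d) a (h0 + x) k), v k := by
    rw [← Finset.mul_sum]
    exact mul_le_mul_of_nonneg_left h1 (by positivity)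
  refine h4.trans ?_
  have hτ := S.hτ
  have hlam := S.hlam
  have hδ := S.hδ
  have h5 : ∀ x ∈ range L, (1 / ((n : ℝ) + 1)) * ∑ k ∈ (range (n + 1 - (h0 + x))).filter
        (fun k => ¬ Good (pc p d) a (h0 + x) k), v k ≤ s ^ ((h0 + x) / d) +
        B ^ 2 * (δ / (2 * Real.pi) + τ + ((h0 + L : ℕ) / ((n : ℝ) + 1) +
        lam * (h0 + L : ℕ))) := by
    intro x hx
    have hx' := Finset.mem_range.1 hx
    have hxl : h0 + x ≤ h0 + L := by omega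
    refine (bad_le S (hxl.trans hn) (hB _ hxl)).trans ?_
    have hx2 : ((h0 + x : ℕ) : ℝ) ≤ ((h0 + L : ℕ) : ℝ) := by exact_mod_cast hxl
    have h6 : ((h0 + x : ℕ) : ℝ) / ((n : ℝ) + 1) ≤ ((h0 + L : ℕ) : ℝ) / ((n : ℝ) + 1) :=
      div_le_div_of_nonneg_right hx2 hN.le
    have h7 : lam * ((h0 + x : ℕ) : ℝ) ≤ lam * ((h0 + L : ℕ) : ℝ) :=
      mul_le_mul_of_nonneg_left hx2 hlam
    have h8 : B ^ 2 * (δ / (2 * Real.pi) + τ + (((h0 + x : ℕ) : ℝ) / ((n : ℝ) + 1) +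
        lam * ((h0 + x : ℕ) : ℝ))) ≤ B ^ 2 * (δ / (2 * Real.pi) + τ +
        (((h0 + L : ℕ) : ℝ) / ((n : ℝ) + 1) + lam * ((h0 + L : ℕ) : ℝ))) := by
      refine mul_le_mul_of_nonneg_left ?_ (by positivity)
      linarith
    linarith
  refine (Finset.sum_le_sum h5).trans ?_
  rw [Finset.sum_add_distrib, Finset.sum_const, Finset.card_range, nsmul_eq_mul]
  linarith

open scoped Classical in
/-- The inequality which gives the contradiction. -/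
theorem key {a v : ℕ → ℝ} {U : ℝ → ℝ} {n : ℕ} {lam τ δ α β : ℝ} {d : ℕ} {s : ℝ} {p : ℂ[X]}
    (S : Setup a v U n lam τ δ α β d s p) {h0 Y 𝓓 L : ℕ} (hY : Y = 2 ^ (h0 + 1))
    (h𝓓 : 𝓓 = Nat.factorial Y) (hL : L = Y + 𝓓) (hn : h0 + L + Y ≤ n) {B γ c0 : ℝ}
    (hB : ∀ ℓ ≤ h0 + L, ∑ j ∈ range (ℓ + 1), ‖pc p d ℓ j‖ ≤ B)
    (hγ : ∑ x ∈ range L, s ^ ((h0 + x) / d) ≤ γ) (hc0 : 0 < c0) (hT : c0 ≤ T a v n 0)
    (hτc : τ ≤ c0 / 4) :
    c0 ^ 3 / 16 ≤ 2 * τ + (1 / ((n : ℝ) + 1)) * (𝓓 + 2 * Y + 2 * (h0 + L : ℕ)) +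
      4 * (γ + L * (B ^ 2 * (δ / (2 * Real.pi) + τ + ((h0 + L : ℕ) / ((n : ℝ) + 1) +
        lam * (h0 + L : ℕ))))) + 4 * Y * lam := by
  have hN : (0 : ℝ) < (n : ℝ) + 1 := by positivity
  have hY0 : 0 < Y := by rw [hY]; positivity
  have h𝓓0 : 1 ≤ 𝓓 := by rw [h𝓓]; exact Nat.factorial_pos _
  have h𝓓n : 𝓓 ≤ n := by omega
  have hc1 := abs_le.1 (corr_re S.hU (S.hc 0 (Nat.zero_le n)))
  have hc2 := abs_le.1 (corr_re S.hU (S.hc 𝓓 h𝓓n))
  have hm0 : mean (fun t => U t * Real.cos (((0 : ℕ) : ℝ) * t)) = mean U := by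
    simp
  rw [hm0] at hc1
  have hlow := lower_mean S.hU S.hU0 S.hU1 h𝓓0 hc0 (by linarith [hc1.1, hc1.2])
  have hsplit : mean (fun t => U t * (1 - Real.cos ((𝓓 : ℝ) * t))) =
      mean U - mean (fun t => U t * Real.cos ((𝓓 : ℝ) * t)) := by
    rw [← mean_sub]
    · congr 1
      funext t
      ring
    · exact S.hU.intervalIntegrable _ _
    · have := S.hU
      refine Continuous.intervalIntegrable ?_ _ _
      fun_prop
  rw [hsplit] at hlow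
  set K : ℕ := n + 1 - (h0 + L) - Y with hK
  have hKY : K + Y = n + 1 - (h0 + L) := by omega
  have hd := diff_T (Y := Y) (K := K) (Z := h0 + L) S.ha S.hv0 S.hv1 h𝓓n (by omega)
  have hcw := count_w S.hv0 S.hlam S.hv (E := Df a 𝓓) (F := Bd (pc p d) a h0 L) hY0 (by
      intro k hk
      have h1 := window (c := pc p d) S.ha (fun ℓ => (pow_pred (A := ∅) S.hp S.hp0 S.hs0
        (fun t ht => absurd ht (Set.notMem_empty t)) ℓ).2.1) (h0 := h0) (k0 := k) (by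
          rw [← hY, ← h𝓓]
          exact hk)
      rw [← hY, ← h𝓓, ← hL] at h1
      refine h1.trans (Nat.mul_le_mul_left 2 (Finset.card_le_card fun i hi => ?_))
      have hi' := Finset.mem_filter.1 hi
      exact Finset.mem_filter.2 ⟨hi'.1, hi'.2⟩) K
  rw [hKY] at hcw
  have hb := bad_all S (by omega) hB hγ
  set X1 := ∑ k ∈ (range K).filter (fun k => a (k + Y) ≠ a (k + Y + 𝓓)), v (k + Y) with hX1
  set X2 := ∑ k ∈ (range (n + 1 - (h0 + L))).filter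
      (Bd (pc p d) a h0 L), v k with hX2
  set RHS := γ + L * (B ^ 2 * (δ / (2 * Real.pi) + τ + ((h0 + L : ℕ) / ((n : ℝ) + 1) +
        lam * (h0 + L : ℕ)))) with hRHS
  have hKN : (K : ℝ) ≤ (n : ℝ) + 1 := by
    have : K ≤ n + 1 := by omega
    exact_mod_cast this
  have hcw' : X1 ≤ 2 * X2 + 2 * K * Y * lam := by
    refine le_trans (le_of_eq ?_) hcw
    refine Finset.sum_congr (Finset.ext fun k => ?_) fun _ _ => rfl
    constructor
    · intro hk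
      have hk' := Finset.mem_filter.1 hk
      exact Finset.mem_filter.2 ⟨hk'.1, hk'.2⟩
    · intro hk
      have hk' := Finset.mem_filter.1 hk
      exact Finset.mem_filter.2 ⟨hk'.1, hk'.2⟩
  have h2 : (1 / ((n : ℝ) + 1)) * (2 * X1) ≤ 4 * RHS + 4 * Y * lam := by
    have h3 : (1 / ((n : ℝ) + 1)) * (2 * X1) ≤
        (1 / ((n : ℝ) + 1)) * (2 * (2 * X2 + 2 * K * Y * lam)) :=
      mul_le_mul_of_nonneg_left (by linarith) (by positivity)
    have h4 : (1 / ((n : ℝ) + 1)) * (2 * (2 * X2 + 2 * K * Y * lam)) =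
        4 * ((1 / ((n : ℝ) + 1)) * X2) + 4 * Y * lam * (K / ((n : ℝ) + 1)) := by
      field_simp
      ring
    have h5 : 4 * Y * lam * (K / ((n : ℝ) + 1)) ≤ 4 * Y * lam * 1 := by
      refine mul_le_mul_of_nonneg_left ?_ ?_
      · rw [div_le_one hN]
        exact hKN
      · have := S.hlam
        positivity
    linarith
  have h6 : (1 / ((n : ℝ) + 1)) * (𝓓 + 2 * Y + 2 * (h0 + L : ℕ) + 2 * X1) =
      (1 / ((n : ℝ) + 1)) * (𝓓 + 2 * Y + 2 * (h0 + L : ℕ)) + (1 / ((n : ℝ) + 1)) * (2 * X1) := by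
    ring
  rw [h6] at hd
  linarith [hc1.1, hc1.2, hc2.1, hc2.2]

end Pool.Agent.Lib.MP_19d64f_an
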