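import Pool.Agent.Lib.MP_19d64f_an.Defs

/-!
# The Fejér weight, I (W1)
-/

set_option autoImplicit false

namespace Pool.Agent.Lib.MP_19d64f_an

open Finset MeasureTheory

theorem w_nonneg (R : ℕ) (κ y : ℝ) : 0 ≤ w R κ y := by
  unfold w
  positivity

private theorem W1_norm (l : ℕ) (u : ℝ) :
    ‖Complex.exp ((l : ℂ) * (u : ℂ) * Complex.I)‖ = 1 := by
  have h : (l : ℂ) * (u : ℂ) = (((l : ℝ) * u : ℝ) : ℂ) := by push_cast; ring
  rw [h]
  exact Complex.norm_exp_ofReal_mul_I _

/-- PROOF. The sum has norm at most `R`. -/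
theorem w_le_one (R : ℕ) (κ y : ℝ) : w R κ y ≤ 1 := by
  unfold w
  refine pow_le_one₀ (norm_nonneg _) ?_
  rw [norm_mul]
  have h1 : ‖∑ l ∈ range R, Complex.exp ((l : ℂ) * ((y - κ : ℝ) : ℂ) * Complex.I)‖ ≤ (R : ℝ) := by
    refine (norm_sum_le _ _).trans ?_
    have h2 : ∀ l ∈ range R, ‖Complex.exp ((l : ℂ) * ((y - κ : ℝ) : ℂ) * Complex.I)‖ = 1 :=
      fun l _ => W1_norm l _
    rw [Finset.sum_congr rfl h2]
    simp
  have h3 : ‖(1 / (R : ℂ))‖ = 1 / (R : ℝ) := by
    rw [norm_div, norm_one, Complex.norm_natCast]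
  rw [h3]
  rcases Nat.eq_zero_or_pos R with hR | hR
  · subst hR
    simp
  · have hR' : (0 : ℝ) < R := Nat.cast_pos.2 hR
    calc 1 / (R : ℝ) * ‖∑ l ∈ range R, Complex.exp ((l : ℂ) * ((y - κ : ℝ) : ℂ) * Complex.I)‖
        ≤ 1 / (R : ℝ) * R := mul_le_mul_of_nonneg_left h1 (by positivity)
      _ = 1 := by field_simp

theorem continuous_w (R : ℕ) (κ : ℝ) : Continuous (w R κ) := by
  unfold w
  refine Continuous.pow (Continuous.norm ?_) 2
  refine continuous_const.mul (continuous_finsetSum _ fun l _ => ?_)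
  refine Complex.continuous_exp.comp ?_
  refine Continuous.mul (continuous_const.mul ?_) continuous_const
  exact Complex.continuous_ofReal.comp (continuous_id.sub continuous_const)

/-- PROOF. `‖z‖^2 = z * conj z`, expand (`Complex.mul_conj`, `Finset.sum_mul_sum`). -/
theorem w_expand (R : ℕ) (κ y : ℝ) :
    ((w R κ y : ℝ) : ℂ) = (1 / (R : ℂ) ^ 2) * ∑ l ∈ range R, ∑ l' ∈ range R,
      Complex.exp (((l : ℂ) - (l' : ℂ)) * ((y - κ : ℝ) : ℂ) * Complex.I) := by
  unfold w
  set u : ℝ := y - κ with hu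
  have hconj : (starRingEnd ℂ) ((1 / (R : ℂ)) * ∑ l ∈ range R,
      Complex.exp ((l : ℂ) * (u : ℂ) * Complex.I)) =
      (1 / (R : ℂ)) * ∑ l ∈ range R, Complex.exp (-((l : ℂ) * (u : ℂ) * Complex.I)) := by
    rw [map_mul, map_sum, map_div₀, map_one, Complex.conj_natCast]
    refine congrArg _ (Finset.sum_congr rfl fun l _ => ?_)
    rw [← Complex.exp_conj]
    refine congrArg _ ?_
    rw [map_mul, map_mul, Complex.conj_natCast, Complex.conj_ofReal, Complex.conj_I]
    ring
  rw [Complex.ofReal_pow, ← Complex.mul_conj', hconj]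
  have h2 : ∀ a b : ℂ, (1 / (R : ℂ)) * a * ((1 / (R : ℂ)) * b) = (1 / (R : ℂ) ^ 2) * (a * b) := by
    intro a b
    rw [one_div, one_div, ← inv_pow]
    ring
  rw [h2, Finset.sum_mul_sum]
  refine congrArg _ (Finset.sum_congr rfl fun l _ => Finset.sum_congr rfl fun l' _ => ?_)
  rw [← Complex.exp_add]
  refine congrArg _ ?_
  ring

/-- PROOF. With `w_expand`: the sum over `j < R` of `exp (-(l - l') (2 π j / R) I)` is `R` if
`l = l'` and `0` otherwise (geometric sum with ratio a nontrivial `R`-th root of unity), so the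
total is `(1/R^2) * R * R = 1`. -/
theorem w_sum_one {R : ℕ} (hR : 0 < R) (y : ℝ) :
    ∑ j ∈ range R, w R (2 * Real.pi * j / R) y = 1 := by
  have hRc : (R : ℂ) ≠ 0 := by exact_mod_cast hR.ne'
  have hpi : (Real.pi : ℂ) ≠ 0 := by exact_mod_cast Real.pi_ne_zero
  have key : ∀ l ∈ range R, ∀ l' ∈ range R,
      ∑ j ∈ range R, Complex.exp (((l : ℂ) - (l' : ℂ)) *
        ((y - 2 * Real.pi * j / R : ℝ) : ℂ) * Complex.I) = if l = l' then (R : ℂ) else 0 := by
    intro l hl l' hl'
    rw [Finset.mem_range] at hl hl'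
    split_ifs with hll
    · subst hll
      simp
    · set ζ : ℂ := Complex.exp (-(((l : ℂ) - (l' : ℂ)) * (2 * Real.pi / R) * Complex.I)) with hζ
      have hterm : ∀ j ∈ range R, Complex.exp (((l : ℂ) - (l' : ℂ)) *
          ((y - 2 * Real.pi * j / R : ℝ) : ℂ) * Complex.I) =
          Complex.exp (((l : ℂ) - (l' : ℂ)) * (y : ℂ) * Complex.I) * ζ ^ j := by
        intro j _
        rw [hζ, ← Complex.exp_nat_mul, ← Complex.exp_add]
        refine congrArg _ ?_
        push_cast
        ring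
      rw [Finset.sum_congr rfl hterm, ← Finset.mul_sum]
      have hζ1 : ζ ≠ 1 := by
        intro h1
        rw [hζ, Complex.exp_eq_one_iff] at h1
        obtain ⟨k, hk⟩ := h1
        have h2 : (((l' : ℤ) - (l : ℤ) : ℤ) : ℂ) = ((k * (R : ℤ) : ℤ) : ℂ) := by
          have h3 : -(((l : ℂ) - (l' : ℂ)) * (2 * Real.pi / R) * Complex.I) * (R : ℂ) =
              (k : ℂ) * (2 * Real.pi * Complex.I) * R := by rw [hk]
          have h4 : -(((l : ℂ) - (l' : ℂ)) * (2 * Real.pi / R) * Complex.I) * (R : ℂ) =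
              ((l' : ℂ) - (l : ℂ)) * (2 * Real.pi * Complex.I) := by
            field_simp
            ring
          rw [h4] at h3
          have h5 : (2 * (Real.pi : ℂ) * Complex.I) ≠ 0 :=
            mul_ne_zero (mul_ne_zero two_ne_zero hpi) Complex.I_ne_zero
          have h6 : ((l' : ℂ) - (l : ℂ)) = (k : ℂ) * R := by
            apply mul_right_cancel₀ h5
            rw [h3]
            ring
          push_cast
          exact h6
        have h7 : (l' : ℤ) - (l : ℤ) = k * (R : ℤ) := by exact_mod_cast h2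
        have hk0 : k = 0 := by
          by_contra hk0
          rcases lt_or_gt_of_ne hk0 with hk1 | hk1
          · have : k * (R : ℤ) ≤ (-1) * R :=
              mul_le_mul_of_nonneg_right (by omega) (by omega)
            omega
          · have : 1 * (R : ℤ) ≤ k * R :=
              mul_le_mul_of_nonneg_right (by omega) (by omega)
            omega
        rw [hk0, zero_mul] at h7
        omega
      have hζR : ζ ^ R = 1 := by
        rw [hζ, ← Complex.exp_nat_mul, Complex.exp_eq_one_iff]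
        refine ⟨(l' : ℤ) - (l : ℤ), ?_⟩
        push_cast
        field_simp
        ring
      rw [geom_sum_eq hζ1, hζR, sub_self, zero_div, mul_zero]
  have hc : ((∑ j ∈ range R, w R (2 * Real.pi * j / R) y : ℝ) : ℂ) = 1 := by
    rw [Complex.ofReal_sum]
    have h0 : ∀ j ∈ range R, ((w R (2 * Real.pi * (j : ℝ) / R) y : ℝ) : ℂ) =
        (1 / (R : ℂ) ^ 2) * ∑ l ∈ range R, ∑ l' ∈ range R,
        Complex.exp (((l : ℂ) - (l' : ℂ)) * ((y - 2 * Real.pi * (j : ℝ) / R : ℝ) : ℂ) *
          Complex.I) := fun j _ => w_expand R (2 * Real.pi * (j : ℝ) / R) y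
    rw [Finset.sum_congr rfl h0]
    rw [← Finset.mul_sum]
    rw [Finset.sum_comm]
    rw [Finset.sum_congr rfl fun l hl => Finset.sum_comm]
    rw [Finset.sum_congr rfl fun l hl => Finset.sum_congr rfl fun l' hl' => key l hl l' hl']
    have h1 : ∀ l ∈ range R, ∑ l' ∈ range R, (if l = l' then (R : ℂ) else 0) = R := by
      intro l hl
      rw [Finset.sum_ite_eq]
      rw [if_pos hl]
    rw [Finset.sum_congr rfl h1, Finset.sum_const, Finset.card_range, nsmul_eq_mul]
    field_simp
  exact_mod_cast hc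

end Pool.Agent.Lib.MP_19d64f_an
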