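import Pool.Agent.Lib.MP_19d64f_an.Pol

/-!
# Growth of a polynomial off the unit circle (Z1)
-/

set_option autoImplicit false

namespace Pool.Agent.Lib.MP_19d64f_an

open Finset MeasureTheory Polynomial

/-- PROOF. Maximum modulus on the unit ball:
`Complex.norm_le_of_forall_mem_frontier_norm_le (U := Metric.ball 0 1)` (the polynomial is
differentiable, so `DiffContOnCl`: `Differentiable.diffContOnCl`; `frontier_ball`), for `‖z‖ ≤ 1`
the point is in `closure (ball 0 1)` (`closure_ball`). -/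
theorem growth_in (p : ℂ[X]) (μ : ℝ) (hμ : ∀ z : ℂ, ‖z‖ = 1 → ‖p.eval z‖ ≤ μ) (z : ℂ)
    (hz : ‖z‖ ≤ 1) : ‖p.eval z‖ ≤ μ := by
  have h1 : Bornology.IsBounded (Metric.ball (0 : ℂ) 1) := Metric.isBounded_ball
  have h2 : DiffContOnCl ℂ (fun z : ℂ => p.eval z) (Metric.ball (0 : ℂ) 1) :=
    (Polynomial.differentiable p).diffContOnCl
  refine Complex.norm_le_of_forall_mem_frontier_norm_le h1 h2 ?_ ?_
  · intro w hw
    rw [frontier_ball (0 : ℂ) one_ne_zero] at hw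
    exact hμ w (by simpa using hw)
  · rw [closure_ball (0 : ℂ) one_ne_zero]
    simpa using hz

/-- PROOF. If `‖z‖ ≤ 1`: `growth_in` and `1 ≤ max 1 _`, `0 ≤ μ` (`μ` bounds a norm).
If `1 < ‖z‖`: let `q = Polynomial.reflect m p`. `Polynomial.eval₂_reflect_mul_pow` (with
`i = RingHom.id ℂ`, `invertibleOfNonzero`) gives `q.eval z⁻¹ * z ^ m = p.eval z` for every `z ≠ 0`
(here `m ≥ natDegree p`). On the circle `‖q.eval w‖ = ‖p.eval w⁻¹‖ ≤ μ`, so
`‖q.eval z⁻¹‖ ≤ μ` by `growth_in`, and `‖p.eval z‖ = ‖q.eval z⁻¹‖ * ‖z‖ ^ m ≤ μ * ‖z‖ ^ m`. -/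
theorem growth (p : ℂ[X]) (m : ℕ) (hm : p.natDegree ≤ m) (μ : ℝ)
    (hμ : ∀ z : ℂ, ‖z‖ = 1 → ‖p.eval z‖ ≤ μ) (z : ℂ) :
    ‖p.eval z‖ ≤ μ * max 1 (‖z‖ ^ m) := by
  have hμ0 : 0 ≤ μ := le_trans (norm_nonneg _) (hμ 1 (by simp))
  by_cases hz : ‖z‖ ≤ 1
  · calc ‖p.eval z‖ ≤ μ := growth_in p μ hμ z hz
      _ = μ * 1 := (mul_one μ).symm
      _ ≤ μ * max 1 (‖z‖ ^ m) := mul_le_mul_of_nonneg_left (le_max_left _ _) hμ0
  · have hz1 : 1 < ‖z‖ := not_le.mp hz
    have key : ∀ w : ℂ, w ≠ 0 → (Polynomial.reflect m p).eval w⁻¹ * w ^ m = p.eval w := by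
      intro w hw
      let _inst : Invertible w := invertibleOfNonzero hw
      have h := Polynomial.eval₂_reflect_mul_pow (RingHom.id ℂ) w m p hm
      rw [invOf_eq_inv] at h
      simpa [Polynomial.eval₂_id] using h
    have hq : ∀ w : ℂ, ‖w‖ = 1 → ‖(Polynomial.reflect m p).eval w‖ ≤ μ := by
      intro w hw
      have hw0 : w ≠ 0 := by
        intro h0
        rw [h0, norm_zero] at hw
        exact zero_ne_one hw
      have hk := key w⁻¹ (inv_ne_zero hw0)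
      rw [inv_inv] at hk
      have h2 := hμ w⁻¹ (by rw [norm_inv, hw, inv_one])
      rw [← hk, norm_mul, norm_pow, norm_inv, hw, inv_one, one_pow, mul_one] at h2
      exact h2
    have hz0 : z ≠ 0 := by
      intro h0
      rw [h0, norm_zero] at hz1
      linarith
    have h3 := growth_in (Polynomial.reflect m p) μ hq z⁻¹
      (by rw [norm_inv]; exact inv_le_one_of_one_le₀ hz1.le)
    rw [← key z hz0, norm_mul, norm_pow]
    calc ‖(Polynomial.reflect m p).eval z⁻¹‖ * ‖z‖ ^ m ≤ μ * ‖z‖ ^ m :=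
          mul_le_mul_of_nonneg_right h3 (by positivity)
      _ ≤ μ * max 1 (‖z‖ ^ m) := mul_le_mul_of_nonneg_left (le_max_right _ _) hμ0

end Pool.Agent.Lib.MP_19d64f_an
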