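import Pool.Agent.Lib.MP_19d64f_an.Z1

/-!
# The roots of a flat polynomial are far from the unit circle (Z2)
-/

set_option autoImplicit false
set_option linter.unusedSectionVars false

namespace Pool.Agent.Lib.MP_19d64f_an

open Finset MeasureTheory Polynomial

/-- PROOF. Let `p = pol a n`, `q = pol (rev a n) n`, `N = n + 1` and
`H = p * q - C (N : ℂ) * X ^ n`, of `natDegree ≤ 2 * n`. On the circle, `z = e^{it}` (`exists_arg`),
`p(z) = P a n t` (`eval_pol_exp`), `q(z) = e^{int} conj (P a n t)` (`eval_pol_exp`, `P_rev`),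
`z ^ n = e^{int}` (`exp_nat`), hence `H(z) = e^{int} (‖P a n t‖^2 - N)` and
`‖H(z)‖ = |‖P a n t‖^2 - N| ≤ 3 ε N` because
`(1 - ε) √N ≤ ‖P a n t‖ ≤ (1 + ε) √N` (`norm_lower`, `norm_upper`), `0 ≤ ε ≤ 1`.
`growth` with `m = 2 * n`, `μ = 3 ε N` at the root `ζ` (`H(ζ) = - N ζ^n`):
`N ‖ζ‖^n ≤ 3 ε N max 1 (‖ζ‖^(2n))`. If `‖ζ‖ ≤ 1` this is the first alternative,
if `1 ≤ ‖ζ‖` divide by `‖ζ‖^n` to get the second. -/
theorem roots_far {a : ℕ → ℝ} {n : ℕ} {ε : ℝ} (h : Flat a n ε) (hε0 : 0 ≤ ε) (hε : ε ≤ 1)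
    (ζ : ℂ) (hζ : (pol a n).eval ζ = 0) :
    ‖ζ‖ ^ n ≤ 3 * ε ∨ 1 ≤ 3 * ε * ‖ζ‖ ^ n := by
  have hN : (0 : ℝ) < (n : ℝ) + 1 := by positivity
  set H : ℂ[X] := pol a n * pol (rev a n) n - C (((n : ℝ) + 1 : ℝ) : ℂ) * X ^ n with hH
  have hdeg : H.natDegree ≤ 2 * n := by
    rw [hH]
    refine (natDegree_sub_le _ _).trans (max_le ?_ ?_)
    · refine natDegree_mul_le.trans ?_
      have h1 := natDegree_pol_le a n
      have h2 := natDegree_pol_le (rev a n) n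
      omega
    · refine (natDegree_C_mul_X_pow_le _ _).trans (by omega)
  have hbd : ∀ z : ℂ, ‖z‖ = 1 → ‖H.eval z‖ ≤ 3 * ε * ((n : ℝ) + 1) := by
    intro z hz
    obtain ⟨t, rfl⟩ := exists_arg hz
    have e1 : H.eval (Complex.exp ((t : ℂ) * Complex.I)) =
        Complex.exp ((n : ℂ) * (t : ℂ) * Complex.I) *
          (((‖P a n t‖ ^ 2 - ((n : ℝ) + 1) : ℝ)) : ℂ) := by
      rw [hH, eval_sub, eval_mul, eval_mul, eval_C, eval_pow, eval_X, eval_pol_exp, eval_pol_exp,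
        P_rev, ← exp_nat]
      have h3 : P a n t * (starRingEnd ℂ) (P a n t) = ((‖P a n t‖ ^ 2 : ℝ) : ℂ) := by
        rw [Complex.mul_conj, Complex.normSq_eq_norm_sq]
      rw [Complex.ofReal_sub, ← h3]
      ring
    have e2 : ‖Complex.exp ((n : ℂ) * (t : ℂ) * Complex.I)‖ = 1 := by
      have := Complex.norm_exp_ofReal_mul_I ((n : ℝ) * t)
      push_cast at this
      exact this
    rw [e1, norm_mul, e2, one_mul, Complex.norm_real, Real.norm_eq_abs]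
    have hs0 : 0 ≤ Real.sqrt ((n : ℝ) + 1) := Real.sqrt_nonneg _
    have hs2 : Real.sqrt ((n : ℝ) + 1) ^ 2 = (n : ℝ) + 1 := Real.sq_sqrt hN.le
    have hf := abs_le.1 (h t)
    have hp0 : 0 ≤ ‖P a n t‖ := norm_nonneg _
    have e3 : ‖P a n t‖ ^ 2 - ((n : ℝ) + 1) = (‖P a n t‖ - Real.sqrt ((n : ℝ) + 1)) *
        (‖P a n t‖ + Real.sqrt ((n : ℝ) + 1)) := by
      rw [← hs2]
      ring_nf
      rw [Real.sqrt_sq (by positivity)]
    rw [e3, abs_mul]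
    have h4 : |‖P a n t‖ + Real.sqrt ((n : ℝ) + 1)| ≤ 3 * Real.sqrt ((n : ℝ) + 1) := by
      rw [abs_of_nonneg (by positivity)]
      nlinarith [hf.2]
    calc |‖P a n t‖ - Real.sqrt ((n : ℝ) + 1)| * |‖P a n t‖ + Real.sqrt ((n : ℝ) + 1)|
        ≤ (ε * Real.sqrt ((n : ℝ) + 1)) * (3 * Real.sqrt ((n : ℝ) + 1)) :=
          mul_le_mul (h t) h4 (abs_nonneg _) (by positivity)
      _ = 3 * ε * (Real.sqrt ((n : ℝ) + 1) ^ 2) := by ring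
      _ = 3 * ε * ((n : ℝ) + 1) := by rw [hs2]
  have hg := growth H (2 * n) hdeg (3 * ε * ((n : ℝ) + 1)) hbd ζ
  have e5 : ‖H.eval ζ‖ = ((n : ℝ) + 1) * ‖ζ‖ ^ n := by
    rw [hH, eval_sub, eval_mul, eval_mul, eval_C, eval_pow, eval_X, hζ, zero_mul, zero_sub,
      norm_neg, norm_mul, norm_pow, Complex.norm_real, Real.norm_eq_abs, abs_of_pos hN]
  rw [e5] at hg
  have hg2 : ‖ζ‖ ^ n ≤ 3 * ε * max 1 (‖ζ‖ ^ (2 * n)) := by
    have h6 : ((n : ℝ) + 1) * ‖ζ‖ ^ n ≤ ((n : ℝ) + 1) * (3 * ε * max 1 (‖ζ‖ ^ (2 * n))) := by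
      linarith
    exact le_of_mul_le_mul_left h6 hN
  rcases le_total ‖ζ‖ 1 with h7 | h7
  · left
    have h8 : ‖ζ‖ ^ (2 * n) ≤ 1 := pow_le_one₀ (norm_nonneg _) h7
    rw [max_eq_left h8, mul_one] at hg2
    exact hg2
  · right
    have h8 : 1 ≤ ‖ζ‖ ^ (2 * n) := one_le_pow₀ h7
    rw [max_eq_right h8] at hg2
    have h9 : 0 < ‖ζ‖ ^ n := by positivity
    have h10 : ‖ζ‖ ^ (2 * n) = ‖ζ‖ ^ n * ‖ζ‖ ^ n := by
      rw [two_mul, pow_add]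
    rw [h10] at hg2
    have h11 : ‖ζ‖ ^ n * 1 ≤ ‖ζ‖ ^ n * (3 * ε * ‖ζ‖ ^ n) := by
      linarith
    exact le_of_mul_le_mul_left h11 h9

end Pool.Agent.Lib.MP_19d64f_an
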